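import Pool.Agent.K3h14.NC.DegP

/-!
The boundary arcs, and the distance of the trace to them off the critical point.
-/

set_option maxHeartbeats 1000000

namespace K3h14.NC

open H974 H973 H12S H934E Finset TH291.NW TopologicalSpace

/-- The counterclockwise arc from `a = t + i H` to `b = 0`. -/
def wArc (R : Rect) : Set ℂ :=
  {z | (z.im = R.H ∧ -R.A ≤ z.re ∧ z.re ≤ R.t) ∨ (z.re = -R.A ∧ 0 ≤ z.im ∧ z.im ≤ R.H) ∨
    (z.im = 0 ∧ -R.A ≤ z.re ∧ z.re ≤ 0)}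

/-- The complementary arc. -/
def dArc (R : Rect) : Set ℂ :=
  {z | (z.im = R.H ∧ R.t ≤ z.re ∧ z.re ≤ R.B) ∨ (z.re = R.B ∧ 0 ≤ z.im ∧ z.im ≤ R.H) ∨
    (z.im = 0 ∧ 0 ≤ z.re ∧ z.re ≤ R.B)}

theorem bdd_of {R : Rect} {S : Set ℂ} (h : ∀ z ∈ S, (-R.A ≤ z.re ∧ z.re ≤ R.B) ∧
    (0 ≤ z.im ∧ z.im ≤ R.H)) : Bornology.IsBounded S := by
  refine (Metric.isBounded_closedBall (x := (0:ℂ)) (r := R.A + R.B + R.H)).subset ?_
  intro z hz
  obtain ⟨⟨h1, h2⟩, h3, h4⟩ := h z hz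
  have hA := R.hA
  have hB := R.hB
  rw [mem_closedBall_zero_iff]
  refine (Complex.norm_le_abs_re_add_abs_im z).trans ?_
  have : |z.re| ≤ R.A + R.B := by rw [abs_le]; constructor <;> linarith
  have : |z.im| ≤ R.H := by rw [abs_le]; constructor <;> linarith
  linarith

theorem closed_seg (a b c : ℝ) : IsClosed {z : ℂ | z.im = a ∧ b ≤ z.re ∧ z.re ≤ c} ∧
    IsClosed {z : ℂ | z.re = a ∧ b ≤ z.im ∧ z.im ≤ c} := by
  have c1 : Continuous fun z : ℂ => z.re := Complex.continuous_re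
  have c2 : Continuous fun z : ℂ => z.im := Complex.continuous_im
  have k : ∀ r : ℝ, Continuous fun _ : ℂ => r := fun r => continuous_const
  exact ⟨(isClosed_eq c2 (k _)).inter ((isClosed_le (k _) c1).inter (isClosed_le c1 (k _))),
    (isClosed_eq c1 (k _)).inter ((isClosed_le (k _) c2).inter (isClosed_le c2 (k _)))⟩

theorem wArc_compact (R : Rect) : IsCompact (wArc R) := by
  apply Metric.isCompact_of_isClosed_isBounded
  · exact (closed_seg _ _ _).1.union ((closed_seg _ _ _).2.union (closed_seg _ _ _).1)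
  · have hA := R.hA
    have hB := R.hB
    have hH := R.hH
    have ht1 := R.ht1
    have ht2 := R.ht2
    apply bdd_of (R := R)
    rintro z (⟨h1, h2, h3⟩ | ⟨h1, h2, h3⟩ | ⟨h1, h2, h3⟩) <;> rw [h1]
    · exact ⟨⟨by linarith, by linarith⟩, by linarith, by linarith⟩
    · exact ⟨⟨by linarith, by linarith⟩, by linarith, by linarith⟩
    · exact ⟨⟨by linarith, by linarith⟩, by linarith, by linarith⟩

theorem dArc_compact (R : Rect) : IsCompact (dArc R) := by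
  apply Metric.isCompact_of_isClosed_isBounded
  · exact (closed_seg _ _ _).1.union ((closed_seg _ _ _).2.union (closed_seg _ _ _).1)
  · have hA := R.hA
    have hB := R.hB
    have hH := R.hH
    have ht1 := R.ht1
    have ht2 := R.ht2
    apply bdd_of (R := R)
    rintro z (⟨h1, h2, h3⟩ | ⟨h1, h2, h3⟩ | ⟨h1, h2, h3⟩) <;> rw [h1]
    · exact ⟨⟨by linarith, by linarith⟩, by linarith, by linarith⟩
    · exact ⟨⟨by linarith, by linarith⟩, by linarith, by linarith⟩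
    · exact ⟨⟨by linarith, by linarith⟩, by linarith, by linarith⟩

/-- The arcs as nonempty compact sets. -/
def wArcK (R : Rect) : NonemptyCompacts ℂ :=
  ⟨⟨wArc R, wArc_compact R⟩, ⟨0, Or.inr (Or.inr ⟨rfl, by simp [R.hA.le], le_rfl⟩)⟩⟩

def dArcK (R : Rect) : NonemptyCompacts ℂ :=
  ⟨⟨dArc R, dArc_compact R⟩, ⟨0, Or.inr (Or.inr ⟨rfl, le_rfl, by simp [R.hB.le]⟩)⟩⟩

variable {R : Rect} {δ : ℝ}

theorem facts (hδ : 0 < δ) : (-R.A < δ * R.x0 δ ∧ δ * R.x0 δ ≤ -R.A + δ) ∧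
    (R.B - δ ≤ δ * R.x1 δ ∧ δ * R.x1 δ < R.B) ∧
    (R.H - δ ≤ δ * (R.y1 δ + 1) ∧ δ * (R.y1 δ + 1) < R.H) ∧
    (R.t - δ < δ * R.tc δ ∧ δ * R.tc δ ≤ R.t) := by
  have d1 : δ * (R.A / δ) = R.A := by field_simp
  have d2 : δ * (R.B / δ) = R.B := by field_simp
  have d3 : δ * (R.H / δ) = R.H := by field_simp
  have d4 : δ * (R.t / δ) = R.t := by field_simp
  have e1 := Int.lt_floor_add_one (-(R.A / δ))
  have e1' := Int.floor_le (-(R.A / δ))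
  have e2 := Int.ceil_lt_add_one (R.B / δ)
  have e2' := Int.le_ceil (R.B / δ)
  have e3 := Int.ceil_lt_add_one (R.H / δ)
  have e3' := Int.le_ceil (R.H / δ)
  have e4 := Int.lt_floor_add_one (R.t / δ)
  have e4' := Int.floor_le (R.t / δ)
  unfold Rect.x0 Rect.x1 Rect.y1 Rect.tc
  push_cast
  refine ⟨⟨?_, ?_⟩, ⟨?_, ?_⟩, ⟨?_, ?_⟩, ?_, ?_⟩ <;> nlinarith

/-- Rounding in an interval. -/
theorem round_in (hδ : 0 < δ) {l u : ℤ} (hlu : l ≤ u) {s : ℝ} (h1 : δ * l ≤ s + δ)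
    (h2 : s - δ ≤ δ * u) : ∃ x : ℤ, (l ≤ x ∧ x ≤ u) ∧ |s - δ * x| ≤ 2 * δ := by
  have f1 : δ * (⌊s / δ⌋ : ℝ) ≤ s := by
    have := Int.floor_le (s / δ)
    rw [le_div_iff₀ hδ] at this
    linarith
  have f2 : s < δ * ((⌊s / δ⌋ : ℝ) + 1) := by
    have := Int.lt_floor_add_one (s / δ)
    rw [div_lt_iff₀ hδ] at this
    linarith
  rcases lt_or_ge ⌊s / δ⌋ l with h | h
  · refine ⟨l, ⟨le_rfl, hlu⟩, ?_⟩
    have h' : (⌊s / δ⌋ : ℝ) + 1 ≤ l := by exact_mod_cast h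
    rw [abs_le]
    constructor
    · linarith
    · nlinarith
  · rcases le_or_gt ⌊s / δ⌋ u with h' | h'
    · refine ⟨⌊s / δ⌋, ⟨h, h'⟩, ?_⟩
      rw [abs_le]
      constructor
      · linarith
      · linarith
    · refine ⟨u, ⟨hlu, le_rfl⟩, ?_⟩
      have h'' : (u:ℝ) ≤ ⌊s / δ⌋ := by exact_mod_cast h'.le
      rw [abs_le]
      constructor
      · nlinarith
      · linarith

/-- Clamping a real number. -/
theorem clamp {a b v r : ℝ} (hab : a ≤ b) (hr : 0 ≤ r) (h1 : a - r ≤ v) (h2 : v ≤ b + r) :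
    ∃ s : ℝ, (a ≤ s ∧ s ≤ b) ∧ |s - v| ≤ r := by
  rcases le_total v a with h | h
  · exact ⟨a, ⟨le_rfl, hab⟩, by rw [abs_le]; constructor <;> linarith⟩
  · rcases le_total v b with h' | h'
    · exact ⟨v, ⟨h, h'⟩, by rw [sub_self, abs_zero]; exact hr⟩
    · exact ⟨b, ⟨hab, le_rfl⟩, by rw [abs_le]; constructor <;> linarith⟩

/-- The point `z` is near the position of the vertex `v`. -/
def Npt (δ r : ℝ) (z : ℂ) (v : Vtx) : Prop :=
  |z.re - δ * v.1| ≤ r ∧ |z.im - δ * (v.2 + 1)| ≤ r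

theorem mulint (hδ : 0 < δ) {x y : ℤ} (h : x ≤ y) : δ * (x:ℝ) ≤ δ * y :=
  mul_le_mul_of_nonneg_left (by exact_mod_cast h) hδ.le

theorem I0_arc (hδ : 0 < δ) {u : Vtx} (hu : u ∈ I0 R δ) : ∃ z ∈ wArc R, Npt δ (2 * δ) z u := by
  obtain ⟨⟨a1, a2⟩, ⟨b1, b2⟩, ⟨c1, c2⟩, d1, d2⟩ := facts (R := R) hδ
  obtain ⟨x, y⟩ := u
  have hA := R.hA
  have hH := R.hH
  have ht1 := R.ht1
  rcases hu with ⟨g1, g2, g3⟩ | ⟨g1, g2, g3⟩ | ⟨g1, g2, g3⟩ <;> simp only at g1 g2 g3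
  · have q1 := mulint hδ g2
    have q2 := mulint hδ g3
    subst g1
    obtain ⟨s, hs, hs'⟩ := clamp (a := -R.A) (b := R.t) (v := δ * x) (r := 2 * δ) ht1.le
      (by linarith) (by linarith) (by linarith)
    refine ⟨⟨s, R.H⟩, Or.inl ⟨rfl, hs.1, hs.2⟩, hs', ?_⟩
    simp only
    rw [abs_le]; constructor <;> linarith
  · have q1 := mulint hδ g2
    have q2 := mulint hδ g3
    subst g1
    obtain ⟨s, hs, hs'⟩ := clamp (a := 0) (b := R.H) (v := δ * (y + 1)) (r := 2 * δ) hH.le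
      (by linarith) (by push_cast at q1; linarith) (by linarith)
    refine ⟨⟨-R.A, s⟩, Or.inr (Or.inl ⟨rfl, hs.1, hs.2⟩), ?_, hs'⟩
    simp only
    rw [abs_le]; constructor <;> linarith
  · have q1 := mulint hδ g2
    have q2 := mulint hδ g3
    subst g1
    push_cast at q2
    obtain ⟨s, hs, hs'⟩ := clamp (a := -R.A) (b := 0) (v := δ * x) (r := 2 * δ) (by linarith)
      (by linarith) (by linarith) (by linarith)
    refine ⟨⟨s, 0⟩, Or.inr (Or.inr ⟨rfl, hs.1, hs.2⟩), hs', ?_⟩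
    simp only
    rw [abs_le]; push_cast; constructor <;> linarith

theorem outer_arc (hδ : 0 < δ) {u : Vtx} (hu : u ∈ R.outer δ) :
    ∃ z ∈ dArc R, Npt δ (2 * δ) z u := by
  obtain ⟨⟨a1, a2⟩, ⟨b1, b2⟩, ⟨c1, c2⟩, d1, d2⟩ := facts (R := R) hδ
  obtain ⟨x, y⟩ := u
  have hA := R.hA
  have hB := R.hB
  have hH := R.hH
  have ht2 := R.ht2
  rcases hu with ⟨g1, g2, g3⟩ | ⟨g1, g2, g3⟩ | ⟨g1, g2, g3⟩ <;> simp only at g1 g2 g3
  · have q1 := mulint hδ g2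
    have q2 := mulint hδ g3
    subst g1
    push_cast at q1
    obtain ⟨s, hs, hs'⟩ := clamp (a := 0) (b := R.B) (v := δ * x) (r := 2 * δ) (by linarith)
      (by linarith) (by linarith) (by linarith)
    refine ⟨⟨s, 0⟩, Or.inr (Or.inr ⟨rfl, hs.1, hs.2⟩), hs', ?_⟩
    simp only
    rw [abs_le]; push_cast; constructor <;> linarith
  · have q1 := mulint hδ g2
    have q2 := mulint hδ g3
    subst g1
    push_cast at q1
    obtain ⟨s, hs, hs'⟩ := clamp (a := 0) (b := R.H) (v := δ * (y + 1)) (r := 2 * δ) hH.le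
      (by linarith) (by linarith) (by linarith)
    refine ⟨⟨R.B, s⟩, Or.inr (Or.inl ⟨rfl, hs.1, hs.2⟩), ?_, hs'⟩
    simp only
    rw [abs_le]; constructor <;> linarith
  · have q1 := mulint hδ g2
    have q2 := mulint hδ g3
    subst g1
    obtain ⟨s, hs, hs'⟩ := clamp (a := R.t) (b := R.B) (v := δ * x) (r := 2 * δ) ht2.le
      (by linarith) (by linarith) (by linarith)
    refine ⟨⟨s, R.H⟩, Or.inl ⟨rfl, hs.1, hs.2⟩, hs', ?_⟩
    simp only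
    rw [abs_le]; constructor <;> linarith

theorem arc_I0 (hδ : 0 < δ) (hN : Nd R δ) {z : ℂ} (hz : z ∈ wArc R) :
    ∃ u ∈ I0 R δ, Npt δ (2 * δ) z u := by
  obtain ⟨⟨a1, a2⟩, ⟨b1, b2⟩, ⟨c1, c2⟩, d1, d2⟩ := facts (R := R) hδ
  obtain ⟨n1, n2, n3, n4, n5⟩ := hN
  rcases hz with ⟨g1, g2, g3⟩ | ⟨g1, g2, g3⟩ | ⟨g1, g2, g3⟩
  · obtain ⟨x, hx, hx'⟩ := round_in hδ n4 (s := z.re) (by linarith) (by linarith)
    refine ⟨(x, R.y1 δ), Or.inl ⟨rfl, hx.1, hx.2⟩, hx', ?_⟩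
    rw [g1, abs_le]; constructor <;> linarith
  · obtain ⟨y, hy, hy'⟩ := round_in hδ n3 (s := z.im - δ) (by push_cast; linarith) (by linarith)
    refine ⟨(R.x0 δ, y), Or.inr (Or.inl ⟨rfl, hy.1, hy.2⟩), ?_, ?_⟩
    · rw [g1, abs_le]; constructor <;> linarith
    · have : z.im - δ * ((y:ℝ) + 1) = z.im - δ - δ * y := by ring
      simp only
      rw [this]
      exact hy'
  · obtain ⟨x, hx, hx'⟩ := round_in hδ n1 (s := z.re) (by linarith) (by push_cast; linarith)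
    refine ⟨(x, 0), Or.inr (Or.inr ⟨rfl, hx.1, hx.2⟩), hx', ?_⟩
    rw [g1, abs_le]; push_cast; constructor <;> linarith

theorem arc_outer (hδ : 0 < δ) (hN : Nd R δ) {z : ℂ} (hz : z ∈ dArc R) :
    ∃ u ∈ R.outer δ, Npt δ (2 * δ) z u := by
  obtain ⟨⟨a1, a2⟩, ⟨b1, b2⟩, ⟨c1, c2⟩, d1, d2⟩ := facts (R := R) hδ
  obtain ⟨n1, n2, n3, n4, n5⟩ := hN
  rcases hz with ⟨g1, g2, g3⟩ | ⟨g1, g2, g3⟩ | ⟨g1, g2, g3⟩
  · obtain ⟨x, hx, hx'⟩ := round_in hδ n5 (s := z.re) (by linarith) (by linarith)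
    refine ⟨(x, R.y1 δ), Or.inr (Or.inr ⟨rfl, hx.1, hx.2⟩), hx', ?_⟩
    rw [g1, abs_le]; constructor <;> linarith
  · obtain ⟨y, hy, hy'⟩ := round_in hδ n3 (s := z.im - δ) (by push_cast; linarith) (by linarith)
    refine ⟨(R.x1 δ, y), Or.inr (Or.inl ⟨rfl, by simp only; omega, hy.2⟩), ?_, ?_⟩
    · rw [g1, abs_le]; constructor <;> linarith
    · have : z.im - δ * ((y:ℝ) + 1) = z.im - δ - δ * y := by ring
      simp only
      rw [this]
      exact hy'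
  · obtain ⟨x, hx, hx'⟩ := round_in hδ n2 (s := z.re) (by push_cast; linarith) (by linarith)
    refine ⟨(x, -1), Or.inl ⟨rfl, hx.1, hx.2⟩, hx', ?_⟩
    rw [g1, abs_le]; push_cast; constructor <;> linarith

theorem Npt_trans (hδ : 0 < δ) {z z' : ℂ} {v u : Vtx} {r r' : ℝ} {M : ℤ} (h1 : Npt δ r z v)
    (h2 : Nr M v u) (h3 : Npt δ r' z' u) :
    |z.re - z'.re| ≤ r + δ * M + r' ∧ |z.im - z'.im| ≤ r + δ * M + r' := by
  obtain ⟨a1, a2⟩ := h1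
  obtain ⟨b1, b2⟩ := h2
  obtain ⟨c1, c2⟩ := h3
  have key : ∀ x y : ℤ, |x - y| ≤ M → |δ * (x:ℝ) - δ * y| ≤ δ * M := by
    intro x y h
    rw [← mul_sub, abs_mul, abs_of_pos hδ]
    apply mul_le_mul_of_nonneg_left _ hδ.le
    exact_mod_cast h
  have k1 := key _ _ b1
  have k2 := key _ _ b2
  rw [abs_le] at a1 a2 c1 c2 k1 k2 ⊢
  rw [abs_le]
  exact ⟨⟨by linarith, by linarith⟩, by linarith, by linarith⟩

theorem dist_symm_near {z z' : ℂ} {M : ℝ} (h : |z.re - z'.re| ≤ M ∧ |z.im - z'.im| ≤ M) :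
    dist z' z ≤ 2 * M := by
  rw [dist_comm]
  exact dist_of_near h.1 h.2

/-- If the dual cluster stays near its arc, then the trace is near the arc. -/
theorem dist_dArc (hδ : 0 < δ) (hN : Nd R δ) {F : Finset Edg} (hF : F ⊆ R.edges δ) {M n : ℤ}
    (hM0 : 0 ≤ M) (hM : M < n) (h1 : 2 * n ≤ R.y1 δ) (h2 : n ≤ R.x1 δ - R.x0 δ)
    (hD : NearD R δ F M) : dist (R.trace hδ F) (dArcK R) ≤ 2 * (δ * (n + 5)) := by
  have hnr : (0:ℝ) ≤ n := by exact_mod_cast (by omega : 0 ≤ n)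
  have hMn : (M:ℝ) + 1 ≤ n := by exact_mod_cast (by omega : M + 1 ≤ n)
  rw [Metric.NonemptyCompacts.dist_eq]
  apply Metric.hausdorffDist_le_of_mem_dist (by positivity)
  · intro z hz
    obtain ⟨k, hk, hz1, hz2⟩ := path_corner hδ hz
    obtain ⟨g, hg, hg1, hg2⟩ := hD _ hk.2
    obtain ⟨z', hz', hn'⟩ := outer_arc hδ hg
    refine ⟨z', hz', ?_⟩
    have hkg : Nr (M + 1) k.1 g := by
      obtain ⟨c1, c2⟩ := cface_near k.1 k.2
      unfold Nr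
      rw [abs_le] at hg1 hg2 c1 c2 ⊢
      rw [abs_le]
      omega
    have := Npt_trans hδ ⟨hz1, hz2⟩ hkg hn'
    refine (dist_of_near this.1 this.2).trans ?_
    push_cast
    nlinarith
  · intro z' hz'
    obtain ⟨g, hg, hg1⟩ := arc_outer hδ hN hz'
    obtain ⟨k, hk, hk1⟩ := arc_dual hN hF hM (by omega) h1 h2 hD hg
    obtain ⟨z, hz, hz1, hz2⟩ := corner_path hδ hk
    refine ⟨z, hz, ?_⟩
    have := Npt_trans hδ ⟨hz1, hz2⟩ hk1 hg1
    refine (dist_symm_near this).trans ?_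
    push_cast
    nlinarith

/-- If the open cluster stays near its arc, then the trace is near the arc. -/
theorem dist_wArc (hδ : 0 < δ) (hN : Nd R δ) {F : Finset Edg} (hF : F ⊆ R.edges δ) {M n : ℤ}
    (hM0 : 0 ≤ M) (hM : M < n) (h1 : 2 * n ≤ R.y1 δ) (h2 : n ≤ R.x1 δ - R.x0 δ)
    (hD : NearC R δ F M) : dist (R.trace hδ F) (wArcK R) ≤ 2 * (δ * (n + 5)) := by
  have hnr : (0:ℝ) ≤ n := by exact_mod_cast (by omega : 0 ≤ n)
  have hMn : (M:ℝ) + 1 ≤ n := by exact_mod_cast (by omega : M + 1 ≤ n)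
  rw [Metric.NonemptyCompacts.dist_eq]
  apply Metric.hausdorffDist_le_of_mem_dist (by positivity)
  · intro z hz
    obtain ⟨k, hk, hz1, hz2⟩ := path_corner hδ hz
    obtain ⟨g, hg, hg1⟩ := hD _ hk.1
    obtain ⟨z', hz', hn'⟩ := I0_arc hδ hg
    refine ⟨z', hz', ?_⟩
    have := Npt_trans hδ ⟨hz1, hz2⟩ hg1 hn'
    refine (dist_of_near this.1 this.2).trans ?_
    nlinarith
  · intro z' hz'
    obtain ⟨g, hg, hg1⟩ := arc_I0 hδ hN hz'
    obtain ⟨k, hk, hk1⟩ := arc_prim hN hF hM (by omega) h1 h2 hD hg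
    obtain ⟨z, hz, hz1, hz2⟩ := corner_path hδ hk
    refine ⟨z, hz, ?_⟩
    have := Npt_trans hδ ⟨hz1, hz2⟩ hk1 hg1
    refine (dist_symm_near this).trans ?_
    nlinarith

/-- The choice of the scale for the off-critical estimates. -/
theorem off_scale (R : Rect) {ε : ℝ} (hε : 0 < ε) : ∃ (δ0 κ : ℝ) (B : Finset (ℤ × ℤ)),
    0 < δ0 ∧ 0 < κ ∧ ∀ δ : ℝ, 0 < δ → δ ≤ δ0 → Nd R δ ∧ ∃ m : ℤ, 1 ≤ m ∧ κ / δ ≤ m ∧
      2 * (δ * ((4 * m + 1 : ℤ) + 5)) < ε ∧ 2 * (4 * m + 1) ≤ R.y1 δ ∧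
      4 * m + 1 ≤ R.x1 δ - R.x0 δ ∧
      ∀ f : Vtx, (R.x0 δ - 1 ≤ f.1 ∧ f.1 ≤ R.x1 δ + 1) ∧ (-1 ≤ f.2 ∧ f.2 ≤ R.y1 δ + 1) →
        ix m f ∈ B := by
  have hA := R.hA
  have hB := R.hB
  have hH := R.hH
  have ht1 := R.ht1
  obtain ⟨X0, hX0⟩ : ∃ X0, X0 = R.A + R.B + R.H + 1 := ⟨_, rfl⟩
  have hX0p : 1 ≤ X0 := by rw [hX0]; linarith
  obtain ⟨ε', hε'⟩ : ∃ ε', ε' = min ε (min R.H (min R.A R.B)) / 10 := ⟨_, rfl⟩
  have hm0 : 0 < min ε (min R.H (min R.A R.B)) := lt_min hε (lt_min hH (lt_min hA hB))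
  have hε'0 : 0 < ε' := by rw [hε']; positivity
  have i1 : 10 * ε' ≤ ε := by
    rw [hε']; have := min_le_left ε (min R.H (min R.A R.B)); linarith
  have i2 : 10 * ε' ≤ R.H := by
    rw [hε']
    have := (min_le_right ε (min R.H (min R.A R.B))).trans (min_le_left _ _)
    linarith
  have i3 : 10 * ε' ≤ R.A := by
    rw [hε']
    have := (min_le_right ε (min R.H (min R.A R.B))).trans ((min_le_right _ _).trans
      (min_le_left _ _))
    linarith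
  obtain ⟨L, hL⟩ : ∃ L : ℤ, L = ⌈16 * (X0 + 1) / ε'⌉ + 1 := ⟨_, rfl⟩
  refine ⟨min (ε' / 16) (min (R.H / 2) (min (R.A + R.t) 1)), ε' / 16,
    Finset.Icc (-L) L ×ˢ Finset.Icc (-L) L, ?_, by positivity, ?_⟩
  · exact lt_min (by positivity) (lt_min (by positivity) (lt_min (by linarith) one_pos))
  intro δ hδ hδ0
  have hδ1 : δ ≤ ε' / 16 := hδ0.trans (min_le_left _ _)
  have hδ2 : δ ≤ R.H / 2 := hδ0.trans ((min_le_right _ _).trans (min_le_left _ _))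
  have hδ3 : δ ≤ R.A + R.t :=
    hδ0.trans ((min_le_right _ _).trans ((min_le_right _ _).trans (min_le_left _ _)))
  have hδ4 : δ ≤ 1 :=
    hδ0.trans ((min_le_right _ _).trans ((min_le_right _ _).trans (min_le_right _ _)))
  have hN : Nd R δ := nd_of hδ (by linarith) hδ3
  refine ⟨hN, ?_⟩
  obtain ⟨m, hm1, hm2, hm3, hm5, hm4⟩ := scale hδ hε'0 (X := X0) (by linarith) (by linarith)
  obtain ⟨s1, s2, s3, s4, s5, s6⟩ := sizes hδ hδ4 hN
  rw [← hX0] at s1 s2 s3 s4 s5 s6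
  obtain ⟨⟨a1, a2⟩, ⟨b1, b2⟩, ⟨c1, c2⟩, d1, d2⟩ := facts (R := R) hδ
  refine ⟨m, hm1, ?_, ?_, ?_, ?_, ?_⟩
  · rw [div_le_iff₀ hδ]; linarith
  · push_cast
    linarith
  · have : ((2 * (4 * m + 1) : ℤ) : ℝ) ≤ ((R.y1 δ : ℤ) : ℝ) := by
      have : δ * ((2 * (4 * m + 1) : ℤ) : ℝ) ≤ δ * ((R.y1 δ : ℤ) : ℝ) := by
        push_cast
        linarith
      exact le_of_mul_le_mul_left this hδ
    exact_mod_cast this
  · have : ((4 * m + 1 : ℤ) : ℝ) ≤ ((R.x1 δ - R.x0 δ : ℤ) : ℝ) := by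
      have : δ * ((4 * m + 1 : ℤ) : ℝ) ≤ δ * ((R.x1 δ - R.x0 δ : ℤ) : ℝ) := by
        push_cast
        linarith
      exact le_of_mul_le_mul_left this hδ
    exact_mod_cast this
  · rintro ⟨x, y⟩ ⟨⟨g1, g2⟩, g3, g4⟩
    simp only at g1 g2 g3 g4
    rw [Finset.mem_product, hL]
    have q1 := mulint hδ g1
    have q2 := mulint hδ g2
    have q3 := mulint hδ g3
    have q4 := mulint hδ g4
    rw [abs_le] at s1 s2 s4 s5
    exact ⟨hm4 x (by rw [abs_le]; constructor <;> linarith),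
      hm4 y (by rw [abs_le]; constructor <;> linarith)⟩

/-- Above the critical point the trace is near the dual arc. -/
theorem off_dual (R : Rect) {ε : ℝ} (hε : 0 < ε) : ∃ c C δ0 : ℝ, 0 < c ∧ 0 < C ∧ 0 < δ0 ∧
    ∀ (δ : ℝ) (hδ : 0 < δ), δ ≤ δ0 → ∀ p : ℝ, 1/2 ≤ p → p ≤ 1 →
      Pr (fun _ => p) (R.edges δ) (fun F => ε ≤ dist (R.trace hδ F) (dArcK R)) ≤
        C * Real.exp (-(c * (p - 1/2) ^ (4/3 : ℝ) / δ)) := by
  obtain ⟨c, C, hc, hC, hann⟩ := ann_exp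
  obtain ⟨δ0, κ, B, hδ0, hκ, hs⟩ := off_scale R hε
  refine ⟨c * κ, (B.card + 1) * C, δ0, by positivity, by positivity, hδ0, ?_⟩
  intro δ hδ hδ1 p hp hp1
  obtain ⟨hN, m, hm1, hm2, hm3, hm4, hm5, hB⟩ := hs δ hδ hδ1
  have hx : 0 ≤ (p - 1/2) ^ (4/3 : ℝ) := Real.rpow_nonneg (by linarith) _
  have hfar := far_dual hN (by linarith) hp1 hm1 hB (K := C * Real.exp
    (-(c * (m * (p - 1/2)^(4/3 : ℝ))))) (fun S i j => by
      have := hann (1 - p) (by linarith) (by linarith) S m hm1 i j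
      have e : (1:ℝ)/2 - (1 - p) = p - 1/2 := by ring
      rw [e] at this
      exact this)
  have hstep : Pr (fun _ => p) (R.edges δ) (fun F => ε ≤ dist (R.trace hδ F) (dArcK R)) ≤
      Pr (fun _ => p) (R.edges δ) (fun F => ¬ NearD R δ F (4 * m)) := by
    apply Pr_mono (okq (by linarith) hp1)
    intro F hF h hD
    have := dist_dArc hδ hN hF (M := 4 * m) (n := 4 * m + 1) (by omega) (by omega) hm4 hm5 hD
    linarith
  refine hstep.trans (hfar.trans ?_)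
  have e1 : Real.exp (-(c * (m * (p - 1/2)^(4/3 : ℝ)))) ≤
      Real.exp (-(c * κ * (p - 1/2) ^ (4/3 : ℝ) / δ)) := by
    apply Real.exp_le_exp.mpr
    have : κ / δ * (c * (p - 1/2) ^ (4/3 : ℝ)) ≤ m * (c * (p - 1/2) ^ (4/3 : ℝ)) :=
      mul_le_mul_of_nonneg_right hm2 (by positivity)
    have e : c * κ * (p - 1/2) ^ (4/3 : ℝ) / δ = κ / δ * (c * (p - 1/2) ^ (4/3 : ℝ)) := by
      field_simp
    rw [e]
    linarith
  have e2 : 0 < Real.exp (-(c * κ * (p - 1/2) ^ (4/3 : ℝ) / δ)) := Real.exp_pos _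
  calc (B.card : ℝ) * (C * Real.exp (-(c * (m * (p - 1/2)^(4/3 : ℝ)))))
      ≤ B.card * (C * Real.exp (-(c * κ * (p - 1/2) ^ (4/3 : ℝ) / δ))) :=
        mul_le_mul_of_nonneg_left (mul_le_mul_of_nonneg_left e1 hC.le) (Nat.cast_nonneg _)
    _ ≤ (B.card + 1) * (C * Real.exp (-(c * κ * (p - 1/2) ^ (4/3 : ℝ) / δ))) :=
        mul_le_mul_of_nonneg_right (by linarith) (by positivity)
    _ = _ := by ring

/-- Below the critical point the trace is near the wired arc. -/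
theorem off_prim (R : Rect) {ε : ℝ} (hε : 0 < ε) : ∃ c C δ0 : ℝ, 0 < c ∧ 0 < C ∧ 0 < δ0 ∧
    ∀ (δ : ℝ) (hδ : 0 < δ), δ ≤ δ0 → ∀ p : ℝ, 0 ≤ p → p ≤ 1/2 →
      Pr (fun _ => p) (R.edges δ) (fun F => ε ≤ dist (R.trace hδ F) (wArcK R)) ≤
        C * Real.exp (-(c * (1/2 - p) ^ (4/3 : ℝ) / δ)) := by
  obtain ⟨c, C, hc, hC, hann⟩ := ann_exp
  obtain ⟨δ0, κ, B, hδ0, hκ, hs⟩ := off_scale R hε
  refine ⟨c * κ, (B.card + 1) * C, δ0, by positivity, by positivity, hδ0, ?_⟩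
  intro δ hδ hδ1 p hp hp1
  obtain ⟨hN, m, hm1, hm2, hm3, hm4, hm5, hB⟩ := hs δ hδ hδ1
  have hx : 0 ≤ (1/2 - p) ^ (4/3 : ℝ) := Real.rpow_nonneg (by linarith) _
  have hfar := far_prim hN hp (by linarith) hm1 hB (K := C * Real.exp
    (-(c * (m * (1/2 - p)^(4/3 : ℝ))))) (fun S i j => hann p hp hp1 S m hm1 i j)
  have hstep : Pr (fun _ => p) (R.edges δ) (fun F => ε ≤ dist (R.trace hδ F) (wArcK R)) ≤
      Pr (fun _ => p) (R.edges δ) (fun F => ¬ NearC R δ F (4 * m)) := by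
    apply Pr_mono (okq hp (by linarith))
    intro F hF h hD
    have := dist_wArc hδ hN hF (M := 4 * m) (n := 4 * m + 1) (by omega) (by omega) hm4 hm5 hD
    linarith
  refine hstep.trans (hfar.trans ?_)
  have e1 : Real.exp (-(c * (m * (1/2 - p)^(4/3 : ℝ)))) ≤
      Real.exp (-(c * κ * (1/2 - p) ^ (4/3 : ℝ) / δ)) := by
    apply Real.exp_le_exp.mpr
    have : κ / δ * (c * (1/2 - p) ^ (4/3 : ℝ)) ≤ m * (c * (1/2 - p) ^ (4/3 : ℝ)) :=
      mul_le_mul_of_nonneg_right hm2 (by positivity)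
    have e : c * κ * (1/2 - p) ^ (4/3 : ℝ) / δ = κ / δ * (c * (1/2 - p) ^ (4/3 : ℝ)) := by
      field_simp
    rw [e]
    linarith
  have e2 : 0 < Real.exp (-(c * κ * (1/2 - p) ^ (4/3 : ℝ) / δ)) := Real.exp_pos _
  calc (B.card : ℝ) * (C * Real.exp (-(c * (m * (1/2 - p)^(4/3 : ℝ)))))
      ≤ B.card * (C * Real.exp (-(c * κ * (1/2 - p) ^ (4/3 : ℝ) / δ))) :=
        mul_le_mul_of_nonneg_left (mul_le_mul_of_nonneg_left e1 hC.le) (Nat.cast_nonneg _)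
    _ ≤ (B.card + 1) * (C * Real.exp (-(c * κ * (1/2 - p) ^ (4/3 : ℝ) / δ))) :=
        mul_le_mul_of_nonneg_right (by linarith) (by positivity)
    _ = _ := by ring

end K3h14.NC
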