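import Pool.Agent.K3h14.NC.InwS

/-!
The probability that a block is pivotal for the connection between a set on the left and a set on
the right, from below.
-/

set_option maxHeartbeats 2000000

namespace K3h14.NC

open H974 H12S H973N Finset Pool.Agent.W424.NC TH291.NW

/-- No crossing of the columns of the block when the block is removed. -/
theorem no_band_gen {a b c d : ℤ} {p : ℤ × ℤ} {ρ : ℕ} (hρ : 1 ≤ ρ)
    (h3 : c ≤ p.2 - ρ) (h4 : p.2 + ρ ≤ d) {I J : Set Vtx}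
    (hI : ∀ u ∈ I, u.1 ≤ p.1 - ρ) (hJ : ∀ v ∈ J, p.1 + ρ ≤ v.1) {F : Finset Edg}
    (hF : F ⊆ RE a b c d) (hu : ¬ LRc (p.1 - ρ) (p.1 + ρ) (p.2 + ρ) d F)
    (hl : ¬ LRc (p.1 - ρ) (p.1 + ρ) c (p.2 - ρ) F) :
    ¬ Cn I J ((↑F : Set Edg) \ ↑(blk p ρ)) := by
  rintro ⟨u, hu1, v, hv1, huv⟩
  have hρ' : (1:ℤ) ≤ ρ := by exact_mod_cast hρ
  obtain ⟨y1, y2, hy1, hy2, hr, -⟩ := sub_LR (G := (↑F : Set Edg) \ ↑(blk p ρ))
    (a := p.1 - ρ) (b := p.1 + ρ) (c := c) (d := d) (by omega)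
    (fun x y hG _ _ => by
      have h4 := hF (Finset.mem_coe.mp hG.1)
      rw [mem_RE_true] at h4
      omega)
    (fun x y hG _ _ => by
      have h4 := hF (Finset.mem_coe.mp hG.1)
      rw [mem_RE_false] at h4
      omega) huv (hI u hu1) (hJ v hv1)
  obtain ⟨G, hG⟩ : ∃ G : Set Edg, G = ((↑F : Set Edg) \ ↑(blk p ρ)) ∩
    ↑(LRE (p.1 - ρ) (p.1 + ρ) c d) := ⟨_, rfl⟩
  rw [← hG] at hr
  have blkm : ∀ e : Edg, e ∈ G → e ∈ F ∧ e ∉ RE (p.1 - ρ) (p.1 + ρ) (p.2 - ρ) (p.2 + ρ) ∧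
      e ∈ LRE (p.1 - ρ) (p.1 + ρ) c d := by
    intro e he
    rw [hG] at he
    exact ⟨Finset.mem_coe.mp he.1.1, fun h => he.1.2 (Finset.mem_coe.mpr h),
      Finset.mem_coe.mp he.2⟩
  -- heights of the two ends of an edge
  have hts : ∀ e ∈ G, (p.2 + ρ ≤ (src e).2 ∧ p.2 + ρ ≤ (tgt e).2 ∧
      e ∈ LRE (p.1 - ρ) (p.1 + ρ) (p.2 + ρ) d) ∨
      ((src e).2 ≤ p.2 - ρ ∧ (tgt e).2 ≤ p.2 - ρ ∧ e ∈ LRE (p.1 - ρ) (p.1 + ρ) c (p.2 - ρ)) := by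
    rintro ⟨x, y, _ | _⟩ he
    · obtain ⟨-, k1, k2⟩ := blkm _ he
      rw [mem_RE_false] at k1
      rw [mem_LRE_false] at k2
      rw [mem_LRE_false, mem_LRE_false, src_mk, tgt_false]
      simp only
      omega
    · obtain ⟨-, k1, k2⟩ := blkm _ he
      rw [mem_RE_true] at k1
      rw [mem_LRE_true] at k2
      rw [mem_LRE_true, mem_LRE_true, src_mk, tgt_true]
      simp only
      omega
  rcases le_or_gt (p.2 + ρ) y1 with hc1 | hc1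
  · -- above
    have key : ∀ w : Vtx, Reach G (p.1 - ρ, y1) w → p.2 + ρ ≤ w.2 ∧
        Reach (↑F ∩ ↑(LRE (p.1 - ρ) (p.1 + ρ) (p.2 + ρ) d)) (p.1 - ρ, y1) w := by
      intro w hw
      induction hw with
      | refl => exact ⟨hc1, Reach.refl _ _⟩
      | tail _ hs ih =>
        obtain ⟨e, he, hcase⟩ := hs
        rcases hts e he with hh | hh
        · have hst : Adj (↑F ∩ ↑(LRE (p.1 - ρ) (p.1 + ρ) (p.2 + ρ) d)) _ _ :=
            ⟨e, ⟨Finset.mem_coe.mpr (blkm e he).1, Finset.mem_coe.mpr hh.2.2⟩, hcase⟩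
          refine ⟨?_, ih.2.trans hst.reach⟩
          rcases hcase with ⟨e1, e2⟩ | ⟨e1, e2⟩
          · rw [← e2]; exact hh.2.1
          · rw [← e1]; exact hh.1
        · exfalso
          have := ih.1
          rcases hcase with ⟨e1, e2⟩ | ⟨e1, e2⟩
          · rw [← e1] at this; omega
          · rw [← e2] at this; omega
    obtain ⟨k1, k2⟩ := key _ hr
    exact hu ⟨y1, y2, ⟨hc1, hy1.2⟩, ⟨k1, hy2.2⟩, k2⟩
  · rcases le_or_gt y1 (p.2 - ρ) with hc2 | hc2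
    · have key : ∀ w : Vtx, Reach G (p.1 - ρ, y1) w → w.2 ≤ p.2 - ρ ∧
          Reach (↑F ∩ ↑(LRE (p.1 - ρ) (p.1 + ρ) c (p.2 - ρ))) (p.1 - ρ, y1) w := by
        intro w hw
        induction hw with
        | refl => exact ⟨hc2, Reach.refl _ _⟩
        | tail _ hs ih =>
          obtain ⟨e, he, hcase⟩ := hs
          rcases hts e he with hh | hh
          · exfalso
            have := ih.1
            rcases hcase with ⟨e1, e2⟩ | ⟨e1, e2⟩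
            · rw [← e1] at this; omega
            · rw [← e2] at this; omega
          · have hst : Adj (↑F ∩ ↑(LRE (p.1 - ρ) (p.1 + ρ) c (p.2 - ρ))) _ _ :=
              ⟨e, ⟨Finset.mem_coe.mpr (blkm e he).1, Finset.mem_coe.mpr hh.2.2⟩, hcase⟩
            refine ⟨?_, ih.2.trans hst.reach⟩
            rcases hcase with ⟨e1, e2⟩ | ⟨e1, e2⟩
            · rw [← e2]; exact hh.2.1
            · rw [← e1]; exact hh.1
      obtain ⟨k1, k2⟩ := key _ hr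
      exact hl ⟨y1, y2, ⟨hy1.1, hc2⟩, ⟨hy2.1, k1⟩, k2⟩
    · have key : ∀ w : Vtx, Reach G (p.1 - ρ, y1) w → w = (p.1 - ρ, y1) := by
        intro w hw
        induction hw with
        | refl => rfl
        | tail _ hs ih =>
          obtain ⟨e, he, hcase⟩ := hs
          rw [ih] at hcase
          exfalso
          rcases hts e he with hh | hh
          · rcases hcase with ⟨e1, e2⟩ | ⟨e1, e2⟩
            · rw [e1] at hh; simp only at hh; omega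
            · rw [e2] at hh; simp only at hh; omega
          · rcases hcase with ⟨e1, e2⟩ | ⟨e1, e2⟩
            · rw [e1] at hh; simp only at hh; omega
            · rw [e2] at hh; simp only at hh; omega
      have := congrArg Prod.fst (key _ hr)
      simp only at this
      omega

theorem bpv_of_gen {a b c d : ℤ} {p : ℤ × ℤ} {ρ : ℕ} (hρ : 1 ≤ ρ)
    (h3 : c ≤ p.2 - ρ) (h4 : p.2 + ρ ≤ d) {I J : Set Vtx}
    (hI : ∀ u ∈ I, u.1 ≤ p.1 - ρ) (hJ : ∀ v ∈ J, p.1 + ρ ≤ v.1)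
    (hI' : lsd a c d ⊆ I) (hJ' : lsd b c d ⊆ J) {F : Finset Edg}
    (hF : F ⊆ RE a b c d) (k1 : LRc a (p.1 - ρ) (p.2 - ρ) (p.2 + ρ) F)
    (k2 : LRc (p.1 + ρ) b (p.2 - ρ) (p.2 + ρ) F)
    (hu : ¬ LRc (p.1 - ρ) (p.1 + ρ) (p.2 + ρ) d F)
    (hl : ¬ LRc (p.1 - ρ) (p.1 + ρ) c (p.2 - ρ) F) :
    BPv I J (blk p ρ) (↑F : Set Edg) := by
  refine ⟨?_, no_band_gen hρ h3 h4 hI hJ hF hu hl⟩
  obtain ⟨y, z, hy, hz, m1⟩ := k1
  obtain ⟨y', z', hy', hz', m2⟩ := k2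
  refine ⟨(a, y), hI' ⟨rfl, by simp only; omega, by simp only; omega⟩, (b, z'),
    hJ' ⟨rfl, by simp only; omega, by simp only; omega⟩, ?_⟩
  have e1 : Reach ((↑F : Set Edg) ∪ ↑(blk p ρ)) (a, y) (p.1 - ρ, z) :=
    m1.mono (Set.inter_subset_left.trans Set.subset_union_left)
  have e2 : Reach ((↑F : Set Edg) ∪ ↑(blk p ρ)) (p.1 + ρ, y') (b, z') :=
    m2.mono (Set.inter_subset_left.trans Set.subset_union_left)
  have e3 : Reach ((↑F : Set Edg) ∪ ↑(blk p ρ)) (p.1 - ρ, z) (p.1 + ρ, y') := by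
    refine box_conn (c := p.2 - ρ) (d := p.2 + ρ) ?_ (by omega) hz hy'
    exact Set.subset_union_right
  exact e1.trans (e3.trans e2)

/-- The probability that a block is pivotal, from below. -/
theorem bpv_prob_gen {q : ℝ} (h0 : 0 ≤ q) (hq1 : q ≤ 1) {a b c d : ℤ} {p : ℤ × ℤ} {ρ : ℕ}
    (hρ : 1 ≤ ρ) (h3 : c < p.2 - ρ) (h4 : p.2 + ρ < d)
    {I J : Set Vtx} (hI : ∀ u ∈ I, u.1 ≤ p.1 - ρ) (hJ : ∀ v ∈ J, p.1 + ρ ≤ v.1)
    (hI' : lsd a c d ⊆ I) (hJ' : lsd b c d ⊆ J) {U : Finset Edg} (hUR : U ⊆ RE a b c d)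
    (s1' : LRE a (p.1 - ρ) (p.2 - ρ) (p.2 + ρ) ⊆ U)
    (s2' : LRE (p.1 + ρ) b (p.2 - ρ) (p.2 + ρ) ⊆ U)
    (s3' : LRE (p.1 - ρ) (p.1 + ρ) (p.2 + ρ) d ⊆ U)
    (s4' : LRE (p.1 - ρ) (p.1 + ρ) c (p.2 - ρ) ⊆ U) :
    (hh q (p.1 - ρ - a) (2 * ρ) * hh q (b - (p.1 + ρ)) (2 * ρ)) *
      ((1 - hh q (2 * ρ) (d - (p.2 + ρ))) * (1 - hh q (2 * ρ) (p.2 - ρ - c))) ≤
    PQ q U (fun F => BPv I J (blk p ρ) ↑F) := by
  classical
  have ok := okq h0 hq1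
  have hρ' : (1:ℤ) ≤ ρ := by exact_mod_cast hρ
  obtain ⟨S1, hS1⟩ : ∃ S : Finset Edg, S = LRE a (p.1 - ρ) (p.2 - ρ) (p.2 + ρ) := ⟨_, rfl⟩
  obtain ⟨S2, hS2⟩ : ∃ S : Finset Edg, S = LRE (p.1 + ρ) b (p.2 - ρ) (p.2 + ρ) := ⟨_, rfl⟩
  obtain ⟨S3, hS3⟩ : ∃ S : Finset Edg, S = LRE (p.1 - ρ) (p.1 + ρ) (p.2 + ρ) d := ⟨_, rfl⟩
  obtain ⟨S4, hS4⟩ : ∃ S : Finset Edg, S = LRE (p.1 - ρ) (p.1 + ρ) c (p.2 - ρ) := ⟨_, rfl⟩
  have s1 : S1 ⊆ U := by rw [hS1]; exact s1'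
  have s2 : S2 ⊆ U := by rw [hS2]; exact s2'
  have s3 : S3 ⊆ U := by rw [hS3]; exact s3'
  have s4 : S4 ⊆ U := by rw [hS4]; exact s4'
  have hd : Disjoint (S1 ∪ S2) (S3 ∪ S4) := by
    rw [Finset.disjoint_left, hS1, hS2, hS3, hS4]
    rintro ⟨x, y, _ | _⟩ he he'
    · simp only [Finset.mem_union, mem_LRE_false] at he he'
      omega
    · simp only [Finset.mem_union, mem_LRE_true] at he he'
      omega
  have l1 : ∀ F, F ⊆ U → (LRc a (p.1 - ρ) (p.2 - ρ) (p.2 + ρ) F ↔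
      LRc a (p.1 - ρ) (p.2 - ρ) (p.2 + ρ) (F ∩ (S1 ∪ S2))) := fun F _ =>
    LRc_local (by rw [hS1]; exact Finset.subset_union_left)
  have l2 : ∀ F, F ⊆ U → (LRc (p.1 + ρ) b (p.2 - ρ) (p.2 + ρ) F ↔
      LRc (p.1 + ρ) b (p.2 - ρ) (p.2 + ρ) (F ∩ (S1 ∪ S2))) := fun F _ =>
    LRc_local (by rw [hS2]; exact Finset.subset_union_right)
  have l3 : ∀ F, F ⊆ U → (LRc (p.1 - ρ) (p.1 + ρ) (p.2 + ρ) d F ↔
      LRc (p.1 - ρ) (p.1 + ρ) (p.2 + ρ) d (F ∩ (S3 ∪ S4))) := fun F _ =>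
    LRc_local (by rw [hS3]; exact Finset.subset_union_left)
  have l4 : ∀ F, F ⊆ U → (LRc (p.1 - ρ) (p.1 + ρ) c (p.2 - ρ) F ↔
      LRc (p.1 - ρ) (p.1 + ρ) c (p.2 - ρ) (F ∩ (S3 ∪ S4))) := fun F _ =>
    LRc_local (by rw [hS4]; exact Finset.subset_union_right)
  have hind := Pr_indep (p := fun _ : Edg => q) (U := U) (Finset.union_subset s1 s2)
    (Finset.union_subset s3 s4) hd
    (A := fun F => LRc a (p.1 - ρ) (p.2 - ρ) (p.2 + ρ) F ∧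
      LRc (p.1 + ρ) b (p.2 - ρ) (p.2 + ρ) F)
    (B := fun F => ¬ LRc (p.1 - ρ) (p.1 + ρ) (p.2 + ρ) d F ∧
      ¬ LRc (p.1 - ρ) (p.1 + ρ) c (p.2 - ρ) F)
    (fun F hF => and_congr (l1 F hF) (l2 F hF))
    (fun F hF => and_congr (not_congr (l3 F hF)) (not_congr (l4 F hF)))
  have hA : hh q (p.1 - ρ - a) (2 * ρ) * hh q (b - (p.1 + ρ)) (2 * ρ) ≤
      Pr (fun _ => q) U (fun F => LRc a (p.1 - ρ) (p.2 - ρ) (p.2 + ρ) F ∧
        LRc (p.1 + ρ) b (p.2 - ρ) (p.2 + ρ) F) := by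
    have e1 := pr_LRc q (a := a) (b := p.1 - ρ) (c := p.2 - ρ) (d := p.2 + ρ) (S := U)
      (by rw [← hS1]; exact s1)
    have e2 := pr_LRc q (a := p.1 + ρ) (b := b) (c := p.2 - ρ) (d := p.2 + ρ) (S := U)
      (by rw [← hS2]; exact s2)
    have e3 : (p.2 + ρ - (p.2 - ρ) : ℤ) = 2 * ρ := by ring
    rw [e3] at e1 e2
    rw [← e1, ← e2]
    exact Pr_harris ok (LRc_incr U _ _ _ _) (LRc_incr U _ _ _ _)
  have hB : (1 - hh q (2 * ρ) (d - (p.2 + ρ))) * (1 - hh q (2 * ρ) (p.2 - ρ - c)) ≤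
      Pr (fun _ => q) U (fun F => ¬ LRc (p.1 - ρ) (p.1 + ρ) (p.2 + ρ) d F ∧
        ¬ LRc (p.1 - ρ) (p.1 + ρ) c (p.2 - ρ) F) := by
    have e1 := pr_LRc q (a := p.1 - ρ) (b := p.1 + ρ) (c := p.2 + ρ) (d := d) (S := U)
      (by rw [← hS3]; exact s3)
    have e2 := pr_LRc q (a := p.1 - ρ) (b := p.1 + ρ) (c := c) (d := p.2 - ρ) (S := U)
      (by rw [← hS4]; exact s4)
    have e3 : (p.1 + ρ - (p.1 - ρ) : ℤ) = 2 * ρ := by ring
    rw [e3] at e1 e2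
    rw [← e1, ← e2]
    obtain ⟨X, hX⟩ : ∃ X : Finset Edg → Prop, X = LRc (p.1 - ρ) (p.1 + ρ) (p.2 + ρ) d := ⟨_, rfl⟩
    obtain ⟨Y, hY⟩ : ∃ Y : Finset Edg → Prop, Y = LRc (p.1 - ρ) (p.1 + ρ) c (p.2 - ρ) := ⟨_, rfl⟩
    have hXi : IncrE U X := by rw [hX]; exact LRc_incr U _ _ _ _
    have hYi : IncrE U Y := by rw [hY]; exact LRc_incr U _ _ _ _
    rw [← hX, ← hY]
    have a1 := Pr_harris ok hXi hYi
    have a2 : Pr (fun _ => q) U (fun F => ¬ X F ∧ ¬ Y F) =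
        1 - Pr (fun _ => q) U X - Pr (fun _ => q) U Y +
          Pr (fun _ => q) U (fun F => X F ∧ Y F) := by
      unfold Pr
      have : ∀ F : Finset Edg, ind (¬ X F ∧ ¬ Y F) = (1 - ind (X F)) - ind (Y F) +
          ind (X F ∧ Y F) := by
        intro F
        rw [ind_and, ind_and, ind_not, ind_not]
        ring
      rw [Ex_congr (fun F _ => this F), Ex_add, Ex_sub, Ex_sub, Ex_const]
    rw [a2]
    nlinarith
  have hsum : Pr (fun _ => q) U (fun F => (LRc a (p.1 - ρ) (p.2 - ρ) (p.2 + ρ) F ∧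
      LRc (p.1 + ρ) b (p.2 - ρ) (p.2 + ρ) F) ∧ (¬ LRc (p.1 - ρ) (p.1 + ρ) (p.2 + ρ) d F ∧
      ¬ LRc (p.1 - ρ) (p.1 + ρ) c (p.2 - ρ) F)) ≤
      PQ q U (fun F => BPv I J (blk p ρ) ↑F) := by
    unfold PQ
    apply Pr_mono ok
    rintro F hF ⟨⟨g1, g2⟩, g3, g4⟩
    exact bpv_of_gen hρ h3.le h4.le hI hJ hI' hJ' (hF.trans hUR) g1 g2 g3 g4
  refine le_trans ?_ hsum
  rw [hind]
  refine mul_le_mul hA hB ?_ (Pr_nonneg ok _ _)
  exact mul_nonneg (by linarith [hh_le_one h0 hq1 (2 * ρ) (d - (p.2 + ρ))])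
    (by linarith [hh_le_one h0 hq1 (2 * ρ) (p.2 - ρ - c)])



end K3h14.NC
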