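import Mathlib

/-!
Convergence in law: close random variables, and convergence to a constant.
-/

set_option maxHeartbeats 1000000

namespace K3h14.NC

open MeasureTheory Filter Topology
open scoped NNReal

section

variable {E : Type*} [PseudoMetricSpace E] [MeasurableSpace E] [BorelSpace E]

theorem integrable_osc {Ω : Type*} [MeasurableSpace Ω] {P : Measure Ω} [IsProbabilityMeasure P]
    {U : Ω → E} (hU : Measurable U) {f : E → ℝ} {C : ℝ} (hC : ∀ x y, dist (f x) (f y) ≤ C)
    (hf : Continuous f) : Integrable (fun ω => f (U ω)) P := by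
  have hm : Measurable (fun ω => f (U ω)) := hf.measurable.comp hU
  rcases isEmpty_or_nonempty E with h | h
  · haveI : IsEmpty Ω := ⟨fun ω => h.elim (U ω)⟩
    exact Integrable.of_isEmpty
  · obtain ⟨x0⟩ := h
    refine Integrable.of_bound (C := |f x0| + C) hm.aestronglyMeasurable ?_
    refine Filter.Eventually.of_forall (fun ω => ?_)
    have := hC (U ω) x0
    rw [Real.dist_eq] at this
    rw [Real.norm_eq_abs]
    calc |f (U ω)| = |(f (U ω) - f x0) + f x0| := by rw [sub_add_cancel]
      _ ≤ |f (U ω) - f x0| + |f x0| := abs_add_le _ _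
      _ ≤ _ := by linarith

/-- Close random variables have close laws. -/
theorem int_close {Ω : Type*} [MeasurableSpace Ω] {P : Measure Ω} [IsProbabilityMeasure P]
    {U V : Ω → E} (hU : Measurable U) (hV : Measurable V) {f : E → ℝ} {C : ℝ}
    (hC : ∀ x y, dist (f x) (f y) ≤ C) {L : ℝ≥0} (hf : LipschitzWith L f) {ε : ℝ} (hε : 0 ≤ ε)
    (hm : MeasurableSet {ω | ε ≤ dist (U ω) (V ω)}) :
    |∫ x, f x ∂(P.map U) - ∫ x, f x ∂(P.map V)| ≤
      L * ε + C * P.real {ω | ε ≤ dist (U ω) (V ω)} := by
  classical
  rw [integral_map hU.aemeasurable hf.continuous.measurable.aestronglyMeasurable,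
    integral_map hV.aemeasurable hf.continuous.measurable.aestronglyMeasurable,
    ← integral_sub (integrable_osc hU hC hf.continuous) (integrable_osc hV hC hf.continuous)]
  have hC0 : 0 ≤ C ∨ IsEmpty E := by
    rcases isEmpty_or_nonempty E with h | h
    · exact Or.inr h
    · exact h.elim fun x => Or.inl (dist_nonneg.trans (hC x x))
  rcases hC0 with hC0 | hE
  swap
  · haveI : IsEmpty Ω := ⟨fun ω => hE.elim (U ω)⟩
    have : P = 0 := Measure.eq_zero_of_isEmpty P
    exact absurd (measure_univ (μ := P)) (by rw [this]; simp)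
  rw [← Real.norm_eq_abs]
  refine (norm_integral_le_integral_norm _).trans ?_
  have hpt : ∀ ω, ‖f (U ω) - f (V ω)‖ ≤
      L * ε + Set.indicator {ω | ε ≤ dist (U ω) (V ω)} (fun _ => C) ω := by
    intro ω
    by_cases h : ε ≤ dist (U ω) (V ω)
    · rw [Set.indicator_of_mem (show ω ∈ {ω | ε ≤ dist (U ω) (V ω)} from h)]
      have h1 := hC (U ω) (V ω)
      rw [Real.dist_eq] at h1
      rw [Real.norm_eq_abs]
      have : 0 ≤ (L:ℝ) * ε := by positivity
      linarith
    · rw [Set.indicator_of_notMem (show ω ∉ {ω | ε ≤ dist (U ω) (V ω)} from h), add_zero]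
      have h1 := hf.dist_le_mul (U ω) (V ω)
      rw [Real.dist_eq] at h1
      rw [Real.norm_eq_abs]
      refine h1.trans (mul_le_mul_of_nonneg_left (not_le.mp h).le L.2)
  have hint : Integrable (fun ω => L * ε +
      Set.indicator {ω | ε ≤ dist (U ω) (V ω)} (fun _ => C) ω) P :=
    (integrable_const _).add ((integrable_const C).indicator hm)
  refine (integral_mono_of_nonneg (Filter.Eventually.of_forall fun ω => norm_nonneg _) hint
    (Filter.Eventually.of_forall hpt)).trans ?_
  rw [integral_add (integrable_const _) ((integrable_const C).indicator hm),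
    integral_indicator_const _ hm]
  simp only [integral_const, probReal_univ, one_smul, smul_eq_mul]
  linarith

/-- Convergence to a constant. -/
theorem int_const {ν : Measure E} [IsProbabilityMeasure ν] {x0 : E} {f : E → ℝ} {C : ℝ}
    (hC : ∀ x y, dist (f x) (f y) ≤ C) {L : ℝ≥0} (hf : LipschitzWith L f) {ε : ℝ} (hε : 0 ≤ ε) :
    |∫ x, f x ∂ν - f x0| ≤ L * ε + C * ν.real {x | ε ≤ dist x x0} := by
  have hcl : MeasurableSet {x : E | ε ≤ dist x x0} :=
    (isClosed_le continuous_const (continuous_id.dist continuous_const)).measurableSet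
  have h := int_close (P := ν) (U := id) (V := fun _ => x0) measurable_id measurable_const hC hf hε
    hcl
  rw [Measure.map_id, Measure.map_const, measure_univ, one_smul,
    integral_dirac' _ _ hf.continuous.measurable.stronglyMeasurable] at h
  exact h

/-- Convergence in law to a constant and in probability. -/
theorem tendsto_dirac_iff {ν : ℕ → ProbabilityMeasure E} {x0 : E} :
    Tendsto ν atTop (𝓝 (diracProba x0)) ↔
      ∀ ε : ℝ, 0 < ε → Tendsto (fun n => (ν n : Measure E).real {x | ε ≤ dist x x0}) atTop
        (𝓝 0) := by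
  constructor
  · intro h ε hε
    have hf : LipschitzWith 1 (fun x : E => min (dist x x0) ε) := by
      have h1 : LipschitzWith 1 (fun x : E => dist x x0) := LipschitzWith.dist_left x0
      exact h1.min_const ε
    have hb : ∀ x y : E, dist (min (dist x x0) ε) (min (dist y x0) ε) ≤ ε := by
      intro x y
      rw [Real.dist_eq]
      have k1 : 0 ≤ min (dist x x0) ε := le_min dist_nonneg hε.le
      have k2 : 0 ≤ min (dist y x0) ε := le_min dist_nonneg hε.le
      have k3 := min_le_right (dist x x0) ε
      have k4 := min_le_right (dist y x0) ε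
      rw [abs_le]
      constructor <;> linarith
    rw [tendsto_iff_forall_lipschitz_integral_tendsto] at h
    have h1 := h _ ⟨ε, hb⟩ ⟨1, hf⟩
    have e0 : ∫ x, min (dist x x0) ε ∂(diracProba x0 : Measure E) = 0 := by
      show ∫ x, min (dist x x0) ε ∂(Measure.dirac x0) = 0
      rw [integral_dirac' _ _ hf.continuous.measurable.stronglyMeasurable, dist_self,
        min_eq_left hε.le]
    rw [e0] at h1
    have h2 : Tendsto (fun n => (∫ x, min (dist x x0) ε ∂(ν n : Measure E)) / ε) atTop (𝓝 0) := by
      have := h1.div_const ε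
      rwa [zero_div] at this
    refine squeeze_zero (fun n => measureReal_nonneg) (fun n => ?_) h2
    rw [le_div_iff₀ hε, mul_comm]
    have hcl : MeasurableSet {x : E | ε ≤ dist x x0} :=
      (isClosed_le continuous_const (continuous_id.dist continuous_const)).measurableSet
    have e1 : ε * (ν n : Measure E).real {x | ε ≤ dist x x0} =
        ∫ x, Set.indicator {x | ε ≤ dist x x0} (fun _ => ε) x ∂(ν n : Measure E) := by
      rw [integral_indicator_const _ hcl, smul_eq_mul, mul_comm]
    rw [e1]
    apply integral_mono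
    · exact (integrable_const ε).indicator hcl
    · exact integrable_osc (U := id) measurable_id hb hf.continuous
    · intro x
      simp only
      by_cases hx : ε ≤ dist x x0
      · rw [Set.indicator_of_mem (show x ∈ {x : E | ε ≤ dist x x0} from hx), min_eq_right hx]
      · rw [Set.indicator_of_notMem (show x ∉ {x : E | ε ≤ dist x x0} from hx)]
        exact le_min dist_nonneg hε.le
  · intro h
    rw [tendsto_iff_forall_lipschitz_integral_tendsto]
    rintro f ⟨C, hC⟩ ⟨L, hL⟩
    have hC0 : 0 ≤ C := dist_nonneg.trans (hC x0 x0)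
    have e0 : ∫ x, f x ∂(diracProba x0 : Measure E) = f x0 := by
      show ∫ x, f x ∂(Measure.dirac x0) = f x0
      rw [integral_dirac' _ _ hL.continuous.measurable.stronglyMeasurable]
    rw [e0, Metric.tendsto_atTop]
    intro η hη
    obtain ⟨ε, hε⟩ : ∃ ε : ℝ, ε = η / (2 * (L + 1)) := ⟨_, rfl⟩
    have hL0 : (0:ℝ) ≤ L := L.2
    have hε0 : 0 < ε := by rw [hε]; positivity
    have hLε : L * ε < η / 2 + 0 := by
      rw [hε, add_zero]
      rw [mul_div_assoc', div_lt_iff₀ (by positivity)]
      nlinarith
    have h1 := h ε hε0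
    rw [Metric.tendsto_atTop] at h1
    obtain ⟨N, hN⟩ := h1 (η / (2 * (C + 1))) (by positivity)
    refine ⟨N, fun n hn => ?_⟩
    have h2 := hN n hn
    rw [Real.dist_eq, sub_zero, abs_of_nonneg measureReal_nonneg] at h2
    rw [Real.dist_eq]
    refine (int_const hC hL hε0.le).trans_lt ?_
    have h3 : C * (ν n : Measure E).real {x | ε ≤ dist x x0} ≤ η / 2 := by
      have : C * (ν n : Measure E).real {x | ε ≤ dist x x0} ≤ C * (η / (2 * (C + 1))) :=
        mul_le_mul_of_nonneg_left h2.le hC0
      refine this.trans ?_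
      rw [mul_div_assoc', div_le_iff₀ (by positivity)]
      nlinarith
    linarith

/-- Merging laws have the same limits. -/
theorem tendsto_iff_of_merge {ν ν' : ℕ → ProbabilityMeasure E} {μ : ProbabilityMeasure E}
    (h : ∀ f : E → ℝ, (∃ C : ℝ, ∀ x y, dist (f x) (f y) ≤ C) → (∃ L, LipschitzWith L f) →
      Tendsto (fun n => ∫ x, f x ∂(ν n : Measure E) - ∫ x, f x ∂(ν' n : Measure E)) atTop (𝓝 0)) :
    Tendsto ν atTop (𝓝 μ) ↔ Tendsto ν' atTop (𝓝 μ) := by
  rw [tendsto_iff_forall_lipschitz_integral_tendsto,
    tendsto_iff_forall_lipschitz_integral_tendsto]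
  constructor
  · intro h1 f hf hL
    have := (h1 f hf hL).sub (h f hf hL)
    simpa using this
  · intro h1 f hf hL
    have := (h1 f hf hL).add (h f hf hL)
    simpa using this

end

end K3h14.NC
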