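import Pool.Agent.K3h14.NC.Det

/-!
Couplings which are independent over the edges: the stability of the trace.
-/

set_option maxHeartbeats 1000000

namespace K3h14.NC

open H974 H973 H12S H934E Finset TH291.NW TopologicalSpace MeasureTheory ProbabilityTheory

/-- The present edges. -/
def FZ {Ω : Type*} (S : Finset Edg) (Z : Edg → Ω → Bool) (ω : Ω) : Finset Edg :=
  S.filter (fun e => Z e ω = true)

theorem mem_FZ {Ω : Type*} {S : Finset Edg} {Z : Edg → Ω → Bool} {ω : Ω} {e : Edg} :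
    e ∈ FZ S Z ω ↔ e ∈ S ∧ Z e ω = true := by
  unfold FZ; rw [Finset.mem_filter]

theorem FZ_sub {Ω : Type*} {S : Finset Edg} {Z : Edg → Ω → Bool} {ω : Ω} : FZ S Z ω ⊆ S :=
  Finset.filter_subset _ _

theorem FZ_eq {Ω : Type*} {S T : Finset Edg} (hT : T ⊆ S) (Z : Edg → Ω → Bool) :
    {ω | FZ S Z ω = T} = ⋂ e ∈ S, Z e ⁻¹' {decide (e ∈ T)} := by
  ext ω
  rw [Set.mem_iInter₂]
  constructor
  · intro h e he
    have h' : FZ S Z ω = T := h
    rw [Set.mem_preimage, Set.mem_singleton_iff, ← h']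
    by_cases hz : Z e ω = true
    · rw [hz, eq_comm, decide_eq_true_eq, mem_FZ]; exact ⟨he, hz⟩
    · have hz' : Z e ω = false := by simpa using hz
      rw [hz', eq_comm, decide_eq_false_iff_not, mem_FZ]
      exact fun k => hz k.2
  · intro h
    show FZ S Z ω = T
    ext e
    rw [mem_FZ]
    constructor
    · rintro ⟨he, hz⟩
      have := h e he
      rw [Set.mem_preimage, Set.mem_singleton_iff, hz, eq_comm, decide_eq_true_eq] at this
      exact this
    · intro he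
      have := h e (hT he)
      rw [Set.mem_preimage, Set.mem_singleton_iff, decide_eq_true he] at this
      exact ⟨hT he, this⟩

variable {Ω : Type*} [MeasurableSpace Ω] {P : Measure Ω} [IsProbabilityMeasure P]

theorem meas_FZ {Z : Edg → Ω → Bool} (hm : ∀ e, Measurable (Z e)) (S T : Finset Edg) :
    MeasurableSet {ω | FZ S Z ω = T} := by
  by_cases hT : T ⊆ S
  · rw [FZ_eq hT]
    exact S.measurableSet_biInter (fun e _ => hm e (measurableSet_singleton _))
  · have : {ω | FZ S Z ω = T} = ∅ := by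
      ext ω
      rw [Set.mem_ofPred_eq, Set.mem_empty_iff_false, iff_false]
      intro h
      exact hT (h ▸ FZ_sub)
    rw [this]
    exact MeasurableSet.empty

theorem prob_FZ {Z : Edg → Ω → Bool} (hm : ∀ e, Measurable (Z e)) (hi : iIndepFun Z P)
    {S T : Finset Edg} (hT : T ⊆ S) : P.real {ω | FZ S Z ω = T} =
      (∏ e ∈ T, P.real {ω | Z e ω = true}) * ∏ e ∈ S \ T, (1 - P.real {ω | Z e ω = true}) := by
  rw [FZ_eq hT, Measure.real, hi.measure_inter_preimage_eq_mul S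
    (sets := fun e => {decide (e ∈ T)}) (fun e _ => measurableSet_singleton _),
    ENNReal.toReal_prod, ← Finset.union_sdiff_of_subset hT,
    Finset.prod_union Finset.disjoint_sdiff, Finset.union_sdiff_of_subset hT]
  congr 1
  · apply Finset.prod_congr rfl
    intro e he
    rw [decide_eq_true he]
    rfl
  · apply Finset.prod_congr rfl
    intro e he
    rw [decide_eq_false (Finset.mem_sdiff.mp he).2]
    have h1 : Z e ⁻¹' {false} = {ω | Z e ω = true}ᶜ := by
      ext ω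
      rw [Set.mem_preimage, Set.mem_singleton_iff, Set.mem_compl_iff, Set.mem_ofPred_eq,
        Bool.not_eq_true]
    have h2 : MeasurableSet {ω | Z e ω = true} := hm e (measurableSet_singleton true)
    rw [h1]
    change P.real _ = _
    rw [probReal_compl_eq_one_sub h2]

/-- Probabilities of events of finitely many independent edges. -/
theorem pr_of_indep {Z : Edg → Ω → Bool} (hm : ∀ e, Measurable (Z e)) (hi : iIndepFun Z P)
    (S : Finset Edg) (A : Finset Edg → Prop) :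
    P.real {ω | A (FZ S Z ω)} = Pr (fun e => P.real {ω | Z e ω = true}) S A := by
  classical
  have h1 : {ω | A (FZ S Z ω)} = ⋃ T ∈ S.powerset.filter A, {ω | FZ S Z ω = T} := by
    ext ω
    rw [Set.mem_iUnion₂]
    constructor
    · intro h
      exact ⟨FZ S Z ω, Finset.mem_filter.mpr ⟨Finset.mem_powerset.mpr FZ_sub, h⟩, rfl⟩
    · rintro ⟨T, hT, h⟩
      have h' : FZ S Z ω = T := h
      show A (FZ S Z ω)
      rw [h']
      exact (Finset.mem_filter.mp hT).2
  rw [h1, measureReal_biUnion_finset]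
  · unfold Pr Ex
    rw [Finset.sum_filter]
    apply Finset.sum_congr rfl
    intro T hT
    dsimp only
    by_cases hA : A T
    · rw [if_pos hA, ind_of hA, mul_one, prob_FZ hm hi (Finset.mem_powerset.mp hT)]
    · rw [if_neg hA, ind_not_of hA, mul_zero]
  · intro T _ T' _ hne
    rw [Function.onFun, Set.disjoint_left]
    intro ω h2 h3
    have h2' : FZ S Z ω = T := h2
    have h3' : FZ S Z ω = T' := h3
    exact hne (h2'.symm.trans h3')
  · intro T _
    exact meas_FZ hm S T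

theorem Pr_param {p q : Edg → ℝ} {S : Finset Edg} (h : ∀ e ∈ S, p e = q e)
    (A : Finset Edg → Prop) : Pr p S A = Pr q S A := by
  unfold Pr Ex
  apply Finset.sum_congr rfl
  intro F hF
  rw [Finset.mem_powerset] at hF
  have e1 : ∏ e ∈ F, p e = ∏ e ∈ F, q e := Finset.prod_congr rfl (fun e he => h e (hF he))
  have e2 : ∏ e ∈ S \ F, (1 - p e) = ∏ e ∈ S \ F, (1 - q e) :=
    Finset.prod_congr rfl (fun e he => by rw [h e (Finset.mem_sdiff.mp he).1])
  rw [e1, e2]

theorem Pr_le_param {p q : Edg → ℝ} {S : Finset Edg} (hp : Ok p) (hq : Ok q)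
    (h : ∀ e ∈ S, p e ≤ q e) {A : Finset Edg → Prop} (hA : IncrE S A) : Pr p S A ≤ Pr q S A := by
  classical
  have e1 : Pr p S A = Pr (fun e => min (p e) (q e)) S A :=
    Pr_param (fun e he => (min_eq_left (h e he)).symm) A
  rw [e1]
  exact Pr_mono_param (fun e => ⟨le_min (hp e).1 (hq e).1, (min_le_left _ _).trans (hp e).2⟩) hq
    (fun e => min_le_right _ _) hA

theorem ok_real (Z : Edg → Ω → Bool) : Ok (fun e => P.real {ω | Z e ω = true}) :=
  fun _ => ⟨measureReal_nonneg, measureReal_le_one⟩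

/-- Sandwich: an event increasing in the configuration. -/
theorem sandwich {X Y : Edg → Ω → Bool} (hX : ∀ e, Measurable (X e))
    (hY : ∀ e, Measurable (Y e)) (hi : iIndepFun (fun e ω => (X e ω, Y e ω)) P)
    {S : Finset Edg} {η : ℝ} (hη : 0 ≤ η) (hη1 : 4 * η ≤ 1)
    (h1 : ∀ e ∈ S, |P.real {ω | X e ω = true} - 1/2| ≤ η)
    (h2 : ∀ e ∈ S, P.real {ω | X e ω ≠ Y e ω} ≤ η) {A : Finset Edg → Prop} (hA : IncrE S A) :
    P.real {ω | A (FZ S X ω ∪ FZ S Y ω) ∧ ¬ A (FZ S X ω ∩ FZ S Y ω)} ≤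
      Pr (fun _ => 1/2 + 2 * η) S A - Pr (fun _ => 1/2 - 2 * η) S A := by
  have hU : ∀ e, Measurable (fun ω => X e ω || Y e ω) := fun e =>
    (measurable_of_finite (fun p : Bool × Bool => p.1 || p.2)).comp ((hX e).prodMk (hY e))
  have hI : ∀ e, Measurable (fun ω => X e ω && Y e ω) := fun e =>
    (measurable_of_finite (fun p : Bool × Bool => p.1 && p.2)).comp ((hX e).prodMk (hY e))
  have iU : iIndepFun (fun e ω => X e ω || Y e ω) P :=
    hi.comp (fun _ p => p.1 || p.2) (fun _ => measurable_of_finite _)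
  have iI : iIndepFun (fun e ω => X e ω && Y e ω) P :=
    hi.comp (fun _ p => p.1 && p.2) (fun _ => measurable_of_finite _)
  have eU : ∀ ω, FZ S X ω ∪ FZ S Y ω = FZ S (fun e ω => X e ω || Y e ω) ω := by
    intro ω
    ext e
    rw [Finset.mem_union, mem_FZ, mem_FZ, mem_FZ, Bool.or_eq_true]
    tauto
  have eI : ∀ ω, FZ S X ω ∩ FZ S Y ω = FZ S (fun e ω => X e ω && Y e ω) ω := by
    intro ω
    ext e
    rw [Finset.mem_inter, mem_FZ, mem_FZ, mem_FZ, Bool.and_eq_true]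
    tauto
  have mN : ∀ e, MeasurableSet {ω | X e ω ≠ Y e ω} := fun e =>
    (measurableSet_eq_fun (hX e) (hY e)).compl
  have mU : MeasurableSet {ω | A (FZ S X ω ∪ FZ S Y ω)} := by
    classical
    have : {ω | A (FZ S X ω ∪ FZ S Y ω)} = ⋃ T ∈ S.powerset.filter A,
        {ω | FZ S (fun e ω => X e ω || Y e ω) ω = T} := by
      ext ω
      rw [Set.mem_iUnion₂, Set.mem_ofPred_eq, eU]
      constructor
      · intro h
        exact ⟨_, Finset.mem_filter.mpr ⟨Finset.mem_powerset.mpr FZ_sub, h⟩, rfl⟩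
      · rintro ⟨T, hT, h⟩
        have h' : FZ S (fun e ω => X e ω || Y e ω) ω = T := h
        rw [h']
        exact (Finset.mem_filter.mp hT).2
    rw [this]
    exact Finset.measurableSet_biUnion _ (fun T _ => meas_FZ hU S T)
  have mI : MeasurableSet {ω | A (FZ S X ω ∩ FZ S Y ω)} := by
    classical
    have : {ω | A (FZ S X ω ∩ FZ S Y ω)} = ⋃ T ∈ S.powerset.filter A,
        {ω | FZ S (fun e ω => X e ω && Y e ω) ω = T} := by
      ext ω
      rw [Set.mem_iUnion₂, Set.mem_ofPred_eq, eI]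
      constructor
      · intro h
        exact ⟨_, Finset.mem_filter.mpr ⟨Finset.mem_powerset.mpr FZ_sub, h⟩, rfl⟩
      · rintro ⟨T, hT, h⟩
        have h' : FZ S (fun e ω => X e ω && Y e ω) ω = T := h
        rw [h']
        exact (Finset.mem_filter.mp hT).2
    rw [this]
    exact Finset.measurableSet_biUnion _ (fun T _ => meas_FZ hI S T)
  have hsub : {ω | A (FZ S X ω ∩ FZ S Y ω)} ⊆ {ω | A (FZ S X ω ∪ FZ S Y ω)} := by
    intro ω h
    exact hA _ _ (Finset.inter_subset_left.trans Finset.subset_union_left)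
      (Finset.union_subset FZ_sub FZ_sub) h
  have hd : {ω | A (FZ S X ω ∪ FZ S Y ω) ∧ ¬ A (FZ S X ω ∩ FZ S Y ω)} =
      {ω | A (FZ S X ω ∪ FZ S Y ω)} \ {ω | A (FZ S X ω ∩ FZ S Y ω)} := rfl
  rw [hd, measureReal_sdiff hsub mI]
  simp only [eU, eI]
  rw [pr_of_indep hU iU, pr_of_indep hI iI]
  have okp : Ok (fun _ : Edg => 1/2 + 2 * η) := fun _ => ⟨by linarith, by linarith⟩
  have okm : Ok (fun _ : Edg => 1/2 - 2 * η) := fun _ => ⟨by linarith, by linarith⟩
  have b1 : Pr (fun e => P.real {ω | (X e ω || Y e ω) = true}) S A ≤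
      Pr (fun _ => 1/2 + 2 * η) S A := by
    refine Pr_le_param (ok_real _) okp ?_ hA
    intro e he
    have k1 := abs_le.mp (h1 e he)
    have k2 := h2 e he
    have k3 : P.real {ω | (X e ω || Y e ω) = true} ≤ P.real {ω | X e ω = true} +
        P.real {ω | X e ω ≠ Y e ω} := by
      refine le_trans (measureReal_mono ?_) (measureReal_union_le _ _)
      intro ω hω
      have hω' : (X e ω || Y e ω) = true := hω
      by_cases hx : X e ω = true
      · exact Or.inl hx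
      · right
        show X e ω ≠ Y e ω
        intro heq
        rw [← heq, Bool.or_self] at hω'
        exact hx hω'
    linarith
  have b2 : Pr (fun _ => 1/2 - 2 * η) S A ≤
      Pr (fun e => P.real {ω | (X e ω && Y e ω) = true}) S A := by
    refine Pr_le_param okm (ok_real _) ?_ hA
    intro e he
    have k1 := abs_le.mp (h1 e he)
    have k2 := h2 e he
    have k3 : P.real {ω | X e ω = true} ≤ P.real {ω | (X e ω && Y e ω) = true} +
        P.real {ω | X e ω ≠ Y e ω} := by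
      refine le_trans (measureReal_mono ?_) (measureReal_union_le _ _)
      intro ω hω
      have hω' : X e ω = true := hω
      by_cases hy : Y e ω = true
      · left
        show (X e ω && Y e ω) = true
        rw [hω', hy]; rfl
      · right
        show X e ω ≠ Y e ω
        intro heq
        rw [← heq] at hy
        exact hy hω'
    linarith
  linarith

variable {R : Rect} {δ : ℝ}

/-- **Stability of the trace.** -/
theorem stab_path (R : Rect) {ε : ℝ} (hε : 0 < ε) : ∃ C δ0 : ℝ, 0 < C ∧ 0 < δ0 ∧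
    ∀ (δ : ℝ) (hδ : 0 < δ), δ ≤ δ0 → ∀ η : ℝ, 0 ≤ η →
    ∀ (Ω : Type) [MeasurableSpace Ω] (P : Measure Ω) [IsProbabilityMeasure P]
      (X Y : Edg → Ω → Bool), (∀ e, Measurable (X e)) → (∀ e, Measurable (Y e)) →
      iIndepFun (fun e ω => (X e ω, Y e ω)) P →
      (∀ e ∈ R.edges δ, |P.real {ω | X e ω = true} - 1/2| ≤ η) →
      (∀ e ∈ R.edges δ, P.real {ω | X e ω ≠ Y e ω} ≤ η) →
      P.real {ω | ε ≤ dist (R.trace hδ (FZ (R.edges δ) X ω)) (R.trace hδ (FZ (R.edges δ) Y ω))} ≤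
        C * η * δ ^ (-(3/4 : ℝ)) := by
  classical
  obtain ⟨C, hC, hst⟩ := cl_stab R
  have hA := R.hA
  have hB := R.hB
  have hH := R.hH
  have ht1 := R.ht1
  obtain ⟨X0, hX0⟩ : ∃ X0, X0 = R.A + R.B + R.H + 1 := ⟨_, rfl⟩
  have hX0p : 1 ≤ X0 := by rw [hX0]; linarith
  obtain ⟨ε', hε'⟩ : ∃ ε', ε' = min ε 1 := ⟨_, rfl⟩
  have hε'0 : 0 < ε' := by rw [hε']; exact lt_min hε one_pos
  have hε'1 : ε' ≤ 1 := by rw [hε']; exact min_le_right _ _
  have hε'2 : ε' ≤ ε := by rw [hε']; exact min_le_left _ _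
  obtain ⟨L, hL⟩ : ∃ L : ℤ, L = ⌈16 * (X0 + 1) / ε'⌉ + 1 := ⟨_, rfl⟩
  obtain ⟨B, hBd⟩ : ∃ B : Finset (ℤ × ℤ), B = Finset.Icc (-L) L ×ˢ Finset.Icc (-L) L := ⟨_, rfl⟩
  refine ⟨8 * C * (B.card + 1) + 4, min (ε' / 16) (min (R.H / 2) (min (R.A + R.t) 1)),
    by positivity, ?_, ?_⟩
  · refine lt_min (by positivity) (lt_min (by positivity) (lt_min (by linarith) one_pos))
  intro δ hδ hδ0 η hη Ω _ P _ X Y hX hY hi h1 h2
  have hδ1 : δ ≤ ε' / 16 := hδ0.trans (min_le_left _ _)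
  have hδ2 : δ ≤ R.H / 2 := hδ0.trans ((min_le_right _ _).trans (min_le_left _ _))
  have hδ3 : δ ≤ R.A + R.t :=
    hδ0.trans ((min_le_right _ _).trans ((min_le_right _ _).trans (min_le_left _ _)))
  have hδ4 : δ ≤ 1 :=
    hδ0.trans ((min_le_right _ _).trans ((min_le_right _ _).trans (min_le_right _ _)))
  have hN : Nd R δ := nd_of hδ (by linarith) hδ3
  have hd34 : 1 ≤ δ ^ (-(3/4 : ℝ)) :=
    Real.one_le_rpow_of_pos_of_le_one_of_nonpos hδ hδ4 (by norm_num)
  by_cases hη1 : 4 * η ≤ 1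
  swap
  · push Not at hη1
    refine measureReal_le_one.trans ?_
    have e1 : 1 ≤ (8 * C * (B.card + 1) + 4) * η := by
      have : 0 ≤ 8 * C * ((B.card : ℝ) + 1) := by positivity
      nlinarith
    nlinarith
  obtain ⟨m, hm1, hm2, hm3, -, hm4⟩ := scale hδ hε'0 (X := X0) (by linarith) (by linarith)
  obtain ⟨s1, s2, s3, s4, s5, s6⟩ := sizes hδ hδ4 hN
  rw [← hX0] at s1 s2 s3 s4 s5 s6
  -- the boxes
  have hBox : ∀ v : Vtx, InV (R.x0 δ) (R.x1 δ) (R.y1 δ) v → ix m v ∈ B := by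
    rintro ⟨x, y⟩ ⟨⟨g1, g2⟩, g3, g4⟩
    simp only at g1 g2 g3 g4
    rw [hBd, Finset.mem_product, hL]
    have r1 : (((R.x0 δ - 1 : ℤ)) : ℝ) ≤ x := by exact_mod_cast (by omega : R.x0 δ - 1 ≤ x)
    have r2 : (x:ℝ) ≤ ((R.x1 δ + 1 : ℤ) : ℝ) := by exact_mod_cast (by omega : x ≤ R.x1 δ + 1)
    have r3 : (((-1 : ℤ)) : ℝ) ≤ y := by exact_mod_cast (by omega : -1 ≤ y)
    have r4 : (y:ℝ) ≤ ((R.y1 δ + 1 : ℤ) : ℝ) := by exact_mod_cast (by omega : y ≤ R.y1 δ + 1)
    have q1 := mul_le_mul_of_nonneg_left r1 hδ.le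
    have q2 := mul_le_mul_of_nonneg_left r2 hδ.le
    have q3 := mul_le_mul_of_nonneg_left r3 hδ.le
    have q4 := mul_le_mul_of_nonneg_left r4 hδ.le
    rw [abs_le] at s1 s2 s4 s5
    exact ⟨hm4 x (by rw [abs_le]; constructor <;> linarith),
      hm4 y (by rw [abs_le]; constructor <;> linarith)⟩
  -- the bad events
  have hsub : {ω | ε ≤ dist (R.trace hδ (FZ (R.edges δ) X ω))
      (R.trace hδ (FZ (R.edges δ) Y ω))} ⊆ ⋃ i ∈ B,
      ({ω | EC R δ (Qb m i.1 i.2) (FZ (R.edges δ) X ω ∪ FZ (R.edges δ) Y ω) ∧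
        ¬ EC R δ (Qb m i.1 i.2) (FZ (R.edges δ) X ω ∩ FZ (R.edges δ) Y ω)} ∪
      {ω | ¬ ED R δ (Qb m i.1 i.2) (FZ (R.edges δ) X ω ∪ FZ (R.edges δ) Y ω) ∧
        ¬ ¬ ED R δ (Qb m i.1 i.2) (FZ (R.edges δ) X ω ∩ FZ (R.edges δ) Y ω)}) := by
    intro ω hω
    by_contra hcon
    simp only [Set.mem_iUnion, Set.mem_union, Set.mem_ofPred_eq, not_exists, not_or] at hcon
    have hle := compare hδ hN (F := FZ (R.edges δ) X ω) (G := FZ (R.edges δ) Y ω) FZ_sub FZ_sub
      hm1 hBox (fun i hi k => by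
        have := (hcon i hi).1
        by_contra hc
        exact this ⟨k, hc⟩) (fun i hi k => by
        have := (hcon i hi).2
        by_contra hc
        exact this ⟨hc, fun h => h k⟩)
    have hω' : ε ≤ dist (R.trace hδ (FZ (R.edges δ) X ω)) (R.trace hδ (FZ (R.edges δ) Y ω)) := hω
    linarith
  -- the estimate of one box
  have hbox : ∀ i ∈ B, P.real ({ω | EC R δ (Qb m i.1 i.2)
        (FZ (R.edges δ) X ω ∪ FZ (R.edges δ) Y ω) ∧
        ¬ EC R δ (Qb m i.1 i.2) (FZ (R.edges δ) X ω ∩ FZ (R.edges δ) Y ω)} ∪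
      {ω | ¬ ED R δ (Qb m i.1 i.2) (FZ (R.edges δ) X ω ∪ FZ (R.edges δ) Y ω) ∧
        ¬ ¬ ED R δ (Qb m i.1 i.2) (FZ (R.edges δ) X ω ∩ FZ (R.edges δ) Y ω)}) ≤
      8 * C * η * δ ^ (-(3/4 : ℝ)) := by
    intro i _
    refine (measureReal_union_le _ _).trans ?_
    have incC : IncrE (R.edges δ) (EC R δ (Qb m i.1 i.2)) := fun F G h _ hF => EC_mono h hF
    have incD : IncrE (R.edges δ) (fun F => ¬ ED R δ (Qb m i.1 i.2) F) :=
      fun F G h _ hF hG => hF (ED_anti h hG)
    have t1 := sandwich hX hY hi hη hη1 h1 h2 incC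
    have t2 := sandwich hX hY hi hη hη1 h1 h2 incD
    have z1 : δ * (((i.1 + 2) * m : ℤ) : ℝ) - δ * ((i.1 * m : ℤ) : ℝ) ≤ R.A + R.B + R.H + 1 := by
      push_cast
      have : δ * (((i.1:ℝ) + 2) * m) - δ * (i.1 * m) = δ * (2 * m) := by ring
      rw [this]
      linarith
    have z2 : δ * (((i.2 + 2) * m : ℤ) : ℝ) - δ * ((i.2 * m : ℤ) : ℝ) ≤ R.A + R.B + R.H + 1 := by
      push_cast
      have : δ * (((i.2:ℝ) + 2) * m) - δ * (i.2 * m) = δ * (2 * m) := by ring
      rw [this]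
      linarith
    have up := hst δ hδ hδ4 hN _ _ _ _ z1 z2 (1/2 + 2 * η) (by linarith) (by linarith)
    have dn := hst δ hδ hδ4 hN _ _ _ _ z1 z2 (1/2 - 2 * η) (by linarith) (by linarith)
    have e1 : |1/2 + 2 * η - 1/2| = 2 * η := by
      rw [add_sub_cancel_left, abs_of_nonneg (by linarith)]
    have e2 : |1/2 - 2 * η - 1/2| = 2 * η := by
      have : (1:ℝ)/2 - 2 * η - 1/2 = -(2 * η) := by ring
      rw [this, abs_neg, abs_of_nonneg (by linarith)]
    rw [e1] at up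
    rw [e2] at dn
    change |Pr _ _ (EC R δ (Qb m i.1 i.2)) - Pr _ _ (EC R δ (Qb m i.1 i.2))| ≤ _ ∧
      |Pr _ _ (ED R δ (Qb m i.1 i.2)) - Pr _ _ (ED R δ (Qb m i.1 i.2))| ≤ _ at up dn
    rw [abs_le, abs_le] at up dn
    rw [Pr_not, Pr_not] at t2
    have f1 := up.1.2
    have f2 := dn.1.1
    have f3 := up.2.1
    have f4 := dn.2.2
    have e3 : 8 * C * η * δ ^ (-(3/4 : ℝ)) = 4 * (C * (2 * η) * δ ^ (-(3/4 : ℝ))) := by ring
    rw [e3]
    linarith
  refine (measureReal_mono hsub (measure_ne_top _ _)).trans ?_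
  refine (measureReal_biUnion_finset_le _ _).trans ?_
  refine (Finset.sum_le_sum hbox).trans ?_
  rw [Finset.sum_const, nsmul_eq_mul]
  have : 0 ≤ η * δ ^ (-(3/4 : ℝ)) := by positivity
  nlinarith [mul_nonneg hC.le this, mul_nonneg (Nat.cast_nonneg (α := ℝ) B.card) (mul_nonneg hC.le this)]

end K3h14.NC
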