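import Pool.Agent.K3h14.NC.Bpv

/-!
The derivative of the probability of a connection from left to right in a general domain, from
below, in the near-critical window.
-/

set_option maxHeartbeats 2000000

namespace K3h14.NC

open H974 H12S H973N Finset Pool.Agent.W424.NC TH291.NW

theorem piv_deriv (q : ℝ) (S : Finset Edg) (I J : Set Vtx) :
    HasDerivAt (fun q : ℝ => Pr (fun _ => q) S (fun F => Cn I J (↑F : Set Edg)))
      (∑ e ∈ S, PQ q S (fun F => Pv I J e ↑F)) q := by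
  have hmono : ∀ F G : Finset Edg, F ⊆ G → Cn I J (↑F : Set Edg) → Cn I J (↑G : Set Edg) :=
    fun F G h hF => BS_Cn_mono (by exact_mod_cast h) hF
  have h := deriv_f S (fun F => Cn I J (↑F : Set Edg)) hmono q
  convert h using 1
  apply Finset.sum_congr rfl
  intro e _
  unfold PQ
  apply Pr_congr
  intro F _
  unfold Pv Pf
  simp only [Finset.coe_insert, Finset.coe_erase]

theorem deriv_low_gen (K : ℕ) (hK : 1 ≤ K) : ∃ (b c : ℝ) (μ0 : ℕ), 0 < b ∧ b ≤ 1/4 ∧ 0 < c ∧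
    1 ≤ μ0 ∧ ∀ μ : ℕ, μ0 ≤ μ → ∀ (a b' c' d : ℤ) (p : ℤ × ℤ) (S : Finset Edg)
      (I J I' J' : Set Vtx), S ⊆ RE a b' c' d →
      (∀ x y : ℤ, ((x, y, true) : Edg) ∈ RE a b' c' d → ((c' < y ∧ y < d) ∨ p.1 - μ ≤ x) →
        ((x, y, true) : Edg) ∈ S) →
      (∀ x y : ℤ, ((x, y, false) : Edg) ∈ RE a b' c' d → a < x → ((x, y, false) : Edg) ∈ S) →
      (∀ u ∈ I, u.1 ≤ p.1 - μ) → (∀ v ∈ J, p.1 + μ ≤ v.1) → lsd a c' d ⊆ I → lsd b' c' d ⊆ J →
      H12S.DomD S I J I' J' → (∀ v ∈ I' ∪ J', (μ:ℤ) ≤ |v.2 - p.2|) →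
      a + μ ≤ p.1 → p.1 + μ ≤ b' → c' + μ ≤ p.2 → p.2 + μ ≤ d →
      b' - a ≤ K * μ → d - c' ≤ K * μ → ∀ q : ℝ, |q - 1/2| ≤ b * (μ:ℝ) ^ (-(3/4 : ℝ)) →
      c * (μ:ℝ) ^ (3/4 : ℝ) ≤ ∑ e ∈ S, PQ q S (fun F => Pv I J e ↑F) := by
  obtain ⟨κ, b0, c0, C0, hκ, hb0, hc0, hC0, hnear⟩ := nearS
  obtain ⟨b, hb⟩ : ∃ b : ℝ, b = min b0 (1/4) := ⟨_, rfl⟩
  have hbpos : 0 < b := by rw [hb]; exact lt_min hb0 (by norm_num)
  have hbb0 : b ≤ b0 := by rw [hb]; exact min_le_left _ _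
  have hb4 : b ≤ 1/4 := by rw [hb]; exact min_le_right _ _
  have hN : NearP b c0 C0 := fun n hn q hq => (hnear n hn q (hq.trans
    (mul_le_mul_of_nonneg_right hbb0 (by positivity)))).2
  have hWn : ∀ n : ℕ, 1 ≤ n → ∀ q : ℝ, |q - 1/2| ≤ b * (n:ℝ) ^ (-(3/4 : ℝ)) →
      H12S.Win q κ n := fun n hn q hq => (hnear n hn q (hq.trans
    (mul_le_mul_of_nonneg_right hbb0 (by positivity)))).1
  obtain ⟨c1, hc1, hrsw⟩ := rsw (32 * K) (by omega)
  obtain ⟨δ, hδ⟩ : ∃ δ : ℝ, δ = c1^4 / 2 := ⟨_, rfl⟩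
  have hδ0 : 0 < δ := by rw [hδ]; positivity
  obtain ⟨B, Mr, Ci, hB, hMr, hCi, hin⟩ := inward_scale_gen hκ hbpos hc0 hN hWn hδ0
  have hBr : (2:ℝ) ≤ B := by exact_mod_cast hB
  refine ⟨b, δ / (Ci * (32 * B)), 16 * B * (Mr + 1), hbpos, hb4, by positivity, ?_, ?_⟩
  · have : 1 ≤ B * (Mr + 1) := Nat.mul_pos (by omega) (by omega)
    calc 1 ≤ B * (Mr + 1) := this
      _ ≤ 16 * (B * (Mr + 1)) := by omega
      _ = 16 * B * (Mr + 1) := by ring
  intro μ hμ a b' c' d p S I J I' J' hSR hS1 hS2 hI hJ hI' hJ' hdom hfar m1 m2 m3 m4 z1 z2 q hq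
  have hB16 : 0 < 16 * B := by omega
  have hμ1 : 1 ≤ μ := by
    refine le_trans ?_ hμ
    exact Nat.mul_pos hB16 (by omega)
  have hμr : (1:ℝ) ≤ μ := by exact_mod_cast hμ1
  have hμ0r : (0:ℝ) < μ := by linarith
  have hwn1 : (μ:ℝ) ^ (-(3/4 : ℝ)) ≤ 1 := Real.rpow_le_one_of_one_le_of_nonpos hμr (by norm_num)
  have hwn0 : 0 < (μ:ℝ) ^ (-(3/4 : ℝ)) := by positivity
  have hq4 : |q - 1/2| ≤ 1/4 := by
    refine hq.trans ?_
    calc b * (μ:ℝ) ^ (-(3/4 : ℝ)) ≤ 1/4 * 1 := mul_le_mul hb4 hwn1 hwn0.le (by norm_num)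
      _ = 1/4 := by norm_num
  have hq1' : |q - 1/2| ≤ (μ:ℝ) ^ (-(3/4 : ℝ)) := by
    refine hq.trans ?_
    nlinarith
  obtain ⟨hql, hqu⟩ := abs_le.mp hq4
  have hqa : 1/4 ≤ q := by linarith
  have hqb : q ≤ 3/4 := by linarith
  have h0 : 0 ≤ q := by linarith
  have h1 : q ≤ 1 := by linarith
  obtain ⟨Sg, hSg⟩ : ∃ Sg : ℝ, Sg = ∑ e ∈ S, PQ q S (fun F => Pv I J e ↑F) := ⟨_, rfl⟩
  rw [← hSg]
  obtain ⟨r, hr⟩ : ∃ r : ℕ, r = μ / (16 * B) := ⟨_, rfl⟩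
  have hμlt : μ < 16 * B * (r + 1) := by rw [hr]; exact Nat.lt_mul_div_succ _ hB16
  have hrμ : 16 * B * r ≤ μ := by rw [hr]; exact Nat.mul_div_le μ (16 * B)
  have hc : Mr ≤ r := by
    have : Mr + 1 ≤ r := by
      rw [hr, Nat.le_div_iff_mul_le hB16, mul_comm]
      exact hμ
    omega
  have hr1 : 1 ≤ r := hMr.trans hc
  obtain ⟨s, hs⟩ : ∃ s : ℕ, s = B * r := ⟨_, rfl⟩
  have hs16 : 16 * s ≤ μ := by rw [hs]; rw [mul_assoc] at hrμ; exact hrμ
  have hμs : μ < 32 * s := by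
    have e1 : 16 * B * (r + 1) ≤ 16 * B * (2 * r) := Nat.mul_le_mul_left _ (by omega)
    have e2 : 16 * B * (2 * r) = 32 * s := by rw [hs]; ring
    omega
  have hs2 : 2 ≤ s := by
    rw [hs]
    calc 2 = 2 * 1 := rfl
      _ ≤ B * r := Nat.mul_le_mul hB hr1
  obtain ⟨ρ, hρ⟩ : ∃ ρ : ℕ, ρ = s - 1 := ⟨_, rfl⟩
  have hρ1 : 1 ≤ ρ := by omega
  have hKs : K * μ ≤ 32 * K * (2 * ρ) := by
    have e1 : K * μ ≤ K * (32 * (2 * ρ)) := Nat.mul_le_mul_left _ (by omega)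
    calc K * μ ≤ K * (32 * (2 * ρ)) := e1
      _ = _ := by ring
  have hK32 : ∀ x : ℕ, x ≤ 32 * K * x := fun x => Nat.le_mul_of_pos_left _ (by omega)
  have hKm : ∀ x : ℕ, x ≤ K * μ → x ≤ 32 * K * μ := fun x hx => hx.trans (by
    have := hK32 1
    nlinarith)
  -- the four rectangles
  obtain ⟨w1, hw1⟩ := Int.eq_ofNat_of_zero_le (show 0 ≤ p.1 - ρ - a by omega)
  obtain ⟨w2, hw2⟩ := Int.eq_ofNat_of_zero_le (show 0 ≤ b' - (p.1 + ρ) by omega)
  obtain ⟨w3, hw3⟩ := Int.eq_ofNat_of_zero_le (show 0 ≤ d - (p.2 + ρ) by omega)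
  obtain ⟨w4, hw4⟩ := Int.eq_ofNat_of_zero_le (show 0 ≤ p.2 - ρ - c' by omega)
  have k1 : w1 ≤ K * μ := by
    have : (w1:ℤ) ≤ K * μ := by omega
    exact_mod_cast this
  have k2 : w2 ≤ K * μ := by
    have : (w2:ℤ) ≤ K * μ := by omega
    exact_mod_cast this
  have k3 : w3 ≤ K * μ := by
    have : (w3:ℤ) ≤ K * μ := by omega
    exact_mod_cast this
  have k4 : w4 ≤ K * μ := by
    have : (w4:ℤ) ≤ K * μ := by omega
    exact_mod_cast this
  have r1 := hrsw μ hμ1 q hqa hqb hq1' w1 (2 * ρ) (by omega) (by omega)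
    (k1.trans hKs) (le_trans (by omega) (hK32 w1)) (hKm _ k1)
  have r2 := hrsw μ hμ1 q hqa hqb hq1' w2 (2 * ρ) (by omega) (by omega)
    (k2.trans hKs) (le_trans (by omega) (hK32 w2)) (hKm _ k2)
  have r3 := hrsw μ hμ1 q hqa hqb hq1' (2 * ρ) w3 (by omega) (by omega)
    (le_trans (by omega) (hK32 w3)) (k3.trans hKs) (le_trans (by omega) (hK32 μ))
  have r4 := hrsw μ hμ1 q hqa hqb hq1' (2 * ρ) w4 (by omega) (by omega)
    (le_trans (by omega) (hK32 w4)) (k4.trans hKs) (le_trans (by omega) (hK32 μ))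
  have hρμ : (ρ:ℤ) < μ := by omega
  have hbp := bpv_prob_gen h0 h1 (a := a) (b := b') (c := c') (d := d) (p := p) (ρ := ρ) hρ1
    (by omega) (by omega) (I := I) (J := J) (fun u hu => (hI u hu).trans (by omega))
    (fun v hv => le_trans (by omega) (hJ v hv)) hI' hJ' hSR
    (by
      rintro ⟨x, y, _ | _⟩ he
      · rw [mem_LRE_false] at he
        exact hS2 x y (by rw [mem_RE_false]; omega) he.1
      · rw [mem_LRE_true] at he
        exact hS1 x y (by rw [mem_RE_true]; omega) (Or.inl ⟨by omega, by omega⟩))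
    (by
      rintro ⟨x, y, _ | _⟩ he
      · rw [mem_LRE_false] at he
        exact hS2 x y (by rw [mem_RE_false]; omega) (by omega)
      · rw [mem_LRE_true] at he
        exact hS1 x y (by rw [mem_RE_true]; omega) (Or.inl ⟨by omega, by omega⟩))
    (by
      rintro ⟨x, y, _ | _⟩ he
      · rw [mem_LRE_false] at he
        exact hS2 x y (by rw [mem_RE_false]; omega) (by omega)
      · rw [mem_LRE_true] at he
        exact hS1 x y (by rw [mem_RE_true]; omega) (Or.inr (by omega)))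
    (by
      rintro ⟨x, y, _ | _⟩ he
      · rw [mem_LRE_false] at he
        exact hS2 x y (by rw [mem_RE_false]; omega) (by omega)
      · rw [mem_LRE_true] at he
        exact hS1 x y (by rw [mem_RE_true]; omega) (Or.inr (by omega)))
  have t5 : (2 * (ρ:ℤ)) = ((2 * ρ : ℕ) : ℤ) := by push_cast; ring
  rw [hw1, hw2, hw3, hw4, t5] at hbp
  obtain ⟨P, hP⟩ : ∃ P : ℝ, P = PQ q S (fun F => BPv I J (blk p ρ) ↑F) := ⟨_, rfl⟩
  rw [← hP] at hbp
  have hPlow : c1^4 ≤ P := by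
    refine le_trans ?_ hbp
    have e : c1^4 = (c1 * c1) * (c1 * c1) := by ring
    rw [e]
    refine mul_le_mul ?_ ?_ (by positivity) ?_
    · exact mul_le_mul r1.1 r2.1 hc1.le (hc1.le.trans r1.1)
    · exact mul_le_mul r3.2 r4.2 hc1.le (hc1.le.trans r3.2)
    · exact mul_nonneg (hc1.le.trans r1.1) (hc1.le.trans r2.1)
  have hblk : blk p (3 * (B * r)) ⊆ S := by
    rw [← hs]
    rintro ⟨x, y, _ | _⟩ he
    · unfold blk at he
      rw [mem_RE_false] at he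
      push_cast at he
      exact hS2 x y (by rw [mem_RE_false]; omega) (by omega)
    · unfold blk at he
      rw [mem_RE_true] at he
      push_cast at he
      exact hS1 x y (by rw [mem_RE_true]; omega) (Or.inl ⟨by omega, by omega⟩)
  have hfar1 : FarS (I ∪ J) p (3 * (B * r)) := by
    rw [← hs]
    rintro v (hv | hv)
    · left
      have := hI v hv
      rw [abs_sub_comm, abs_of_nonneg (by omega)]
      push_cast
      omega
    · left
      have := hJ v hv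
      rw [abs_of_nonneg (by omega)]
      push_cast
      omega
  have hfar2 : FarS (I' ∪ J') p (3 * (B * r) + 1) := by
    rw [← hs]
    intro v hv
    right
    have := hfar v hv
    push_cast
    omega
  have hmain := hin μ hμ1 q hq r hc (by rw [← hs]; omega) p S I J I' J' hblk hdom hfar1 hfar2
  rw [← hs, ← hρ, ← hP, ← hSg] at hmain
  have hPδ : δ ≤ P - δ := by rw [hδ]; linarith
  have hr34 : (μ:ℝ) ^ (3/4 : ℝ) ≤ (32 * B) * (r:ℝ) ^ (3/4 : ℝ) := by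
    have e1 : (μ:ℝ) ≤ (32 * B) * r := by
      have e2 : (μ:ℝ) ≤ ((32 * s : ℕ) : ℝ) := by exact_mod_cast hμs.le
      rw [hs] at e2
      push_cast at e2
      linarith
    have e2 := Real.rpow_le_rpow hμ0r.le e1 (by norm_num : (0:ℝ) ≤ 3/4)
    rw [Real.mul_rpow (by positivity) (by positivity)] at e2
    refine e2.trans (mul_le_mul_of_nonneg_right ?_ (by positivity))
    have e3 : (1:ℝ) ≤ 32 * B := by nlinarith
    calc (32 * (B:ℝ)) ^ (3/4 : ℝ) ≤ (32 * (B:ℝ)) ^ (1:ℝ) :=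
          Real.rpow_le_rpow_of_exponent_le e3 (by norm_num)
      _ = _ := Real.rpow_one _
  have hr0 : 0 ≤ (r:ℝ) ^ (3/4 : ℝ) := by positivity
  have e5 : δ * (r:ℝ) ^ (3/4 : ℝ) ≤ Ci * Sg :=
    (mul_le_mul_of_nonneg_right hPδ hr0).trans hmain
  calc δ / (Ci * (32 * B)) * (μ:ℝ) ^ (3/4 : ℝ)
      ≤ δ / (Ci * (32 * B)) * ((32 * B) * (r:ℝ) ^ (3/4 : ℝ)) :=
        mul_le_mul_of_nonneg_left hr34 (by positivity)
    _ = (δ * (r:ℝ) ^ (3/4 : ℝ)) / Ci := by field_simp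
    _ ≤ Sg := by rw [div_le_iff₀ hCi]; linarith

end K3h14.NC
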