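import Pool.Agent.K3h14.NC.Det

/-!
If one of the two clusters stays near its boundary arc, then the path is near this arc.
-/

set_option maxHeartbeats 1000000

namespace K3h14.NC

open H974 H973 H12S H934E Finset TH291.NW

variable {R : Rect} {δ : ℝ}

/-- Sup-distance at most `M`. -/
def Nr (M : ℤ) (u v : Vtx) : Prop := |u.1 - v.1| ≤ M ∧ |u.2 - v.2| ≤ M

/-- If no vertex near the segment is a vertex of a corner, the potential is constant on it. -/
theorem P_walk {F : Finset Edg} {v w : Vtx} (hv : InV (R.x0 δ) (R.x1 δ) (R.y1 δ) v)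
    (hw : InV (R.x0 δ) (R.x1 δ) (R.y1 δ) w)
    (h : ∀ u f, BB v w u → At u f → u ∈ R.clu δ F → f ∈ R.dclu δ F → False)
    (h' : ∀ u u' f, BB v w u → BB v w u' → At u f → At u' f → u ∈ R.clu δ F →
      f ∈ R.dclu δ F → False := fun u _ f a _ b _ c d => h u f a b c d) :
    P R δ F v = P R δ F w := by
  by_contra hne
  obtain ⟨u, u', g, b1, b2', a1, a2, hne2⟩ := walk (par F) hv hw hne
  have hd : g ∈ R.dclu δ F := by
    by_contra hc
    exact hne2 (by rw [show dI R δ F g = 0 from b2_not_of hc, mul_zero])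
  by_cases hu : u ∈ R.clu δ F
  · exact h' u u' g b1 b2' a1 a2 hu hd
  · by_cases hu' : u' ∈ R.clu δ F
    · exact h' u' u g b2' b1 a2 a1 hu' hd
    · apply hne2
      rw [show cI R δ F u = 0 from b2_not_of hu, show cI R δ F u' = 0 from b2_not_of hu',
        add_zero, zero_mul]

/-- Deep points on the right. -/
theorem deep_dual (hN : Nd R δ) {n : ℤ} (hn : 1 ≤ n) (h1 : 2 * n ≤ R.y1 δ)
    (h2 : n ≤ R.x1 δ - R.x0 δ) {g : Vtx} (hg : g ∈ R.outer δ) :
    ∃ w : Vtx, (R.x0 δ ≤ w.1 ∧ w.1 ≤ R.x1 δ - n) ∧ (n ≤ w.2 ∧ w.2 ≤ R.y1 δ - n) ∧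
      Nr (n + 1) w g := by
  obtain ⟨n1, n2, n3, n4, n5⟩ := hN
  obtain ⟨x, y⟩ := g
  unfold Nr
  rcases hg with ⟨g1, g2, g3⟩ | ⟨g1, g2, g3⟩ | ⟨g1, g2, g3⟩
  · simp only at g1 g2 g3
    refine ⟨(min x (R.x1 δ - n), n), ?_, ?_, ?_, ?_⟩ <;> simp only
    · omega
    · omega
    · rw [abs_le]; omega
    · rw [abs_le]; omega
  · simp only at g1 g2 g3
    refine ⟨(R.x1 δ - n, max n (min y (R.y1 δ - n))), ?_, ?_, ?_, ?_⟩ <;> simp only
    · omega
    · omega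
    · rw [abs_le]; omega
    · rw [abs_le]; omega
  · simp only at g1 g2 g3
    refine ⟨(min x (R.x1 δ - n), R.y1 δ - n), ?_, ?_, ?_, ?_⟩ <;> simp only
    · omega
    · omega
    · rw [abs_le]; omega
    · rw [abs_le]; omega

/-- Deep points on the left. -/
theorem deep_prim (hN : Nd R δ) {n : ℤ} (hn : 1 ≤ n) (h1 : 2 * n ≤ R.y1 δ)
    (h2 : n ≤ R.x1 δ - R.x0 δ) {v : Vtx} (hv : v ∈ I0 R δ) :
    ∃ w : Vtx, (R.x0 δ + n ≤ w.1 ∧ w.1 ≤ R.x1 δ) ∧ (n ≤ w.2 ∧ w.2 ≤ R.y1 δ - n) ∧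
      Nr n w v := by
  obtain ⟨n1, n2, n3, n4, n5⟩ := hN
  obtain ⟨x, y⟩ := v
  unfold Nr
  rcases hv with ⟨g1, g2, g3⟩ | ⟨g1, g2, g3⟩ | ⟨g1, g2, g3⟩
  · simp only at g1 g2 g3
    refine ⟨(max x (R.x0 δ + n), R.y1 δ - n), ?_, ?_, ?_, ?_⟩ <;> simp only
    · omega
    · omega
    · rw [abs_le]; omega
    · rw [abs_le]; omega
  · simp only at g1 g2 g3
    refine ⟨(R.x0 δ + n, max n (min y (R.y1 δ - n))), ?_, ?_, ?_, ?_⟩ <;> simp only
    · omega
    · omega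
    · rw [abs_le]; omega
    · rw [abs_le]; omega
  · simp only at g1 g2 g3
    refine ⟨(max x (R.x0 δ + n), n), ?_, ?_, ?_, ?_⟩ <;> simp only
    · omega
    · omega
    · rw [abs_le]; omega
    · rw [abs_le]; omega

/-- The dual cluster stays near its arc. -/
def NearD (R : Rect) (δ : ℝ) (F : Finset Edg) (M : ℤ) : Prop :=
  ∀ f ∈ R.dclu δ F, ∃ g ∈ R.outer δ, Nr M f g

/-- The open cluster stays near its arc. -/
def NearC (R : Rect) (δ : ℝ) (F : Finset Edg) (M : ℤ) : Prop :=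
  ∀ v ∈ R.clu δ F, ∃ u ∈ I0 R δ, Nr M v u

theorem mem_I0_inV (hN : Nd R δ) {u : Vtx} (hu : u ∈ I0 R δ) :
    InV (R.x0 δ) (R.x1 δ) (R.y1 δ) u := by
  obtain ⟨n1, n2, n3, n4, n5⟩ := hN
  obtain ⟨x, y⟩ := u
  unfold InV
  rcases hu with ⟨g1, g2, g3⟩ | ⟨g1, g2, g3⟩ | ⟨g1, g2, g3⟩ <;> simp only at g1 g2 g3 ⊢ <;> omega

theorem outer_far {n x b : ℤ} (h1 : x ≤ R.x1 δ - n) (h2 : n ≤ b) (h3 : b ≤ R.y1 δ - n)
    {f g : Vtx} (hf : At (x, b) f) (hg : g ∈ R.outer δ) {M : ℤ} (hM : M < n) (hn : Nr M f g) :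
    False := by
  obtain ⟨a, c⟩ := g
  obtain ⟨f1, f2⟩ := f
  unfold Nr at hn
  unfold At at hf
  simp only at hn hf
  rw [abs_le, abs_le] at hn
  rcases hg with ⟨g1, g2, g3⟩ | ⟨g1, g2, g3⟩ | ⟨g1, g2, g3⟩ <;> simp only at g1 g2 g3 <;>
    rcases hf with ⟨s1 | s1, s2 | s2⟩ <;> omega

theorem I0_far {n x b : ℤ} (h1 : R.x0 δ + n ≤ x) (h2 : n ≤ b) (h3 : b ≤ R.y1 δ - n)
    {g : Vtx} (hg : g ∈ I0 R δ) {M : ℤ} (hM : M < n) (hn : Nr M (x, b) g) :
    False := by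
  obtain ⟨a, c⟩ := g
  unfold Nr at hn
  simp only at hn
  rw [abs_le, abs_le] at hn
  rcases hg with ⟨g1, g2, g3⟩ | ⟨g1, g2, g3⟩ | ⟨g1, g2, g3⟩ <;> simp only at g1 g2 g3 <;> omega

/-- **If the dual cluster stays near its arc then the path comes near all the points of this
arc.** -/
theorem arc_dual (hN : Nd R δ) {F : Finset Edg} (hF : F ⊆ R.edges δ) {M n : ℤ} (hM : M < n)
    (hn : 1 ≤ n) (h1 : 2 * n ≤ R.y1 δ) (h2 : n ≤ R.x1 δ - R.x0 δ) (hD : NearD R δ F M)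
    {g : Vtx} (hg : g ∈ R.outer δ) : ∃ k ∈ R.corners δ F, Nr (n + 2) k.1 g := by
  obtain ⟨w1, hw1, hw1g⟩ := dclu_at hN (outer_dclu (F := F) hg)
  obtain ⟨w, hwa, hwb, hwg⟩ := deep_dual hN hn h1 h2 hg
  have hwV : InV (R.x0 δ) (R.x1 δ) (R.y1 δ) w := ⟨⟨hwa.1, by omega⟩, by omega, by omega⟩
  -- a corner near `g`, or the potential is constant between `w1` and `w`
  by_cases hc : ∃ v ∈ R.clu δ F, BB w1 w v
  · obtain ⟨v, hv, hvB⟩ := hc
    obtain ⟨k, hk, hkB⟩ := corner_near hN hF hv (outer_dclu (F := F) hg) hw1 hw1g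
    refine ⟨k, hk, ?_⟩
    unfold Nr at hwg ⊢
    unfold At at hw1g
    unfold BB at hvB hkB
    rw [abs_le, abs_le] at hwg ⊢
    omega
  · exfalso
    push Not at hc
    have e1 : P R δ F w1 = P R δ F w := P_walk hw1 hwV (fun u f hu _ huc _ => hc u huc hu)
    have hl : InV (R.x0 δ) (R.x1 δ) (R.y1 δ) (R.x0 δ, w.2) :=
      ⟨⟨le_rfl, by have := hN.x0; have := hN.x1; simp only; omega⟩, hwV.2⟩
    have e2 : P R δ F w = P R δ F (R.x0 δ, w.2) := by
      apply P_walk hwV hl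
      intro u f hu huf _ hf
      obtain ⟨g', hg', hn'⟩ := hD f hf
      unfold BB at hu
      simp only at hu
      have hu2 : u.2 = w.2 := by omega
      exact outer_far (x := u.1) (b := u.2) (n := n) (by omega) (by omega) (by omega) huf hg' hM hn'
    have e3 : P R δ F (R.x0 δ, w.2) = P R δ F (0, 0) := by
      apply P_clu hN hF
      apply I0_clu hN
      exact Or.inr (Or.inl ⟨rfl, hwV.2⟩)
    have e4 := GF_outer hN F hg w1 hw1 hw1g
    have e5 : cI R δ F w1 = 0 := b2_not_of (fun h => hc w1 h (by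
      unfold BB
      exact ⟨⟨min_le_left _ _, le_max_left _ _⟩, min_le_left _ _, le_max_left _ _⟩))
    rw [e5, add_zero, e1, e2, e3] at e4
    exact one_ne_zero (left_eq_add.mp e4)

/-- **If the open cluster stays near its arc then the path comes near all the points of this
arc.** -/
theorem arc_prim (hN : Nd R δ) {F : Finset Edg} (hF : F ⊆ R.edges δ) {M n : ℤ} (hM : M < n)
    (hn : 1 ≤ n) (h1 : 2 * n ≤ R.y1 δ) (h2 : n ≤ R.x1 δ - R.x0 δ) (hC : NearC R δ F M)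
    {v : Vtx} (hv : v ∈ I0 R δ) : ∃ k ∈ R.corners δ F, Nr n k.1 v := by
  obtain ⟨w, hwa, hwb, hwg⟩ := deep_prim hN hn h1 h2 hv
  have hwV : InV (R.x0 δ) (R.x1 δ) (R.y1 δ) w := ⟨⟨by omega, hwa.2⟩, by omega, by omega⟩
  have hvV := mem_I0_inV hN hv
  by_contra hcon
  push Not at hcon
  have key : ∀ u f, At u f → u ∈ R.clu δ F → f ∈ R.dclu δ F → Nr n u v → False := by
    rintro ⟨u1, u2⟩ ⟨g1, g2⟩ hug hu hg hb
    refine hcon ((u1, u2), (decide (u1 = g1), decide (u2 = g2))) ⟨hu, ?_⟩ hb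
    have : cface (u1, u2) (decide (u1 = g1), decide (u2 = g2)) = (g1, g2) := by
      unfold cface
      unfold At at hug
      simp only at hug
      simp only [decide_eq_true_eq]
      apply Prod.ext
      · simp only
        split_ifs <;> omega
      · simp only
        split_ifs <;> omega
    rw [this]
    exact hg
  have e1 : P R δ F v = P R δ F w := by
    apply P_walk hvV hwV
    intro u f hu huf huc hf
    refine key u f huf huc hf ?_
    unfold Nr at hwg ⊢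
    unfold BB at hu
    rw [abs_le, abs_le] at hwg ⊢
    omega
  have hr : InV (R.x0 δ) (R.x1 δ) (R.y1 δ) (R.x1 δ, w.2) :=
    ⟨⟨by have := hN.x0; have := hN.x1; simp only; omega, le_rfl⟩, hwV.2⟩
  have e2 : P R δ F w = P R δ F (R.x1 δ, w.2) := by
    apply P_walk hwV hr
    intro u f hu huf huc _
    obtain ⟨g', hg', hn'⟩ := hC u huc
    unfold BB at hu
    simp only at hu
    exact I0_far (x := u.1) (b := u.2) (n := n) (by omega) (by omega) (by omega) hg' hM hn'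
  have hgo : ((R.x1 δ, w.2) : Vtx) ∈ R.outer δ :=
    Or.inr (Or.inl ⟨rfl, by simp only; omega, hwV.2.2⟩)
  have e4 := GF_outer hN F hgo (R.x1 δ, w.2) hr ⟨Or.inl rfl, Or.inl rfl⟩
  have e5 : cI R δ F (R.x1 δ, w.2) = 0 := by
    apply b2_not_of
    intro h
    obtain ⟨g', hg', hn'⟩ := hC _ h
    exact I0_far (x := R.x1 δ) (b := w.2) (n := n) (by omega) hwb.1 hwb.2 hg' hM hn'
  have e6 := P_clu hN hF (I0_clu hN F hv)
  rw [e5, add_zero, ← e2, ← e1, e6] at e4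
  exact one_ne_zero (left_eq_add.mp e4)

end K3h14.NC
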