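import Pool.Agent.K3h14.NC.DegD
import Pool.Agent.W424.NC.Win

/-!
Off the critical point one of the two clusters stays near its boundary arc.
-/

set_option maxHeartbeats 1000000

namespace K3h14.NC

open H974 H973 H12S H934E Finset TH291.NW

theorem last_exit {G : Set Edg} {a b c d : ℤ} {u v : Vtx} (hu : u ∈ Bx a b c d)
    (h : Reach G u v) : (v ∈ Bx a b c d ∧ Reach (G ∩ ↑(RE a b c d)) u v) ∨
      ∃ w ∈ Bs a b c d, Reach (G ∩ ↑(RE a b c d)) u w := by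
  induction h with
  | refl => exact Or.inl ⟨hu, Reach.refl _ _⟩
  | @tail v w h0 hs ih =>
    rcases ih with ⟨h1, h2⟩ | h3
    · obtain ⟨e, he, hc⟩ := hs
      have hadj : (v.1 = w.1 ∧ (v.2 = w.2 + 1 ∨ v.2 = w.2 - 1)) ∨
          (v.2 = w.2 ∧ (v.1 = w.1 + 1 ∨ v.1 = w.1 - 1)) := by
        obtain ⟨x, y, _ | _⟩ := e
        · rcases hc with ⟨c1, c2⟩ | ⟨c1, c2⟩
          · rw [← c1, ← c2]; left; exact ⟨rfl, Or.inr (by simp)⟩
          · rw [← c1, ← c2]; left; exact ⟨rfl, Or.inl (by simp)⟩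
        · rcases hc with ⟨c1, c2⟩ | ⟨c1, c2⟩
          · rw [← c1, ← c2]; right; exact ⟨rfl, Or.inr (by simp)⟩
          · rw [← c1, ← c2]; right; exact ⟨rfl, Or.inl (by simp)⟩
      by_cases hw : w ∈ Bx a b c d
      · left
        refine ⟨hw, Relation.ReflTransGen.tail h2 ⟨e, ⟨he, ?_⟩, hc⟩⟩
        have hse : src e ∈ Bx a b c d ∧ tgt e ∈ Bx a b c d := by
          rcases hc with ⟨c1, c2⟩ | ⟨c1, c2⟩
          · rw [c1, c2]; exact ⟨h1, hw⟩
          · rw [c1, c2]; exact ⟨hw, h1⟩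
        rw [Finset.mem_coe]
        obtain ⟨x, y, _ | _⟩ := e
        · rw [mem_RE_false]
          obtain ⟨⟨⟨q1, q2⟩, q3, q4⟩, ⟨q5, q6⟩, q7, q8⟩ := hse
          simp only [src_mk, tgt_false] at q1 q2 q3 q4 q5 q6 q7 q8
          omega
        · rw [mem_RE_true]
          obtain ⟨⟨⟨q1, q2⟩, q3, q4⟩, ⟨q5, q6⟩, q7, q8⟩ := hse
          simp only [src_mk, tgt_true] at q1 q2 q3 q4 q5 q6 q7 q8
          omega
      · right
        refine ⟨v, ⟨h1, ?_⟩, h2⟩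
        have hv' : (a ≤ v.1 ∧ v.1 ≤ b) ∧ (c ≤ v.2 ∧ v.2 ≤ d) := h1
        have hw' : ¬ ((a ≤ w.1 ∧ w.1 ≤ b) ∧ (c ≤ w.2 ∧ w.2 ≤ d)) := hw
        rcases hadj with ⟨k1, k2 | k2⟩ | ⟨k1, k2 | k2⟩ <;> omega
    · exact Or.inr h3

/-- The large box around `Qb m i j`. -/
def Ob (m i j : ℤ) : Set Vtx := Bx ((i - 2) * m) ((i + 4) * m) ((j - 2) * m) ((j + 4) * m)

/-- A crossing of the annulus crosses one of four rectangles. -/
theorem ann_cross {F : Finset Edg} {m i j : ℤ} (hm : 1 ≤ m)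
    (h : Cn (Qb m i j) {v | v ∉ Ob m i j} (↑F : Set Edg)) :
    (LRc ((i + 2) * m) ((i + 4) * m) ((j - 2) * m) ((j + 4) * m) F ∨
      LRc ((i - 2) * m) (i * m) ((j - 2) * m) ((j + 4) * m) F) ∨
    (TBc ((i - 2) * m) ((i + 4) * m) ((j + 2) * m) ((j + 4) * m) F ∨
      TBc ((i - 2) * m) ((i + 4) * m) ((j - 2) * m) (j * m) F) := by
  obtain ⟨u, hu, v, hv, hr⟩ := h
  obtain ⟨im, him⟩ : ∃ im, im = i * m := ⟨_, rfl⟩
  obtain ⟨jm, hjm⟩ : ∃ jm, jm = j * m := ⟨_, rfl⟩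
  have a1 : (i + 2) * m = im + 2 * m := by rw [him]; ring
  have a2 : (i + 4) * m = im + 4 * m := by rw [him]; ring
  have a3 : (i - 2) * m = im - 2 * m := by rw [him]; ring
  have b1 : (j + 2) * m = jm + 2 * m := by rw [hjm]; ring
  have b2 : (j + 4) * m = jm + 4 * m := by rw [hjm]; ring
  have b3 : (j - 2) * m = jm - 2 * m := by rw [hjm]; ring
  unfold Qb at hu
  unfold Ob at hv
  rw [a1, a2, a3, b1, b2, b3, ← him, ← hjm]
  rw [a1, b1, ← him, ← hjm] at hu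
  rw [a2, a3, b2, b3] at hv
  have huO : u ∈ Bx (im - 2 * m) (im + 4 * m) (jm - 2 * m) (jm + 4 * m) := by
    obtain ⟨⟨p1, p2⟩, p3, p4⟩ := hu
    exact ⟨⟨by omega, by omega⟩, by omega, by omega⟩
  obtain ⟨⟨p1, p2⟩, p3, p4⟩ := hu
  rcases last_exit huO hr with ⟨h1, _⟩ | ⟨w, ⟨hw1, hw2⟩, hw⟩
  · exact (hv h1).elim
  · have hT : ∀ x y, ((x, y, true) : Edg) ∈ (↑F : Set Edg) ∩
        ↑(RE (im - 2 * m) (im + 4 * m) (jm - 2 * m) (jm + 4 * m)) →
        (im - 2 * m ≤ x ∧ x < im + 4 * m) ∧ (jm - 2 * m ≤ y ∧ y ≤ jm + 4 * m) := by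
      rintro x y ⟨-, h⟩
      rw [Finset.mem_coe, mem_RE_true] at h
      exact ⟨⟨h.1, h.2.1⟩, h.2.2.1, h.2.2.2⟩
    have hFl : ∀ x y, ((x, y, false) : Edg) ∈ (↑F : Set Edg) ∩
        ↑(RE (im - 2 * m) (im + 4 * m) (jm - 2 * m) (jm + 4 * m)) →
        (im - 2 * m ≤ x ∧ x ≤ im + 4 * m) ∧ (jm - 2 * m ≤ y ∧ y < jm + 4 * m) := by
      rintro x y ⟨-, h⟩
      rw [Finset.mem_coe, mem_RE_false] at h
      exact ⟨⟨h.1, h.2.1⟩, h.2.2.1, h.2.2.2⟩
    rcases hw2 with h2 | h2 | h2 | h2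
    · -- left
      left; right
      obtain ⟨y1, y2, k1, k2, k3, -⟩ := sub_LR (a := im - 2 * m) (b := im)
        (c := jm - 2 * m) (d := jm + 4 * m) (by omega)
        (fun x y h _ _ => (hT x y h).2) (fun x y h _ _ => (hFl x y h).2) hw.symm
        (by omega) (by omega)
      exact ⟨y1, y2, k1, k2, k3.mono (Set.inter_subset_inter_left _ Set.inter_subset_left)⟩
    · left; left
      obtain ⟨y1, y2, k1, k2, k3, -⟩ := sub_LR (a := im + 2 * m) (b := im + 4 * m)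
        (c := jm - 2 * m) (d := jm + 4 * m) (by omega)
        (fun x y h _ _ => (hT x y h).2) (fun x y h _ _ => (hFl x y h).2) hw
        (by omega) (by omega)
      exact ⟨y1, y2, k1, k2, k3.mono (Set.inter_subset_inter_left _ Set.inter_subset_left)⟩
    · right; right
      obtain ⟨y1, y2, k1, k2, k3, -⟩ := sub_TB (a := im - 2 * m) (b := im + 4 * m)
        (c := jm - 2 * m) (d := jm) (by omega)
        (fun x y h _ _ => (hFl x y h).1) (fun x y h _ _ => (hT x y h).1) hw.symm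
        (by omega) (by omega)
      exact ⟨y1, y2, k1, k2, k3.mono (Set.inter_subset_inter_left _ Set.inter_subset_left)⟩
    · right; left
      obtain ⟨y1, y2, k1, k2, k3, -⟩ := sub_TB (a := im - 2 * m) (b := im + 4 * m)
        (c := jm + 2 * m) (d := jm + 4 * m) (by omega)
        (fun x y h _ _ => (hFl x y h).1) (fun x y h _ _ => (hT x y h).1) hw
        (by omega) (by omega)
      exact ⟨y1, y2, k1, k2, k3.mono (Set.inter_subset_inter_left _ Set.inter_subset_left)⟩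

theorem pr_LR_le {q : ℝ} (h0 : 0 ≤ q) (h1 : q ≤ 1) (S : Finset Edg) {a b c d w h : ℤ}
    (hw : b - a = w) (hh' : d - c = h) : Pr (fun _ => q) S (LRc a b c d) ≤ hh q w h := by
  rw [← hw, ← hh', ← pr_LRc q (Finset.subset_union_right (s₁ := S) (s₂ := LRE a b c d))]
  exact Pr_mono_set (okq h0 h1) Finset.subset_union_left (LRc_incr _ _ _ _ _)

theorem pr_TB_le {q : ℝ} (h0 : 0 ≤ q) (h1 : q ≤ 1) (S : Finset Edg) {a b c d w h : ℤ}
    (hw : d - c = w) (hh' : b - a = h) : Pr (fun _ => q) S (TBc a b c d) ≤ hh q w h := by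
  rw [← hw, ← hh', ← pr_TBc q (Finset.subset_union_right (s₁ := S) (s₂ := TBE a b c d))]
  exact Pr_mono_set (okq h0 h1) Finset.subset_union_left (TBc_incr _ _ _ _ _)

theorem ann_pr {q : ℝ} (h0 : 0 ≤ q) (h1 : q ≤ 1) (S : Finset Edg) {m : ℤ} (hm : 1 ≤ m)
    (i j : ℤ) : Pr (fun _ => q) S (fun F => Cn (Qb m i j) {v | v ∉ Ob m i j} (↑F : Set Edg)) ≤
      4 * hh q (2 * m) (6 * m) := by
  have ok := okq h0 h1
  refine (Pr_mono ok (fun F _ h => ann_cross hm h)).trans ?_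
  refine (Pr_or_le ok S _ _).trans ?_
  refine (add_le_add (Pr_or_le ok S _ _) (Pr_or_le ok S _ _)).trans ?_
  have e1 := pr_LR_le h0 h1 S (a := (i + 2) * m) (b := (i + 4) * m) (c := (j - 2) * m)
    (d := (j + 4) * m) (w := 2 * m) (h := 6 * m) (by ring) (by ring)
  have e2 := pr_LR_le h0 h1 S (a := (i - 2) * m) (b := i * m) (c := (j - 2) * m)
    (d := (j + 4) * m) (w := 2 * m) (h := 6 * m) (by ring) (by ring)
  have e3 := pr_TB_le h0 h1 S (a := (i - 2) * m) (b := (i + 4) * m) (c := (j + 2) * m)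
    (d := (j + 4) * m) (w := 2 * m) (h := 6 * m) (by ring) (by ring)
  have e4 := pr_TB_le h0 h1 S (a := (i - 2) * m) (b := (i + 4) * m) (c := (j - 2) * m)
    (d := j * m) (w := 2 * m) (h := 6 * m) (by ring) (by ring)
  linarith

/-- Crossings of annuli below the critical point. -/
theorem ann_exp : ∃ c C : ℝ, 0 < c ∧ 0 < C ∧ ∀ q : ℝ, 0 ≤ q → q ≤ 1/2 → ∀ (S : Finset Edg)
    (m : ℤ), 1 ≤ m → ∀ i j : ℤ,
    Pr (fun _ => q) S (fun F => Cn (Qb m i j) {v | v ∉ Ob m i j} (↑F : Set Edg)) ≤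
      C * Real.exp (-(c * (m * (1/2 - q)^(4/3 : ℝ)))) := by
  obtain ⟨c, C, hc, hC, h⟩ := Pool.Agent.W424.NC.win_upper 3 (by norm_num)
  refine ⟨2 * c, 4 * C, by positivity, by positivity, ?_⟩
  intro q h0 h1 S m hm i j
  refine (ann_pr h0 (by linarith) S hm i j).trans ?_
  obtain ⟨n, hn⟩ := Int.eq_ofNat_of_zero_le (show 0 ≤ m by omega)
  have hn1 : 1 ≤ n := by omega
  have := h q h0 h1 (2 * n) (6 * n) (by omega) (by omega) (by omega)
  have e1 : (((2 * n : ℕ)) : ℤ) = 2 * m := by rw [hn]; push_cast; rfl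
  have e2 : (((6 * n : ℕ)) : ℤ) = 6 * m := by rw [hn]; push_cast; rfl
  rw [e1, e2] at this
  have e3 : ((2 * n : ℕ) : ℝ) = 2 * (m:ℝ) := by rw [hn]; push_cast; rfl
  rw [e3] at this
  have e4 : 2 * c * ((m:ℝ) * (1/2 - q)^(4/3 : ℝ)) = c * (2 * (m:ℝ) * (1/2 - q)^(4/3 : ℝ)) := by
    ring
  rw [e4]
  linarith

theorem pr_union {ι : Type*} {p : Edg → ℝ} (hp : Ok p) (S : Finset Edg) (B : Finset ι)
    (A : ι → Finset Edg → Prop) :
    Pr p S (fun F => ∃ i ∈ B, A i F) ≤ ∑ i ∈ B, Pr p S (A i) := by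
  classical
  induction B using Finset.induction_on with
  | empty =>
    rw [Finset.sum_empty]
    unfold Pr
    rw [Ex_congr (g := fun _ => 0) (fun F _ => ind_not_of (by simp)), Ex_const]
  | insert a B ha ih =>
    rw [Finset.sum_insert ha]
    refine le_trans (Pr_mono hp (B := fun F => A a F ∨ ∃ i ∈ B, A i F) ?_)
      ((Pr_or_le hp S _ _).trans (add_le_add le_rfl ih))
    rintro F _ ⟨i, hi, h⟩
    rcases Finset.mem_insert.mp hi with rfl | hi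
    · exact Or.inl h
    · exact Or.inr ⟨i, hi, h⟩

variable {R : Rect} {δ : ℝ}

theorem Cn_symm {I J : Set Vtx} {G : Set Edg} (h : Cn I J G) : Cn J I G := by
  obtain ⟨u, hu, v, hv, hr⟩ := h
  exact ⟨v, hv, u, hu, hr.symm⟩

theorem Ob_near {m : ℤ} {v u : Vtx} (hv : v ∈ Qb m ((v.1 - 1) / m) ((v.2 - 1) / m))
    (hu : u ∈ Ob m ((v.1 - 1) / m) ((v.2 - 1) / m)) : Nr (4 * m) v u := by
  obtain ⟨⟨p1, p2⟩, p3, p4⟩ := hv
  obtain ⟨⟨q1, q2⟩, q3, q4⟩ := hu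
  generalize (v.1 - 1) / m = i at *
  generalize (v.2 - 1) / m = j at *
  have a1 : (i + 2) * m = i * m + 2 * m := by ring
  have a2 : (i + 4) * m = i * m + 4 * m := by ring
  have a3 : (i - 2) * m = i * m - 2 * m := by ring
  have b1 : (j + 2) * m = j * m + 2 * m := by ring
  have b2 : (j + 4) * m = j * m + 4 * m := by ring
  have b3 : (j - 2) * m = j * m - 2 * m := by ring
  rw [a1] at p2
  rw [b1] at p4
  rw [a3] at q1
  rw [a2] at q2
  rw [b3] at q3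
  rw [b2] at q4
  unfold Nr
  rw [abs_le, abs_le]
  exact ⟨⟨by linarith, by linarith⟩, by linarith, by linarith⟩

/-- The probability that the dual cluster is far from its arc. -/
theorem far_dual (hN : Nd R δ) {p : ℝ} (h0 : 0 ≤ p) (h1 : p ≤ 1) {m : ℤ} (hm : 1 ≤ m)
    {B : Finset (ℤ × ℤ)}
    (hB : ∀ f : Vtx, (R.x0 δ - 1 ≤ f.1 ∧ f.1 ≤ R.x1 δ + 1) ∧ (-1 ≤ f.2 ∧ f.2 ≤ R.y1 δ + 1) →
      ix m f ∈ B) {K : ℝ}
    (hK : ∀ (S : Finset Edg) (i j : ℤ), Pr (fun _ => 1 - p) S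
      (fun F => Cn (Qb m i j) {v | v ∉ Ob m i j} (↑F : Set Edg)) ≤ K) :
    Pr (fun _ => p) (R.edges δ) (fun F => ¬ NearD R δ F (4 * m)) ≤ B.card * K := by
  classical
  have ok := okq h0 h1
  have hstep : Pr (fun _ => p) (R.edges δ) (fun F => ¬ NearD R δ F (4 * m)) ≤
      Pr (fun _ => p) (R.edges δ) (fun F => ∃ i ∈ B.filter
        (fun i => ∀ g ∈ R.outer δ, g ∉ Ob m i.1 i.2), ED R δ (Qb m i.1 i.2) F) := by
    apply Pr_mono ok
    intro F _ hF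
    unfold NearD at hF
    push Not at hF
    obtain ⟨f, hf, hfar⟩ := hF
    have hfQ : f ∈ Qb m ((f.1 - 1) / m) ((f.2 - 1) / m) := mem_Qb hm (by simp) (by simp)
    refine ⟨ix m f, ?_, f, hf, hfQ⟩
    rw [Finset.mem_filter]
    constructor
    · apply hB
      obtain ⟨w, ⟨⟨g1, g2⟩, g3, g4⟩, ⟨s1, s2⟩⟩ := dclu_at hN hf
      rcases s1 with s1 | s1 <;> rcases s2 with s2 | s2 <;> omega
    · intro g hg hgO
      exact hfar g hg (Ob_near hfQ hgO)
  refine hstep.trans ((pr_union ok _ _ _).trans ?_)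
  have hK0 : 0 ≤ K := (Pr_nonneg (okq (by linarith) (by linarith)) _ _).trans (hK ∅ 0 0)
  have h2 : ∀ i ∈ B.filter (fun i => ∀ g ∈ R.outer δ, g ∉ Ob m i.1 i.2),
      Pr (fun _ => p) (R.edges δ) (ED R δ (Qb m i.1 i.2)) ≤ K := by
    intro i hi
    rw [Finset.mem_filter] at hi
    rw [pr_dual]
    refine le_trans (Pr_mono (okq (by linarith) (by linarith)) ?_) (hK (dmp (eU R δ)) i.1 i.2)
    rintro F _ ⟨g, hg, f, hf, hr⟩
    exact ⟨f, hf, g, hi.2 g hg, hr.symm⟩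
  refine (Finset.sum_le_sum h2).trans ?_
  rw [Finset.sum_const, nsmul_eq_mul]
  apply mul_le_mul_of_nonneg_right _ hK0
  exact_mod_cast Finset.card_filter_le _ _

/-- The probability that the open cluster is far from its arc. -/
theorem far_prim (hN : Nd R δ) {p : ℝ} (h0 : 0 ≤ p) (h1 : p ≤ 1) {m : ℤ} (hm : 1 ≤ m)
    {B : Finset (ℤ × ℤ)}
    (hB : ∀ f : Vtx, (R.x0 δ - 1 ≤ f.1 ∧ f.1 ≤ R.x1 δ + 1) ∧ (-1 ≤ f.2 ∧ f.2 ≤ R.y1 δ + 1) →
      ix m f ∈ B) {K : ℝ}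
    (hK : ∀ (S : Finset Edg) (i j : ℤ), Pr (fun _ => p) S
      (fun F => Cn (Qb m i j) {v | v ∉ Ob m i j} (↑F : Set Edg)) ≤ K) :
    Pr (fun _ => p) (R.edges δ) (fun F => ¬ NearC R δ F (4 * m)) ≤ B.card * K := by
  classical
  have ok := okq h0 h1
  have hstep : Pr (fun _ => p) (R.edges δ) (fun F => ¬ NearC R δ F (4 * m)) ≤
      Pr (fun _ => p) (R.edges δ) (fun F => ∃ i ∈ B.filter
        (fun i => ∀ g ∈ I0 R δ, g ∉ Ob m i.1 i.2), EC R δ (Qb m i.1 i.2) F) := by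
    apply Pr_mono ok
    intro F hFs hF
    unfold NearC at hF
    push Not at hF
    obtain ⟨f, hf, hfar⟩ := hF
    have hfQ : f ∈ Qb m ((f.1 - 1) / m) ((f.2 - 1) / m) := mem_Qb hm (by simp) (by simp)
    refine ⟨ix m f, ?_, f, hf, hfQ⟩
    rw [Finset.mem_filter]
    constructor
    · apply hB
      obtain ⟨⟨g1, g2⟩, g3, g4⟩ := clu_sub hN hFs hf
      omega
    · intro g hg hgO
      exact hfar g hg (Ob_near hfQ hgO)
  refine hstep.trans ((pr_union ok _ _ _).trans ?_)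
  have hK0 : 0 ≤ K := (Pr_nonneg ok _ _).trans (hK ∅ 0 0)
  have h2 : ∀ i ∈ B.filter (fun i => ∀ g ∈ I0 R δ, g ∉ Ob m i.1 i.2),
      Pr (fun _ => p) (R.edges δ) (EC R δ (Qb m i.1 i.2)) ≤ K := by
    intro i hi
    rw [Finset.mem_filter] at hi
    refine le_trans (Pr_mono ok ?_) (hK (R.edges δ) i.1 i.2)
    intro F _ hF
    obtain ⟨g, hg, f, hf, hr⟩ := (EC_iff hN).mp hF
    exact ⟨f, hf, g, hi.2 g hg, hr.symm⟩
  refine (Finset.sum_le_sum h2).trans ?_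
  rw [Finset.sum_const, nsmul_eq_mul]
  apply mul_le_mul_of_nonneg_right _ hK0
  exact_mod_cast Finset.card_filter_le _ _

end K3h14.NC
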