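import Pool.Agent.K3h14.NC.Inst

/-!
Comparison of the traces of two configurations by box events.
-/

set_option maxHeartbeats 1000000

namespace K3h14.NC

open H974 H973 H12S H934E Finset TH291.NW TopologicalSpace

variable {R : Rect} {δ : ℝ}

/-- Every face of the dual cluster is at a vertex of the domain. -/
theorem dclu_at (hN : Nd R δ) {F : Finset Edg} {f : Vtx} (hf : f ∈ R.dclu δ F) :
    ∃ w, InV (R.x0 δ) (R.x1 δ) (R.y1 δ) w ∧ At w f := by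
  obtain ⟨n1, n2, n3, n4, n5⟩ := hN
  obtain ⟨g, hg, h⟩ := hf
  induction h with
  | refl =>
    obtain ⟨x, y⟩ := g
    rcases hg with ⟨h1, h2, h3⟩ | ⟨h1, h2, h3⟩ | ⟨h1, h2, h3⟩
    · simp only at h1 h2 h3
      refine ⟨(x, 0), ⟨⟨?_, ?_⟩, le_rfl, n3⟩, Or.inl rfl, Or.inr (by simp only; omega)⟩ <;>
        simp only <;> omega
    · simp only at h1 h2 h3
      by_cases h4 : y = -1
      · refine ⟨(x, 0), ⟨⟨?_, ?_⟩, le_rfl, n3⟩, Or.inl rfl, Or.inr (by simp only; omega)⟩ <;>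
          simp only <;> omega
      · refine ⟨(x, y), ⟨⟨?_, ?_⟩, ?_, ?_⟩, Or.inl rfl, Or.inl rfl⟩ <;>
          simp only <;> omega
    · simp only at h1 h2 h3
      refine ⟨(x, y), ⟨⟨?_, ?_⟩, ?_, ?_⟩, Or.inl rfl, Or.inl rfl⟩ <;>
        simp only <;> omega
  | @tail a b h0 hs ih =>
    obtain ⟨e, he, hc⟩ := hs
    have hsrc : InV (R.x0 δ) (R.x1 δ) (R.y1 δ) (src e) := (mem_edges_iff.mp he.1).1
    have a1 : At (src e) (dsrc e) := by
      obtain ⟨x, y, _ | _⟩ := e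
      · exact ⟨Or.inr (by simp [src, dsrc]), Or.inl rfl⟩
      · exact ⟨Or.inl rfl, Or.inr (by simp [src, dsrc])⟩
    have a2 : At (src e) (dtgt e) := ⟨Or.inl rfl, Or.inl rfl⟩
    rcases hc with ⟨h2, h3⟩ | ⟨h2, h3⟩
    · exact ⟨src e, hsrc, h3 ▸ a2⟩
    · exact ⟨src e, hsrc, h2 ▸ a1⟩

/-- A box visited by both clusters is near the path. -/
theorem corner_box (hN : Nd R δ) {F : Finset Edg} (hF : F ⊆ R.edges δ) {a b c d : ℤ}
    (h1 : EC R δ (Bx a b c d) F) (h2 : ED R δ (Bx a b c d) F) :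
    ∃ k ∈ R.corners δ F, k.1 ∈ Bx a (b + 1) c (d + 1) := by
  obtain ⟨v, hv, hvB⟩ := h1
  obtain ⟨f, hf, hfB⟩ := h2
  obtain ⟨w, hw, hwf⟩ := dclu_at hN hf
  obtain ⟨k, hk, hB⟩ := corner_near hN hF hv hf hw hwf
  refine ⟨k, hk, ?_⟩
  unfold Bx at hvB hfB ⊢
  simp only [Set.mem_ofPred_eq] at hvB hfB ⊢
  unfold BB at hB
  unfold At at hwf
  obtain ⟨⟨p1, p2⟩, p3, p4⟩ := hvB
  obtain ⟨⟨q1, q2⟩, q3, q4⟩ := hfB
  obtain ⟨⟨r1, r2⟩, r3, r4⟩ := hB
  rcases hwf with ⟨s1 | s1, s2 | s2⟩ <;> rw [s1] at r1 r2 <;> rw [s2] at r3 r4 <;> omega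

/-- Points of the segment of a corner. -/
theorem cseg_near (hδ : 0 < δ) {v : Vtx} {s : Bool × Bool} {z : ℂ} (h2 : z ∈ cseg δ v s) :
    |z.re - δ * v.1| ≤ δ ∧ |z.im - δ * (v.2 + 1)| ≤ δ := by
  unfold cseg at h2
  rw [segment_eq_image] at h2
  obtain ⟨θ, ⟨h3, h4⟩, rfl⟩ := h2
  have ha : |if s.1 then δ / 2 else -(δ / 2)| ≤ δ := by
    split_ifs
    · rw [abs_of_pos (by positivity)]; linarith
    · rw [abs_neg, abs_of_pos (by positivity)]; linarith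
  have hb : |if s.2 then δ / 2 else -(δ / 2)| ≤ δ := by
    split_ifs
    · rw [abs_of_pos (by positivity)]; linarith
    · rw [abs_neg, abs_of_pos (by positivity)]; linarith
  unfold H934E.pt
  simp only [Complex.add_re, Complex.add_im, Complex.real_smul, Complex.mul_re, Complex.mul_im,
    Complex.sub_re, Complex.sub_im, Complex.one_re, Complex.one_im, Complex.ofReal_re,
    Complex.ofReal_im, zero_mul, sub_zero, add_zero, zero_add]
  constructor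
  · have e : (1 - θ) * (δ * (v.1 : ℝ) + if s.1 then δ / 2 else -(δ / 2)) + θ * (δ * (v.1 : ℝ))
        - δ * (v.1 : ℝ) = (1 - θ) * (if s.1 then δ / 2 else -(δ / 2)) := by ring
    rw [e, abs_mul, abs_of_nonneg (by linarith)]
    calc (1 - θ) * |if s.1 then δ / 2 else -(δ / 2)| ≤ 1 * δ :=
          mul_le_mul (by linarith) ha (abs_nonneg _) (by norm_num)
      _ = δ := one_mul _
  · have e : (1 - θ) * (δ * ((v.2 : ℝ) + 1)) + θ * (δ * ((v.2 : ℝ) + 1) +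
        if s.2 then δ / 2 else -(δ / 2)) - δ * ((v.2 : ℝ) + 1) =
        θ * (if s.2 then δ / 2 else -(δ / 2)) := by ring
    rw [e, abs_mul, abs_of_nonneg h3]
    calc θ * |if s.2 then δ / 2 else -(δ / 2)| ≤ 1 * δ :=
          mul_le_mul h4 hb (abs_nonneg _) (by norm_num)
      _ = δ := one_mul _

/-- The path near a point: every point of the path is near a corner. -/
theorem path_corner (hδ : 0 < δ) {F : Finset Edg} {z : ℂ} (hz : z ∈ R.path δ F) :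
    ∃ k ∈ R.corners δ F, |z.re - δ * k.1.1| ≤ δ ∧ |z.im - δ * (k.1.2 + 1)| ≤ δ := by
  unfold Rect.path at hz
  rw [Set.mem_iUnion₂] at hz
  obtain ⟨k, hk, hz⟩ := hz
  exact ⟨k, hk, cseg_near hδ hz⟩

/-- Every corner is near a point of the path. -/
theorem corner_path (hδ : 0 < δ) {F : Finset Edg} {k : Vtx × (Bool × Bool)}
    (hk : k ∈ R.corners δ F) :
    ∃ z ∈ R.path δ F, |z.re - δ * k.1.1| ≤ δ ∧ |z.im - δ * (k.1.2 + 1)| ≤ δ := by
  have hz : (H934E.pt δ k.1 + ⟨if k.2.1 then δ / 2 else -(δ / 2), 0⟩ : ℂ) ∈ cseg δ k.1 k.2 :=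
    left_mem_segment ℝ _ _
  refine ⟨_, ?_, cseg_near hδ hz⟩
  unfold Rect.path
  rw [Set.mem_iUnion₂]
  exact ⟨k, hk, hz⟩

theorem dist_of_near {z z' : ℂ} {M : ℝ} (h1 : |z.re - z'.re| ≤ M) (h2 : |z.im - z'.im| ≤ M) :
    dist z z' ≤ 2 * M := by
  rw [Complex.dist_eq]
  refine (Complex.norm_le_abs_re_add_abs_im _).trans ?_
  rw [Complex.sub_re, Complex.sub_im]
  linarith

/-- The boxes of the comparison. -/
def Qb (m i j : ℤ) : Set Vtx := Bx (i * m) ((i + 2) * m) (j * m) ((j + 2) * m)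

theorem mem_Qb {m : ℤ} (hm : 1 ≤ m) {v u : Vtx} (h1 : |u.1 - v.1| ≤ 1) (h2 : |u.2 - v.2| ≤ 1) :
    u ∈ Qb m ((v.1 - 1) / m) ((v.2 - 1) / m) := by
  have key : ∀ x y : ℤ, |y - x| ≤ 1 → (x - 1) / m * m ≤ y ∧ y ≤ ((x - 1) / m + 2) * m := by
    intro x y h
    rw [abs_le] at h
    have e1 := Int.emod_add_mul_ediv (x - 1) m
    have e2 := Int.emod_nonneg (x - 1) (show m ≠ 0 by omega)
    have e3 := Int.emod_lt_of_pos (x - 1) (show 0 < m by omega)
    have e4 : (x - 1) / m * m = m * ((x - 1) / m) := by ring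
    have e5 : ((x - 1) / m + 2) * m = m * ((x - 1) / m) + 2 * m := by ring
    rw [e4, e5]
    omega
  unfold Qb Bx
  exact ⟨key _ _ h1, key _ _ h2⟩

theorem cface_near (v : Vtx) (s : Bool × Bool) :
    |(cface v s).1 - v.1| ≤ 1 ∧ |(cface v s).2 - v.2| ≤ 1 := by
  unfold cface
  constructor
  · simp only
    split_ifs <;> rw [abs_le] <;> omega
  · simp only
    split_ifs <;> rw [abs_le] <;> omega

/-- One configuration: near every point of the path of `F` there is a point of the path of `G`,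
if `G` visits the box of the point. -/
theorem one_side (hδ : 0 < δ) (hN : Nd R δ) {F G : Finset Edg} (hG : G ⊆ R.edges δ) {m : ℤ}
    (hm : 1 ≤ m)
    (h : ∀ v : Vtx, InV (R.x0 δ) (R.x1 δ) (R.y1 δ) v →
      EC R δ (Qb m ((v.1 - 1) / m) ((v.2 - 1) / m)) F →
      ED R δ (Qb m ((v.1 - 1) / m) ((v.2 - 1) / m)) F →
      EC R δ (Qb m ((v.1 - 1) / m) ((v.2 - 1) / m)) G ∧
      ED R δ (Qb m ((v.1 - 1) / m) ((v.2 - 1) / m)) G)
    (hF : F ⊆ R.edges δ) {z : ℂ} (hz : z ∈ R.path δ F) :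
    ∃ z' ∈ R.path δ G, dist z z' ≤ 2 * (δ * (2 * m + 3)) := by
  obtain ⟨k, hk, hz1, hz2⟩ := path_corner hδ hz
  have hkV := clu_sub hN hF hk.1
  have hv : k.1 ∈ Qb m ((k.1.1 - 1) / m) ((k.1.2 - 1) / m) :=
    mem_Qb hm (by simp) (by simp)
  have hf : cface k.1 k.2 ∈ Qb m ((k.1.1 - 1) / m) ((k.1.2 - 1) / m) :=
    mem_Qb hm (cface_near _ _).1 (cface_near _ _).2
  obtain ⟨g1, g2⟩ := h k.1 hkV ⟨k.1, hk.1, hv⟩ ⟨_, hk.2, hf⟩
  obtain ⟨l, hl, hlB⟩ := corner_box hN hG g1 g2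
  obtain ⟨z', hz', hz1', hz2'⟩ := corner_path hδ hl
  refine ⟨z', hz', dist_of_near ?_ ?_⟩
  · have h1 : |k.1.1 - l.1.1| ≤ 2 * m + 1 := by
      have p := hv.1
      have q := hlB.1
      have e : ((k.1.1 - 1) / m + 2) * m = (k.1.1 - 1) / m * m + 2 * m := by ring
      rw [e] at p q
      rw [abs_le]
      omega
    have h2 : |(k.1.1 : ℝ) - l.1.1| ≤ 2 * m + 1 := by exact_mod_cast h1
    have h3 : |δ * (k.1.1 : ℝ) - δ * l.1.1| ≤ δ * (2 * m + 1) := by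
      rw [← mul_sub, abs_mul, abs_of_pos hδ]
      exact mul_le_mul_of_nonneg_left h2 hδ.le
    rw [abs_le] at hz1 hz1' h3 ⊢
    constructor <;> linarith
  · have h1 : |k.1.2 - l.1.2| ≤ 2 * m + 1 := by
      have p := hv.2
      have q := hlB.2
      have e : ((k.1.2 - 1) / m + 2) * m = (k.1.2 - 1) / m * m + 2 * m := by ring
      rw [e] at p q
      rw [abs_le]
      omega
    have h2 : |(k.1.2 : ℝ) - l.1.2| ≤ 2 * m + 1 := by exact_mod_cast h1
    have h3 : |δ * ((k.1.2 : ℝ) + 1) - δ * (l.1.2 + 1)| ≤ δ * (2 * m + 1) := by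
      have : δ * ((k.1.2 : ℝ) + 1) - δ * (l.1.2 + 1) = δ * ((k.1.2 : ℝ) - l.1.2) := by ring
      rw [this, abs_mul, abs_of_pos hδ]
      exact mul_le_mul_of_nonneg_left h2 hδ.le
    rw [abs_le] at hz2 hz2' h3 ⊢
    constructor <;> linarith

/-- The index of the box of a vertex. -/
def ix (m : ℤ) (v : Vtx) : ℤ × ℤ := ((v.1 - 1) / m, (v.2 - 1) / m)

/-- **Comparison of two configurations.** -/
theorem compare (hδ : 0 < δ) (hN : Nd R δ) {F G : Finset Edg} (hF : F ⊆ R.edges δ)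
    (hG : G ⊆ R.edges δ) {m : ℤ} (hm : 1 ≤ m) {B : Finset (ℤ × ℤ)}
    (hB : ∀ v : Vtx, InV (R.x0 δ) (R.x1 δ) (R.y1 δ) v → ix m v ∈ B)
    (h1 : ∀ i ∈ B, EC R δ (Qb m i.1 i.2) (F ∪ G) → EC R δ (Qb m i.1 i.2) (F ∩ G))
    (h2 : ∀ i ∈ B, ED R δ (Qb m i.1 i.2) (F ∩ G) → ED R δ (Qb m i.1 i.2) (F ∪ G)) :
    dist (R.trace hδ F) (R.trace hδ G) ≤ 2 * (δ * (2 * m + 3)) := by
  have hmr : (1:ℝ) ≤ m := by exact_mod_cast hm
  rw [Metric.NonemptyCompacts.dist_eq]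
  apply Metric.hausdorffDist_le_of_mem_dist (by positivity)
  · intro z hz
    refine one_side hδ hN hG hm ?_ hF hz
    intro v hv e1 e2
    have hi := hB v hv
    exact ⟨EC_mono Finset.inter_subset_right (h1 _ hi (EC_mono Finset.subset_union_left e1)),
      ED_anti Finset.subset_union_right (h2 _ hi (ED_anti Finset.inter_subset_left e2))⟩
  · intro z hz
    refine one_side hδ hN hF hm ?_ hG hz
    intro v hv e1 e2
    have hi := hB v hv
    exact ⟨EC_mono Finset.inter_subset_left (h1 _ hi (EC_mono Finset.subset_union_right e1)),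
      ED_anti Finset.subset_union_left (h2 _ hi (ED_anti Finset.inter_subset_right e2))⟩

/-- The scale and the number of boxes. -/
theorem scale (hδ : 0 < δ) {ε X : ℝ} (hε : 0 < ε) (hX : 0 < X) (h1 : 16 * δ ≤ ε) :
    ∃ m : ℤ, 1 ≤ m ∧ 2 * (δ * (2 * m + 3)) < ε ∧ δ * (2 * m) ≤ ε ∧ ε ≤ 16 * (m * δ) ∧
      ∀ x : ℤ, |δ * (x:ℝ)| ≤ X → (x - 1) / m ∈
        Finset.Icc (-(⌈16 * (X + 1) / ε⌉ + 1)) (⌈16 * (X + 1) / ε⌉ + 1) := by
  obtain ⟨m, hm⟩ : ∃ m : ℤ, m = ⌊ε / (8 * δ)⌋ := ⟨_, rfl⟩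
  have hm1 : (m:ℝ) ≤ ε / (8 * δ) := by rw [hm]; exact Int.floor_le _
  have hm2 : ε / (8 * δ) < m + 1 := by rw [hm]; exact Int.lt_floor_add_one _
  rw [le_div_iff₀ (by positivity)] at hm1
  rw [div_lt_iff₀ (by positivity)] at hm2
  have hm3 : (1:ℝ) < m + 1 := by
    by_contra h
    push Not at h
    nlinarith
  have hm4 : 1 ≤ m := by
    have : (0:ℝ) < m := by linarith
    have : 0 < m := by exact_mod_cast this
    omega
  have hmr : (1:ℝ) ≤ m := by exact_mod_cast hm4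
  -- `ε ≤ 16 m δ`
  have hm5 : ε ≤ 16 * (m * δ) := by nlinarith
  refine ⟨m, hm4, by nlinarith, by nlinarith, hm5, ?_⟩
  intro x hx
  obtain ⟨L, hL⟩ : ∃ L : ℤ, L = ⌈16 * (X + 1) / ε⌉ := ⟨_, rfl⟩
  have hL1 : 16 * (X + 1) / ε ≤ L := by rw [hL]; exact Int.le_ceil _
  rw [div_le_iff₀ hε] at hL1
  have hL0 : (0:ℝ) < L := by
    by_contra h
    push Not at h
    nlinarith
  rw [← hL]
  -- `X ≤ L m δ`
  have hX1 : X + 1 ≤ L * (m * δ) := by nlinarith
  rw [abs_le] at hx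
  have hδX : δ ≤ L * (m * δ) := by
    have : (1:ℝ) ≤ L := by
      have : 0 < L := by exact_mod_cast hL0
      exact_mod_cast this
    nlinarith
  have b1 : (x:ℝ) ≤ L * m := by
    have : δ * (x:ℝ) ≤ δ * (L * m) := by nlinarith
    exact le_of_mul_le_mul_left this hδ
  have b2 : -(L * m : ℝ) ≤ x := by
    have : δ * (-(L * m : ℝ)) ≤ δ * x := by nlinarith
    exact le_of_mul_le_mul_left this hδ
  have b1' : x ≤ L * m := by exact_mod_cast b1
  have b2' : -(L * m) ≤ x := by exact_mod_cast b2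
  rw [Finset.mem_Icc]
  constructor
  · rw [Int.le_ediv_iff_mul_le (by omega)]
    nlinarith
  · have : (x - 1) / m < L + 2 := by
      rw [Int.ediv_lt_iff_lt_mul (by omega)]
      nlinarith
    omega

end K3h14.NC
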