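import Pool.Agent.K3h14.NC.Rmx

/-!
The near-critical window of the exploration path.
-/

set_option maxHeartbeats 1000000

namespace K3h14.NC

open H974 H973 H12S H934E Finset TH291.NW TopologicalSpace MeasureTheory ProbabilityTheory
open Filter Topology unitInterval
open scoped NNReal

variable {R : Rect}

/-- Comparison of the laws for two families of edge probabilities. -/
theorem merge_bound (R : Rect) {ε : ℝ} (hε : 0 < ε) :
    ∃ C' δ0 : ℝ, 0 < C' ∧ 0 < δ0 ∧ ∀ (δ : ℝ) (hδ : 0 < δ), δ ≤ δ0 → ∀ (η : ℝ) (p q : Edg → I),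
      (∀ e ∈ R.edges δ, |(p e : ℝ) - 1/2| ≤ η) → (∀ e ∈ R.edges δ, |(q e : ℝ) - 1/2| ≤ η) →
      ∀ (f : NonemptyCompacts ℂ → ℝ) (C : ℝ), (∀ x y, dist (f x) (f y) ≤ C) → ∀ L : ℝ≥0,
      LipschitzWith L f → |∫ K, f K ∂(lawM R hδ p) - ∫ K, f K ∂(lawM R hδ q)| ≤
        L * ε + C * (C' * (2 * |η|) * δ ^ (-(3/4 : ℝ))) := by
  obtain ⟨C', δ0, hC', hδ0, hst⟩ := stab_path R hε
  refine ⟨C', δ0, hC', hδ0, ?_⟩
  intro δ hδ hδ1 η p q hp hq f C hC L hf
  have hC0 : 0 ≤ C := dist_nonneg.trans (hC (wArcK R) (wArcK R))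
  have hXm := meas_Xp p
  have hYm := meas_Xp q
  have hi := indep_Xp p q
  have hiX : iIndepFun (Xp p) UU := hi.comp (fun _ z => z.1) (fun _ => measurable_fst)
  have hiY : iIndepFun (Xp q) UU := hi.comp (fun _ z => z.2) (fun _ => measurable_snd)
  have e1 := law_map R hδ hXm hiX p (real_Xp p)
  have e2 := law_map R hδ hYm hiY q (real_Xp q)
  have hle := le_abs_self η
  have h := hst δ hδ hδ1 (2 * |η|) (by positivity) (Edg → I) UU (Xp p) (Xp q) hXm hYm hi
    (fun e he => by rw [real_Xp]; exact (hp e he).trans (by linarith [abs_nonneg η]))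
    (fun e he => by
      rw [real_ne]
      have h1 := hp e he
      have h2 := hq e he
      have h3 : |(p e : ℝ) - q e| ≤ |(p e : ℝ) - 1/2| + |(q e : ℝ) - 1/2| := by
        have : (p e : ℝ) - q e = ((p e : ℝ) - 1/2) - ((q e : ℝ) - 1/2) := by ring
        rw [this]
        exact abs_sub _ _
      linarith)
  rw [← e1, ← e2]
  have hm : MeasurableSet {ω | ε ≤ dist (R.trace hδ (FZ (R.edges δ) (Xp p) ω))
      (R.trace hδ (FZ (R.edges δ) (Xp q) ω))} := by
    have : {ω | ε ≤ dist (R.trace hδ (FZ (R.edges δ) (Xp p) ω))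
      (R.trace hδ (FZ (R.edges δ) (Xp q) ω))} =
      ⋃ T ∈ {T : Finset Edg × Finset Edg | ε ≤ dist (R.trace hδ T.1) (R.trace hδ T.2)},
        ({ω | FZ (R.edges δ) (Xp p) ω = T.1} ∩ {ω | FZ (R.edges δ) (Xp q) ω = T.2}) := by
      ext ω
      simp
    rw [this]
    exact MeasurableSet.biUnion (Set.to_countable _)
      (fun T _ => (meas_FZ hXm _ T.1).inter (meas_FZ hYm _ T.2))
  refine (int_close (meas_trace R hδ hXm) (meas_trace R hδ hYm) hC hf hε.le hm).trans ?_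
  have := mul_le_mul_of_nonneg_left h hC0
  linarith

/-- The two sequences of laws merge: their bounded Lipschitz distance tends to zero. -/
def Merge (ν ν' : ℕ → ProbabilityMeasure (NonemptyCompacts ℂ)) : Prop :=
  ∀ ε : ℝ, 0 < ε → ∀ᶠ n in atTop, ∀ f : NonemptyCompacts ℂ → ℝ, LipschitzWith 1 f →
    (∀ K, |f K| ≤ 1) → |∫ K, f K ∂(ν n : Measure (NonemptyCompacts ℂ)) -
      ∫ K, f K ∂(ν' n : Measure (NonemptyCompacts ℂ))| ≤ ε

/-- **The laws merge inside the window.** -/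
theorem merge_in (R : Rect) {δ : ℕ → ℝ} (hδ : ∀ n, 0 < δ n) (hlim : Tendsto δ atTop (𝓝 0))
    {p q : ℕ → Edg → I} {η : ℕ → ℝ} (hp : ∀ n, ∀ e ∈ R.edges (δ n), |(p n e : ℝ) - 1/2| ≤ η n)
    (hq : ∀ n, ∀ e ∈ R.edges (δ n), |(q n e : ℝ) - 1/2| ≤ η n)
    (hη : Tendsto (fun n => η n * δ n ^ (-(3/4 : ℝ))) atTop (𝓝 0)) :
    Merge (fun n => law R (hδ n) (p n)) (fun n => law R (hδ n) (q n)) := by
  intro r hr
  obtain ⟨ε, hε⟩ : ∃ ε : ℝ, ε = r / 2 := ⟨_, rfl⟩
  have hε0 : 0 < ε := by rw [hε]; positivity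
  obtain ⟨C', δ0, hC', hδ0, hmb⟩ := merge_bound R hε0
  have habs : Tendsto (fun n => |η n * δ n ^ (-(3/4 : ℝ))|) atTop (𝓝 0) := by
    simpa using hη.abs
  have h1 : ∀ᶠ n in atTop, |η n * δ n ^ (-(3/4 : ℝ))| < r / (8 * C') :=
    habs.eventually_lt_const (by positivity)
  have h2 : ∀ᶠ n in atTop, δ n < δ0 := hlim.eventually_lt_const hδ0
  filter_upwards [h1, h2] with n k1 k2 f hf hb
  have hC : ∀ x y, dist (f x) (f y) ≤ 2 := by
    intro x y
    rw [Real.dist_eq, abs_le]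
    have a1 := abs_le.mp (hb x)
    have a2 := abs_le.mp (hb y)
    constructor <;> linarith
  refine (hmb (δ n) (hδ n) k2.le (η n) (p n) (q n) (hp n) (hq n) f 2 hC 1 hf).trans ?_
  rw [abs_mul, abs_of_nonneg (Real.rpow_nonneg (hδ n).le (-(3/4 : ℝ)))] at k1
  rw [lt_div_iff₀ (by positivity)] at k1
  have e : 2 * (C' * (2 * |η n|) * δ n ^ (-(3/4 : ℝ))) =
      |η n| * δ n ^ (-(3/4 : ℝ)) * (8 * C') / 2 := by ring
  rw [e, NNReal.coe_one, one_mul, hε]
  linarith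

/-- The condition on the parameter is necessary. -/
theorem merge_out (R : Rect) {δ : ℕ → ℝ} (hδ : ∀ n, 0 < δ n) (hlim : Tendsto δ atTop (𝓝 0))
    {p : ℕ → I} (h : ∀ f : NonemptyCompacts ℂ → ℝ, LipschitzWith 1 f → (∀ K, |f K| ≤ 1) →
      Tendsto (fun n => ∫ K, f K ∂(lawM R (hδ n) (fun _ => p n)) -
        ∫ K, f K ∂(lawM R (hδ n) (fun _ => half))) atTop (𝓝 0)) :
    Tendsto (fun n => ((p n : ℝ) - 1/2) * δ n ^ (-(3/4 : ℝ))) atTop (𝓝 0) := by
  have hB := R.hB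
  have ht := R.ht2
  obtain ⟨m0, hm0⟩ : ∃ m0, m0 = max 0 R.t := ⟨_, rfl⟩
  have hmB : m0 < R.B := by rw [hm0]; exact max_lt hB ht
  have hm1 : 0 ≤ m0 := by rw [hm0]; exact le_max_left _ _
  have hm2 : R.t ≤ m0 := by rw [hm0]; exact le_max_right _ _
  obtain ⟨c, C, δ0, hc, hC, hδ0, hlow⟩ := gT_low R (s1 := m0 + (R.B - m0) / 3)
    (s2 := m0 + 2 * (R.B - m0) / 3) (by linarith) (by linarith) (by linarith) (by linarith)
  obtain ⟨g, hg⟩ : ∃ g, g = gT (m0 + (R.B - m0) / 3) (m0 + 2 * (R.B - m0) / 3) := ⟨_, rfl⟩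
  rw [← hg] at hlow
  obtain ⟨f, hf⟩ : ∃ f : NonemptyCompacts ℂ → ℝ, f = fun K => g K / (R.B + 1) := ⟨_, rfl⟩
  have hfb : ∀ K, |f K| ≤ 1 := by
    intro K
    rw [hf, hg]
    have a1 := gT_nonneg (m0 + (R.B - m0) / 3) (m0 + 2 * (R.B - m0) / 3) K
    have a3 := gT_le (s1 := m0 + (R.B - m0) / 3) (s2 := m0 + 2 * (R.B - m0) / 3)
      (by linarith) K
    rw [abs_of_nonneg (by positivity), div_le_one (by positivity)]
    linarith
  have hfl : LipschitzWith 1 f := by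
    apply LipschitzWith.of_dist_le_mul
    intro K K'
    rw [NNReal.coe_one, one_mul, hf, Real.dist_eq]
    have a := (gT_lip (m0 + (R.B - m0) / 3) (m0 + 2 * (R.B - m0) / 3)).dist_le_mul K K'
    rw [NNReal.coe_one, one_mul, Real.dist_eq, ← hg] at a
    rw [← sub_div, abs_div, abs_of_pos (show 0 < R.B + 1 by linarith),
      div_le_iff₀ (by linarith)]
    have : 0 ≤ dist K K' * R.B := mul_nonneg dist_nonneg hB.le
    linarith
  have h1 := ((h f hfl hfb).mul_const (R.B + 1)).abs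
  rw [zero_mul, abs_zero] at h1
  have hgf : ∀ n, (∫ K, f K ∂(lawM R (hδ n) (fun _ => p n)) -
        ∫ K, f K ∂(lawM R (hδ n) (fun _ => half))) * (R.B + 1) =
      ∫ K, g K ∂(lawM R (hδ n) (fun _ => p n)) - ∫ K, g K ∂(lawM R (hδ n) (fun _ => half)) := by
    intro n
    rw [hf]
    simp only
    rw [integral_div, integral_div]
    have : R.B + 1 ≠ 0 := by linarith
    field_simp
  have h2 := h1.add (hlim.const_mul C)
  rw [mul_zero, add_zero] at h2
  have h3 : Tendsto (fun n => c * min 1 (|(p n:ℝ) - 1/2| * δ n ^ (-(3/4 : ℝ)))) atTop (𝓝 0) := by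
    refine squeeze_zero' ?_ ?_ h2
    · refine Filter.Eventually.of_forall (fun n => ?_)
      have : 0 ≤ |(p n:ℝ) - 1/2| * δ n ^ (-(3/4 : ℝ)) :=
        mul_nonneg (abs_nonneg _) (Real.rpow_nonneg (hδ n).le _)
      exact mul_nonneg hc.le (le_min zero_le_one this)
    · filter_upwards [hlim.eventually_lt_const hδ0] with n hn
      have := hlow (δ n) (hδ n) hn.le (p n)
      rw [hgf n]
      linarith
  have h4 : Tendsto (fun n => min 1 (|(p n:ℝ) - 1/2| * δ n ^ (-(3/4 : ℝ)))) atTop (𝓝 0) := by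
    have := h3.const_mul c⁻¹
    rw [mul_zero] at this
    refine this.congr (fun n => ?_)
    field_simp
  rw [tendsto_zero_iff_abs_tendsto_zero]
  refine h4.congr' ?_
  filter_upwards [h4.eventually_lt_const one_pos] with n hn
  rw [min_eq_right]
  · rw [Function.comp_apply, abs_mul, abs_of_nonneg (Real.rpow_nonneg (hδ n).le (-(3/4 : ℝ)))]
  · by_contra hcon
    rw [min_eq_left (not_le.mp hcon).le] at hn
    exact lt_irrefl _ hn

theorem Merge.tendsto {ν ν' : ℕ → ProbabilityMeasure (NonemptyCompacts ℂ)} (h : Merge ν ν')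
    {f : NonemptyCompacts ℂ → ℝ} (hb : ∃ C : ℝ, ∀ x y, dist (f x) (f y) ≤ C)
    (hL : ∃ L, LipschitzWith L f) :
    Tendsto (fun n => ∫ K, f K ∂(ν n : Measure (NonemptyCompacts ℂ)) -
      ∫ K, f K ∂(ν' n : Measure (NonemptyCompacts ℂ))) atTop (𝓝 0) := by
  obtain ⟨C, hC⟩ := hb
  obtain ⟨L, hL⟩ := hL
  obtain ⟨K0⟩ : Nonempty (NonemptyCompacts ℂ) := ⟨⟨⟨{0}, isCompact_singleton⟩, ⟨0, rfl⟩⟩⟩
  have hC0 : 0 ≤ C := dist_nonneg.trans (hC K0 K0)
  obtain ⟨M, hM⟩ : ∃ M : ℝ, M = |f K0| + C + L + 1 := ⟨_, rfl⟩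
  have hL0 : (0:ℝ) ≤ L := L.2
  have hM0 : 0 < M := by rw [hM]; positivity
  have hfb : ∀ K, |f K / M| ≤ 1 := by
    intro K
    rw [abs_div, abs_of_pos hM0, div_le_one hM0]
    have := hC K K0
    rw [Real.dist_eq] at this
    have h3 : |f K| ≤ |f K - f K0| + |f K0| := by
      calc |f K| = |(f K - f K0) + f K0| := by rw [sub_add_cancel]
        _ ≤ _ := abs_add_le _ _
    rw [hM]
    linarith
  have hfl : LipschitzWith 1 (fun K => f K / M) := by
    apply LipschitzWith.of_dist_le_mul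
    intro K K'
    rw [NNReal.coe_one, one_mul, Real.dist_eq, ← sub_div, abs_div, abs_of_pos hM0,
      div_le_iff₀ hM0]
    have a := hL.dist_le_mul K K'
    rw [Real.dist_eq] at a
    have hLM : (L:ℝ) ≤ M := by rw [hM]; linarith [abs_nonneg (f K0)]
    have := mul_le_mul_of_nonneg_right hLM (dist_nonneg (x := K) (y := K'))
    linarith
  rw [Metric.tendsto_atTop]
  intro r hr
  obtain ⟨N, hN⟩ := (h (r / (2 * M)) (by positivity)).exists_forall_of_atTop
  refine ⟨N, fun n hn => ?_⟩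
  have h1 := hN n hn _ hfl hfb
  rw [integral_div, integral_div, ← sub_div, abs_div, abs_of_pos hM0, div_le_iff₀ hM0] at h1
  rw [Real.dist_eq, sub_zero]
  refine h1.trans_lt ?_
  have : r / (2 * M) * M = r / 2 := by field_simp
  rw [this]
  linarith

/-- **The window.** -/
theorem merge_iff (R : Rect) {δ : ℕ → ℝ} (hδ : ∀ n, 0 < δ n) (hlim : Tendsto δ atTop (𝓝 0))
    (p : ℕ → I) :
    Merge (fun n => law R (hδ n) (fun _ => p n)) (fun n => law R (hδ n) (fun _ => half)) ↔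
    Tendsto (fun n => ((p n : ℝ) - 1/2) * δ n ^ (-(3/4 : ℝ))) atTop (𝓝 0) := by
  constructor
  · intro h
    apply merge_out R hδ hlim
    intro f hf hb
    exact h.tendsto ⟨2, fun x y => by
      rw [Real.dist_eq, abs_le]
      have a1 := abs_le.mp (hb x)
      have a2 := abs_le.mp (hb y)
      constructor <;> linarith⟩ ⟨1, hf⟩
  · intro h
    refine merge_in R hδ hlim (η := fun n => |(p n : ℝ) - 1/2|) (fun n e _ => le_rfl)
      (fun n e _ => by rw [coe_half, sub_self, abs_zero]; exact abs_nonneg _) ?_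
    have := h.abs
    rw [abs_zero] at this
    refine this.congr (fun n => ?_)
    rw [abs_mul, abs_of_nonneg (Real.rpow_nonneg (hδ n).le (-(3/4 : ℝ)))]

/-- The window in terms of the limits. -/
theorem limit_iff (R : Rect) {δ : ℕ → ℝ} (hδ : ∀ n, 0 < δ n) (hlim : Tendsto δ atTop (𝓝 0))
    (p : ℕ → I) {μ : ProbabilityMeasure (NonemptyCompacts ℂ)}
    (hμ : Tendsto (fun n => law R (hδ n) (fun _ => half)) atTop (𝓝 μ)) :
    Tendsto (fun n => law R (hδ n) (fun _ => p n)) atTop (𝓝 μ) ↔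
    Tendsto (fun n => ((p n : ℝ) - 1/2) * δ n ^ (-(3/4 : ℝ))) atTop (𝓝 0) := by
  constructor
  · intro h
    apply merge_out R hδ hlim
    intro f hf hb
    have hb' : ∃ C : ℝ, ∀ x y, dist (f x) (f y) ≤ C := ⟨2, fun x y => by
      rw [Real.dist_eq, abs_le]
      have a1 := abs_le.mp (hb x)
      have a2 := abs_le.mp (hb y)
      constructor <;> linarith⟩
    rw [tendsto_iff_forall_lipschitz_integral_tendsto] at h hμ
    have := (h f hb' ⟨1, hf⟩).sub (hμ f hb' ⟨1, hf⟩)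
    rw [sub_self] at this
    exact this
  · intro h
    exact (tendsto_iff_of_merge (fun f hf hL =>
      ((merge_iff R hδ hlim p).mpr h).tendsto hf hL)).mpr hμ

/-! ### Off the critical point -/

theorem closed_far (K0 : NonemptyCompacts ℂ) (ε : ℝ) :
    MeasurableSet {K : NonemptyCompacts ℂ | ε ≤ dist K K0} :=
  (isClosed_le continuous_const (continuous_id.dist continuous_const)).measurableSet

theorem scale_rpow {x δ : ℝ} (hx : 0 ≤ x) (hδ : 0 < δ) :
    x ^ (4/3 : ℝ) / δ = (x * δ ^ (-(3/4 : ℝ))) ^ (4/3 : ℝ) := by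
  rw [Real.mul_rpow hx (Real.rpow_nonneg hδ.le _), ← Real.rpow_mul hδ.le]
  norm_num
  rw [Real.rpow_neg_one, div_eq_mul_inv]

/-- If the lower bound tends to zero, the parameter tends to infinity. -/
theorem blow_up {δ : ℕ → ℝ} (hδ : ∀ n, 0 < δ n) (hlim : Tendsto δ atTop (𝓝 0))
    {x : ℕ → ℝ} {c C : ℝ} (hc : 0 < c) (hC : 0 < C) {u : ℕ → ℝ}
    (hu : Tendsto u atTop (𝓝 0))
    (h : ∀ᶠ n in atTop, x n ≤ 1/4 → c * Real.exp (-(C * (max (x n) 0) ^ (4/3 : ℝ) / δ n)) ≤ u n) :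
    Tendsto (fun n => x n * δ n ^ (-(3/4 : ℝ))) atTop atTop := by
  rw [tendsto_atTop]
  intro M
  obtain ⟨M', hM'⟩ : ∃ M', M' = max M 1 := ⟨_, rfl⟩
  have hM1 : 1 ≤ M' := by rw [hM']; exact le_max_right _ _
  have hM2 : M ≤ M' := by rw [hM']; exact le_max_left _ _
  have h1 : ∀ᶠ n in atTop, u n < c * Real.exp (-(C * M' ^ (4/3 : ℝ))) :=
    hu.eventually_lt_const (by positivity)
  have h2 : Tendsto (fun n => δ n ^ (-(3/4 : ℝ))) atTop atTop := by
    have hw : Tendsto δ atTop (𝓝[>] 0) := tendsto_nhdsWithin_iff.mpr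
      ⟨hlim, Filter.Eventually.of_forall hδ⟩
    exact (tendsto_rpow_neg_nhdsGT_zero (by norm_num : -(3/4 : ℝ) < 0)).comp hw
  have h3 := h2.eventually_ge_atTop (4 * M')
  filter_upwards [h, h1, h3] with n k k1 k3
  refine hM2.trans ?_
  have hd := Real.rpow_nonneg (hδ n).le (-(3/4 : ℝ))
  by_cases hx : x n ≤ 1/4
  · have k4 := (k hx).trans_lt k1
    have k5 : Real.exp (-(C * (max (x n) 0) ^ (4/3 : ℝ) / δ n)) <
        Real.exp (-(C * M' ^ (4/3 : ℝ))) := lt_of_mul_lt_mul_left k4 hc.le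
    rw [Real.exp_lt_exp] at k5
    have k6 : C * M' ^ (4/3 : ℝ) < C * ((max (x n) 0) ^ (4/3 : ℝ) / δ n) := by
      rw [mul_div_assoc] at k5
      linarith
    have k7 := lt_of_mul_lt_mul_left k6 hC.le
    rw [scale_rpow (le_max_right _ _) (hδ n)] at k7
    have k8 : M' < max (x n) 0 * δ n ^ (-(3/4 : ℝ)) := by
      by_contra hcon
      push Not at hcon
      have := Real.rpow_le_rpow (mul_nonneg (le_max_right _ _) hd) hcon
        (by norm_num : (0:ℝ) ≤ 4/3)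
      linarith
    rcases le_total (x n) 0 with h0 | h0
    · rw [max_eq_right h0, zero_mul] at k8
      linarith
    · rw [max_eq_left h0] at k8
      exact k8.le
  · push Not at hx
    nlinarith

/-- If the parameter tends to infinity, the upper bound tends to zero. -/
theorem blow_down {δ : ℕ → ℝ} (hδ : ∀ n, 0 < δ n) {x : ℕ → ℝ} {c C : ℝ} (hc : 0 < c)
    (hC : 0 < C) {u : ℕ → ℝ} (hu0 : ∀ n, 0 ≤ u n)
    (h : ∀ᶠ n in atTop, 0 ≤ x n → u n ≤ C * Real.exp (-(c * (x n) ^ (4/3 : ℝ) / δ n)))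
    (hx : Tendsto (fun n => x n * δ n ^ (-(3/4 : ℝ))) atTop atTop) :
    Tendsto u atTop (𝓝 0) := by
  have hx0 : ∀ᶠ n in atTop, 0 < x n := by
    filter_upwards [hx.eventually_gt_atTop 0] with n hn
    by_contra hcon
    push Not at hcon
    have := mul_nonpos_of_nonpos_of_nonneg hcon (Real.rpow_nonneg (hδ n).le (-(3/4 : ℝ)))
    linarith
  have h1 : Tendsto (fun n => (x n * δ n ^ (-(3/4 : ℝ))) ^ (4/3 : ℝ)) atTop atTop :=
    (tendsto_rpow_atTop (by norm_num : (0:ℝ) < 4/3)).comp hx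
  have h2 : Tendsto (fun n => C * Real.exp (-(c * (x n * δ n ^ (-(3/4 : ℝ))) ^ (4/3 : ℝ))))
      atTop (𝓝 0) := by
    have h3 := (h1.const_mul_atTop hc)
    have h4 := (Real.tendsto_exp_neg_atTop_nhds_zero.comp h3).const_mul C
    rw [mul_zero] at h4
    exact h4
  refine squeeze_zero' (Filter.Eventually.of_forall hu0) ?_ h2
  filter_upwards [h, hx0] with n k k0
  have := k k0.le
  rw [mul_div_assoc, scale_rpow k0.le (hδ n)] at this
  exact this

end K3h14.NC
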