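import Pool.Agent.K3h14.NC.Fin

/-!
The limits of the laws off the critical point.
-/

set_option maxHeartbeats 1000000

namespace K3h14.NC

open H974 H973 H12S H934E Finset TH291.NW TopologicalSpace MeasureTheory ProbabilityTheory
open Filter Topology unitInterval
open scoped NNReal

variable {R : Rect}

theorem dirac_dArc (R : Rect) {δ : ℕ → ℝ} (hδ : ∀ n, 0 < δ n) (hlim : Tendsto δ atTop (𝓝 0))
    (p : ℕ → I) :
    Tendsto (fun n => law R (hδ n) (fun _ => p n)) atTop (𝓝 (diracProba (dArcK R))) ↔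
      Tendsto (fun n => ((p n : ℝ) - 1/2) * δ n ^ (-(3/4 : ℝ))) atTop atTop := by
  rw [tendsto_dirac_iff]
  have hA := R.hA
  have hB := R.hB
  have hH := R.hH
  constructor
  · intro h
    obtain ⟨ε, hε⟩ : ∃ ε, ε = min R.H (R.A + R.B) / 4 := ⟨_, rfl⟩
    have hε0 : 0 < ε := by
      have : 0 < min R.H (R.A + R.B) := lt_min hH (by linarith)
      rw [hε]; positivity
    have h1 : 4 * ε ≤ R.H := by rw [hε]; have := min_le_left R.H (R.A + R.B); linarith
    have h2 : 4 * ε ≤ R.A + R.B := by rw [hε]; have := min_le_right R.H (R.A + R.B); linarith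
    obtain ⟨c, C, δ0, hc, hC, hδ0, hlow⟩ := low_dual R hε0 h1 h2
    refine blow_up hδ hlim hc hC (h ε hε0) ?_
    filter_upwards [hlim.eventually_lt_const hδ0] with n hn hx
    have := hlow (δ n) (hδ n) hn.le (p n) (p n).2.1 (by linarith)
    refine this.trans (le_of_eq ?_)
    exact (real_law R (hδ n) (fun _ => p n) (closed_far (dArcK R) ε)).symm
  · intro h ε hε
    obtain ⟨c, C, δ0, hc, hC, hδ0, hup⟩ := off_dual R hε
    refine blow_down hδ hc hC (fun n => measureReal_nonneg) ?_ h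
    filter_upwards [hlim.eventually_lt_const hδ0] with n hn hx
    refine le_trans (le_of_eq ?_) (hup (δ n) (hδ n) hn.le (p n) (by linarith) (p n).2.2)
    exact real_law R (hδ n) (fun _ => p n) (closed_far (dArcK R) ε)

theorem dirac_wArc (R : Rect) {δ : ℕ → ℝ} (hδ : ∀ n, 0 < δ n) (hlim : Tendsto δ atTop (𝓝 0))
    (p : ℕ → I) :
    Tendsto (fun n => law R (hδ n) (fun _ => p n)) atTop (𝓝 (diracProba (wArcK R))) ↔
      Tendsto (fun n => ((p n : ℝ) - 1/2) * δ n ^ (-(3/4 : ℝ))) atTop atBot := by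
  rw [tendsto_dirac_iff]
  have hA := R.hA
  have hB := R.hB
  have hH := R.hH
  have hneg : Tendsto (fun n => ((p n : ℝ) - 1/2) * δ n ^ (-(3/4 : ℝ))) atTop atBot ↔
      Tendsto (fun n => (1/2 - (p n : ℝ)) * δ n ^ (-(3/4 : ℝ))) atTop atTop := by
    rw [← tendsto_neg_atBot_iff]
    have : (fun n => -((1/2 - (p n : ℝ)) * δ n ^ (-(3/4 : ℝ)))) =
        fun n => ((p n : ℝ) - 1/2) * δ n ^ (-(3/4 : ℝ)) := by
      funext n; ring
    rw [this]
  rw [hneg]
  constructor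
  · intro h
    obtain ⟨ε, hε⟩ : ∃ ε, ε = min R.H (R.A + R.B) / 4 := ⟨_, rfl⟩
    have hε0 : 0 < ε := by
      have : 0 < min R.H (R.A + R.B) := lt_min hH (by linarith)
      rw [hε]; positivity
    have h1 : 4 * ε ≤ R.H := by rw [hε]; have := min_le_left R.H (R.A + R.B); linarith
    have h2 : 4 * ε ≤ R.A + R.B := by rw [hε]; have := min_le_right R.H (R.A + R.B); linarith
    obtain ⟨c, C, δ0, hc, hC, hδ0, hlow⟩ := low_prim R hε0 h1 h2
    refine blow_up hδ hlim hc hC (h ε hε0) ?_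
    filter_upwards [hlim.eventually_lt_const hδ0] with n hn hx
    have := hlow (δ n) (hδ n) hn.le (p n) (by linarith) (p n).2.2
    refine this.trans (le_of_eq ?_)
    exact (real_law R (hδ n) (fun _ => p n) (closed_far (wArcK R) ε)).symm
  · intro h ε hε
    obtain ⟨c, C, δ0, hc, hC, hδ0, hup⟩ := off_prim R hε
    refine blow_down hδ hc hC (fun n => measureReal_nonneg) ?_ h
    filter_upwards [hlim.eventually_lt_const hδ0] with n hn hx
    refine le_trans (le_of_eq ?_) (hup (δ n) (hδ n) hn.le (p n) (p n).2.1 (by linarith))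
    exact real_law R (hδ n) (fun _ => p n) (closed_far (wArcK R) ε)

theorem two_sided (R : Rect) {ε : ℝ} (hε : 0 < ε) (hH : 4 * ε ≤ R.H) (hA : 4 * ε ≤ R.A + R.B) :
    ∃ c C δ0 : ℝ, 0 < c ∧ 0 < C ∧ 0 < δ0 ∧ ∀ (δ : ℝ) (hδ : 0 < δ), δ ≤ δ0 → ∀ p : I,
      (1/2 ≤ (p:ℝ) → (p:ℝ) ≤ 3/4 →
        c * Real.exp (-(C * ((p:ℝ) - 1/2) ^ (4/3 : ℝ) / δ)) ≤
          (lawM R hδ (fun _ => p)).real {K | ε ≤ dist K (dArcK R)} ∧
        (lawM R hδ (fun _ => p)).real {K | ε ≤ dist K (dArcK R)} ≤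
          C * Real.exp (-(c * ((p:ℝ) - 1/2) ^ (4/3 : ℝ) / δ))) ∧
      (1/4 ≤ (p:ℝ) → (p:ℝ) ≤ 1/2 →
        c * Real.exp (-(C * (1/2 - (p:ℝ)) ^ (4/3 : ℝ) / δ)) ≤
          (lawM R hδ (fun _ => p)).real {K | ε ≤ dist K (wArcK R)} ∧
        (lawM R hδ (fun _ => p)).real {K | ε ≤ dist K (wArcK R)} ≤
          C * Real.exp (-(c * (1/2 - (p:ℝ)) ^ (4/3 : ℝ) / δ))) := by
  obtain ⟨c1, C1, δ1, hc1, hC1, hδ1, h1⟩ := low_dual R hε hH hA
  obtain ⟨c2, C2, δ2, hc2, hC2, hδ2, h2⟩ := low_prim R hε hH hA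
  obtain ⟨c3, C3, δ3, hc3, hC3, hδ3, h3⟩ := off_dual R hε
  obtain ⟨c4, C4, δ4, hc4, hC4, hδ4, h4⟩ := off_prim R hε
  obtain ⟨c, hc⟩ : ∃ c, c = min (min c1 c2) (min c3 c4) := ⟨_, rfl⟩
  obtain ⟨C, hC⟩ : ∃ C, C = max (max C1 C2) (max C3 C4) := ⟨_, rfl⟩
  have k1 : c ≤ c1 := by rw [hc]; exact (min_le_left _ _).trans (min_le_left _ _)
  have k2 : c ≤ c2 := by rw [hc]; exact (min_le_left _ _).trans (min_le_right _ _)
  have k3 : c ≤ c3 := by rw [hc]; exact (min_le_right _ _).trans (min_le_left _ _)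
  have k4 : c ≤ c4 := by rw [hc]; exact (min_le_right _ _).trans (min_le_right _ _)
  have l1 : C1 ≤ C := by rw [hC]; exact (le_max_left _ _).trans (le_max_left _ _)
  have l2 : C2 ≤ C := by rw [hC]; exact (le_max_right _ _).trans (le_max_left _ _)
  have l3 : C3 ≤ C := by rw [hC]; exact (le_max_left _ _).trans (le_max_right _ _)
  have l4 : C4 ≤ C := by rw [hC]; exact (le_max_right _ _).trans (le_max_right _ _)
  have hc0 : 0 < c := by rw [hc]; exact lt_min (lt_min hc1 hc2) (lt_min hc3 hc4)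
  have hC0 : 0 < C := lt_of_lt_of_le hC1 l1
  have key : ∀ {a a' b b' x d : ℝ}, 0 < d → 0 ≤ x → 0 < a → a ≤ a' → b' ≤ b →
      a * Real.exp (-(b * x / d)) ≤ a' * Real.exp (-(b' * x / d)) := by
    intro a a' b b' x d hd hx ha haa hbb
    apply mul_le_mul haa _ (Real.exp_pos _).le (by linarith)
    apply Real.exp_le_exp.mpr
    have : b' * x / d ≤ b * x / d := by
      apply div_le_div_of_nonneg_right _ hd.le
      exact mul_le_mul_of_nonneg_right hbb hx
    linarith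
  refine ⟨c, C, min (min δ1 δ2) (min δ3 δ4), hc0, hC0, lt_min (lt_min hδ1 hδ2) (lt_min hδ3 hδ4), ?_⟩
  intro δ hδ hle p
  have m1 : δ ≤ δ1 := hle.trans ((min_le_left _ _).trans (min_le_left _ _))
  have m2 : δ ≤ δ2 := hle.trans ((min_le_left _ _).trans (min_le_right _ _))
  have m3 : δ ≤ δ3 := hle.trans ((min_le_right _ _).trans (min_le_left _ _))
  have m4 : δ ≤ δ4 := hle.trans ((min_le_right _ _).trans (min_le_right _ _))
  rw [real_law R hδ (fun _ => p) (closed_far (dArcK R) ε),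
    real_law R hδ (fun _ => p) (closed_far (wArcK R) ε)]
  constructor
  · intro hp hp1
    have hx : 0 ≤ ((p:ℝ) - 1/2) ^ (4/3 : ℝ) := Real.rpow_nonneg (by linarith) _
    have h1' := h1 δ hδ m1 p p.2.1 hp1
    rw [max_eq_left (by linarith)] at h1'
    exact ⟨(key hδ hx hc0 k1 l1).trans h1', (h3 δ hδ m3 p hp p.2.2).trans (key hδ hx hC3 l3 k3)⟩
  · intro hp hp1
    have hx : 0 ≤ (1/2 - (p:ℝ)) ^ (4/3 : ℝ) := Real.rpow_nonneg (by linarith) _
    have h2' := h2 δ hδ m2 p hp p.2.2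
    rw [max_eq_left (by linarith)] at h2'
    exact ⟨(key hδ hx hc0 k2 l2).trans h2', (h4 δ hδ m4 p p.2.1 hp1).trans (key hδ hx hC4 l4 k4)⟩

end K3h14.NC
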