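import Pool.Agent.TH291.NW.Brg

/-!
Near-critical stability of the event that a boundary set is connected to a box, in rectangles with
some marked boundary points.
-/

set_option maxHeartbeats 1000000

namespace K3h14.NC

open H974 H12S Finset TH291.NW

/-- The sides of a rectangle. -/
def Fr (δ : ℝ) (a b c d : ℤ) : Set (ℝ × ℝ) :=
  {z | ((z.1 = δ * a ∨ z.1 = δ * b) ∧ (δ * c ≤ z.2 ∧ z.2 ≤ δ * d)) ∨
    ((z.2 = δ * c ∨ z.2 = δ * d) ∧ (δ * a ≤ z.1 ∧ z.1 ≤ δ * b))}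

/-- The open rectangle. -/
def Op (δ : ℝ) (a b c d : ℤ) : Set (ℝ × ℝ) :=
  Set.Ioo (δ * a) (δ * b) ×ˢ Set.Ioo (δ * c) (δ * d)

theorem isClosed_Fr (δ : ℝ) (a b c d : ℤ) : IsClosed (Fr δ a b c d) := by
  have c1 : Continuous fun z : ℝ × ℝ => z.1 := continuous_fst
  have c2 : Continuous fun z : ℝ × ℝ => z.2 := continuous_snd
  have k : ∀ r : ℝ, Continuous fun _ : ℝ × ℝ => r := fun r => continuous_const
  exact (((isClosed_eq c1 (k _)).union (isClosed_eq c1 (k _))).inter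
    ((isClosed_le (k _) c2).inter (isClosed_le c2 (k _)))).union
    (((isClosed_eq c2 (k _)).union (isClosed_eq c2 (k _))).inter
    ((isClosed_le (k _) c1).inter (isClosed_le c1 (k _))))

theorem closure_Ioo_sub (a b : ℝ) : closure (Set.Ioo a b) ⊆ Set.Icc a b :=
  closure_minimal Set.Ioo_subset_Icc_self isClosed_Icc

theorem frontier_Ioo_sub (a b : ℝ) : frontier (Set.Ioo a b) ⊆ {a, b} := by
  rcases lt_or_ge a b with h | h
  · rw [frontier_Ioo h]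
  · rw [Set.Ioo_eq_empty (not_lt.mpr h), frontier_empty]
    exact Set.empty_subset _

theorem frontier_Op (δ : ℝ) (a b c d : ℤ) : frontier (Op δ a b c d) ⊆ Fr δ a b c d := by
  unfold Op
  rw [frontier_prod_eq]
  rintro z (⟨h1, h2⟩ | ⟨h1, h2⟩)
  · right
    have g1 := closure_Ioo_sub _ _ h1
    have g2 := frontier_Ioo_sub _ _ h2
    exact ⟨g2, g1.1, g1.2⟩
  · left
    have g1 := frontier_Ioo_sub _ _ h1
    have g2 := closure_Ioo_sub _ _ h2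
    exact ⟨g1, g2.1, g2.2⟩

/-- The domain: an open rectangle and some points of its sides, without a box. -/
def Dq (δ : ℝ) (a b c d : ℤ) (P : Set (ℤ × ℤ)) (a2 b2 c2 d2 : ℤ) : Set (ℝ × ℝ) :=
  (Op δ a b c d ∪ pt δ '' P) \ Op δ a2 b2 c2 d2

theorem fr_Dq {δ : ℝ} {a b c d : ℤ} {P : Set (ℤ × ℤ)} {a2 b2 c2 d2 : ℤ}
    (hP : ∀ v ∈ P, pt δ v ∈ Fr δ a b c d) :
    frontier (Dq δ a b c d P a2 b2 c2 d2) ⊆ Fr δ a b c d ∪ Fr δ a2 b2 c2 d2 := by
  unfold Dq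
  rw [Set.diff_eq]
  intro z hz
  rcases frontier_inter_subset _ _ hz with ⟨h, _⟩ | ⟨_, h⟩
  · left
    rcases frontier_union_subset _ _ h with ⟨h', _⟩ | ⟨_, h'⟩
    · exact frontier_Op _ _ _ _ _ h'
    · have h2 : z ∈ closure (pt δ '' P) := h'.1
      refine closure_minimal ?_ (isClosed_Fr δ a b c d) h2
      rintro _ ⟨v, hv, rfl⟩
      exact hP v hv
  · right
    rw [frontier_compl] at h
    exact frontier_Op _ _ _ _ _ h

theorem cov_Fr {δ ℓ : ℝ} {a b c d : ℤ} (h1 : δ * b - δ * a ≤ ℓ) (h2 : δ * d - δ * c ≤ ℓ)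
    (hℓ : 0 ≤ ℓ) : Cov (Fr δ a b c d) (4 * (ℓ + 1)) 1 := by
  have lv : ∀ c : ℝ, ∀ s t : ℝ, dist (((c, s) : ℝ × ℝ)) (c, t) ≤ |s - t| := by
    intro c s t
    rw [Prod.dist_eq, max_le_iff, Real.dist_eq, Real.dist_eq]
    simp only [sub_self, abs_zero]
    exact ⟨abs_nonneg _, le_rfl⟩
  have lh : ∀ c : ℝ, ∀ s t : ℝ, dist (((s, c) : ℝ × ℝ)) (t, c) ≤ |s - t| := by
    intro c s t
    rw [Prod.dist_eq, max_le_iff, Real.dist_eq, Real.dist_eq]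
    simp only [sub_self, abs_zero]
    exact ⟨le_rfl, abs_nonneg _⟩
  have s1 : ∀ e : ℝ, Cov ((fun t => ((e, t) : ℝ × ℝ)) '' Set.Icc (δ * c) (δ * d)) (ℓ + 1) 1 :=
    fun e => cov_param (lv e) h2 hℓ
  have s2 : ∀ e : ℝ, Cov ((fun t => ((t, e) : ℝ × ℝ)) '' Set.Icc (δ * a) (δ * b)) (ℓ + 1) 1 :=
    fun e => cov_param (lh e) h1 hℓ
  have hall := (((s1 (δ * a)).union (s1 (δ * b))).union (s2 (δ * c))).union (s2 (δ * d))
  refine hall.mono ?_ (by ring_nf; exact le_rfl)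
  rintro z (⟨g | g, g1, g2⟩ | ⟨g | g, g1, g2⟩)
  · exact Or.inl (Or.inl (Or.inl ⟨z.2, ⟨g1, g2⟩, by rw [← g]⟩))
  · exact Or.inl (Or.inl (Or.inr ⟨z.2, ⟨g1, g2⟩, by rw [← g]⟩))
  · exact Or.inl (Or.inr ⟨z.1, ⟨g1, g2⟩, by rw [← g]⟩)
  · exact Or.inr ⟨z.1, ⟨g1, g2⟩, by rw [← g]⟩

theorem mem_Op {δ : ℝ} (hδ : 0 < δ) {a b c d : ℤ} {u w : ℝ} :
    ((δ * u, δ * w) : ℝ × ℝ) ∈ Op δ a b c d ↔ ((a:ℝ) < u ∧ u < b) ∧ ((c:ℝ) < w ∧ w < d) := by
  unfold Op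
  rw [Set.mem_prod, Set.mem_Ioo, Set.mem_Ioo]
  simp only
  rw [mul_lt_mul_iff_right₀ hδ, mul_lt_mul_iff_right₀ hδ, mul_lt_mul_iff_right₀ hδ,
    mul_lt_mul_iff_right₀ hδ]

theorem mem_ptP {δ : ℝ} (hδ : 0 < δ) {P : Set (ℤ × ℤ)} {u w : ℝ} :
    ((δ * u, δ * w) : ℝ × ℝ) ∈ pt δ '' P ↔ ∃ v ∈ P, u = v.1 ∧ w = v.2 := by
  constructor
  · rintro ⟨v, hv, h⟩
    unfold pt at h
    rw [Prod.mk.injEq, mul_right_inj' hδ.ne', mul_right_inj' hδ.ne'] at h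
    exact ⟨v, hv, h.1.symm, h.2.symm⟩
  · rintro ⟨v, hv, h1, h2⟩
    exact ⟨v, hv, by rw [h1, h2]; rfl⟩

theorem seg_h {δ : ℝ} {D : Set (ℝ × ℝ)} {x y : ℤ} :
    segment ℝ (pt δ (src (x, y, true))) (pt δ (tgt (x, y, true))) ⊆ D ↔
      ∀ θ : ℝ, 0 ≤ θ → θ ≤ 1 → ((δ * (x + θ), δ * y) : ℝ × ℝ) ∈ D := by
  rw [seg_iff]
  have e : ∀ θ : ℝ, (((1 - θ) * (pt δ (src (x, y, true))).1 + θ * (pt δ (tgt (x, y, true))).1,
      (1 - θ) * (pt δ (src (x, y, true))).2 + θ * (pt δ (tgt (x, y, true))).2) : ℝ × ℝ) =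
      (δ * (x + θ), δ * y) := by
    intro θ
    unfold pt
    rw [src_mk, tgt_true]
    simp only
    push_cast
    refine Prod.ext ?_ ?_ <;> simp only <;> ring
  simp only [e]

theorem seg_v {δ : ℝ} {D : Set (ℝ × ℝ)} {x y : ℤ} :
    segment ℝ (pt δ (src (x, y, false))) (pt δ (tgt (x, y, false))) ⊆ D ↔
      ∀ θ : ℝ, 0 ≤ θ → θ ≤ 1 → ((δ * x, δ * (y + θ)) : ℝ × ℝ) ∈ D := by
  rw [seg_iff]
  have e : ∀ θ : ℝ, (((1 - θ) * (pt δ (src (x, y, false))).1 + θ * (pt δ (tgt (x, y, false))).1,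
      (1 - θ) * (pt δ (src (x, y, false))).2 + θ * (pt δ (tgt (x, y, false))).2) : ℝ × ℝ) =
      (δ * x, δ * (y + θ)) := by
    intro θ
    unfold pt
    rw [src_mk, tgt_false]
    simp only
    push_cast
    refine Prod.ext ?_ ?_ <;> simp only <;> ring
  simp only [e]

/-- The edges of a rectangle without its sides, except for the edges which end at a point of `P`. -/
structure DomD (S : Finset Edg) (a b c d : ℤ) (P : Set Vtx) : Prop where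
  h : ∀ x y : ℤ, ((x, y, true) : Edg) ∈ S ↔ ((a ≤ x ∧ x + 1 ≤ b) ∧ (c < y ∧ y < d)) ∧
    (a < x ∨ ((x, y) : Vtx) ∈ P) ∧ (x + 1 < b ∨ ((x + 1, y) : Vtx) ∈ P)
  v : ∀ x y : ℤ, ((x, y, false) : Edg) ∈ S ↔ ((a < x ∧ x < b) ∧ (c ≤ y ∧ y + 1 ≤ d)) ∧
    (c < y ∨ ((x, y) : Vtx) ∈ P) ∧ (y + 1 < d ∨ ((x, y + 1) : Vtx) ∈ P)
  P : ∀ v ∈ P, ((v.1 = a ∨ v.1 = b) ∧ (c ≤ v.2 ∧ v.2 ≤ d)) ∨
    ((v.2 = c ∨ v.2 = d) ∧ (a ≤ v.1 ∧ v.1 ≤ b))

theorem lt_add_half {a x : ℤ} : (a:ℝ) < x + 1/2 ↔ a ≤ x := lt_half'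

theorem add_half_lt {x b : ℤ} : (x:ℝ) + 1/2 < b ↔ x + 1 ≤ b := by
  have h := lt_half (a := x + 1) (b := b)
  push_cast at h
  rw [← h]
  constructor <;> intro k <;> linarith

theorem int_ne_half {x v : ℤ} (h : (x:ℝ) + 1/2 = v) : False := by
  have h1 : (x:ℝ) < v := by linarith
  have h2 : (v:ℝ) < x + 1 := by linarith
  have h3 : x < v := by exact_mod_cast h1
  have h4 : v < x + 1 := by exact_mod_cast h2
  omega

variable {S : Finset Edg} {a b c d a2 b2 c2 d2 : ℤ} {P : Set Vtx}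

theorem SE_sub (hD : DomD S a b c d P) {δ : ℝ} (hδ : 0 < δ) {N : ℕ} :
    SE (Dq δ a b c d P a2 b2 c2 d2) δ N ⊆ S := by
  rintro ⟨x, y, _ | _⟩ he
  · rw [mem_SE] at he
    have h := seg_v.mp he.2
    rw [hD.v]
    have h0 := h 0 le_rfl (by norm_num)
    have hh := h (1/2) (by norm_num) (by norm_num)
    have h1 := h 1 (by norm_num) le_rfl
    rw [add_zero] at h0
    unfold Dq at h0 hh h1
    have hh' := hh.1
    rw [Set.mem_union, mem_Op hδ, mem_ptP hδ] at hh'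
    have g : ((a:ℝ) < x ∧ (x:ℝ) < b) ∧ ((c:ℝ) < y + 1/2 ∧ (y:ℝ) + 1/2 < d) := by
      rcases hh' with g | ⟨v, _, _, g⟩
      · exact g
      · exact (int_ne_half g).elim
    have g1 : a < x ∧ x < b := ⟨by exact_mod_cast g.1.1, by exact_mod_cast g.1.2⟩
    have g2 : c ≤ y ∧ y + 1 ≤ d := ⟨lt_add_half.mp g.2.1, add_half_lt.mp g.2.2⟩
    refine ⟨⟨g1, g2⟩, ?_, ?_⟩
    · have k := h0.1
      rw [Set.mem_union, mem_Op hδ, mem_ptP hδ] at k
      rcases k with k | ⟨v, hv, k1, k2⟩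
      · left; exact_mod_cast k.2.1
      · right
        have k1' : x = v.1 := by exact_mod_cast k1
        have k2' : y = v.2 := by exact_mod_cast k2
        rw [k1', k2']; exact hv
    · have k := h1.1
      rw [Set.mem_union, mem_Op hδ, mem_ptP hδ] at k
      rcases k with k | ⟨v, hv, k1, k2⟩
      · left; exact_mod_cast k.2.2
      · right
        have k1' : x = v.1 := by exact_mod_cast k1
        have k2' : y + 1 = v.2 := by exact_mod_cast k2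
        rw [k1', k2']; exact hv
  · rw [mem_SE] at he
    have h := seg_h.mp he.2
    rw [hD.h]
    have h0 := h 0 le_rfl (by norm_num)
    have hh := h (1/2) (by norm_num) (by norm_num)
    have h1 := h 1 (by norm_num) le_rfl
    rw [add_zero] at h0
    unfold Dq at h0 hh h1
    have hh' := hh.1
    rw [Set.mem_union, mem_Op hδ, mem_ptP hδ] at hh'
    have g : ((a:ℝ) < x + 1/2 ∧ (x:ℝ) + 1/2 < b) ∧ ((c:ℝ) < y ∧ (y:ℝ) < d) := by
      rcases hh' with g | ⟨v, _, g, _⟩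
      · exact g
      · exact (int_ne_half g).elim
    have g1 : a ≤ x ∧ x + 1 ≤ b := ⟨lt_add_half.mp g.1.1, add_half_lt.mp g.1.2⟩
    have g2 : c < y ∧ y < d := ⟨by exact_mod_cast g.2.1, by exact_mod_cast g.2.2⟩
    refine ⟨⟨g1, g2⟩, ?_, ?_⟩
    · have k := h0.1
      rw [Set.mem_union, mem_Op hδ, mem_ptP hδ] at k
      rcases k with k | ⟨v, hv, k1, k2⟩
      · left; exact_mod_cast k.1.1
      · right
        have k1' : x = v.1 := by exact_mod_cast k1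
        have k2' : y = v.2 := by exact_mod_cast k2
        rw [k1', k2']; exact hv
    · have k := h1.1
      rw [Set.mem_union, mem_Op hδ, mem_ptP hδ] at k
      rcases k with k | ⟨v, hv, k1, k2⟩
      · left; exact_mod_cast k.1.2
      · right
        have k1' : x + 1 = v.1 := by exact_mod_cast k1
        have k2' : y = v.2 := by exact_mod_cast k2
        rw [k1', k2']; exact hv

/-- The box. -/
def Bx (a2 b2 c2 d2 : ℤ) : Set Vtx := {v | (a2 ≤ v.1 ∧ v.1 ≤ b2) ∧ (c2 ≤ v.2 ∧ v.2 ≤ d2)}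

/-- Its sides. -/
def Bs (a2 b2 c2 d2 : ℤ) : Set Vtx :=
  {v | ((a2 ≤ v.1 ∧ v.1 ≤ b2) ∧ (c2 ≤ v.2 ∧ v.2 ≤ d2)) ∧
    (v.1 = a2 ∨ v.1 = b2 ∨ v.2 = c2 ∨ v.2 = d2)}

theorem SE_of (hD : DomD S a b c d P) {δ : ℝ} (hδ : 0 < δ) {N : ℕ}
    (hN : ∀ x ∈ Dq δ a b c d P a2 b2 c2 d2, |x.1| ≤ δ * N - δ ∧ |x.2| ≤ δ * N - δ)
    {e : Edg} (he : e ∈ S) (hout : ¬ (src e ∈ Bx a2 b2 c2 d2 ∧ tgt e ∈ Bx a2 b2 c2 d2)) :
    e ∈ SE (Dq δ a b c d P a2 b2 c2 d2) δ N := by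
  apply mem_SE_of_seg hδ hN
  obtain ⟨x, y, _ | _⟩ := e
  · rw [hD.v] at he
    obtain ⟨⟨⟨g1, g2⟩, g3, g4⟩, g5, g6⟩ := he
    rw [seg_v]
    intro θ h0 h1
    have r1 : (a:ℝ) < x := by exact_mod_cast g1
    have r2 : (x:ℝ) < b := by exact_mod_cast g2
    have r3 : (c:ℝ) ≤ y := by exact_mod_cast g3
    have r4 : (y:ℝ) + 1 ≤ d := by exact_mod_cast g4
    unfold Dq
    refine ⟨?_, ?_⟩
    · rw [Set.mem_union, mem_Op hδ, mem_ptP hδ]
      rcases h0.eq_or_lt with k | k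
      · rw [← k, add_zero]
        rcases g5 with g | g
        · left
          have r5 : (c:ℝ) < y := by exact_mod_cast g
          exact ⟨⟨r1, r2⟩, r5, by linarith⟩
        · right
          exact ⟨_, g, rfl, rfl⟩
      · rcases h1.eq_or_lt with k' | k'
        · rw [k']
          rcases g6 with g | g
          · left
            have r5 : (y:ℝ) + 1 < d := by exact_mod_cast g
            exact ⟨⟨r1, r2⟩, by linarith, by linarith⟩
          · right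
            exact ⟨_, g, rfl, by push_cast; ring⟩
        · left
          exact ⟨⟨r1, r2⟩, by linarith, by linarith⟩
    · rw [mem_Op hδ]
      rintro ⟨⟨k1, k2⟩, k3, k4⟩
      apply hout
      have k1' : a2 < x := by exact_mod_cast k1
      have k2' : x < b2 := by exact_mod_cast k2
      have k3' : c2 < y + 1 := by
        have : (c2:ℝ) < y + 1 := by linarith
        exact_mod_cast this
      have k4' : y < d2 := by
        have : (y:ℝ) < d2 := by linarith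
        exact_mod_cast this
      unfold Bx
      simp only [Set.mem_ofPred_eq, src_mk, tgt_false]
      omega
  · rw [hD.h] at he
    obtain ⟨⟨⟨g1, g2⟩, g3, g4⟩, g5, g6⟩ := he
    rw [seg_h]
    intro θ h0 h1
    have r1 : (a:ℝ) ≤ x := by exact_mod_cast g1
    have r2 : (x:ℝ) + 1 ≤ b := by exact_mod_cast g2
    have r3 : (c:ℝ) < y := by exact_mod_cast g3
    have r4 : (y:ℝ) < d := by exact_mod_cast g4
    unfold Dq
    refine ⟨?_, ?_⟩
    · rw [Set.mem_union, mem_Op hδ, mem_ptP hδ]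
      rcases h0.eq_or_lt with k | k
      · rw [← k, add_zero]
        rcases g5 with g | g
        · left
          have r5 : (a:ℝ) < x := by exact_mod_cast g
          exact ⟨⟨r5, by linarith⟩, r3, r4⟩
        · right
          exact ⟨_, g, rfl, rfl⟩
      · rcases h1.eq_or_lt with k' | k'
        · rw [k']
          rcases g6 with g | g
          · left
            have r5 : (x:ℝ) + 1 < b := by exact_mod_cast g
            exact ⟨⟨by linarith, by linarith⟩, r3, r4⟩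
          · right
            exact ⟨_, g, by push_cast; ring, rfl⟩
        · left
          exact ⟨⟨by linarith, by linarith⟩, r3, r4⟩
    · rw [mem_Op hδ]
      rintro ⟨⟨k1, k2⟩, k3, k4⟩
      apply hout
      have k1' : a2 < x + 1 := by
        have : (a2:ℝ) < x + 1 := by linarith
        exact_mod_cast this
      have k2' : x < b2 := by
        have : (x:ℝ) < b2 := by linarith
        exact_mod_cast this
      have k3' : c2 < y := by exact_mod_cast k3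
      have k4' : y < d2 := by exact_mod_cast k4
      unfold Bx
      simp only [Set.mem_ofPred_eq, src_mk, tgt_true]
      omega

/-- The first visit of a box: only the edges which are not inside are used. -/
theorem first_visit {G : Set Edg} {u v : Vtx} (hu : u ∉ Bx a2 b2 c2 d2) (h : Reach G u v) :
    (v ∉ Bx a2 b2 c2 d2 ∧
      Reach (G ∩ {e | ¬ (src e ∈ Bx a2 b2 c2 d2 ∧ tgt e ∈ Bx a2 b2 c2 d2)}) u v) ∨
    ∃ w ∈ Bs a2 b2 c2 d2,
      Reach (G ∩ {e | ¬ (src e ∈ Bx a2 b2 c2 d2 ∧ tgt e ∈ Bx a2 b2 c2 d2)}) u w := by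
  induction h with
  | refl => exact Or.inl ⟨hu, Reach.refl _ _⟩
  | @tail v w h0 hs ih =>
    rcases ih with ⟨h1, h2⟩ | h3
    · obtain ⟨e, he, hc⟩ := hs
      have heo : ¬ (src e ∈ Bx a2 b2 c2 d2 ∧ tgt e ∈ Bx a2 b2 c2 d2) := by
        rintro ⟨k1, k2⟩
        rcases hc with ⟨c1, c2⟩ | ⟨c1, c2⟩
        · exact h1 (c1 ▸ k1)
        · exact h1 (c2 ▸ k2)
      have hr : Reach (G ∩ {e | ¬ (src e ∈ Bx a2 b2 c2 d2 ∧ tgt e ∈ Bx a2 b2 c2 d2)}) u w :=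
        Relation.ReflTransGen.tail h2 ⟨e, ⟨he, heo⟩, hc⟩
      by_cases hw : w ∈ Bx a2 b2 c2 d2
      · right
        refine ⟨w, ⟨hw, ?_⟩, hr⟩
        -- `v` is a neighbour of `w` which is not in the box
        have hadj : (v.1 = w.1 ∧ (v.2 = w.2 + 1 ∨ v.2 = w.2 - 1)) ∨
            (v.2 = w.2 ∧ (v.1 = w.1 + 1 ∨ v.1 = w.1 - 1)) := by
          obtain ⟨x, y, _ | _⟩ := e
          · rcases hc with ⟨c1, c2⟩ | ⟨c1, c2⟩
            · rw [← c1, ← c2]; left; exact ⟨rfl, Or.inr (by simp)⟩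
            · rw [← c1, ← c2]; left; exact ⟨rfl, Or.inl (by simp)⟩
          · rcases hc with ⟨c1, c2⟩ | ⟨c1, c2⟩
            · rw [← c1, ← c2]; right; exact ⟨rfl, Or.inr (by simp)⟩
            · rw [← c1, ← c2]; right; exact ⟨rfl, Or.inl (by simp)⟩
        have hv' : ¬ ((a2 ≤ v.1 ∧ v.1 ≤ b2) ∧ (c2 ≤ v.2 ∧ v.2 ≤ d2)) := h1
        have hw' : (a2 ≤ w.1 ∧ w.1 ≤ b2) ∧ (c2 ≤ w.2 ∧ w.2 ≤ d2) := hw
        rcases hadj with ⟨k1, k2 | k2⟩ | ⟨k1, k2 | k2⟩ <;> omega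
      · exact Or.inl ⟨hw, hr⟩
    · exact Or.inr h3

/-- The vertices are near the sides of the rectangle. -/
def NearFr (a b c d : ℤ) (I : Set Vtx) : Prop := ∀ v ∈ I, ∃ w : Vtx,
  (((w.1 = a ∨ w.1 = b) ∧ (c ≤ w.2 ∧ w.2 ≤ d)) ∨ ((w.2 = c ∨ w.2 = d) ∧ (a ≤ w.1 ∧ w.1 ≤ b))) ∧
    |w.1 - v.1| ≤ 1 ∧ |w.2 - v.2| ≤ 1

theorem mem_Fr {δ : ℝ} (hδ : 0 < δ) {a b c d : ℤ} {w : Vtx}
    (h : ((w.1 = a ∨ w.1 = b) ∧ (c ≤ w.2 ∧ w.2 ≤ d)) ∨
      ((w.2 = c ∨ w.2 = d) ∧ (a ≤ w.1 ∧ w.1 ≤ b))) : pt δ w ∈ Fr δ a b c d := by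
  unfold Fr pt
  simp only [Set.mem_ofPred_eq]
  have m : ∀ {s t : ℤ}, s ≤ t → δ * (s:ℝ) ≤ δ * t := fun h =>
    mul_le_mul_of_nonneg_left (by exact_mod_cast h) hδ.le
  rcases h with ⟨h1 | h1, h2, h3⟩ | ⟨h1 | h1, h2, h3⟩
  · left; exact ⟨Or.inl (by rw [h1]), m h2, m h3⟩
  · left; exact ⟨Or.inr (by rw [h1]), m h2, m h3⟩
  · right; exact ⟨Or.inl (by rw [h1]), m h2, m h3⟩
  · right; exact ⟨Or.inr (by rw [h1]), m h2, m h3⟩

/-- **Near-critical stability of the probability that a box is reached.** -/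
theorem box_stab (ρ : ℝ) (hρ : 0 ≤ ρ) : ∃ C : ℝ, 0 < C ∧ ∀ (δ : ℝ), 0 < δ → δ ≤ 1 →
    ∀ (S : Finset Edg) (a b c d : ℤ) (P : Set Vtx), DomD S a b c d P →
    |δ * a| ≤ ρ → |δ * b| ≤ ρ → |δ * c| ≤ ρ → |δ * d| ≤ ρ →
    ∀ I : Set Vtx, NearFr a b c d I → ∀ a2 b2 c2 d2 : ℤ, δ * b2 - δ * a2 ≤ ρ →
    δ * d2 - δ * c2 ≤ ρ → ∀ q : ℝ, 0 ≤ q → q ≤ 1 →
    |Pr (fun _ => q) S (fun F => Cn I (Bx a2 b2 c2 d2) ↑F) -
      Pr (fun _ => 1/2) S (fun F => Cn I (Bx a2 b2 c2 d2) ↑F)| ≤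
      C * |q - 1/2| * δ ^ (-(3/4 : ℝ)) := by
  classical
  obtain ⟨C, hC, h⟩ := dom_stab stU ρ (4 * (2 * ρ + 1) + 4 * (ρ + 1)) 1 1 (by positivity)
    (by norm_num) (by norm_num) (by norm_num)
  refine ⟨C, hC, ?_⟩
  intro δ hδ hδ1 S a b c d P hD ha hb hc hd I hI a2 b2 c2 d2 h2 h3 q h0 h1
  have hrhs : 0 ≤ C * |q - 1/2| * δ ^ (-(3/4 : ℝ)) := by positivity
  by_cases hIK : ∃ u ∈ I, u ∈ Bx a2 b2 c2 d2
  · obtain ⟨u, hu, hu'⟩ := hIK
    have e : ∀ q : ℝ, Pr (fun _ => q) S (fun F => Cn I (Bx a2 b2 c2 d2) ↑F) = 1 := fun q =>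
      Pr_true _ (fun F _ => ⟨u, hu, u, hu', Reach.refl _ _⟩)
    rw [e, e, sub_self, abs_zero]
    exact hrhs
  push Not at hIK
  rw [abs_le] at ha hb hc hd
  obtain ⟨D, hDd⟩ : ∃ D, D = Dq δ a b c d P a2 b2 c2 d2 := ⟨_, rfl⟩
  have hfrP : ∀ v ∈ P, pt δ v ∈ Fr δ a b c d := fun v hv => mem_Fr hδ (hD.P v hv)
  have hbox : ∀ z ∈ Fr δ a b c d, |z.1| ≤ ρ ∧ |z.2| ≤ ρ := by
    rintro z (⟨g | g, g1, g2⟩ | ⟨g | g, g1, g2⟩)
    · rw [abs_le, abs_le, g]; exact ⟨⟨by linarith, by linarith⟩, by linarith, by linarith⟩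
    · rw [abs_le, abs_le, g]; exact ⟨⟨by linarith, by linarith⟩, by linarith, by linarith⟩
    · rw [abs_le, abs_le, g]; exact ⟨⟨by linarith, by linarith⟩, by linarith, by linarith⟩
    · rw [abs_le, abs_le, g]; exact ⟨⟨by linarith, by linarith⟩, by linarith, by linarith⟩
  have hbd : ∀ z ∈ D, |z.1| ≤ ρ ∧ |z.2| ≤ ρ := by
    rintro z hz
    rw [hDd] at hz
    rcases hz.1 with hz | ⟨v, hv, rfl⟩
    · obtain ⟨⟨g1, g2⟩, g3, g4⟩ := hz
      rw [abs_le, abs_le]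
      exact ⟨⟨by linarith, by linarith⟩, by linarith, by linarith⟩
    · exact hbox _ (hfrP v hv)
  obtain ⟨N, hN⟩ := exists_nat_ge ((ρ + δ) / δ)
  rw [div_le_iff₀ hδ] at hN
  have hN' : ρ + δ ≤ δ * N := by linarith
  have hbdN : ∀ x ∈ D, |x.1| ≤ δ * N - δ ∧ |x.2| ≤ δ * N - δ := fun x hx =>
    ⟨(hbd x hx).1.trans (by linarith), (hbd x hx).2.trans (by linarith)⟩
  have hcov : Cov (Fr δ a b c d ∪ Fr δ a2 b2 c2 d2) (4 * (2 * ρ + 1) + 4 * (ρ + 1)) 1 :=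
    (cov_Fr (by linarith) (by linarith) (by linarith)).union (cov_Fr h2 h3 hρ)
  have hsub : SE D δ N ⊆ S := by rw [hDd]; exact SE_sub hD hδ
  -- replace the event
  have key : ∀ q : ℝ, Pr (fun _ => q) S (fun F => Cn I (Bx a2 b2 c2 d2) ↑F) =
      Pr (fun _ => q) (SE D δ N) (fun F => Cn I (Bs a2 b2 c2 d2) ↑F) := by
    intro q
    have e1 : Pr (fun _ => q) S (fun F => Cn I (Bx a2 b2 c2 d2) ↑F) =
        Pr (fun _ => q) S (fun F => Cn I (Bs a2 b2 c2 d2) ↑(F ∩ SE D δ N)) := by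
      apply Pr_congr
      intro F hF
      constructor
      · rintro ⟨u, hu, v, hv, hr⟩
        rcases first_visit (hIK u hu) hr with ⟨h4, _⟩ | ⟨w, hw, hw'⟩
        · exact (h4 hv).elim
        · refine ⟨u, hu, w, hw, Reach.mono ?_ hw'⟩
          rintro e ⟨he1, he2⟩
          rw [Finset.mem_coe, Finset.mem_inter]
          refine ⟨he1, ?_⟩
          rw [hDd]
          exact SE_of hD hδ (by rw [← hDd]; exact hbdN) (hF he1) he2
      · rintro ⟨u, hu, v, hv, hr⟩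
        exact ⟨u, hu, v, hv.1, Reach.mono (by
          intro e he
          rw [Finset.mem_coe, Finset.mem_inter] at he
          exact he.1) hr⟩
    rw [e1, Pr_local hsub (A := fun F => Cn I (Bs a2 b2 c2 d2) ↑(F ∩ SE D δ N))]
    · apply Pr_congr
      intro F hF
      rw [Finset.inter_eq_left.mpr hF]
    · intro F _
      rw [Finset.inter_assoc, Finset.inter_self]
  rw [key, key]
  refine h D (Fr δ a b c d ∪ Fr δ a2 b2 c2 d2) (by rw [hDd]; exact fr_Dq hfrP) hbd hcov δ hδ hδ1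
    N hN' I (Bs a2 b2 c2 d2) ?_ q h0 h1
  rintro v (hv | hv)
  · obtain ⟨w, hw, k1, k2⟩ := hI v hv
    refine ⟨pt δ w, Or.inl (mem_Fr hδ hw), ?_⟩
    have := dist_pt_pt hδ k1 k2
    push_cast at this
    linarith
  · refine ⟨pt δ v, Or.inr (mem_Fr hδ ?_), by rw [dist_self]; positivity⟩
    obtain ⟨⟨⟨k1, k2⟩, k3, k4⟩, k5⟩ := hv
    rcases k5 with k | k | k | k
    · exact Or.inl ⟨Or.inl k, k3, k4⟩
    · exact Or.inl ⟨Or.inr k, k3, k4⟩
    · exact Or.inr ⟨Or.inl k, k1, k2⟩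
    · exact Or.inr ⟨Or.inr k, k1, k2⟩

end K3h14.NC
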