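import Pool.Agent.K3h14.NC.Top
import Pool.Agent.K3h14.NC.Geo

/-!
Near-critical stability of the events that the two clusters of the exploration path visit a box.
-/

set_option maxHeartbeats 1000000

namespace K3h14.NC

open H974 H973 H12S H934E Finset TH291.NW

/-- The vertices of the wired arc. -/
def I0 (R : Rect) (δ : ℝ) : Set Vtx :=
  {v | (v.2 = R.y1 δ ∧ R.x0 δ ≤ v.1 ∧ v.1 ≤ R.tc δ) ∨
    (v.1 = R.x0 δ ∧ 0 ≤ v.2 ∧ v.2 ≤ R.y1 δ) ∨ (v.2 = 0 ∧ R.x0 δ ≤ v.1 ∧ v.1 ≤ 0)}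

variable {R : Rect} {δ : ℝ}

theorem clu_of_wired {F : Finset Edg} {e : Edg} (he : e ∈ R.wired δ) :
    src e ∈ R.clu δ F ↔ tgt e ∈ R.clu δ F := clu_step (Or.inr he)

theorem I0_bot (F : Finset Edg) (n : ℕ) (hn : R.x0 δ ≤ -(n:ℤ)) : (-(n:ℤ), (0:ℤ)) ∈ R.clu δ F := by
  induction n with
  | zero => exact Reach.refl _ _
  | succ n ih =>
    have h1 := ih (by push_cast at hn; omega)
    have he : ((-((n + 1 : ℕ) : ℤ), 0, true) : Edg) ∈ R.wired δ :=
      Or.inr (Or.inr ⟨rfl, rfl, hn, by push_cast; omega⟩)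
    have := (clu_of_wired (F := F) he).mpr
    rw [src_mk, tgt_true] at this
    apply this
    have e : -((n + 1 : ℕ) : ℤ) + 1 = -(n:ℤ) := by push_cast; ring
    rw [e]
    exact h1

theorem I0_left (hN : Nd R δ) (F : Finset Edg) (n : ℕ) (hn : (n:ℤ) ≤ R.y1 δ) :
    (R.x0 δ, (n:ℤ)) ∈ R.clu δ F := by
  induction n with
  | zero =>
    have h := I0_bot (R := R) (δ := δ) F (-(R.x0 δ)).toNat (by have := hN.x0; omega)
    have e : -(((-(R.x0 δ)).toNat : ℕ) : ℤ) = R.x0 δ := by have := hN.x0; omega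
    rw [e] at h
    exact h
  | succ n ih =>
    have h1 := ih (by push_cast at hn; omega)
    have he : ((R.x0 δ, (n:ℤ), false) : Edg) ∈ R.wired δ :=
      Or.inr (Or.inl ⟨rfl, rfl, Int.natCast_nonneg n, by push_cast at hn; simp only; omega⟩)
    have := (clu_of_wired (F := F) he).mp
    rw [src_mk, tgt_false] at this
    have h2 := this h1
    push_cast
    exact h2

theorem I0_top (hN : Nd R δ) (F : Finset Edg) (n : ℕ) (hn : R.x0 δ + n ≤ R.tc δ) :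
    (R.x0 δ + n, R.y1 δ) ∈ R.clu δ F := by
  induction n with
  | zero =>
    have h := I0_left hN F (R.y1 δ).toNat (by have := hN.y1; omega)
    have e : (((R.y1 δ).toNat : ℕ) : ℤ) = R.y1 δ := by have := hN.y1; omega
    rw [e] at h
    rw [Nat.cast_zero, add_zero]
    exact h
  | succ n ih =>
    have h1 := ih (by push_cast at hn; omega)
    have he : ((R.x0 δ + n, R.y1 δ, true) : Edg) ∈ R.wired δ :=
      Or.inl ⟨rfl, rfl, by simp only; omega, by push_cast at hn; simp only; omega⟩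
    have := (clu_of_wired (F := F) he).mp
    rw [src_mk, tgt_true] at this
    have h2 := this h1
    push_cast
    rw [← add_assoc]
    exact h2

theorem I0_clu (hN : Nd R δ) (F : Finset Edg) {u : Vtx} (hu : u ∈ I0 R δ) : u ∈ R.clu δ F := by
  obtain ⟨a, b⟩ := u
  rcases hu with ⟨h1, h2, h3⟩ | ⟨h1, h2, h3⟩ | ⟨h1, h2, h3⟩
  · simp only at h1 h2 h3
    obtain ⟨n, hn⟩ := Int.eq_ofNat_of_zero_le (sub_nonneg.mpr h2)
    have e : a = R.x0 δ + n := by omega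
    subst h1 e
    exact I0_top hN F n h3
  · simp only at h1 h2 h3
    obtain ⟨n, hn⟩ := Int.eq_ofNat_of_zero_le h2
    subst h1 hn
    exact I0_left hN F n h3
  · simp only at h1 h2 h3
    obtain ⟨n, hn⟩ := Int.eq_ofNat_of_zero_le (show 0 ≤ -a by omega)
    have e : a = -(n:ℤ) := by omega
    subst h1 e
    exact I0_bot F n h2

theorem wired_ends (hN : Nd R δ) {e : Edg} (he : e ∈ R.wired δ) :
    src e ∈ I0 R δ ∧ tgt e ∈ I0 R δ := by
  obtain ⟨n1, n2, n3, n4, n5⟩ := hN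
  obtain ⟨x, y, b⟩ := e
  simp only [Rect.wired, Set.mem_ofPred_eq] at he
  unfold I0
  rcases he with ⟨h1, h2, h3, h4⟩ | ⟨h1, h2, h3, h4⟩ | ⟨h1, h2, h3, h4⟩
  · subst h1
    simp only [src_mk, tgt_true, Set.mem_ofPred_eq]
    omega
  · subst h1
    simp only [src_mk, tgt_false, Set.mem_ofPred_eq]
    omega
  · subst h1
    simp only [src_mk, tgt_true, Set.mem_ofPred_eq]
    omega

theorem zero_I0 (hN : Nd R δ) : ((0, 0) : Vtx) ∈ I0 R δ := Or.inr (Or.inr ⟨rfl, hN.x0, le_rfl⟩)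

theorem clu_iff (hN : Nd R δ) {F : Finset Edg} {v : Vtx} :
    v ∈ R.clu δ F ↔ ∃ u ∈ I0 R δ, Reach (↑F : Set Edg) u v := by
  constructor
  · intro hv
    have h0 : Reach (↑F ∪ R.wired δ) (0, 0) v := hv
    induction h0 with
    | refl => exact ⟨(0, 0), zero_I0 hN, Reach.refl _ _⟩
    | @tail v w h0 hs ih =>
      obtain ⟨u, hu, hr⟩ := ih h0
      obtain ⟨e, he, hc⟩ := hs
      rcases he with he | he
      · exact ⟨u, hu, Relation.ReflTransGen.tail hr ⟨e, he, hc⟩⟩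
      · obtain ⟨k1, k2⟩ := wired_ends hN he
        rcases hc with ⟨_, h2⟩ | ⟨h1, _⟩
        · exact ⟨w, h2 ▸ k2, Reach.refl _ _⟩
        · exact ⟨w, h1 ▸ k1, Reach.refl _ _⟩
  · rintro ⟨u, hu, hr⟩
    have h1 : Reach (↑F ∪ R.wired δ) (0, 0) u := I0_clu hN F hu
    exact h1.trans (hr.mono Set.subset_union_left)

/-- The open cluster visits a set. -/
def EC (R : Rect) (δ : ℝ) (K : Set Vtx) (F : Finset Edg) : Prop := ∃ v ∈ R.clu δ F, v ∈ K

/-- The dual-open cluster visits a set. -/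
def ED (R : Rect) (δ : ℝ) (K : Set Vtx) (F : Finset Edg) : Prop := ∃ f ∈ R.dclu δ F, f ∈ K

theorem EC_iff (hN : Nd R δ) {K : Set Vtx} {F : Finset Edg} :
    EC R δ K F ↔ Cn (I0 R δ) K (↑F : Set Edg) := by
  constructor
  · rintro ⟨v, hv, hK⟩
    obtain ⟨u, hu, hr⟩ := (clu_iff hN).mp hv
    exact ⟨u, hu, v, hK, hr⟩
  · rintro ⟨u, hu, v, hK, hr⟩
    exact ⟨v, (clu_iff hN).mpr ⟨u, hu, hr⟩, hK⟩

theorem ED_iff {K : Set Vtx} {F : Finset Edg} : ED R δ K F ↔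
    Cn (R.outer δ) K (dl '' ((↑(R.edges δ) : Set Edg) \ (↑F ∪ R.wired δ))) := by
  constructor
  · rintro ⟨f, ⟨g, hg, hr⟩, hK⟩
    exact ⟨g, hg, f, hK, reach_dl.mpr hr⟩
  · rintro ⟨g, hg, f, hK, hr⟩
    exact ⟨f, ⟨g, hg, reach_dl.mp hr⟩, hK⟩

theorem clu_mono {F G : Finset Edg} (h : F ⊆ G) : R.clu δ F ⊆ R.clu δ G :=
  fun _ hv => W.mono h hv

theorem dclu_anti {F G : Finset Edg} (h : F ⊆ G) : R.dclu δ G ⊆ R.dclu δ F := by
  rintro f ⟨g, hg, hr⟩
  refine ⟨g, hg, hr.mono ?_⟩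
  rintro e ⟨h1, h2⟩
  refine ⟨h1, fun h3 => h2 ?_⟩
  rcases h3 with h3 | h3
  · exact Or.inl (h h3)
  · exact Or.inr h3

theorem EC_mono {K : Set Vtx} {F G : Finset Edg} (h : F ⊆ G) (hF : EC R δ K F) : EC R δ K G := by
  obtain ⟨v, hv, hK⟩ := hF
  exact ⟨v, clu_mono h hv, hK⟩

theorem ED_anti {K : Set Vtx} {F G : Finset Edg} (h : F ⊆ G) (hG : ED R δ K G) : ED R δ K F := by
  obtain ⟨v, hv, hK⟩ := hG
  exact ⟨v, dclu_anti h hv, hK⟩

theorem dom_prim : DomD (R.edges δ) (R.x0 δ - 1) (R.x1 δ + 1) (-1) (R.y1 δ + 1) ∅ := by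
  constructor
  · intro x y
    rw [mem_edges_iff]
    unfold InV
    simp only [src_mk, tgt_true, Set.mem_empty_iff_false, or_false]
    omega
  · intro x y
    rw [mem_edges_iff]
    unfold InV
    simp only [src_mk, tgt_false, Set.mem_empty_iff_false, or_false]
    omega
  · intro v hv
    exact hv.elim

theorem near_prim (hN : Nd R δ) :
    NearFr (R.x0 δ - 1) (R.x1 δ + 1) (-1) (R.y1 δ + 1) (I0 R δ) := by
  obtain ⟨n1, n2, n3, n4, n5⟩ := hN
  rintro ⟨x, y⟩ hv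
  simp only [I0, Set.mem_ofPred_eq] at hv
  rcases hv with ⟨h1, h2, h3⟩ | ⟨h1, h2, h3⟩ | ⟨h1, h2, h3⟩
  · refine ⟨(x, R.y1 δ + 1), Or.inr ⟨Or.inr rfl, by simp only; omega, by simp only; omega⟩, ?_, ?_⟩
    · simp
    · simp only; rw [h1, abs_le]; omega
  · refine ⟨(R.x0 δ - 1, y), Or.inl ⟨Or.inl rfl, by simp only; omega, by simp only; omega⟩, ?_, ?_⟩
    · simp only; rw [h1, abs_le]; omega
    · simp
  · refine ⟨(x, -1), Or.inr ⟨Or.inl rfl, by simp only; omega, by simp only; omega⟩, ?_, ?_⟩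
    · simp
    · simp only; rw [h1, abs_le]; omega

open Classical in
/-- The edges which are not wired. -/
noncomputable def eU (R : Rect) (δ : ℝ) : Finset Edg := (R.edges δ).filter (fun e => e ∉ R.wired δ)

theorem mem_eU {e : Edg} : e ∈ eU R δ ↔ e ∈ R.edges δ ∧ e ∉ R.wired δ := by
  classical
  unfold eU
  rw [Finset.mem_filter]

theorem dom_dual (hN : Nd R δ) :
    DomD (dmp (eU R δ)) (R.x0 δ - 1) (R.x1 δ) (-1) (R.y1 δ) (R.outer δ) := by
  obtain ⟨n1, n2, n3, n4, n5⟩ := hN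
  constructor
  · intro x y
    rw [mem_dmp, dls_t, mem_eU, mem_edges_iff]
    unfold InV
    simp only [src_mk, tgt_false, Rect.wired, Rect.outer, Set.mem_ofPred_eq]
    constructor
    · rintro ⟨⟨h1, h2⟩, h3⟩
      have h4 : ¬ (x + 1 = R.x0 δ) := fun h => h3 (Or.inr (Or.inl ⟨by trivial, h, by omega, by omega⟩))
      refine ⟨⟨⟨by omega, by omega⟩, by omega, by omega⟩, Or.inl (by omega), ?_⟩
      by_cases h5 : x + 1 < R.x1 δ
      · exact Or.inl h5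
      · exact Or.inr (Or.inr (Or.inl ⟨by omega, by omega, by omega⟩))
    · rintro ⟨⟨⟨h1, h2⟩, h3, h4⟩, h5, h6⟩
      have h7 : R.x0 δ - 1 < x := by
        rcases h5 with h | h | h | h
        · exact h
        · omega
        · omega
        · omega
      refine ⟨⟨⟨⟨by omega, by omega⟩, by omega, by omega⟩, ⟨by omega, by omega⟩, by omega, by omega⟩, ?_⟩
      rintro (h | h | h)
      · exact absurd h.1 (by simp)
      · omega
      · exact absurd h.1 (by simp)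
  · intro x y
    rw [mem_dmp, dls_f, mem_eU, mem_edges_iff]
    unfold InV
    simp only [src_mk, tgt_true, Rect.wired, Rect.outer, Set.mem_ofPred_eq]
    constructor
    · rintro ⟨⟨h1, h2⟩, h3⟩
      refine ⟨⟨⟨by omega, by omega⟩, by omega, by omega⟩, ?_, ?_⟩
      · by_cases h5 : -1 < y
        · exact Or.inl h5
        · right; left
          refine ⟨by omega, ?_, by omega⟩
          by_contra hx
          exact h3 (Or.inr (Or.inr ⟨by trivial, by omega, by omega, by omega⟩))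
      · by_cases h5 : y + 1 < R.y1 δ
        · exact Or.inl h5
        · right; right; right
          refine ⟨by omega, ?_, by omega⟩
          by_contra hx
          exact h3 (Or.inl ⟨by trivial, by omega, by omega, by omega⟩)
    · rintro ⟨⟨⟨h1, h2⟩, h3, h4⟩, h5, h6⟩
      refine ⟨⟨⟨⟨by omega, by omega⟩, by omega, by omega⟩, ⟨by omega, by omega⟩, by omega, by omega⟩, ?_⟩
      rintro (h | h | h)
      · obtain ⟨_, h8, h9, h10⟩ := h
        rcases h6 with h | h | h | h <;> omega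
      · exact absurd h.1 (by simp)
      · obtain ⟨_, h8, h9, h10⟩ := h
        rcases h5 with h | h | h | h <;> omega
  · rintro ⟨x, y⟩ hv
    simp only [Rect.outer, Set.mem_ofPred_eq] at hv
    simp only
    rcases hv with h | h | h
    · right; exact ⟨Or.inl h.1, by omega, by omega⟩
    · left; exact ⟨Or.inr h.1, by omega, by omega⟩
    · right; exact ⟨Or.inr h.1, by omega, by omega⟩

theorem near_dual (hN : Nd R δ) :
    NearFr (R.x0 δ - 1) (R.x1 δ) (-1) (R.y1 δ) (R.outer δ) := by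
  intro v hv
  refine ⟨v, (dom_dual hN).P v hv, ?_, ?_⟩ <;> simp

/-- The dual event as a connection event. -/
theorem pr_dual (q : ℝ) (K : Set Vtx) : Pr (fun _ => q) (R.edges δ) (ED R δ K) =
    Pr (fun _ => 1 - q) (dmp (eU R δ)) (fun F => Cn (R.outer δ) K (↑F : Set Edg)) := by
  classical
  rw [pr_dmp, Pr_compl (fun _ => q)]
  have hsub : eU R δ ⊆ R.edges δ := fun e he => (mem_eU.mp he).1
  have key : ∀ F : Finset Edg, (↑(dmp (eU R δ \ F)) : Set Edg) =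
      H974.dl '' ((↑(R.edges δ) : Set Edg) \ (↑F ∪ R.wired δ)) := by
    intro F
    rw [coe_dmp]
    congr 1
    ext e
    rw [Finset.mem_coe, Finset.mem_sdiff, mem_eU, Set.mem_sdiff, Set.mem_union, Finset.mem_coe,
      Finset.mem_coe]
    tauto
  have e1 : Pr (fun _ => q) (R.edges δ) (ED R δ K) =
      Pr (fun _ => q) (R.edges δ) (fun F => Cn (R.outer δ) K (↑(dmp (eU R δ \ F)) : Set Edg)) := by
    apply Pr_congr
    intro F _
    rw [ED_iff, key]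
  rw [e1, Pr_local hsub]
  intro F _
  have : eU R δ \ F = eU R δ \ (F ∩ eU R δ) := by
    ext e
    rw [Finset.mem_sdiff, Finset.mem_sdiff, Finset.mem_inter]
    tauto
  rw [this]

/-- The size of the discrete domain. -/
theorem sizes (hδ : 0 < δ) (hδ1 : δ ≤ 1) (hN : Nd R δ) :
    |δ * ((R.x0 δ - 1 : ℤ) : ℝ)| ≤ R.A + R.B + R.H + 1 ∧
    |δ * ((R.x1 δ + 1 : ℤ) : ℝ)| ≤ R.A + R.B + R.H + 1 ∧
    |δ * ((R.x1 δ : ℤ) : ℝ)| ≤ R.A + R.B + R.H + 1 ∧
    |δ * (((-1 : ℤ) : ℤ) : ℝ)| ≤ R.A + R.B + R.H + 1 ∧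
    |δ * ((R.y1 δ + 1 : ℤ) : ℝ)| ≤ R.A + R.B + R.H + 1 ∧
    |δ * ((R.y1 δ : ℤ) : ℝ)| ≤ R.A + R.B + R.H + 1 := by
  have hA := R.hA
  have hB := R.hB
  have hH := R.hH
  obtain ⟨n1, n2, n3, n4, n5⟩ := hN
  have e1 : -(R.A / δ) - 1 < ((⌊-(R.A / δ)⌋ : ℤ) : ℝ) := by
    have := Int.lt_floor_add_one (-(R.A / δ))
    linarith
  have e2 : ((⌈R.B / δ⌉ : ℤ) : ℝ) < R.B / δ + 1 := Int.ceil_lt_add_one _
  have e3 : ((⌈R.H / δ⌉ : ℤ) : ℝ) < R.H / δ + 1 := Int.ceil_lt_add_one _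
  have d1 : δ * (R.A / δ) = R.A := by field_simp
  have d2 : δ * (R.B / δ) = R.B := by field_simp
  have d3 : δ * (R.H / δ) = R.H := by field_simp
  have f1 : δ * ((R.x0 δ - 1 : ℤ) : ℝ) ≥ -R.A - δ := by
    have : (R.x0 δ - 1 : ℤ) = ⌊-(R.A / δ)⌋ := by unfold Rect.x0; ring
    rw [this]
    nlinarith
  have f1' : δ * ((R.x0 δ - 1 : ℤ) : ℝ) ≤ 0 := by
    have : ((R.x0 δ - 1 : ℤ) : ℝ) ≤ 0 := by exact_mod_cast (by omega : R.x0 δ - 1 ≤ 0)
    nlinarith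
  have f2 : δ * ((R.x1 δ + 1 : ℤ) : ℝ) ≤ R.B + δ := by
    have : (R.x1 δ + 1 : ℤ) = ⌈R.B / δ⌉ := by unfold Rect.x1; ring
    rw [this]
    nlinarith
  have f2' : (0:ℝ) ≤ ((R.x1 δ : ℤ) : ℝ) := by exact_mod_cast n2
  have f3 : δ * ((R.y1 δ + 1 : ℤ) : ℝ) ≤ R.H := by
    have : (R.y1 δ + 1 : ℤ) = ⌈R.H / δ⌉ - 1 := by unfold Rect.y1; ring
    rw [this]
    push_cast
    nlinarith
  have f3' : (0:ℝ) ≤ ((R.y1 δ : ℤ) : ℝ) := by exact_mod_cast n3
  push_cast at f1 f1' f2 f3 ⊢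
  refine ⟨?_, ?_, ?_, ?_, ?_, ?_⟩
  · rw [abs_le]; constructor <;> linarith
  · rw [abs_of_nonneg (by positivity)]; linarith
  · rw [abs_of_nonneg (by positivity)]; linarith
  · rw [abs_le]; constructor <;> linarith
  · rw [abs_of_nonneg (by positivity)]; linarith
  · rw [abs_of_nonneg (by positivity)]; linarith

/-- **Near-critical stability of the two clusters.** -/
theorem cl_stab (R : Rect) : ∃ C : ℝ, 0 < C ∧ ∀ δ : ℝ, 0 < δ → δ ≤ 1 → Nd R δ →
    ∀ a2 b2 c2 d2 : ℤ, δ * b2 - δ * a2 ≤ R.A + R.B + R.H + 1 →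
    δ * d2 - δ * c2 ≤ R.A + R.B + R.H + 1 → ∀ q : ℝ, 0 ≤ q → q ≤ 1 →
    |Pr (fun _ => q) (R.edges δ) (EC R δ (Bx a2 b2 c2 d2)) -
      Pr (fun _ => 1/2) (R.edges δ) (EC R δ (Bx a2 b2 c2 d2))| ≤
      C * |q - 1/2| * δ ^ (-(3/4 : ℝ)) ∧
    |Pr (fun _ => q) (R.edges δ) (ED R δ (Bx a2 b2 c2 d2)) -
      Pr (fun _ => 1/2) (R.edges δ) (ED R δ (Bx a2 b2 c2 d2))| ≤
      C * |q - 1/2| * δ ^ (-(3/4 : ℝ)) := by
  have hρ : 0 ≤ R.A + R.B + R.H + 1 := by
    have hA := R.hA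
    have hB := R.hB
    have hH := R.hH
    linarith
  obtain ⟨C, hC, h⟩ := box_stab (R.A + R.B + R.H + 1) hρ
  refine ⟨C, hC, ?_⟩
  intro δ hδ hδ1 hN a2 b2 c2 d2 h1 h2 q h0 h1'
  obtain ⟨s1, s2, s3, s4, s5, s6⟩ := sizes hδ hδ1 hN
  constructor
  · have := h δ hδ hδ1 (R.edges δ) _ _ _ _ ∅ dom_prim s1 s2 s4 s5 (I0 R δ) (near_prim hN)
      a2 b2 c2 d2 h1 h2 q h0 h1'
    have e : ∀ q : ℝ, Pr (fun _ => q) (R.edges δ) (EC R δ (Bx a2 b2 c2 d2)) =
        Pr (fun _ => q) (R.edges δ) (fun F => Cn (I0 R δ) (Bx a2 b2 c2 d2) ↑F) := fun q =>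
      Pr_congr (fun F _ => EC_iff hN)
    rw [e, e]
    exact this
  · have := h δ hδ hδ1 (dmp (eU R δ)) _ _ _ _ (R.outer δ) (dom_dual hN) s1 s3 s4 s6 (R.outer δ)
      (near_dual hN) a2 b2 c2 d2 h1 h2 (1 - q) (by linarith) (by linarith)
    rw [pr_dual, pr_dual]
    have e1 : |1 - q - 1/2| = |q - 1/2| := by
      rw [← abs_neg]; congr 1; ring
    have e2 : (1:ℝ) - 1/2 = 1/2 := by norm_num
    rw [e1] at this
    simp only [e2]
    exact this

end K3h14.NC
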