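import Pool.Agent.K3h14.NC.Low
import Pool.Agent.K3h14.NC.Coup

/-!
The law of the trace for bond percolation with arbitrary edge probabilities.
-/

set_option maxHeartbeats 1000000

namespace K3h14.NC

open H974 H973 H12S H934E Finset TH291.NW TopologicalSpace MeasureTheory ProbabilityTheory
open Filter Topology unitInterval

/-- The law of the trace: the edge `e` is open with probability `p e`, independently. -/
noncomputable def lawM (R : Rect) {δ : ℝ} (hδ : 0 < δ) (p : Edg → I) :
    Measure (NonemptyCompacts ℂ) :=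
  ∑ F ∈ (R.edges δ).powerset,
    ENNReal.ofReal ((∏ e ∈ F, (p e : ℝ)) * ∏ e ∈ R.edges δ \ F, (1 - (p e : ℝ))) •
      Measure.dirac (R.trace hδ F)

theorem okI (p : Edg → I) : Ok (fun e => (p e : ℝ)) := fun e => (p e).2

theorem lawM_apply (R : Rect) {δ : ℝ} (hδ : 0 < δ) (p : Edg → I)
    {G : Set (NonemptyCompacts ℂ)} (hG : MeasurableSet G) :
    lawM R hδ p G = ENNReal.ofReal (Pr (fun e => (p e : ℝ)) (R.edges δ)
      (fun F => R.trace hδ F ∈ G)) := by
  classical
  have hw : ∀ F : Finset Edg, 0 ≤ (∏ e ∈ F, (p e : ℝ)) *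
      ∏ e ∈ R.edges δ \ F, (1 - (p e : ℝ)) := fun F =>
    mul_nonneg (Finset.prod_nonneg fun e _ => (p e).2.1)
      (Finset.prod_nonneg fun e _ => by linarith [(p e).2.2])
  unfold lawM
  rw [Measure.finsetSum_apply]
  unfold Pr Ex
  rw [ENNReal.ofReal_sum_of_nonneg (fun F _ => mul_nonneg (hw F) (ind_nonneg _))]
  apply Finset.sum_congr rfl
  intro F _
  rw [Measure.smul_apply, Measure.dirac_apply' _ hG, smul_eq_mul, ENNReal.ofReal_mul (hw F)]
  congr 1
  by_cases h : R.trace hδ F ∈ G
  · rw [ind_of h, Set.indicator_of_mem h]; simp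
  · rw [ind_not_of h, Set.indicator_of_notMem h]; simp

theorem lawM_univ (R : Rect) {δ : ℝ} (hδ : 0 < δ) (p : Edg → I) :
    lawM R hδ p Set.univ = 1 := by
  rw [lawM_apply R hδ p MeasurableSet.univ]
  have : Pr (fun e => (p e : ℝ)) (R.edges δ)
      (fun F => R.trace hδ F ∈ (Set.univ : Set (NonemptyCompacts ℂ))) = 1 :=
    Pr_true _ (fun F _ => Set.mem_univ _)
  rw [this]
  simp

instance (R : Rect) {δ : ℝ} (hδ : 0 < δ) (p : Edg → I) : IsProbabilityMeasure (lawM R hδ p) :=
  ⟨lawM_univ R hδ p⟩

/-- The law as a probability measure. -/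
noncomputable def law (R : Rect) {δ : ℝ} (hδ : 0 < δ) (p : Edg → I) :
    ProbabilityMeasure (NonemptyCompacts ℂ) := ⟨lawM R hδ p, ⟨lawM_univ R hδ p⟩⟩

/-- The critical value. -/
noncomputable def half : I := ⟨1/2, by norm_num, by norm_num⟩

theorem coe_half : ((half : I) : ℝ) = 1/2 := rfl

theorem law_half (R : Rect) {δ : ℝ} (hδ : 0 < δ) : law R hδ (fun _ => half) = R.law hδ := by
  apply Subtype.ext
  show lawM R hδ (fun _ => half) = R.lawM hδ
  ext G hG
  rw [lawM_apply R hδ _ hG, R.lawM_apply hδ hG]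
  rfl

theorem real_law (R : Rect) {δ : ℝ} (hδ : 0 < δ) (p : Edg → I)
    {G : Set (NonemptyCompacts ℂ)} (hG : MeasurableSet G) :
    (lawM R hδ p).real G = Pr (fun e => (p e : ℝ)) (R.edges δ)
      (fun F => R.trace hδ F ∈ G) := by
  rw [measureReal_def, lawM_apply R hδ p hG, ENNReal.toReal_ofReal (Pr_nonneg (okI p) _ _)]

theorem integral_lawM (R : Rect) {δ : ℝ} (hδ : 0 < δ) (p : Edg → I)
    {f : NonemptyCompacts ℂ → ℝ} :
    ∫ K, f K ∂(lawM R hδ p) = Ex (fun e => (p e : ℝ)) (R.edges δ)
      (fun F => f (R.trace hδ F)) := by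
  have hw : ∀ F : Finset Edg, 0 ≤ (∏ e ∈ F, (p e : ℝ)) *
      ∏ e ∈ R.edges δ \ F, (1 - (p e : ℝ)) := fun F =>
    mul_nonneg (Finset.prod_nonneg fun e _ => (p e).2.1)
      (Finset.prod_nonneg fun e _ => by linarith [(p e).2.2])
  unfold lawM Ex
  rw [integral_finset_sum_measure]
  · apply Finset.sum_congr rfl
    intro F _
    rw [integral_smul_measure, integral_dirac, ENNReal.toReal_ofReal (hw F), smul_eq_mul]
  · intro F _
    exact (integrable_dirac (by simp [enorm_lt_top])).smul_measure ENNReal.ofReal_ne_top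

/-! ### The coupling by uniform variables -/

/-- The open edges at level `p`. -/
noncomputable def Xp (p : Edg → I) (e : Edg) (ω : Edg → I) : Bool := decide (ω e < p e)

/-- Independent uniform variables. -/
noncomputable abbrev UU : Measure (Edg → I) := Measure.infinitePi (fun _ => (volume : Measure I))

theorem meas_dec (s : I) : Measurable (fun u : I => decide (u < s)) := by
  apply measurable_to_bool
  have : (fun u : I => decide (u < s)) ⁻¹' {true} = Set.Iio s := by
    ext u; simp
  rw [this]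
  exact measurableSet_Iio

theorem meas_Xp (p : Edg → I) (e : Edg) : Measurable (Xp p e) :=
  (meas_dec (p e)).comp (measurable_pi_apply e)

theorem indep_Xp (p q : Edg → I) : iIndepFun (fun e ω => (Xp p e ω, Xp q e ω)) UU :=
  iIndepFun_infinitePi (X := fun e u => (decide (u < p e), decide (u < q e)))
    (fun e => (meas_dec (p e)).prodMk (meas_dec (q e)))

theorem UU_coord (e : Edg) {A : Set I} (hA : MeasurableSet A) :
    UU.real {ω | ω e ∈ A} = (volume : Measure I).real A := by
  have h := Measure.infinitePi_map_eval (fun _ : Edg => (volume : Measure I)) e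
  rw [measureReal_def, measureReal_def]
  congr 1
  rw [← h, Measure.map_apply (measurable_pi_apply e) hA]
  rfl

theorem real_Xp (p : Edg → I) (e : Edg) : UU.real {ω | Xp p e ω = true} = p e := by
  have : {ω : Edg → I | Xp p e ω = true} = {ω | ω e ∈ Set.Iio (p e)} := by
    ext ω; simp [Xp]
  rw [this, UU_coord e measurableSet_Iio, measureReal_def, unitInterval.volume_Iio,
    ENNReal.toReal_ofReal (p e).2.1]

theorem real_ne (p q : Edg → I) (e : Edg) :
    UU.real {ω | Xp p e ω ≠ Xp q e ω} = |(p e : ℝ) - q e| := by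
  have h1 : ∀ a b : I, a ≤ b → (volume : Measure I).real (Set.Ico a b) = (b:ℝ) - a := by
    intro a b hab
    rw [measureReal_def, unitInterval.volume_Ico, ENNReal.toReal_ofReal]
    have : (a:ℝ) ≤ b := hab
    linarith
  rcases le_total (p e) (q e) with h | h
  · have : {ω : Edg → I | Xp p e ω ≠ Xp q e ω} = {ω | ω e ∈ Set.Ico (p e) (q e)} := by
      ext ω
      simp only [Xp, Set.mem_ofPred_eq, Set.mem_Ico, ne_eq, decide_eq_decide]
      constructor
      · intro hn
        by_contra hc
        apply hn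
        constructor
        · intro h'; exact lt_of_lt_of_le h' h
        · intro h'
          by_contra h''
          exact hc ⟨not_lt.mp h'', h'⟩
      · rintro ⟨h2, h3⟩ h4
        exact absurd (h4.mpr h3) (not_lt.mpr h2)
    rw [this, UU_coord e measurableSet_Ico, h1 _ _ h, abs_sub_comm, abs_of_nonneg]
    have : (p e : ℝ) ≤ q e := h
    linarith
  · have : {ω : Edg → I | Xp p e ω ≠ Xp q e ω} = {ω | ω e ∈ Set.Ico (q e) (p e)} := by
      ext ω
      simp only [Xp, Set.mem_ofPred_eq, Set.mem_Ico, ne_eq, decide_eq_decide]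
      constructor
      · intro hn
        by_contra hc
        apply hn
        constructor
        · intro h'
          by_contra h''
          exact hc ⟨not_lt.mp h'', h'⟩
        · intro h'; exact lt_of_lt_of_le h' h
      · rintro ⟨h2, h3⟩ h4
        exact absurd (h4.mp h3) (not_lt.mpr h2)
    rw [this, UU_coord e measurableSet_Ico, h1 _ _ h, abs_of_nonneg]
    have : (q e : ℝ) ≤ p e := h
    linarith

theorem meas_trace (R : Rect) {δ : ℝ} (hδ : 0 < δ) {Ω : Type*} [MeasurableSpace Ω]
    {Z : Edg → Ω → Bool} (hm : ∀ e, Measurable (Z e)) :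
    Measurable (fun ω => R.trace hδ (FZ (R.edges δ) Z ω)) := by
  intro G _
  have : (fun ω => R.trace hδ (FZ (R.edges δ) Z ω)) ⁻¹' G =
      ⋃ T ∈ {T : Finset Edg | R.trace hδ T ∈ G}, {ω | FZ (R.edges δ) Z ω = T} := by
    ext ω
    simp
  rw [this]
  exact MeasurableSet.biUnion (Set.to_countable _) (fun T _ => meas_FZ hm _ T)

theorem law_map (R : Rect) {δ : ℝ} (hδ : 0 < δ) {Ω : Type*} [MeasurableSpace Ω]
    {P : Measure Ω} [IsProbabilityMeasure P] {Z : Edg → Ω → Bool} (hm : ∀ e, Measurable (Z e))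
    (hi : iIndepFun Z P) (p : Edg → I) (hp : ∀ e, P.real {ω | Z e ω = true} = p e) :
    P.map (fun ω => R.trace hδ (FZ (R.edges δ) Z ω)) = lawM R hδ p := by
  ext G hG
  rw [Measure.map_apply (meas_trace R hδ hm) hG, lawM_apply R hδ p hG]
  have h := pr_of_indep hm hi (R.edges δ) (fun F => R.trace hδ F ∈ G)
  have e : (fun e => P.real {ω | Z e ω = true}) = fun e => (p e : ℝ) := funext hp
  rw [e] at h
  rw [← h, measureReal_def, ENNReal.ofReal_toReal (measure_ne_top _ _)]
  rfl

end K3h14.NC
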