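import Pool.Agent.K3h14.NC.Arc

/-!
Lower bounds for the probability that the trace is far from the boundary arcs off the critical
point.
-/

set_option maxHeartbeats 1000000

namespace K3h14.NC

open H974 H973 H12S H934E Finset TH291.NW TopologicalSpace

variable {R : Rect} {δ : ℝ}

theorem low_dist {K L : NonemptyCompacts ℂ} {z : ℂ} (hz : z ∈ (K : Set ℂ)) {ε : ℝ}
    (h : ∀ z' ∈ (L : Set ℂ), ε ≤ dist z z') : ε ≤ dist K L := by
  rw [Metric.NonemptyCompacts.dist_eq]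
  refine le_trans ?_ (Metric.infDist_le_hausdorffDist_of_mem hz
    (Metric.hausdorffEDist_ne_top_of_nonempty_of_bounded K.nonempty L.nonempty
      K.isCompact.isBounded L.isCompact.isBounded))
  rw [Metric.le_infDist L.nonempty]
  intro z' hz'
  exact h z' hz'

theorem le_dist_re (z z' : ℂ) : |z.re - z'.re| ≤ dist z z' := by
  rw [Complex.dist_eq, ← Complex.sub_re]
  exact Complex.abs_re_le_norm _

theorem le_dist_im (z z' : ℂ) : |z.im - z'.im| ≤ dist z z' := by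
  rw [Complex.dist_eq, ← Complex.sub_im]
  exact Complex.abs_im_le_norm _

/-- The event for the dual cluster. -/
theorem dual_cross (hN : Nd R δ) {n : ℤ} (hn : 1 ≤ n) (h1 : 2 * n < R.y1 δ)
    (h2 : n ≤ R.x1 δ - R.x0 δ) {q : ℝ} (h0 : 0 ≤ q) (hq1 : q ≤ 1) :
    hh (1 - q) n n ≤ Pr (fun _ => q) (R.edges δ)
      (ED R δ (Bx (R.x0 δ) (R.x1 δ - n) n (2 * n))) := by
  have hN' := hN
  obtain ⟨n1, n2, n3, n4, n5⟩ := hN'
  rw [pr_dual]
  have hsub : LRE (R.x1 δ - n) (R.x1 δ) n (2 * n) ⊆ dmp (eU R δ) := by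
    rintro ⟨x, y, _ | _⟩ he
    · rw [mem_LRE_false] at he
      rw [(dom_dual hN).v]
      omega
    · rw [mem_LRE_true] at he
      rw [(dom_dual hN).h]
      refine ⟨⟨⟨by omega, by omega⟩, by omega, by omega⟩, Or.inl (by omega), ?_⟩
      by_cases hx : x + 1 < R.x1 δ
      · exact Or.inl hx
      · exact Or.inr (Or.inr (Or.inl ⟨by simp only; omega, by simp only; omega,
          by simp only; omega⟩))
  have e : hh (1 - q) n n = Pr (fun _ => 1 - q) (dmp (eU R δ))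
      (LRc (R.x1 δ - n) (R.x1 δ) n (2 * n)) := by
    rw [pr_LRc _ hsub]
    congr 1 <;> ring
  rw [e]
  apply Pr_mono (okq (by linarith) (by linarith))
  rintro F - ⟨y, y', hy, hy', hr⟩
  refine ⟨(R.x1 δ, y'), Or.inr (Or.inl ⟨rfl, by simp only; omega, by simp only; omega⟩),
    (R.x1 δ - n, y), ⟨⟨by simp only; omega, by simp only; omega⟩, hy⟩, ?_⟩
  exact (hr.mono Set.inter_subset_left).symm

/-- The event for the open cluster. -/
theorem prim_cross (hN : Nd R δ) {n : ℤ} (hn : 1 ≤ n) (h1 : 2 * n < R.y1 δ)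
    (h2 : n ≤ R.x1 δ - R.x0 δ) {q : ℝ} (h0 : 0 ≤ q) (hq1 : q ≤ 1) :
    hh q n n ≤ Pr (fun _ => q) (R.edges δ)
      (EC R δ (Bx (R.x0 δ + n) (R.x1 δ) n (2 * n))) := by
  have hN' := hN
  obtain ⟨n1, n2, n3, n4, n5⟩ := hN'
  have hsub : LRE (R.x0 δ) (R.x0 δ + n) n (2 * n) ⊆ R.edges δ := by
    rintro ⟨x, y, _ | _⟩ he
    · rw [mem_LRE_false] at he
      rw [mem_edges_iff]
      unfold InV
      simp only [src_mk, tgt_false]
      omega
    · rw [mem_LRE_true] at he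
      rw [mem_edges_iff]
      unfold InV
      simp only [src_mk, tgt_true]
      omega
  have e : hh q n n = Pr (fun _ => q) (R.edges δ)
      (LRc (R.x0 δ) (R.x0 δ + n) n (2 * n)) := by
    rw [pr_LRc _ hsub]
    congr 1 <;> ring
  rw [e]
  apply Pr_mono (okq h0 hq1)
  rintro F - ⟨y, y', hy, hy', hr⟩
  rw [EC_iff hN]
  refine ⟨(R.x0 δ, y), Or.inr (Or.inl ⟨rfl, by simp only; omega, by simp only; omega⟩),
    (R.x0 δ + n, y'), ⟨⟨by simp only; omega, by simp only; omega⟩, hy'⟩, ?_⟩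
  exact hr.mono Set.inter_subset_left

/-- If the dual cluster goes deep, the trace is far from the dual arc. -/
theorem far_dArc (hδ : 0 < δ) (hN : Nd R δ) {F : Finset Edg} (hF : F ⊆ R.edges δ) {n : ℤ}
    {ε : ℝ} (hε : 0 ≤ ε) (hn : ε + 2 * δ ≤ δ * n) (hH : 2 * (δ * n) + ε + 2 * δ ≤ R.H)
    (h1 : 2 * n < R.y1 δ) (h2 : n ≤ R.x1 δ - R.x0 δ)
    (h : ED R δ (Bx (R.x0 δ) (R.x1 δ - n) n (2 * n)) F) : ε ≤ dist (R.trace hδ F) (dArcK R) := by
  have hN' := hN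
  obtain ⟨n1, n2, n3, n4, n5⟩ := hN'
  obtain ⟨⟨a1, a2⟩, ⟨b1, b2⟩, ⟨c1, c2⟩, d1, d2⟩ := facts (R := R) hδ
  obtain ⟨f, hf, ⟨f1, f2⟩, f3, f4⟩ := h
  have hn1 : 1 ≤ n := by
    by_contra hcon
    have : (n:ℝ) ≤ 0 := by exact_mod_cast (by omega : n ≤ 0)
    nlinarith
  have hv : ((R.x0 δ, f.2) : Vtx) ∈ R.clu δ F :=
    I0_clu hN F (Or.inr (Or.inl ⟨rfl, by simp only; omega, by simp only; omega⟩))
  obtain ⟨k, hk, ⟨k1, k2⟩, k3, k4⟩ := corner_near hN hF hv hf (w := f)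
    ⟨⟨by omega, by omega⟩, by omega, by omega⟩ ⟨Or.inl rfl, Or.inl rfl⟩
  obtain ⟨z, hz, hz1, hz2⟩ := corner_path hδ hk
  simp only at k1 k2 k3 k4
  have m1 := mulint hδ (show k.1.1 ≤ R.x1 δ - n by omega)
  have m2 := mulint hδ (show n ≤ k.1.2 by omega)
  have m3 := mulint hδ (show k.1.2 ≤ 2 * n by omega)
  push_cast at m1 m3
  rw [abs_le] at hz1 hz2
  apply low_dist (z := z) hz
  intro z' hz'
  rcases hz' with ⟨g1, g2, g3⟩ | ⟨g1, g2, g3⟩ | ⟨g1, g2, g3⟩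
  · refine le_trans ?_ (le_dist_im z z')
    rw [g1, abs_sub_comm]
    refine le_trans ?_ (le_abs_self _)
    linarith
  · refine le_trans ?_ (le_dist_re z z')
    rw [g1, abs_sub_comm]
    refine le_trans ?_ (le_abs_self _)
    linarith
  · refine le_trans ?_ (le_dist_im z z')
    rw [g1]
    refine le_trans ?_ (le_abs_self _)
    linarith

/-- If the open cluster goes deep, the trace is far from the wired arc. -/
theorem far_wArc (hδ : 0 < δ) (hN : Nd R δ) {F : Finset Edg} (hF : F ⊆ R.edges δ) {n : ℤ}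
    {ε : ℝ} (hε : 0 ≤ ε) (hn : ε + 2 * δ ≤ δ * n) (hH : 2 * (δ * n) + ε + 2 * δ ≤ R.H)
    (h1 : 2 * n < R.y1 δ) (h2 : n ≤ R.x1 δ - R.x0 δ)
    (h : EC R δ (Bx (R.x0 δ + n) (R.x1 δ) n (2 * n)) F) :
    ε ≤ dist (R.trace hδ F) (wArcK R) := by
  have hN' := hN
  obtain ⟨n1, n2, n3, n4, n5⟩ := hN'
  obtain ⟨⟨a1, a2⟩, ⟨b1, b2⟩, ⟨c1, c2⟩, d1, d2⟩ := facts (R := R) hδ
  obtain ⟨v, hv, ⟨f1, f2⟩, f3, f4⟩ := h
  have hn1 : 1 ≤ n := by
    by_contra hcon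
    have : (n:ℝ) ≤ 0 := by exact_mod_cast (by omega : n ≤ 0)
    nlinarith
  have hf : ((R.x1 δ, v.2) : Vtx) ∈ R.dclu δ F :=
    outer_dclu (Or.inr (Or.inl ⟨rfl, by simp only; omega, by simp only; omega⟩))
  obtain ⟨k, hk, ⟨k1, k2⟩, k3, k4⟩ := corner_near hN hF hv hf (w := (R.x1 δ, v.2))
    ⟨⟨by simp only; omega, by simp only; omega⟩, by simp only; omega, by simp only; omega⟩
    ⟨Or.inl rfl, Or.inl rfl⟩
  obtain ⟨z, hz, hz1, hz2⟩ := corner_path hδ hk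
  simp only at k1 k2 k3 k4
  have m1 := mulint hδ (show R.x0 δ + n ≤ k.1.1 by omega)
  have m2 := mulint hδ (show n ≤ k.1.2 by omega)
  have m3 := mulint hδ (show k.1.2 ≤ 2 * n by omega)
  push_cast at m1 m3
  rw [abs_le] at hz1 hz2
  apply low_dist (z := z) hz
  intro z' hz'
  rcases hz' with ⟨g1, g2, g3⟩ | ⟨g1, g2, g3⟩ | ⟨g1, g2, g3⟩
  · refine le_trans ?_ (le_dist_im z z')
    rw [g1, abs_sub_comm]
    refine le_trans ?_ (le_abs_self _)
    linarith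
  · refine le_trans ?_ (le_dist_re z z')
    rw [g1]
    refine le_trans ?_ (le_abs_self _)
    linarith
  · refine le_trans ?_ (le_dist_im z z')
    rw [g1]
    refine le_trans ?_ (le_abs_self _)
    linarith

/-- The choice of the scale. -/
theorem low_scale (R : Rect) {ε : ℝ} (hε : 0 < ε) (hH : 4 * ε ≤ R.H) (hA : 4 * ε ≤ R.A + R.B) :
    ∃ δ0 : ℝ, 0 < δ0 ∧ ∀ δ : ℝ, 0 < δ → δ ≤ δ0 → Nd R δ ∧ ∃ n : ℕ, 1 ≤ n ∧ 2 * (n:ℤ) < R.y1 δ ∧
      (n:ℤ) ≤ R.x1 δ - R.x0 δ ∧ ε + 2 * δ ≤ δ * n ∧ 2 * (δ * n) + ε + 2 * δ ≤ R.H ∧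
      δ * n ≤ 2 * ε := by
  have hA0 := R.hA
  have hB := R.hB
  have hH0 := R.hH
  have ht1 := R.ht1
  refine ⟨min (ε / 16) (min (R.H / 2) (R.A + R.t)), ?_, ?_⟩
  · exact lt_min (by positivity) (lt_min (by positivity) (by linarith))
  intro δ hδ hδ0
  have hδ1 : δ ≤ ε / 16 := hδ0.trans (min_le_left _ _)
  have hδ2 : δ ≤ R.H / 2 := hδ0.trans ((min_le_right _ _).trans (min_le_left _ _))
  have hδ3 : δ ≤ R.A + R.t := hδ0.trans ((min_le_right _ _).trans (min_le_right _ _))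
  have hN : Nd R δ := nd_of hδ (by linarith) hδ3
  refine ⟨hN, ?_⟩
  obtain ⟨⟨a1, a2⟩, ⟨b1, b2⟩, ⟨c1, c2⟩, d1, d2⟩ := facts (R := R) hδ
  have e1 : ε / δ ≤ ⌈ε / δ⌉₊ := Nat.le_ceil _
  have e2 : (⌈ε / δ⌉₊ : ℝ) < ε / δ + 1 := Nat.ceil_lt_add_one (by positivity)
  have d : δ * (ε / δ) = ε := by field_simp
  have f1 : ε ≤ δ * ⌈ε / δ⌉₊ := by
    have := mul_le_mul_of_nonneg_left e1 hδ.le
    linarith
  have f2 : δ * ⌈ε / δ⌉₊ < ε + δ := by
    have := mul_lt_mul_of_pos_left e2 hδ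
    linarith
  refine ⟨⌈ε / δ⌉₊ + 2, by omega, ?_, ?_, ?_, ?_, ?_⟩
  · have : δ * ((2 * ((⌈ε / δ⌉₊ + 2 : ℕ) : ℤ) : ℤ) : ℝ) < δ * ((R.y1 δ : ℤ) : ℝ) := by
      push_cast
      linarith
    exact_mod_cast lt_of_mul_lt_mul_left this hδ.le
  · have : δ * ((((⌈ε / δ⌉₊ + 2 : ℕ) : ℤ) : ℤ) : ℝ) ≤ δ * ((R.x1 δ - R.x0 δ : ℤ) : ℝ) := by
      push_cast
      linarith
    exact_mod_cast le_of_mul_le_mul_left this hδ
  · push_cast
    linarith
  · push_cast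
    linarith
  · push_cast
    linarith

/-- Comparison of the exponents. -/
theorem exp_scale {c C ε x : ℝ} (hc : 0 < c) (hC : 0 < C) (hx : 0 ≤ x) (hδ : 0 < δ) {n : ℕ}
    (hn : δ * n ≤ 2 * ε) :
    c * Real.exp (-(C * (2 * ε) * x / δ)) ≤ c * Real.exp (-(C * (n * x))) := by
  apply mul_le_mul_of_nonneg_left _ hc.le
  apply Real.exp_le_exp.mpr
  have h1 : (n:ℝ) ≤ 2 * ε / δ := by
    rw [le_div_iff₀ hδ]; linarith
  have h2 : (n:ℝ) * (C * x) ≤ 2 * ε / δ * (C * x) :=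
    mul_le_mul_of_nonneg_right h1 (by positivity)
  have e : C * (2 * ε) * x / δ = 2 * ε / δ * (C * x) := by ring
  rw [e]
  linarith

/-- The trace is far from the dual arc with at least this probability. -/
theorem low_dual (R : Rect) {ε : ℝ} (hε : 0 < ε) (hH : 4 * ε ≤ R.H) (hA : 4 * ε ≤ R.A + R.B) :
    ∃ c C δ0 : ℝ, 0 < c ∧ 0 < C ∧ 0 < δ0 ∧
    ∀ (δ : ℝ) (hδ : 0 < δ), δ ≤ δ0 → ∀ p : ℝ, 0 ≤ p → p ≤ 3/4 →
      c * Real.exp (-(C * (max (p - 1/2) 0) ^ (4/3 : ℝ) / δ)) ≤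
      Pr (fun _ => p) (R.edges δ) (fun F => ε ≤ dist (R.trace hδ F) (dArcK R)) := by
  obtain ⟨c, C, hc, hC, hlow⟩ := Pool.Agent.W424.NC.win_lower 1 le_rfl
  obtain ⟨δ0, hδ0, hs⟩ := low_scale R hε hH hA
  refine ⟨c, C * (2 * ε), δ0, hc, by positivity, hδ0, ?_⟩
  intro δ hδ hδ1 p hp hp1
  obtain ⟨hN, n, hn1, hn2, hn3, hn4, hn5, hn6⟩ := hs δ hδ hδ1
  have hx : 0 ≤ (max (p - 1/2) 0) ^ (4/3 : ℝ) := Real.rpow_nonneg (le_max_right _ _) _
  have e : (1:ℝ)/2 - min (1 - p) (1/2) = max (p - 1/2) 0 := by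
    rcases le_total (1 - p) (1/2) with h | h
    · rw [min_eq_left h, max_eq_left (by linarith)]; ring
    · rw [min_eq_right h, max_eq_right (by linarith)]; ring
  have h := hlow (min (1 - p) (1/2)) (le_min (by linarith) (by norm_num)) (min_le_right _ _)
    n n hn1 hn1 (by omega) (by omega)
  rw [e] at h
  refine (exp_scale hc hC hx hδ hn6).trans (h.trans ?_)
  refine (hh_mono_param (le_min (by linarith) (by norm_num)) (min_le_left _ _) (by linarith)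
    _ _).trans ?_
  refine (dual_cross hN (n := n) (by exact_mod_cast hn1) hn2 hn3 hp (by linarith)).trans ?_
  apply Pr_mono (okq hp (by linarith))
  intro F hF hD
  exact far_dArc hδ hN hF (n := n) hε.le (by exact_mod_cast hn4) (by exact_mod_cast hn5)
    hn2 hn3 hD

/-- The trace is far from the wired arc with at least this probability. -/
theorem low_prim (R : Rect) {ε : ℝ} (hε : 0 < ε) (hH : 4 * ε ≤ R.H) (hA : 4 * ε ≤ R.A + R.B) :
    ∃ c C δ0 : ℝ, 0 < c ∧ 0 < C ∧ 0 < δ0 ∧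
    ∀ (δ : ℝ) (hδ : 0 < δ), δ ≤ δ0 → ∀ p : ℝ, 1/4 ≤ p → p ≤ 1 →
      c * Real.exp (-(C * (max (1/2 - p) 0) ^ (4/3 : ℝ) / δ)) ≤
      Pr (fun _ => p) (R.edges δ) (fun F => ε ≤ dist (R.trace hδ F) (wArcK R)) := by
  obtain ⟨c, C, hc, hC, hlow⟩ := Pool.Agent.W424.NC.win_lower 1 le_rfl
  obtain ⟨δ0, hδ0, hs⟩ := low_scale R hε hH hA
  refine ⟨c, C * (2 * ε), δ0, hc, by positivity, hδ0, ?_⟩
  intro δ hδ hδ1 p hp hp1
  obtain ⟨hN, n, hn1, hn2, hn3, hn4, hn5, hn6⟩ := hs δ hδ hδ1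
  have hx : 0 ≤ (max (1/2 - p) 0) ^ (4/3 : ℝ) := Real.rpow_nonneg (le_max_right _ _) _
  have e : (1:ℝ)/2 - min p (1/2) = max (1/2 - p) 0 := by
    rcases le_total p (1/2) with h | h
    · rw [min_eq_left h, max_eq_left (by linarith)]
    · rw [min_eq_right h, max_eq_right (by linarith)]; ring
  have h := hlow (min p (1/2)) (le_min hp (by norm_num)) (min_le_right _ _)
    n n hn1 hn1 (by omega) (by omega)
  rw [e] at h
  refine (exp_scale hc hC hx hδ hn6).trans (h.trans ?_)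
  refine (hh_mono_param (le_min (by linarith) (by norm_num)) (min_le_left _ _) hp1
    _ _).trans ?_
  refine (prim_cross hN (n := n) (by exact_mod_cast hn1) hn2 hn3 (by linarith) hp1).trans ?_
  apply Pr_mono (okq (by linarith) hp1)
  intro F hF hD
  exact far_wArc hδ hN hF (n := n) hε.le (by exact_mod_cast hn4) (by exact_mod_cast hn5)
    hn2 hn3 hD

end K3h14.NC
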