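import Pool.Agent.H934R2.Expl.Model

/-!
A potential for the corners between an open cluster and a dual-open cluster: the exploration path
passes near every box which meets both clusters.
-/

set_option maxHeartbeats 1000000

namespace K3h14.NC

open H974 Finset

/-- Increments of the potential. -/
def ha (c d : Vtx → ZMod 2) (i j : ℤ) : ZMod 2 := (c (i, j) + c (i + 1, j)) * d (i, j)
def vb (c d : Vtx → ZMod 2) (i j : ℤ) : ZMod 2 := (c (i, j) + c (i, j + 1)) * d (i, j)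

/-- The potential. -/
noncomputable def pot (x0 : ℤ) (c d : Vtx → ZMod 2) (v : Vtx) : ZMod 2 :=
  ∑ i ∈ Finset.Ico x0 v.1, ha c d i 0 + ∑ j ∈ Finset.Ico 0 v.2, vb c d v.1 j

/-- The hypotheses on the indicators of the two clusters. -/
structure Par (x0 x1 y1 : ℤ) (c d : Vtx → ZMod 2) : Prop where
  H : ∀ x y, x0 ≤ x → x < x1 → 0 ≤ y → y ≤ y1 →
    (c (x, y) + c (x + 1, y)) * (d (x, y - 1) + d (x, y)) = 0
  V : ∀ x y, x0 ≤ x → x ≤ x1 → 0 ≤ y → y < y1 →
    (c (x, y) + c (x, y + 1)) * (d (x - 1, y) + d (x, y)) = 0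

variable {x0 x1 y1 : ℤ} {c d : Vtx → ZMod 2}

theorem pot_v (x : ℤ) {y : ℤ} (hy : 0 ≤ y) :
    pot x0 c d (x, y + 1) = pot x0 c d (x, y) + vb c d x y := by
  unfold pot
  simp only
  rw [sum_Ico_int_succ hy]
  ring

theorem pot_h (h : Par x0 x1 y1 c d) {x y : ℤ} (hx : x0 ≤ x) (hx1 : x < x1) (hy : 0 ≤ y)
    (hy1 : y ≤ y1) : pot x0 c d (x + 1, y) = pot x0 c d (x, y) + ha c d x y := by
  unfold pot
  simp only
  rw [sum_Ico_int_succ hx]
  have h1 : ∀ j ∈ Finset.Ico 0 y, vb c d x j + vb c d (x + 1) j = ha c d x j + ha c d x (j + 1) := by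
    intro j hj
    rw [Finset.mem_Ico] at hj
    have e1 := h.V (x + 1) j (by omega) (by omega) hj.1 (by omega)
    have e2 := h.H x (j + 1) hx hx1 (by omega) (by omega)
    rw [add_sub_cancel_right] at e1 e2
    unfold vb ha
    have z := zmod2_add_self
    linear_combination (-1) * e1 - e2 + z (c (x + 1, j) * d (x + 1, j)) +
      z (c (x + 1, j + 1) * d (x + 1, j)) + z (c (x + 1, j + 1) * d (x, j)) +
      z (c (x, j + 1) * d (x, j))
  have h2 := telescope' hy (fun j => ha c d x j)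
  rw [← Finset.sum_congr rfl h1, Finset.sum_add_distrib] at h2
  have z := zmod2_add_self (∑ j ∈ Finset.Ico 0 y, vb c d x j)
  have z' := zmod2_add_self (ha c d x 0)
  linear_combination h2 - z + z'

/-- The domain rectangle. -/
def InV (x0 x1 y1 : ℤ) (v : Vtx) : Prop := (x0 ≤ v.1 ∧ v.1 ≤ x1) ∧ (0 ≤ v.2 ∧ v.2 ≤ y1)

/-- The vertex is a corner of the face. -/
def At (v f : Vtx) : Prop := (v.1 = f.1 ∨ v.1 = f.1 + 1) ∧ (v.2 = f.2 ∨ v.2 = f.2 + 1)

/-- Horizontal steps. -/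
theorem pot_hh (h : Par x0 x1 y1 c d) {x y : ℤ} (h1 : InV x0 x1 y1 (x, y))
    (h2 : InV x0 x1 y1 (x + 1, y)) {f : Vtx} (hf : f = (x, y) ∨ f = (x, y - 1)) :
    pot x0 c d (x + 1, y) = pot x0 c d (x, y) + (c (x, y) + c (x + 1, y)) * d f := by
  unfold InV at h1 h2
  simp only at h1 h2
  have e := pot_h h (x := x) (y := y) (by omega) (by omega) (by omega) (by omega)
  rcases hf with hf | hf
  · rw [hf, e]; rfl
  · rw [hf, e]
    have e1 := h.H x y (by omega) (by omega) (by omega) (by omega)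
    unfold ha
    have z := zmod2_add_self ((c (x, y) + c (x + 1, y)) * d (x, y - 1))
    linear_combination e1 - z

/-- Vertical steps. -/
theorem pot_vv (h : Par x0 x1 y1 c d) {x y : ℤ} (h1 : InV x0 x1 y1 (x, y))
    (h2 : InV x0 x1 y1 (x, y + 1)) {f : Vtx} (hf : f = (x, y) ∨ f = (x - 1, y)) :
    pot x0 c d (x, y + 1) = pot x0 c d (x, y) + (c (x, y) + c (x, y + 1)) * d f := by
  unfold InV at h1 h2
  simp only at h1 h2
  have e := pot_v (x0 := x0) (c := c) (d := d) x (y := y) (by omega)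
  rcases hf with hf | hf
  · rw [hf, e]; rfl
  · rw [hf, e]
    have e1 := h.V x y (by omega) (by omega) (by omega) (by omega)
    unfold vb
    have z := zmod2_add_self ((c (x, y) + c (x, y + 1)) * d (x - 1, y))
    linear_combination e1 - z

/-- The value at a face does not depend on the vertex: two vertices in the same row. -/
theorem face_h (h : Par x0 x1 y1 c d) {u u' f : Vtx} (hu : InV x0 x1 y1 u)
    (hu' : InV x0 x1 y1 u') (hf : At u f) (hf' : At u' f) (hy : u.2 = u'.2) :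
    pot x0 c d u + c u * d f = pot x0 c d u' + c u' * d f := by
  obtain ⟨a, b⟩ := f
  obtain ⟨x, y⟩ := u
  obtain ⟨x', y'⟩ := u'
  simp only at hy
  subst hy
  unfold At at hf hf'
  simp only at hf hf'
  have key : InV x0 x1 y1 (a, y) → InV x0 x1 y1 (a + 1, y) →
      pot x0 c d (a, y) + c (a, y) * d (a, b) = pot x0 c d (a + 1, y) + c (a + 1, y) * d (a, b) := by
    intro k1 k2
    have e := pot_hh h k1 k2 (f := (a, b)) (by
      rcases hf.2 with g | g
      · left; rw [g]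
      · right; rw [g]; simp)
    rw [e]
    have z := zmod2_add_self (c (a + 1, y) * d (a, b))
    linear_combination -z
  rcases hf.1 with g | g <;> rcases hf'.1 with g' | g'
  · rw [g, g']
  · rw [g] at hu ⊢; rw [g'] at hu' ⊢; exact key hu hu'
  · rw [g] at hu ⊢; rw [g'] at hu' ⊢; exact (key hu' hu).symm
  · rw [g, g']

/-- Two vertices in the same column. -/
theorem face_v (h : Par x0 x1 y1 c d) {u u' f : Vtx} (hu : InV x0 x1 y1 u)
    (hu' : InV x0 x1 y1 u') (hf : At u f) (hf' : At u' f) (hx : u.1 = u'.1) :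
    pot x0 c d u + c u * d f = pot x0 c d u' + c u' * d f := by
  obtain ⟨a, b⟩ := f
  obtain ⟨x, y⟩ := u
  obtain ⟨x', y'⟩ := u'
  simp only at hx
  subst hx
  unfold At at hf hf'
  simp only at hf hf'
  have key : InV x0 x1 y1 (x, b) → InV x0 x1 y1 (x, b + 1) →
      pot x0 c d (x, b) + c (x, b) * d (a, b) = pot x0 c d (x, b + 1) + c (x, b + 1) * d (a, b) := by
    intro k1 k2
    have e := pot_vv h k1 k2 (f := (a, b)) (by
      rcases hf.1 with g | g
      · left; rw [g]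
      · right; rw [g]; simp)
    rw [e]
    have z := zmod2_add_self (c (x, b + 1) * d (a, b))
    linear_combination -z
  rcases hf.2 with g | g <;> rcases hf'.2 with g' | g'
  · rw [g, g']
  · rw [g] at hu ⊢; rw [g'] at hu' ⊢; exact key hu hu'
  · rw [g] at hu ⊢; rw [g'] at hu' ⊢; exact (key hu' hu).symm
  · rw [g, g']

theorem face_eq (h : Par x0 x1 y1 c d) {u u' f : Vtx} (hu : InV x0 x1 y1 u)
    (hu' : InV x0 x1 y1 u') (hf : At u f) (hf' : At u' f) :
    pot x0 c d u + c u * d f = pot x0 c d u' + c u' * d f := by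
  have hm : InV x0 x1 y1 (u.1, u'.2) := ⟨hu.1, hu'.2⟩
  have hma : At (u.1, u'.2) f := ⟨hf.1, hf'.2⟩
  exact (face_v h hu hm hf hma rfl).trans (face_h h hm hu' hma hf' rfl)

/-- The path from `v` to `w`: horizontal part. -/
theorem walk_h (h : Par x0 x1 y1 c d) {x y : ℤ} (n : ℕ) (h1 : InV x0 x1 y1 (x, y))
    (h2 : InV x0 x1 y1 (x + n, y)) (hne : pot x0 c d (x, y) ≠ pot x0 c d (x + n, y)) :
    ∃ i : ℤ, (x ≤ i ∧ i < x + n) ∧ (c (i, y) + c (i + 1, y)) * d (i, y) ≠ 0 := by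
  induction n with
  | zero => simp at hne
  | succ n ih =>
    have e : x + ((n + 1 : ℕ) : ℤ) = x + n + 1 := by push_cast; ring
    rw [e] at hne h2
    by_cases hc : pot x0 c d (x, y) = pot x0 c d (x + n, y)
    · have h3 : InV x0 x1 y1 (x + n, y) := by
        unfold InV at *; simp only at *; omega
      refine ⟨x + n, by push_cast; omega, fun h0 => hne ?_⟩
      rw [pot_hh h h3 h2 (f := (x + n, y)) (Or.inl rfl), h0, add_zero, hc]
    · have h3 : InV x0 x1 y1 (x + n, y) := by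
        unfold InV at *; simp only at *; omega
      obtain ⟨i, hi, hi'⟩ := ih h3 hc
      exact ⟨i, by push_cast; omega, hi'⟩

theorem walk_v (h : Par x0 x1 y1 c d) {x y : ℤ} (n : ℕ) (h1 : InV x0 x1 y1 (x, y))
    (h2 : InV x0 x1 y1 (x, y + n)) (hne : pot x0 c d (x, y) ≠ pot x0 c d (x, y + n)) :
    ∃ j : ℤ, (y ≤ j ∧ j < y + n) ∧ (c (x, j) + c (x, j + 1)) * d (x, j) ≠ 0 := by
  induction n with
  | zero => simp at hne
  | succ n ih =>
    have e : y + ((n + 1 : ℕ) : ℤ) = y + n + 1 := by push_cast; ring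
    rw [e] at hne h2
    by_cases hc : pot x0 c d (x, y) = pot x0 c d (x, y + n)
    · have h3 : InV x0 x1 y1 (x, y + n) := by
        unfold InV at *; simp only at *; omega
      refine ⟨y + n, by push_cast; omega, fun h0 => hne ?_⟩
      rw [pot_vv h h3 h2 (f := (x, y + n)) (Or.inl rfl), h0, add_zero, hc]
    · have h3 : InV x0 x1 y1 (x, y + n) := by
        unfold InV at *; simp only at *; omega
      obtain ⟨i, hi, hi'⟩ := ih h3 hc
      exact ⟨i, by push_cast; omega, hi'⟩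

/-- Points in the bounding box of two points. -/
def BB (v w u : Vtx) : Prop :=
  (min v.1 w.1 ≤ u.1 ∧ u.1 ≤ max v.1 w.1) ∧ (min v.2 w.2 ≤ u.2 ∧ u.2 ≤ max v.2 w.2)

/-- If the potential differs at `v` and `w`, there is a corner in between. -/
theorem walk (h : Par x0 x1 y1 c d) {v w : Vtx} (hv : InV x0 x1 y1 v) (hw : InV x0 x1 y1 w)
    (hne : pot x0 c d v ≠ pot x0 c d w) :
    ∃ u u' f : Vtx, BB v w u ∧ BB v w u' ∧ At u f ∧ At u' f ∧ (c u + c u') * d f ≠ 0 := by
  -- horizontal walk between two vertices of the same row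
  have H : ∀ a b : Vtx, a.2 = b.2 → InV x0 x1 y1 a → InV x0 x1 y1 b →
      pot x0 c d a ≠ pot x0 c d b → ∃ u u' f : Vtx, BB a b u ∧ BB a b u' ∧ At u f ∧ At u' f ∧
        (c u + c u') * d f ≠ 0 := by
    rintro ⟨a1, a2⟩ ⟨b1, b2⟩ hab ha hb hne
    simp only at hab
    subst hab
    rcases le_total a1 b1 with hle | hle
    · obtain ⟨n, hn⟩ := Int.eq_ofNat_of_zero_le (sub_nonneg.mpr hle)
      have : b1 = a1 + n := by omega
      subst this
      obtain ⟨i, hi, hi'⟩ := walk_h h n ha hb hne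
      refine ⟨(i, a2), (i + 1, a2), (i, a2), ?_, ?_, ⟨Or.inl rfl, Or.inl rfl⟩,
        ⟨Or.inr rfl, Or.inl rfl⟩, hi'⟩ <;> simp only [BB] <;> omega
    · obtain ⟨n, hn⟩ := Int.eq_ofNat_of_zero_le (sub_nonneg.mpr hle)
      have : a1 = b1 + n := by omega
      subst this
      obtain ⟨i, hi, hi'⟩ := walk_h h n hb ha hne.symm
      refine ⟨(i, a2), (i + 1, a2), (i, a2), ?_, ?_, ⟨Or.inl rfl, Or.inl rfl⟩,
        ⟨Or.inr rfl, Or.inl rfl⟩, hi'⟩ <;> simp only [BB] <;> omega
  have V : ∀ a b : Vtx, a.1 = b.1 → InV x0 x1 y1 a → InV x0 x1 y1 b →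
      pot x0 c d a ≠ pot x0 c d b → ∃ u u' f : Vtx, BB a b u ∧ BB a b u' ∧ At u f ∧ At u' f ∧
        (c u + c u') * d f ≠ 0 := by
    rintro ⟨a1, a2⟩ ⟨b1, b2⟩ hab ha hb hne
    simp only at hab
    subst hab
    rcases le_total a2 b2 with hle | hle
    · obtain ⟨n, hn⟩ := Int.eq_ofNat_of_zero_le (sub_nonneg.mpr hle)
      have : b2 = a2 + n := by omega
      subst this
      obtain ⟨i, hi, hi'⟩ := walk_v h n ha hb hne
      refine ⟨(a1, i), (a1, i + 1), (a1, i), ?_, ?_, ⟨Or.inl rfl, Or.inl rfl⟩,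
        ⟨Or.inl rfl, Or.inr rfl⟩, hi'⟩ <;> simp only [BB] <;> omega
    · obtain ⟨n, hn⟩ := Int.eq_ofNat_of_zero_le (sub_nonneg.mpr hle)
      have : a2 = b2 + n := by omega
      subst this
      obtain ⟨i, hi, hi'⟩ := walk_v h n hb ha hne.symm
      refine ⟨(a1, i), (a1, i + 1), (a1, i), ?_, ?_, ⟨Or.inl rfl, Or.inl rfl⟩,
        ⟨Or.inl rfl, Or.inr rfl⟩, hi'⟩ <;> simp only [BB] <;> omega
  have hm : InV x0 x1 y1 (w.1, v.2) := ⟨hw.1, hv.2⟩
  by_cases hc : pot x0 c d v = pot x0 c d (w.1, v.2)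
  · obtain ⟨u, u', f, h1, h2, h3⟩ := V (w.1, v.2) w rfl hm hw (fun h => hne (hc.trans h))
    refine ⟨u, u', f, ?_, ?_, h3⟩
    · unfold BB at h1 ⊢; simp only at h1; omega
    · unfold BB at h2 ⊢; simp only at h2; omega
  · obtain ⟨u, u', f, h1, h2, h3⟩ := H v (w.1, v.2) rfl hv hm hc
    refine ⟨u, u', f, ?_, ?_, h3⟩
    · unfold BB at h1 ⊢; simp only at h1; omega
    · unfold BB at h2 ⊢; simp only at h2; omega

end K3h14.NC
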