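import Pool.Agent.K3h14.NC.DLow

/-!
The event that the open cluster of the wired arc reaches a column: duality and the lower bound for
its change in the near-critical window.
-/

set_option maxHeartbeats 1000000

namespace K3h14.NC

open H974 H973 H12S H934E Finset TH291.NW

variable {R : Rect} {δ : ℝ}

open Classical in
/-- The edges to the left of the column `X` which are not wired. -/
noncomputable def SX (R : Rect) (δ : ℝ) (X : ℤ) : Finset Edg :=
  (RE (R.x0 δ) X 0 (R.y1 δ)).filter (fun e => e ∉ R.wired δ)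

theorem mem_SX {X : ℤ} {e : Edg} :
    e ∈ SX R δ X ↔ e ∈ RE (R.x0 δ) X 0 (R.y1 δ) ∧ e ∉ R.wired δ := by
  classical
  unfold SX
  rw [Finset.mem_filter]

theorem wired_RE (hN : Nd R δ) {X : ℤ} (h1 : R.tc δ ≤ X) (h2 : 0 ≤ X) {e : Edg}
    (he : e ∈ R.wired δ) : e ∈ RE (R.x0 δ) X 0 (R.y1 δ) := by
  obtain ⟨n1, n2, n3, n4, n5⟩ := hN
  obtain ⟨x, y, b⟩ := e
  simp only [Rect.wired, Set.mem_ofPred_eq] at he
  rcases he with ⟨h1, h2, h3, h4⟩ | ⟨h1, h2, h3, h4⟩ | ⟨h1, h2, h3, h4⟩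
  · subst h1
    rw [mem_RE_true]
    omega
  · subst h1
    rw [mem_RE_false]
    omega
  · subst h1
    rw [mem_RE_true]
    omega

/-- Duality to the left of the column `X`. -/
theorem right_dual (hN : Nd R δ) {X : ℤ} (h1 : R.tc δ < X) (h2 : 0 < X) (hy : 0 < R.y1 δ) :
    H12S.DomD (SX R δ X) (I0 R δ) (lsd X 0 (R.y1 δ)) {v | v.2 = 0 - 1} {v | v.2 = R.y1 δ} := by
  classical
  have hN' := hN
  obtain ⟨n1, n2, n3, n4, n5⟩ := hN'
  intro G hG
  obtain ⟨A, hA⟩ : ∃ A : Finset Edg, A = (RE (R.x0 δ) X 0 (R.y1 δ)).filter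
    (fun e => e ∈ R.wired δ) := ⟨_, rfl⟩
  have memA : ∀ e, e ∈ A ↔ e ∈ R.wired δ := by
    intro e
    rw [hA, Finset.mem_filter]
    exact ⟨fun h => h.2, fun h => ⟨wired_RE hN h1.le h2.le h, h⟩⟩
  have hGA : G ∪ A ⊆ RE (R.x0 δ) X 0 (R.y1 δ) := by
    apply Finset.union_subset
    · intro e he
      exact (mem_SX.mp (hG he)).1
    · rw [hA]; exact Finset.filter_subset _ _
  have hdual := rect_dual (a := R.x0 δ) (b := X) (c := 0) (d := R.y1 δ) (by omega) (by omega)
    (G ∪ A) hGA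
  have hset : RE (R.x0 δ) X 0 (R.y1 δ) \ (G ∪ A) = SX R δ X \ G := by
    ext e
    rw [Finset.mem_sdiff, Finset.mem_union, Finset.mem_sdiff, mem_SX, memA]
    tauto
  rw [hset] at hdual
  rw [← hdual]
  constructor
  · rintro ⟨u, hu, v, hv, hr⟩
    -- `u` is connected to the left side by wired edges
    have k1 : Reach (↑(∅ : Finset Edg) ∪ R.wired δ) (0, 0) u := I0_clu hN ∅ hu
    have k2 : Reach (↑(∅ : Finset Edg) ∪ R.wired δ) (0, 0) (R.x0 δ, 0) :=
      I0_clu hN ∅ (Or.inr (Or.inl ⟨rfl, le_rfl, n3⟩))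
    have k3 : Reach (↑(G ∪ A) : Set Edg) (R.x0 δ, 0) u := by
      refine (k2.symm.trans k1).mono ?_
      rintro e (he | he)
      · exact absurd he (by simp)
      · rw [Finset.mem_coe, Finset.mem_union]
        exact Or.inr ((memA e).mpr he)
    refine ⟨(R.x0 δ, 0), ⟨rfl, le_rfl, n3⟩, v, hv, k3.trans (hr.mono ?_)⟩
    intro e he
    rw [Finset.mem_coe, Finset.mem_union]
    exact Or.inl he
  · rintro ⟨u, hu, v, hv, hr⟩
    have key : ∀ w, Reach (↑(G ∪ A) : Set Edg) u w → ∃ u' ∈ I0 R δ, Reach (↑G : Set Edg) u' w := by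
      intro w hw
      induction hw with
      | refl => exact ⟨u, Or.inr (Or.inl hu), Reach.refl _ _⟩
      | @tail a b _ hs ih =>
        obtain ⟨u', hu', hr'⟩ := ih
        obtain ⟨e, he, hc⟩ := hs
        rw [Finset.mem_coe, Finset.mem_union] at he
        rcases he with he | he
        · exact ⟨u', hu', Relation.ReflTransGen.tail hr' ⟨e, he, hc⟩⟩
        · obtain ⟨k1, k2⟩ := wired_ends hN ((memA e).mp he)
          rcases hc with ⟨_, h2⟩ | ⟨h1, _⟩
          · exact ⟨b, h2 ▸ k2, Reach.refl _ _⟩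
          · exact ⟨b, h1 ▸ k1, Reach.refl _ _⟩
    obtain ⟨u', hu', hr'⟩ := key v hr
    exact ⟨u', hu', v, hv, hr'⟩

/-- The columns from `X` on. -/
def Rt (X : ℤ) : Set Vtx := {v | X ≤ v.1}

/-- The first visit of the column `X`. -/
theorem right_visit (hN : Nd R δ) {X : ℤ} (h1 : R.tc δ < X) (h2 : 0 < X)
    {F : Finset Edg} (hF : F ⊆ R.edges δ) :
    EC R δ (Rt X) F ↔ Cn (I0 R δ) (lsd X 0 (R.y1 δ)) (↑(F ∩ SX R δ X) : Set Edg) := by
  have hN' := hN
  obtain ⟨n1, n2, n3, n4, n5⟩ := hN'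
  rw [EC_iff hN]
  constructor
  · rintro ⟨u, hu, v, hv, hr⟩
    have hIX : ∀ w ∈ I0 R δ, w.1 < X := by
      rintro w (⟨g1, g2, g3⟩ | ⟨g1, g2, g3⟩ | ⟨g1, g2, g3⟩) <;> omega
    have key : ∀ w, Reach (↑F : Set Edg) u w →
        (w.1 < X ∧ ∃ u' ∈ I0 R δ, Reach (↑(F ∩ SX R δ X) : Set Edg) u' w) ∨
        Cn (I0 R δ) (lsd X 0 (R.y1 δ)) (↑(F ∩ SX R δ X) : Set Edg) := by
      intro w hw
      induction hw with
      | refl => exact Or.inl ⟨hIX u hu, u, hu, Reach.refl _ _⟩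
      | @tail a b _ hs ih =>
        rcases ih with ⟨ih1, u', hu', hr'⟩ | ih
        · obtain ⟨e, he, hc⟩ := hs
          by_cases hw' : e ∈ R.wired δ
          · left
            obtain ⟨k1, k2⟩ := wired_ends hN hw'
            rcases hc with ⟨_, h2⟩ | ⟨h1, _⟩
            · exact ⟨h2 ▸ hIX _ k2, b, h2 ▸ k2, Reach.refl _ _⟩
            · exact ⟨h1 ▸ hIX _ k1, b, h1 ▸ k1, Reach.refl _ _⟩
          · have heE := mem_edges_iff.mp (hF he)
            -- the edge is to the left of the column `X`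
            have heR : e ∈ RE (R.x0 δ) X 0 (R.y1 δ) ∧ (b.1 < X ∨ b ∈ lsd X 0 (R.y1 δ)) := by
              obtain ⟨⟨⟨q1, q2⟩, q3, q4⟩, ⟨q5, q6⟩, q7, q8⟩ := heE
              obtain ⟨x, y, _ | _⟩ := e
              · simp only [src_mk, tgt_false] at q1 q2 q3 q4 q5 q6 q7 q8 hc
                rw [mem_RE_false]
                rcases hc with ⟨c1, c2⟩ | ⟨c1, c2⟩
                · rw [← c1] at ih1
                  simp only at ih1
                  rw [← c2]
                  exact ⟨by omega, Or.inl (by simp only; omega)⟩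
                · rw [← c2] at ih1
                  simp only at ih1
                  rw [← c1]
                  exact ⟨by omega, Or.inl (by simp only; omega)⟩
              · simp only [src_mk, tgt_true] at q1 q2 q3 q4 q5 q6 q7 q8 hc
                rw [mem_RE_true]
                rcases hc with ⟨c1, c2⟩ | ⟨c1, c2⟩
                · rw [← c1] at ih1
                  simp only at ih1
                  rw [← c2]
                  refine ⟨by omega, ?_⟩
                  by_cases hx : x + 1 < X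
                  · exact Or.inl hx
                  · exact Or.inr ⟨by simp only; omega, by simp only; omega, by simp only; omega⟩
                · rw [← c2] at ih1
                  simp only at ih1
                  rw [← c1]
                  exact ⟨by omega, Or.inl (by simp only; omega)⟩
            have hstep : Adj (↑(F ∩ SX R δ X) : Set Edg) a b := by
              refine ⟨e, ?_, hc⟩
              rw [Finset.mem_coe, Finset.mem_inter, mem_SX]
              exact ⟨he, heR.1, hw'⟩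
            rcases heR.2 with hb | hb
            · exact Or.inl ⟨hb, u', hu', Relation.ReflTransGen.tail hr' hstep⟩
            · exact Or.inr ⟨u', hu', b, hb, Relation.ReflTransGen.tail hr' hstep⟩
        · exact Or.inr ih
    rcases key v hr with ⟨k, _⟩ | k
    · have : X ≤ v.1 := hv
      omega
    · exact k
  · rintro ⟨u, hu, v, hv, hr⟩
    refine ⟨u, hu, v, hv.1.ge, hr.mono ?_⟩
    intro e he
    rw [Finset.mem_coe, Finset.mem_inter] at he
    exact he.1

theorem pr_right (hN : Nd R δ) {X : ℤ} (h1 : R.tc δ < X) (h2 : 0 < X) (h3 : X ≤ R.x1 δ)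
    (q : ℝ) : Pr (fun _ => q) (R.edges δ) (EC R δ (Rt X)) =
      Pr (fun _ => q) (SX R δ X)
        (fun F => Cn (I0 R δ) (lsd X 0 (R.y1 δ)) (↑F : Set Edg)) := by
  classical
  have hsub : SX R δ X ⊆ R.edges δ := by
    intro e he
    have he' := (mem_SX.mp he).1
    rw [mem_edges_iff]
    obtain ⟨x, y, _ | _⟩ := e
    · rw [mem_RE_false] at he'
      unfold InV
      simp only [src_mk, tgt_false]
      omega
    · rw [mem_RE_true] at he'
      unfold InV
      simp only [src_mk, tgt_true]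
      omega
  have e1 : Pr (fun _ => q) (R.edges δ) (EC R δ (Rt X)) = Pr (fun _ => q) (R.edges δ)
      (fun F => Cn (I0 R δ) (lsd X 0 (R.y1 δ)) (↑(F ∩ SX R δ X) : Set Edg)) :=
    Pr_congr (fun F hF => right_visit hN h1 h2 hF)
  rw [e1, Pr_local hsub (A := fun F => Cn (I0 R δ) (lsd X 0 (R.y1 δ))
    (↑(F ∩ SX R δ X) : Set Edg))]
  · apply Pr_congr
    intro F hF
    rw [Finset.inter_eq_left.mpr hF]
  · intro F _
    rw [Finset.inter_assoc, Finset.inter_self]

/-- From the derivative in the window to the difference. -/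
theorem low_int {f : ℝ → ℝ} {D β : ℝ} (hD : 0 ≤ D) (hβ0 : 0 < β) (hβ : β ≤ 1/2)
    (hf : ∀ t, |t - 1/2| ≤ β → ∃ d, HasDerivAt f d t ∧ D ≤ d)
    (hm : ∀ s t, 0 ≤ s → s ≤ t → t ≤ 1 → f s ≤ f t) {q : ℝ} (h0 : 0 ≤ q) (h1 : q ≤ 1) :
    D * min |q - 1/2| β ≤ |f q - f (1/2)| := by
  have key : ∀ x y : ℝ, x ≤ y → |x - 1/2| ≤ β → |y - 1/2| ≤ β → D * (y - x) ≤ f y - f x := by
    intro x y hxy hx hy
    have hin : ∀ t ∈ Set.Icc x y, |t - 1/2| ≤ β := by
      intro t ht
      rw [abs_le] at hx hy ⊢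
      exact ⟨by linarith [ht.1], by linarith [ht.2]⟩
    have hmono : MonotoneOn (fun t : ℝ => f t - D * t) (Set.Icc x y) := by
      have hDr : ∀ t ∈ Set.Icc x y, ∃ d : ℝ,
          HasDerivAt (fun t : ℝ => f t - D * t) d t ∧ 0 ≤ d := by
        intro t ht
        obtain ⟨d, hd1, hd2⟩ := hf t (hin t ht)
        have e := hd1.sub ((hasDerivAt_id t).const_mul D)
        refine ⟨_, e, ?_⟩
        rw [mul_one]
        linarith
      apply monotoneOn_of_deriv_nonneg (convex_Icc x y)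
      · intro t ht
        obtain ⟨d, hd1, -⟩ := hDr t ht
        exact hd1.continuousAt.continuousWithinAt
      · intro t ht
        obtain ⟨d, hd1, -⟩ := hDr t (interior_subset ht)
        exact hd1.differentiableAt.differentiableWithinAt
      · intro t ht
        obtain ⟨d, hd1, hd2⟩ := hDr t (interior_subset ht)
        rw [hd1.deriv]
        exact hd2
    have := hmono (Set.left_mem_Icc.mpr hxy) (Set.right_mem_Icc.mpr hxy) hxy
    simp only at this
    linarith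
  have hhalf : |(1/2 : ℝ) - 1/2| ≤ β := by rw [sub_self, abs_zero]; exact hβ0.le
  rcases le_total q (1/2) with hq | hq
  · have hab : |q - 1/2| = 1/2 - q := by rw [abs_sub_comm, abs_of_nonneg (by linarith)]
    have hmq := hm q (1/2) h0 hq (by norm_num)
    have e : |f q - f (1/2)| = f (1/2) - f q := by
      rw [abs_sub_comm]; exact abs_of_nonneg (by linarith)
    rw [e]
    rcases le_total |q - 1/2| β with h | h
    · rw [min_eq_left h, hab]
      exact key q (1/2) hq h hhalf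
    · rw [min_eq_right h]
      rw [hab] at h
      have k := key (1/2 - β) (1/2) (by linarith)
        (by rw [abs_sub_comm, abs_of_nonneg (by linarith)]; linarith) hhalf
      have m := hm q (1/2 - β) h0 (by linarith) (by linarith)
      have e2 : (1:ℝ)/2 - (1/2 - β) = β := by ring
      rw [e2] at k
      linarith
  · have hab : |q - 1/2| = q - 1/2 := abs_of_nonneg (by linarith)
    have hmq := hm (1/2) q (by norm_num) hq h1
    have e : |f q - f (1/2)| = f q - f (1/2) := abs_of_nonneg (by linarith)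
    rw [e]
    rcases le_total |q - 1/2| β with h | h
    · rw [min_eq_left h, hab]
      exact key (1/2) q hq hhalf h
    · rw [min_eq_right h]
      rw [hab] at h
      have k := key (1/2) (1/2 + β) (by linarith) hhalf
        (by rw [add_sub_cancel_left, abs_of_nonneg (by linarith)])
      have m := hm (1/2 + β) q (by linarith) (by linarith) h1
      rw [add_sub_cancel_left] at k
      linarith

/-- **The change of the probability that the cluster reaches a column is at least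
`c min(1, |q - 1/2| δ^(-3/4))`.** -/
theorem right_low (R : Rect) {s1 : ℝ} (hs0 : 0 < s1) (hst : R.t < s1) (hsB : s1 < R.B) :
    ∃ c δ0 : ℝ, 0 < c ∧ 0 < δ0 ∧ ∀ δ : ℝ, 0 < δ → δ ≤ δ0 → Nd R δ ∧ ∀ X : ℤ,
      s1 ≤ δ * X → X ≤ R.x1 δ → ∀ q : ℝ, 0 ≤ q → q ≤ 1 →
      c * min 1 (|q - 1/2| * δ ^ (-(3/4 : ℝ))) ≤
        |Pr (fun _ => q) (R.edges δ) (EC R δ (Rt X)) -
          Pr (fun _ => 1/2) (R.edges δ) (EC R δ (Rt X))| := by
  have hA := R.hA
  have hB := R.hB
  have hH := R.hH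
  have ht1 := R.ht1
  obtain ⟨τ, hτ⟩ : ∃ τ, τ = max R.t 0 := ⟨_, rfl⟩
  have hτ0 : 0 ≤ τ := by rw [hτ]; exact le_max_right _ _
  have hτt : R.t ≤ τ := by rw [hτ]; exact le_max_left _ _
  have hτs : τ < s1 := by rw [hτ]; exact max_lt hst hs0
  obtain ⟨κ, hκ⟩ : ∃ κ, κ = min (s1 - τ) R.H / 8 := ⟨_, rfl⟩
  have hκ0 : 0 < κ := by
    rw [hκ]
    have : 0 < min (s1 - τ) R.H := lt_min (by linarith) hH
    positivity
  have hκ1 : 8 * κ ≤ s1 - τ := by rw [hκ]; have := min_le_left (s1 - τ) R.H; linarith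
  have hκ2 : 8 * κ ≤ R.H := by rw [hκ]; have := min_le_right (s1 - τ) R.H; linarith
  obtain ⟨K, hK⟩ := exists_nat_ge (2 * (R.A + R.B + R.H) / κ + 1)
  have hK1 : 1 ≤ K := by
    have : (1:ℝ) ≤ K := by
      have : 0 ≤ 2 * (R.A + R.B + R.H) / κ := by positivity
      linarith
    exact_mod_cast this
  have hKκ : 2 * (R.A + R.B + R.H) ≤ K * κ := by
    have : 2 * (R.A + R.B + R.H) / κ ≤ K := by linarith
    rwa [div_le_iff₀ hκ0] at this
  obtain ⟨b, c, μ0, hb0, hb4, hc, hμ0, hder⟩ := deriv_low_gen K hK1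
  have hμ0r : (1:ℝ) ≤ μ0 := by exact_mod_cast hμ0
  refine ⟨min (c * (κ / 2) ^ (3/4 : ℝ)) (c * b),
    min (κ / (2 * (μ0 + 1))) (min (R.H / 2) (min (R.A + R.t) 1)), ?_, ?_, ?_⟩
  · exact lt_min (by positivity) (by positivity)
  · exact lt_min (by positivity) (lt_min (by positivity) (lt_min (by linarith) one_pos))
  intro δ hδ hδ0
  have hδ1 : δ ≤ κ / (2 * (μ0 + 1)) := hδ0.trans (min_le_left _ _)
  have hδ2 : δ ≤ R.H / 2 := hδ0.trans ((min_le_right _ _).trans (min_le_left _ _))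
  have hδ3 : δ ≤ R.A + R.t :=
    hδ0.trans ((min_le_right _ _).trans ((min_le_right _ _).trans (min_le_left _ _)))
  have hδ4 : δ ≤ 1 :=
    hδ0.trans ((min_le_right _ _).trans ((min_le_right _ _).trans (min_le_right _ _)))
  have hN : Nd R δ := nd_of hδ (by linarith) hδ3
  refine ⟨hN, ?_⟩
  intro X hX hX1 q h0 h1
  rw [le_div_iff₀ (by positivity)] at hδ1
  -- the scale
  obtain ⟨μ, hμ⟩ : ∃ μ : ℕ, μ = ⌊κ / δ⌋₊ := ⟨_, rfl⟩
  have hμ1 : (μ:ℝ) ≤ κ / δ := by rw [hμ]; exact Nat.floor_le (by positivity)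
  have hμ2 : κ / δ < μ + 1 := by rw [hμ]; exact Nat.lt_floor_add_one _
  rw [le_div_iff₀ hδ] at hμ1
  rw [div_lt_iff₀ hδ] at hμ2
  have hμμ0 : μ0 ≤ μ := by
    have : (μ0:ℝ) < μ + 1 := by
      by_contra hcon
      push Not at hcon
      nlinarith
    have : (μ0:ℝ) < ((μ + 1 : ℕ) : ℝ) := by push_cast; exact this
    have : μ0 < μ + 1 := by exact_mod_cast this
    omega
  have hμr : (1:ℝ) ≤ μ := by
    have : (μ0:ℝ) ≤ μ := by exact_mod_cast hμμ0
    linarith
  have hμκ : κ / 2 ≤ μ * δ := by nlinarith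
  -- the centre
  obtain ⟨⟨a1, a2⟩, ⟨b1, b2⟩, ⟨c1, c2⟩, d1, d2⟩ := facts (R := R) hδ
  obtain ⟨px, hpx⟩ : ∃ px : ℤ, px = ⌊(τ + s1) / 2 / δ⌋ := ⟨_, rfl⟩
  obtain ⟨py, hpy⟩ : ∃ py : ℤ, py = ⌊R.H / 2 / δ⌋ := ⟨_, rfl⟩
  have hpx1 : δ * px ≤ (τ + s1) / 2 := by
    have := Int.floor_le ((τ + s1) / 2 / δ)
    rw [← hpx, le_div_iff₀ hδ] at this
    linarith
  have hpx2 : (τ + s1) / 2 - δ < δ * px := by
    have := Int.lt_floor_add_one ((τ + s1) / 2 / δ)
    rw [← hpx, div_lt_iff₀ hδ] at this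
    linarith
  have hpy1 : δ * py ≤ R.H / 2 := by
    have := Int.floor_le (R.H / 2 / δ)
    rw [← hpy, le_div_iff₀ hδ] at this
    linarith
  have hpy2 : R.H / 2 - δ < δ * py := by
    have := Int.lt_floor_add_one (R.H / 2 / δ)
    rw [← hpy, div_lt_iff₀ hδ] at this
    linarith
  have lift : ∀ x y : ℤ, δ * (x:ℝ) ≤ δ * y → x ≤ y := by
    intro x y h
    have := le_of_mul_le_mul_left h hδ
    exact_mod_cast this
  have lift' : ∀ x y : ℤ, δ * (x:ℝ) < δ * y → x < y := by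
    intro x y h
    have := lt_of_mul_lt_mul_left h hδ.le
    exact_mod_cast this
  have hδκ : 4 * δ ≤ κ := by nlinarith
  have e1 : R.tc δ < X := lift' _ _ (by linarith)
  have e2 : 0 < X := by
    apply lift'
    push_cast
    linarith
  have e3 : R.tc δ ≤ px - μ := by
    apply lift
    push_cast
    linarith
  have e4 : 0 ≤ px - μ := by
    apply lift
    push_cast
    linarith
  have e5 : px + μ ≤ X := by
    apply lift
    push_cast
    linarith
  have e6 : (μ:ℤ) ≤ py := by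
    apply lift
    push_cast
    linarith
  have e7 : py + μ ≤ R.y1 δ := by
    apply lift
    push_cast
    linarith
  have e8 : R.x0 δ + μ ≤ px := by
    have := hN.x0
    omega
  have e9 : X - R.x0 δ ≤ K * μ := by
    apply lift
    have hX' := mulint hδ hX1
    push_cast
    nlinarith
  have e10 : R.y1 δ - 0 ≤ K * μ := by
    apply lift
    push_cast
    nlinarith
  have hy0 : 0 < R.y1 δ := by omega
  -- the function
  obtain ⟨f, hf⟩ : ∃ f : ℝ → ℝ, f = fun q => Pr (fun _ => q) (SX R δ X)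
    (fun F => Cn (I0 R δ) (lsd X 0 (R.y1 δ)) (↑F : Set Edg)) := ⟨_, rfl⟩
  have hfE : ∀ q, Pr (fun _ => q) (R.edges δ) (EC R δ (Rt X)) = f q := by
    intro q
    rw [hf]
    exact pr_right hN e1 e2 hX1 q
  rw [hfE, hfE]
  have hdf : ∀ t, |t - 1/2| ≤ b * (μ:ℝ) ^ (-(3/4 : ℝ)) →
      ∃ d, HasDerivAt f d t ∧ c * (μ:ℝ) ^ (3/4 : ℝ) ≤ d := by
    intro t ht
    refine ⟨_, by rw [hf]; exact piv_deriv t _ _ _, ?_⟩
    refine hder μ hμμ0 (R.x0 δ) X 0 (R.y1 δ) (px, py) (SX R δ X) (I0 R δ) (lsd X 0 (R.y1 δ))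
      {v | v.2 = 0 - 1} {v | v.2 = R.y1 δ} ?_ ?_ ?_ ?_ ?_ ?_ (fun v hv => hv)
      (right_dual hN e1 e2 hy0) ?_ e8 e5 (by simp only; omega) e7 e9 e10 t ht
    · intro e he
      exact (mem_SX.mp he).1
    · intro x y he hc
      rw [mem_SX]
      refine ⟨he, ?_⟩
      rw [mem_RE_true] at he
      rintro (⟨g1, g2, g3, g4⟩ | ⟨g1, g2, g3, g4⟩ | ⟨g1, g2, g3, g4⟩)
      · simp only at g1 g2 g3 g4 hc; omega
      · simp at g1
      · simp only at g1 g2 g3 g4 hc; omega
    · intro x y he hc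
      rw [mem_SX]
      refine ⟨he, ?_⟩
      rintro (⟨g1, g2, g3, g4⟩ | ⟨g1, g2, g3, g4⟩ | ⟨g1, g2, g3, g4⟩)
      · simp at g1
      · simp only at g1 g2 g3 g4 hc; omega
      · simp at g1
    · rintro u (⟨g1, g2, g3⟩ | ⟨g1, g2, g3⟩ | ⟨g1, g2, g3⟩)
      · simp only; omega
      · simp only; have := hN.x0; omega
      · simp only; omega
    · intro v hv
      have : v.1 = X := hv.1
      simp only; omega
    · intro v hv
      exact Or.inr (Or.inl hv)
    · rintro v (hv | hv)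
      · have : v.2 = 0 - 1 := hv
        rw [this, abs_sub_comm, abs_of_nonneg (by simp only; omega)]
        simp only; omega
      · have : v.2 = R.y1 δ := hv
        rw [this, abs_of_nonneg (by simp only; omega)]
        simp only; omega
  have hfm : ∀ s t, 0 ≤ s → s ≤ t → t ≤ 1 → f s ≤ f t := by
    intro s t hs hst ht
    rw [hf]
    exact Pr_mono_param (okq hs (hst.trans ht)) (okq (hs.trans hst) ht) (fun _ => hst)
      (fun F G h _ hF => BS_Cn_mono (by exact_mod_cast h) hF)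
  have hμp : 0 < (μ:ℝ) ^ (-(3/4 : ℝ)) := by positivity
  have hβ : b * (μ:ℝ) ^ (-(3/4 : ℝ)) ≤ 1/2 := by
    have : (μ:ℝ) ^ (-(3/4 : ℝ)) ≤ 1 := Real.rpow_le_one_of_one_le_of_nonpos hμr (by norm_num)
    nlinarith
  have hmain := low_int (D := c * (μ:ℝ) ^ (3/4 : ℝ)) (β := b * (μ:ℝ) ^ (-(3/4 : ℝ)))
    (by positivity) (by positivity) hβ hdf hfm h0 h1
  refine le_trans ?_ hmain
  -- compare the constants
  obtain ⟨x, hx⟩ : ∃ x : ℝ, x = |q - 1/2| := ⟨_, rfl⟩
  have hx0 : 0 ≤ x := by rw [hx]; exact abs_nonneg _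
  rw [← hx]
  have hd34 : 0 < δ ^ (-(3/4 : ℝ)) := by positivity
  have m1 : (κ / 2) ^ (3/4 : ℝ) * δ ^ (-(3/4 : ℝ)) ≤ (μ:ℝ) ^ (3/4 : ℝ) := by
    have i1 : (κ / 2) ^ (3/4 : ℝ) ≤ ((μ:ℝ) * δ) ^ (3/4 : ℝ) :=
      Real.rpow_le_rpow (by positivity) hμκ (by norm_num)
    rw [Real.mul_rpow (by positivity) hδ.le] at i1
    have i2 := mul_le_mul_of_nonneg_right i1 hd34.le
    have i3 : (μ:ℝ) ^ (3/4 : ℝ) * δ ^ (3/4 : ℝ) * δ ^ (-(3/4 : ℝ)) = (μ:ℝ) ^ (3/4 : ℝ) := by
      rw [mul_assoc, ← Real.rpow_add hδ]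
      norm_num
    rw [i3] at i2
    exact i2
  have m2 : (μ:ℝ) ^ (3/4 : ℝ) * (μ:ℝ) ^ (-(3/4 : ℝ)) = 1 := by
    rw [← Real.rpow_add (by linarith)]
    norm_num
  rcases le_total x (b * (μ:ℝ) ^ (-(3/4 : ℝ))) with h | h
  · rw [min_eq_left h]
    calc min (c * (κ / 2) ^ (3/4 : ℝ)) (c * b) * min 1 (x * δ ^ (-(3/4 : ℝ)))
        ≤ c * (κ / 2) ^ (3/4 : ℝ) * (x * δ ^ (-(3/4 : ℝ))) :=
          mul_le_mul (min_le_left _ _) (min_le_right _ _) (by positivity) (by positivity)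
      _ = c * ((κ / 2) ^ (3/4 : ℝ) * δ ^ (-(3/4 : ℝ))) * x := by ring
      _ ≤ c * (μ:ℝ) ^ (3/4 : ℝ) * x :=
          mul_le_mul_of_nonneg_right (mul_le_mul_of_nonneg_left m1 hc.le) hx0
  · rw [min_eq_right h]
    have k3 : c * (μ:ℝ) ^ (3/4 : ℝ) * (b * (μ:ℝ) ^ (-(3/4 : ℝ))) = c * b := by
      calc _ = c * b * ((μ:ℝ) ^ (3/4 : ℝ) * (μ:ℝ) ^ (-(3/4 : ℝ))) := by ring
        _ = _ := by rw [m2, mul_one]
    rw [k3]
    calc min (c * (κ / 2) ^ (3/4 : ℝ)) (c * b) * min 1 (x * δ ^ (-(3/4 : ℝ)))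
        ≤ c * b * 1 := mul_le_mul (min_le_right _ _) (min_le_left _ _) (by positivity)
          (by positivity)
      _ = c * b := mul_one _

end K3h14.NC
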