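import Pool.Agent.K3h14.NC.Law
import Pool.Agent.K3h14.NC.Right
import Pool.Agent.K3h14.NC.Conv

/-!
The rightmost point of the trace detects the near-critical parameter.
-/

set_option maxHeartbeats 1000000

namespace K3h14.NC

open H974 H973 H12S H934E Finset TH291.NW TopologicalSpace MeasureTheory ProbabilityTheory
open Filter Topology unitInterval

/-- The largest real part. -/
noncomputable def rmx (K : NonemptyCompacts ℂ) : ℝ := sSup (Complex.re '' (K : Set ℂ))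

theorem rmx_bdd (K : NonemptyCompacts ℂ) : BddAbove (Complex.re '' (K : Set ℂ)) :=
  (K.isCompact.image Complex.continuous_re).bddAbove

theorem le_rmx {K : NonemptyCompacts ℂ} {z : ℂ} (hz : z ∈ (K : Set ℂ)) : z.re ≤ rmx K :=
  le_csSup (rmx_bdd K) ⟨z, hz, rfl⟩

theorem rmx_le {K : NonemptyCompacts ℂ} {r : ℝ} (h : ∀ z ∈ (K : Set ℂ), z.re ≤ r) :
    rmx K ≤ r := by
  apply csSup_le (K.nonempty.image _)
  rintro _ ⟨z, hz, rfl⟩
  exact h z hz

theorem rmx_lip_aux (K L : NonemptyCompacts ℂ) : rmx K ≤ rmx L + dist K L := by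
  apply rmx_le
  intro z hz
  apply le_of_forall_pos_le_add
  intro e he
  have hfin := Metric.hausdorffEDist_ne_top_of_nonempty_of_bounded K.nonempty L.nonempty
      K.isCompact.isBounded L.isCompact.isBounded
  obtain ⟨w, hw, hd⟩ := Metric.exists_dist_lt_of_hausdorffDist_lt hz
    (show Metric.hausdorffDist (K : Set ℂ) L < dist K L + e by
      rw [← Metric.NonemptyCompacts.dist_eq]; linarith) hfin
  have h1 := le_rmx hw
  have h2 := le_dist_re z w
  have h3 := le_abs_self (z.re - w.re)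
  linarith

theorem rmx_lip : LipschitzWith 1 rmx := by
  apply LipschitzWith.of_dist_le_mul
  intro K L
  rw [NNReal.coe_one, one_mul, Real.dist_eq, abs_le]
  have h1 := rmx_lip_aux K L
  have h2 := rmx_lip_aux L K
  rw [dist_comm L K] at h2
  constructor <;> linarith

/-- The test function. -/
noncomputable def gT (s1 s2 : ℝ) (K : NonemptyCompacts ℂ) : ℝ :=
  max 0 (min (rmx K - s1) (s2 - s1))

theorem gT_nonneg (s1 s2 : ℝ) (K : NonemptyCompacts ℂ) : 0 ≤ gT s1 s2 K := le_max_left _ _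

theorem gT_le {s1 s2 : ℝ} (h : s1 ≤ s2) (K : NonemptyCompacts ℂ) : gT s1 s2 K ≤ s2 - s1 :=
  max_le (by linarith) (min_le_right _ _)

theorem gT_lip (s1 s2 : ℝ) : LipschitzWith 1 (gT s1 s2) := by
  have h1 : LipschitzWith 1 (fun K : NonemptyCompacts ℂ => rmx K - s1) := by
    have := rmx_lip.sub (LipschitzWith.const (α := NonemptyCompacts ℂ) s1)
    simpa using this
  have h2 := h1.min_const (s2 - s1)
  exact h2.const_max 0

variable {R : Rect} {δ : ℝ}

theorem rmx_ge (hδ : 0 < δ) (hN : Nd R δ) {F : Finset Edg} (hF : F ⊆ R.edges δ) {X : ℤ}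
    (h : EC R δ (Rt X) F) : δ * X - δ ≤ rmx (R.trace hδ F) := by
  have hN' := hN
  obtain ⟨n1, n2, n3, n4, n5⟩ := hN'
  obtain ⟨v, hv, hX⟩ := h
  have hvV := clu_sub hN hF hv
  obtain ⟨⟨w1, w2⟩, w3, w4⟩ := hvV
  have hf : ((R.x1 δ, v.2) : Vtx) ∈ R.dclu δ F :=
    outer_dclu (Or.inr (Or.inl ⟨rfl, by simp only; omega, by simp only; omega⟩))
  obtain ⟨k, hk, ⟨k1, k2⟩, k3, k4⟩ := corner_near hN hF hv hf (w := (R.x1 δ, v.2))
    ⟨⟨by simp only; omega, by simp only; omega⟩, by simp only; omega, by simp only; omega⟩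
    ⟨Or.inl rfl, Or.inl rfl⟩
  obtain ⟨z, hz, hz1, hz2⟩ := corner_path hδ hk
  have hXv : X ≤ v.1 := hX
  simp only at k1 k2 k3 k4
  have m1 := mulint hδ (show X ≤ k.1.1 by omega)
  rw [abs_le] at hz1
  have := le_rmx (K := R.trace hδ F) hz
  linarith

theorem rmx_lt (hδ : 0 < δ) {F : Finset Edg} {X : ℤ}
    (h : ¬ EC R δ (Rt X) F) : rmx (R.trace hδ F) ≤ δ * X := by
  apply rmx_le
  intro z hz
  obtain ⟨k, hk, hz1, hz2⟩ := path_corner hδ hz
  have hX : k.1.1 ≤ X - 1 := by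
    by_contra hc
    exact h ⟨k.1, hk.1, show X ≤ k.1.1 by omega⟩
  have m1 := mulint hδ hX
  push_cast at m1
  rw [abs_le] at hz1
  linarith

theorem EC_Rt_anti {F : Finset Edg} {X Y : ℤ} (h : Y ≤ X) (hX : EC R δ (Rt X) F) :
    EC R δ (Rt Y) F := by
  obtain ⟨v, hv, hv2⟩ := hX
  exact ⟨v, hv, h.trans hv2⟩

open Classical in
/-- The number of the reached columns. -/
noncomputable def nc (R : Rect) (δ : ℝ) (a b : ℤ) (F : Finset Edg) : ℕ :=
  ((Finset.Ioc a b).filter (fun X => EC R δ (Rt X) F)).card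

theorem nc_le {a b : ℤ} (hab : a ≤ b) (F : Finset Edg) : (nc R δ a b F : ℤ) ≤ b - a := by
  classical
  unfold nc
  have := Finset.card_filter_le (Finset.Ioc a b) (fun X => EC R δ (Rt X) F)
  rw [Int.card_Ioc] at this
  omega

theorem nc_pos {a b : ℤ} (hab : a ≤ b) {F : Finset Edg} (h : 1 ≤ nc R δ a b F) :
    EC R δ (Rt (a + nc R δ a b F)) F := by
  classical
  by_contra hc
  have hsub : (Finset.Ioc a b).filter (fun X => EC R δ (Rt X) F) ⊆
      Finset.Ioc a (a + nc R δ a b F - 1) := by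
    intro X hX
    rw [Finset.mem_filter, Finset.mem_Ioc] at hX
    rw [Finset.mem_Ioc]
    refine ⟨hX.1.1, ?_⟩
    by_contra h'
    exact hc (EC_Rt_anti (by omega) hX.2)
  have := Finset.card_le_card hsub
  rw [Int.card_Ioc] at this
  change nc R δ a b F ≤ _ at this
  omega

theorem nc_lt {a b : ℤ} {F : Finset Edg} (h : (nc R δ a b F : ℤ) < b - a) :
    ¬ EC R δ (Rt (a + nc R δ a b F + 1)) F := by
  classical
  intro hc
  have hsub : Finset.Ioc a (a + nc R δ a b F + 1) ⊆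
      (Finset.Ioc a b).filter (fun X => EC R δ (Rt X) F) := by
    intro X hX
    rw [Finset.mem_Ioc] at hX
    rw [Finset.mem_filter, Finset.mem_Ioc]
    exact ⟨⟨hX.1, by omega⟩, EC_Rt_anti (by omega) hc⟩
  have := Finset.card_le_card hsub
  rw [Int.card_Ioc] at this
  change _ ≤ nc R δ a b F at this
  omega

theorem gT_near (hδ : 0 < δ) (hN : Nd R δ) {F : Finset Edg} (hF : F ⊆ R.edges δ) {s1 s2 : ℝ}
    {a b : ℤ} (hab : a ≤ b) (h1 : s1 ≤ δ * a) (h2 : δ * a ≤ s1 + δ) (h3 : s2 - δ ≤ δ * b)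
    (h4 : δ * b ≤ s2) : |gT s1 s2 (R.trace hδ F) - δ * nc R δ a b F| ≤ 2 * δ := by
  have hn := nc_le (R := R) (δ := δ) hab F
  have hnR : δ * (nc R δ a b F : ℝ) ≤ δ * b - δ * a := by
    have : ((nc R δ a b F : ℤ) : ℝ) ≤ ((b - a : ℤ) : ℝ) := by exact_mod_cast hn
    push_cast at this
    rw [← mul_sub]
    exact mul_le_mul_of_nonneg_left this hδ.le
  have hn0 : 0 ≤ δ * (nc R δ a b F : ℝ) := by positivity
  unfold gT
  rw [abs_le]
  constructor
  · -- lower bound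
    rcases Nat.eq_zero_or_pos (nc R δ a b F) with h | h
    · rw [h]
      have := le_max_left 0 (min (rmx (R.trace hδ F) - s1) (s2 - s1))
      push_cast
      linarith
    · have k := rmx_ge hδ hN hF (nc_pos hab h)
      push_cast at k
      have : min (rmx (R.trace hδ F) - s1) (s2 - s1) ≤
        max 0 (min (rmx (R.trace hδ F) - s1) (s2 - s1)) := le_max_right _ _
      have : δ * (nc R δ a b F : ℝ) - δ ≤ min (rmx (R.trace hδ F) - s1) (s2 - s1) := by
        apply le_min <;> linarith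
      linarith
  · rcases lt_or_ge (nc R δ a b F : ℤ) (b - a) with h | h
    · have k := rmx_lt hδ (nc_lt h)
      push_cast at k
      have : max 0 (min (rmx (R.trace hδ F) - s1) (s2 - s1)) ≤
          δ * (nc R δ a b F : ℝ) + 2 * δ := by
        apply max_le
        · positivity
        · exact (min_le_left _ _).trans (by linarith)
      linarith
    · have hnR' : δ * b - δ * a ≤ δ * (nc R δ a b F : ℝ) := by
        have : ((b - a : ℤ) : ℝ) ≤ ((nc R δ a b F : ℤ) : ℝ) := by exact_mod_cast h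
        push_cast at this
        rw [← mul_sub]
        exact mul_le_mul_of_nonneg_left this hδ.le
      have : max 0 (min (rmx (R.trace hδ F) - s1) (s2 - s1)) ≤
          δ * (nc R δ a b F : ℝ) + 2 * δ := by
        apply max_le
        · positivity
        · exact (min_le_right _ _).trans (by linarith)
      linarith

theorem Ex_nc (p : Edg → ℝ) (a b : ℤ) :
    Ex p (R.edges δ) (fun F => (nc R δ a b F : ℝ)) =
      ∑ X ∈ Finset.Ioc a b, Pr p (R.edges δ) (EC R δ (Rt X)) := by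
  classical
  unfold Pr
  rw [← Ex_sum]
  apply Ex_congr
  intro F _
  unfold nc
  rw [Finset.card_filter]
  push_cast
  apply Finset.sum_congr rfl
  intro X _
  by_cases h : EC R δ (Rt X) F
  · rw [if_pos h, ind_of h]
  · rw [if_neg h, ind_not_of h]

theorem incr_EC (K : Set Vtx) : IncrE (R.edges δ) (EC R δ K) := fun _ _ h _ hF => EC_mono h hF

/-- The difference of the expectations of the test function. -/
theorem gT_low (R : Rect) {s1 s2 : ℝ} (hs0 : 0 < s1) (hst : R.t < s1) (h12 : s1 < s2)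
    (hsB : s2 < R.B) : ∃ c C δ0 : ℝ, 0 < c ∧ 0 < C ∧ 0 < δ0 ∧
    ∀ (δ : ℝ) (hδ : 0 < δ), δ ≤ δ0 → ∀ p : I,
      c * min 1 (|(p:ℝ) - 1/2| * δ ^ (-(3/4 : ℝ))) - C * δ ≤
      |∫ K, gT s1 s2 K ∂(lawM R hδ (fun _ => p)) -
        ∫ K, gT s1 s2 K ∂(lawM R hδ (fun _ => half))| := by
  obtain ⟨c, δ0, hc, hδ0, hlow⟩ := right_low R hs0 hst (h12.trans hsB)
  refine ⟨c * ((s2 - s1) / 2), 4, min δ0 (min ((s2 - s1) / 4) (R.B - s2)), ?_, by norm_num, ?_, ?_⟩
  · have : 0 < s2 - s1 := by linarith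
    positivity
  · exact lt_min hδ0 (lt_min (by linarith) (by linarith))
  intro δ hδ hδ1 p
  have hδ2 : δ ≤ δ0 := hδ1.trans (min_le_left _ _)
  have hδ3 : δ ≤ (s2 - s1) / 4 := hδ1.trans ((min_le_right _ _).trans (min_le_left _ _))
  have hδ4 : δ ≤ R.B - s2 := hδ1.trans ((min_le_right _ _).trans (min_le_right _ _))
  obtain ⟨hN, hX⟩ := hlow δ hδ hδ2
  obtain ⟨⟨a1, a2⟩, ⟨b1, b2⟩, ⟨c1, c2⟩, d1, d2⟩ := facts (R := R) hδ
  obtain ⟨a, ha⟩ : ∃ a : ℤ, a = ⌈s1 / δ⌉ := ⟨_, rfl⟩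
  obtain ⟨b, hb⟩ : ∃ b : ℤ, b = ⌊s2 / δ⌋ := ⟨_, rfl⟩
  have e1 : δ * (s1 / δ) = s1 := by field_simp
  have e2 : δ * (s2 / δ) = s2 := by field_simp
  have g1 : s1 ≤ δ * a := by
    have := mul_le_mul_of_nonneg_left (Int.le_ceil (s1 / δ)) hδ.le
    rw [ha]; linarith
  have g2 : δ * a ≤ s1 + δ := by
    have := mul_le_mul_of_nonneg_left (Int.ceil_lt_add_one (s1 / δ)).le hδ.le
    rw [ha]; linarith
  have g3 : s2 - δ ≤ δ * b := by
    have := mul_le_mul_of_nonneg_left (Int.lt_floor_add_one (s2 / δ)).le hδ.le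
    rw [hb]; linarith
  have g4 : δ * b ≤ s2 := by
    have := mul_le_mul_of_nonneg_left (Int.floor_le (s2 / δ)) hδ.le
    rw [hb]; linarith
  have hab : a ≤ b := by
    have : δ * (a:ℝ) ≤ δ * b := by linarith
    exact_mod_cast le_of_mul_le_mul_left this hδ
  have hbx : b ≤ R.x1 δ := by
    have : δ * (b:ℝ) ≤ δ * (R.x1 δ : ℤ) := by linarith
    exact_mod_cast le_of_mul_le_mul_left this hδ
  -- the approximation
  have happ : ∀ q : I, |∫ K, gT s1 s2 K ∂(lawM R hδ (fun _ => q)) -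
      δ * ∑ X ∈ Finset.Ioc a b, Pr (fun _ => (q:ℝ)) (R.edges δ) (EC R δ (Rt X))| ≤ 2 * δ := by
    intro q
    rw [integral_lawM, ← Ex_nc, ← Ex_mul_left, ← Ex_sub]
    have ok : Ok (fun _ : Edg => (q:ℝ)) := fun _ => q.2
    rw [abs_le]
    constructor
    · rw [← Ex_const (fun _ : Edg => (q:ℝ)) (R.edges δ) (-(2 * δ))]
      apply Ex_mono ok
      intro F hF
      exact (abs_le.mp (gT_near hδ hN hF hab g1 g2 g3 g4)).1
    · rw [← Ex_const (fun _ : Edg => (q:ℝ)) (R.edges δ) (2 * δ)]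
      apply Ex_mono ok
      intro F hF
      exact (abs_le.mp (gT_near hδ hN hF hab g1 g2 g3 g4)).2
  have k1 := happ p
  have k2 := happ half
  rw [coe_half] at k2
  obtain ⟨m, hm⟩ : ∃ m, m = min 1 (|(p:ℝ) - 1/2| * δ ^ (-(3/4 : ℝ))) := ⟨_, rfl⟩
  have hm0 : 0 ≤ m := by rw [hm]; exact le_min zero_le_one (by positivity)
  rw [← hm]
  obtain ⟨S1, hS1⟩ : ∃ S1, S1 = ∑ X ∈ Finset.Ioc a b,
    Pr (fun _ => (p:ℝ)) (R.edges δ) (EC R δ (Rt X)) := ⟨_, rfl⟩
  obtain ⟨S2, hS2⟩ : ∃ S2, S2 = ∑ X ∈ Finset.Ioc a b,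
    Pr (fun _ => (1/2:ℝ)) (R.edges δ) (EC R δ (Rt X)) := ⟨_, rfl⟩
  rw [← hS1] at k1
  rw [← hS2] at k2
  -- the difference of the sums
  have hcard : δ * ((Finset.Ioc a b).card : ℝ) ≥ (s2 - s1) / 2 := by
    have e : (((Finset.Ioc a b).card : ℤ) : ℝ) = (b:ℝ) - a := by
      rw [Int.card_Ioc, Int.toNat_of_nonneg (by omega)]
      push_cast; ring
    have e' : ((Finset.Ioc a b).card : ℝ) = (b:ℝ) - a := by rw [← e]; push_cast; ring
    rw [e', mul_sub]
    linarith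
  have hdiff : ((Finset.Ioc a b).card : ℝ) * (c * m) ≤ |S1 - S2| := by
    have hXX : ∀ X ∈ Finset.Ioc a b, c * m ≤
        |Pr (fun _ => (p:ℝ)) (R.edges δ) (EC R δ (Rt X)) -
          Pr (fun _ => (1/2:ℝ)) (R.edges δ) (EC R δ (Rt X))| := by
      intro X hXm
      rw [Finset.mem_Ioc] at hXm
      rw [hm]
      apply hX X _ (by omega) _ p.2.1 p.2.2
      have := mulint hδ (show a ≤ X by omega)
      linarith
    rcases le_total (1/2 : ℝ) p with h | h
    · have hs : ∀ X ∈ Finset.Ioc a b, c * m ≤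
        Pr (fun _ => (p:ℝ)) (R.edges δ) (EC R δ (Rt X)) -
          Pr (fun _ => (1/2:ℝ)) (R.edges δ) (EC R δ (Rt X)) := by
        intro X hXm
        have := hXX X hXm
        rwa [abs_of_nonneg] at this
        have := Pr_mono_param (okq (by norm_num) (by norm_num)) (okq p.2.1 p.2.2)
          (fun _ : Edg => h) (incr_EC (R := R) (δ := δ) (Rt X))
        linarith
      have := Finset.sum_le_sum hs
      rw [Finset.sum_const, nsmul_eq_mul, Finset.sum_sub_distrib, ← hS1, ← hS2] at this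
      exact this.trans (le_abs_self _)
    · have hs : ∀ X ∈ Finset.Ioc a b, c * m ≤
        Pr (fun _ => (1/2:ℝ)) (R.edges δ) (EC R δ (Rt X)) -
          Pr (fun _ => (p:ℝ)) (R.edges δ) (EC R δ (Rt X)) := by
        intro X hXm
        have := hXX X hXm
        rwa [abs_sub_comm, abs_of_nonneg] at this
        have := Pr_mono_param (okq p.2.1 p.2.2) (okq (by norm_num) (by norm_num))
          (fun _ : Edg => h) (incr_EC (R := R) (δ := δ) (Rt X))
        linarith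
      have := Finset.sum_le_sum hs
      rw [Finset.sum_const, nsmul_eq_mul, Finset.sum_sub_distrib, ← hS1, ← hS2] at this
      rw [abs_sub_comm]
      exact this.trans (le_abs_self _)
  have hfin : (s2 - s1) / 2 * (c * m) ≤ |δ * S1 - δ * S2| := by
    rw [← mul_sub, abs_mul, abs_of_pos hδ]
    calc (s2 - s1) / 2 * (c * m) ≤ δ * ((Finset.Ioc a b).card : ℝ) * (c * m) :=
          mul_le_mul_of_nonneg_right hcard (by positivity)
      _ = δ * (((Finset.Ioc a b).card : ℝ) * (c * m)) := by ring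
      _ ≤ _ := mul_le_mul_of_nonneg_left hdiff hδ.le
  obtain ⟨I1, hI1⟩ : ∃ I1, I1 = ∫ K, gT s1 s2 K ∂(lawM R hδ (fun _ => p)) := ⟨_, rfl⟩
  obtain ⟨I2, hI2⟩ : ∃ I2, I2 = ∫ K, gT s1 s2 K ∂(lawM R hδ (fun _ => half)) := ⟨_, rfl⟩
  rw [← hI1] at k1 ⊢
  rw [← hI2] at k2 ⊢
  have t : |δ * S1 - δ * S2| ≤ |I1 - I2| + |I1 - δ * S1| + |I2 - δ * S2| := by
    have e : δ * S1 - δ * S2 = (I1 - I2) - (I1 - δ * S1) + (I2 - δ * S2) := by ring
    rw [e]
    exact (abs_add_le _ _).trans (add_le_add_left (abs_sub _ _) _)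
  have e3 : c * ((s2 - s1) / 2) * m = (s2 - s1) / 2 * (c * m) := by ring
  rw [e3]
  linarith

end K3h14.NC
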