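import Pool.Agent.K3h14.NC.Pot

/-!
The exploration path passes between every two near points of the two clusters.
-/

set_option maxHeartbeats 1000000

namespace K3h14.NC

open H974 H973 H934E Finset

/-- The discrete rectangle is not degenerate. -/
structure Nd (R : Rect) (δ : ℝ) : Prop where
  x0 : R.x0 δ ≤ 0
  x1 : 0 ≤ R.x1 δ
  y1 : 0 ≤ R.y1 δ
  t0 : R.x0 δ ≤ R.tc δ
  t1 : R.tc δ ≤ R.x1 δ

theorem nd_of {R : Rect} {δ : ℝ} (hδ : 0 < δ) (h1 : δ < R.H) (h2 : δ ≤ R.A + R.t) : Nd R δ := by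
  have hA := R.hA
  have hB := R.hB
  refine ⟨?_, R.x1_nonneg hδ, ?_, ?_, ?_⟩
  · unfold Rect.x0
    have : ⌊-(R.A / δ)⌋ < 0 := Int.floor_lt.mpr (by
      push_cast
      have : 0 < R.A / δ := div_pos hA hδ
      linarith)
    omega
  · unfold Rect.y1
    have : 1 < ⌈R.H / δ⌉ := Int.lt_ceil.mpr (by
      push_cast
      rw [lt_div_iff₀ hδ]
      linarith)
    omega
  · unfold Rect.x0 Rect.tc
    rw [Int.add_one_le_iff, Int.floor_lt]
    have h3 : R.t / δ < ⌊R.t / δ⌋ + 1 := Int.lt_floor_add_one _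
    have h4 : -(R.A / δ) ≤ R.t / δ - 1 := by
      rw [← neg_div, ← sub_nonneg]
      have : R.t / δ - 1 - -R.A / δ = (R.A + R.t - δ) / δ := by field_simp; ring
      rw [this]
      exact div_nonneg (by linarith) hδ.le
    linarith
  · unfold Rect.x1 Rect.tc
    rw [Int.le_sub_one_iff, Int.lt_ceil]
    have h3 : (⌊R.t / δ⌋ : ℝ) ≤ R.t / δ := Int.floor_le _
    have h4 : R.t / δ < R.B / δ := div_lt_div_of_pos_right R.ht2 hδ
    linarith

variable {R : Rect} {δ : ℝ}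

theorem mem_verts_iff {v : Vtx} : v ∈ R.verts δ ↔ InV (R.x0 δ) (R.x1 δ) (R.y1 δ) v :=
  R.mem_verts'

theorem mem_edges_iff {e : Edg} : e ∈ R.edges δ ↔ InV (R.x0 δ) (R.x1 δ) (R.y1 δ) (src e) ∧
    InV (R.x0 δ) (R.x1 δ) (R.y1 δ) (tgt e) := by
  unfold Rect.edges
  rw [mem_ES, mem_verts_iff, mem_verts_iff]

theorem wired_sub (hN : Nd R δ) : R.wired δ ⊆ ↑(R.edges δ) := by
  rintro ⟨x, y, b⟩ h
  rw [Finset.mem_coe, mem_edges_iff]
  simp only [Rect.wired, Set.mem_ofPred_eq] at h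
  obtain ⟨n1, n2, n3, n4, n5⟩ := hN
  unfold InV
  rcases h with ⟨h1, h2, h3, h4⟩ | ⟨h1, h2, h3, h4⟩ | ⟨h1, h2, h3, h4⟩
  · subst h1
    simp only [src_mk, tgt_true]
    omega
  · subst h1
    simp only [src_mk, tgt_false]
    omega
  · subst h1
    simp only [src_mk, tgt_true]
    omega

theorem clu_sub (hN : Nd R δ) {F : Finset Edg} (hF : F ⊆ R.edges δ) {v : Vtx}
    (hv : v ∈ R.clu δ F) : InV (R.x0 δ) (R.x1 δ) (R.y1 δ) v := by
  have h0 : Reach (↑F ∪ R.wired δ) (0, 0) v := hv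
  induction h0 with
  | refl =>
    obtain ⟨n1, n2, n3, n4, n5⟩ := hN
    unfold InV
    simp only
    omega
  | tail _ hs ih =>
    obtain ⟨e, he, hc⟩ := hs
    have he' : e ∈ R.edges δ := by
      rcases he with he | he
      · exact hF he
      · exact wired_sub hN he
    rw [mem_edges_iff] at he'
    rcases hc with ⟨_, h2⟩ | ⟨h1, _⟩
    · rw [← h2]; exact he'.2
    · rw [← h1]; exact he'.1

/-- Indicators of the two clusters. -/
noncomputable def cI (R : Rect) (δ : ℝ) (F : Finset Edg) (v : Vtx) : ZMod 2 := b2 (v ∈ R.clu δ F)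
noncomputable def dI (R : Rect) (δ : ℝ) (F : Finset Edg) (f : Vtx) : ZMod 2 := b2 (f ∈ R.dclu δ F)

theorem clu_step {F : Finset Edg} {e : Edg} (he : e ∈ (↑F : Set Edg) ∪ R.wired δ) :
    src e ∈ R.clu δ F ↔ tgt e ∈ R.clu δ F := by
  constructor
  · intro h
    exact Relation.ReflTransGen.tail h ⟨e, he, Or.inl ⟨rfl, rfl⟩⟩
  · intro h
    exact Relation.ReflTransGen.tail h ⟨e, he, Or.inr ⟨rfl, rfl⟩⟩

theorem dclu_step {F : Finset Edg} {e : Edg}
    (he : e ∈ (↑(R.edges δ) : Set Edg) \ (↑F ∪ R.wired δ)) :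
    dsrc e ∈ R.dclu δ F ↔ dtgt e ∈ R.dclu δ F := by
  constructor
  · rintro ⟨g, hg, h⟩
    exact ⟨g, hg, Relation.ReflTransGen.tail h ⟨e, he, Or.inl ⟨rfl, rfl⟩⟩⟩
  · rintro ⟨g, hg, h⟩
    exact ⟨g, hg, Relation.ReflTransGen.tail h ⟨e, he, Or.inr ⟨rfl, rfl⟩⟩⟩

theorem par_edge (F : Finset Edg) {e : Edg} (he : e ∈ R.edges δ) :
    (cI R δ F (src e) + cI R δ F (tgt e)) * (dI R δ F (dsrc e) + dI R δ F (dtgt e)) = 0 := by
  by_cases h : e ∈ (↑F : Set Edg) ∪ R.wired δ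
  · have : cI R δ F (src e) + cI R δ F (tgt e) = 0 := by
      unfold cI
      rw [b2_congr (clu_step h)]
      exact zmod2_add_self _
    rw [this, zero_mul]
  · have : dI R δ F (dsrc e) + dI R δ F (dtgt e) = 0 := by
      unfold dI
      rw [b2_congr (dclu_step ⟨he, h⟩)]
      exact zmod2_add_self _
    rw [this, mul_zero]

theorem par (F : Finset Edg) : Par (R.x0 δ) (R.x1 δ) (R.y1 δ) (cI R δ F) (dI R δ F) := by
  constructor
  · intro x y h1 h2 h3 h4
    have he : ((x, y, true) : Edg) ∈ R.edges δ := by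
      rw [mem_edges_iff]
      unfold InV
      simp only [src_mk, tgt_true]
      omega
    exact par_edge F he
  · intro x y h1 h2 h3 h4
    have he : ((x, y, false) : Edg) ∈ R.edges δ := by
      rw [mem_edges_iff]
      unfold InV
      simp only [src_mk, tgt_false]
      omega
    exact par_edge F he

/-- The potential. -/
noncomputable def P (R : Rect) (δ : ℝ) (F : Finset Edg) : Vtx → ZMod 2 :=
  pot (R.x0 δ) (cI R δ F) (dI R δ F)

theorem P_edge {F : Finset Edg} {e : Edg} (he : e ∈ R.edges δ) :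
    P R δ F (tgt e) = P R δ F (src e) +
      (cI R δ F (src e) + cI R δ F (tgt e)) * dI R δ F (dtgt e) := by
  rw [mem_edges_iff] at he
  obtain ⟨x, y, _ | _⟩ := e
  · exact pot_vv (par F) he.1 he.2 (Or.inl rfl)
  · exact pot_hh (par F) he.1 he.2 (Or.inl rfl)

/-- The potential is constant on the open cluster. -/
theorem P_clu (hN : Nd R δ) {F : Finset Edg} (hF : F ⊆ R.edges δ) {v : Vtx}
    (hv : v ∈ R.clu δ F) : P R δ F v = P R δ F (0, 0) := by
  have h0 : Reach (↑F ∪ R.wired δ) (0, 0) v := hv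
  induction h0 with
  | refl => rfl
  | @tail u w h0 hs ih =>
    have hu : u ∈ R.clu δ F := h0
    rw [← ih hu]
    obtain ⟨e, he, hc⟩ := hs
    have he' : e ∈ R.edges δ := by
      rcases he with he | he
      · exact hF he
      · exact wired_sub hN he
    have hP := P_edge (F := F) he'
    have h1 : cI R δ F (src e) + cI R δ F (tgt e) = 0 := by
      unfold cI
      rw [b2_congr (clu_step he)]
      exact zmod2_add_self _
    rw [h1, zero_mul, add_zero] at hP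
    rcases hc with ⟨h2, h3⟩ | ⟨h2, h3⟩
    · rw [← h2, ← h3, hP]
    · rw [← h2, ← h3, hP]

/-- The face has the right value at all its vertices. -/
def GF (R : Rect) (δ : ℝ) (F : Finset Edg) (f : Vtx) : Prop :=
  ∀ u, InV (R.x0 δ) (R.x1 δ) (R.y1 δ) u → At u f → P R δ F u + cI R δ F u = P R δ F (0, 0) + 1

theorem GF_of {F : Finset Edg} {f u : Vtx} (hf : f ∈ R.dclu δ F)
    (hu : InV (R.x0 δ) (R.x1 δ) (R.y1 δ) u) (huf : At u f)
    (h : P R δ F u + cI R δ F u = P R δ F (0, 0) + 1) : GF R δ F f := by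
  intro w hw hwf
  have hd : dI R δ F f = 1 := b2_of hf
  have := face_eq (par F) hw hu hwf huf
  rw [hd, mul_one, mul_one] at this
  rw [← h]
  exact this

theorem GF_share {F : Finset Edg} {f g u : Vtx} (hg : g ∈ R.dclu δ F)
    (hu : InV (R.x0 δ) (R.x1 δ) (R.y1 δ) u) (huf : At u f) (hug : At u g)
    (h : GF R δ F f) : GF R δ F g := GF_of hg hu hug (h u hu huf)

theorem outer_dclu {F : Finset Edg} {f : Vtx} (hf : f ∈ R.outer δ) : f ∈ R.dclu δ F :=
  ⟨f, hf, DReach.refl _ _⟩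

theorem GF_bot (hN : Nd R δ) (F : Finset Edg) (n : ℕ) (hn : (n:ℤ) ≤ R.x1 δ) :
    GF R δ F (n, -1) := by
  obtain ⟨n1, n2, n3, n4, n5⟩ := hN
  have ho : ∀ m : ℕ, (m:ℤ) ≤ R.x1 δ → ((m:ℤ), (-1:ℤ)) ∈ R.dclu δ F := fun m hm =>
    outer_dclu (Or.inl ⟨rfl, Int.natCast_nonneg m, hm⟩)
  induction n with
  | zero =>
    refine GF_of (u := (0, 0)) (ho 0 hn) ⟨⟨n1, n2⟩, le_rfl, n3⟩ ⟨Or.inl rfl, Or.inr rfl⟩ ?_
    congr 1
    exact b2_of (Reach.refl _ _)
  | succ n ih =>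
    have h1 := ih (by push_cast at hn; omega)
    refine GF_share (u := ((n:ℤ) + 1, 0)) (ho _ hn) ⟨⟨?_, ?_⟩, le_rfl, n3⟩
      ⟨Or.inr rfl, Or.inr rfl⟩ ⟨Or.inl (by push_cast; rfl), Or.inr rfl⟩ h1
    · simp only; omega
    · simp only; push_cast at hn; omega

theorem GF_right (hN : Nd R δ) (F : Finset Edg) (n : ℕ) (hn : (n:ℤ) - 1 ≤ R.y1 δ) :
    GF R δ F (R.x1 δ, (n:ℤ) - 1) := by
  have hN' := hN
  obtain ⟨n1, n2, n3, n4, n5⟩ := hN
  have ho : ∀ m : ℕ, (m:ℤ) - 1 ≤ R.y1 δ → (R.x1 δ, (m:ℤ) - 1) ∈ R.dclu δ F := fun m hm =>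
    outer_dclu (Or.inr (Or.inl ⟨rfl, by simp only; omega, hm⟩))
  induction n with
  | zero =>
    have h1 := GF_bot hN' F (R.x1 δ).toNat (by omega)
    rw [Int.toNat_of_nonneg n2] at h1
    exact h1
  | succ n ih =>
    have h1 := ih (by push_cast at hn; omega)
    refine GF_share (f := (R.x1 δ, (n:ℤ) - 1)) (u := (R.x1 δ, (n:ℤ))) (ho _ hn)
      ⟨⟨?_, le_rfl⟩, ?_, ?_⟩ ⟨Or.inl rfl, Or.inr (by simp only; ring)⟩
      ⟨Or.inl rfl, Or.inl (by push_cast; ring)⟩ h1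
    · simp only; omega
    · simp only; omega
    · simp only; push_cast at hn; omega

theorem GF_top (hN : Nd R δ) (F : Finset Edg) (n : ℕ) (hn : R.tc δ ≤ R.x1 δ - n) :
    GF R δ F (R.x1 δ - n, R.y1 δ) := by
  have hN' := hN
  obtain ⟨n1, n2, n3, n4, n5⟩ := hN
  have ho : ∀ m : ℕ, R.tc δ ≤ R.x1 δ - m → (R.x1 δ - m, R.y1 δ) ∈ R.dclu δ F := fun m hm =>
    outer_dclu (Or.inr (Or.inr ⟨rfl, hm, by simp only; omega⟩))
  induction n with
  | zero =>
    have h1 := GF_right hN' F (R.y1 δ + 1).toNat (by omega)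
    rw [Int.toNat_of_nonneg (by omega)] at h1
    rw [Nat.cast_zero, sub_zero]
    rwa [add_sub_cancel_right] at h1
  | succ n ih =>
    have h1 := ih (by push_cast at hn; omega)
    refine GF_share (u := (R.x1 δ - n, R.y1 δ)) (ho _ hn) ⟨⟨?_, ?_⟩, n3, le_rfl⟩
      ⟨Or.inl rfl, Or.inl rfl⟩ ⟨Or.inr (by push_cast; ring), Or.inl rfl⟩ h1
    · simp only; push_cast at hn; omega
    · simp only; omega

theorem GF_outer (hN : Nd R δ) (F : Finset Edg) {f : Vtx} (hf : f ∈ R.outer δ) :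
    GF R δ F f := by
  obtain ⟨a, b⟩ := f
  rcases hf with ⟨h1, h2, h3⟩ | ⟨h1, h2, h3⟩ | ⟨h1, h2, h3⟩
  · simp only at h1 h2 h3
    obtain ⟨n, rfl⟩ := Int.eq_ofNat_of_zero_le h2
    subst h1
    exact GF_bot hN F n h3
  · simp only at h1 h2 h3
    obtain ⟨n, hn⟩ := Int.eq_ofNat_of_zero_le (show 0 ≤ b + 1 by omega)
    have hb : b = (n:ℤ) - 1 := by omega
    subst h1 hb
    exact GF_right hN F n h3
  · simp only at h1 h2 h3
    obtain ⟨n, hn⟩ := Int.eq_ofNat_of_zero_le (sub_nonneg.mpr h3)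
    have ha : a = R.x1 δ - n := by omega
    subst h1 ha
    exact GF_top hN F n h2

theorem GF_dclu (hN : Nd R δ) {F : Finset Edg} {f : Vtx} (hf : f ∈ R.dclu δ F) :
    GF R δ F f := by
  obtain ⟨g, hg, h⟩ := hf
  induction h with
  | refl => exact GF_outer hN F hg
  | @tail a b h0 hs ih =>
    have hb : b ∈ R.dclu δ F := ⟨g, hg, Relation.ReflTransGen.tail h0 hs⟩
    obtain ⟨e, he, hc⟩ := hs
    have hsrc : InV (R.x0 δ) (R.x1 δ) (R.y1 δ) (src e) := (mem_edges_iff.mp he.1).1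
    have a1 : At (src e) (dsrc e) := by
      obtain ⟨x, y, _ | _⟩ := e
      · exact ⟨Or.inr (by simp [src, dsrc]), Or.inl rfl⟩
      · exact ⟨Or.inl rfl, Or.inr (by simp [src, dsrc])⟩
    have a2 : At (src e) (dtgt e) := ⟨Or.inl rfl, Or.inl rfl⟩
    rcases hc with ⟨h2, h3⟩ | ⟨h2, h3⟩
    · rw [h2] at a1; rw [h3] at a2
      exact GF_share hb hsrc a1 a2 ih
    · rw [h2] at a1; rw [h3] at a2
      exact GF_share hb hsrc a2 a1 ih

/-- **The path passes between the two clusters.** -/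
theorem corner_near (hN : Nd R δ) {F : Finset Edg} (hF : F ⊆ R.edges δ) {v w f : Vtx}
    (hv : v ∈ R.clu δ F) (hf : f ∈ R.dclu δ F) (hw : InV (R.x0 δ) (R.x1 δ) (R.y1 δ) w)
    (hwf : At w f) : ∃ c ∈ R.corners δ F, BB v w c.1 := by
  have key : ∀ u g, u ∈ R.clu δ F → g ∈ R.dclu δ F → At u g → BB v w u →
      ∃ c ∈ R.corners δ F, BB v w c.1 := by
    rintro ⟨u1, u2⟩ ⟨g1, g2⟩ hu hg hug hb
    refine ⟨((u1, u2), (decide (u1 = g1), decide (u2 = g2))), ⟨hu, ?_⟩, hb⟩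
    have : cface (u1, u2) (decide (u1 = g1), decide (u2 = g2)) = (g1, g2) := by
      unfold cface
      unfold At at hug
      simp only at hug
      simp only [decide_eq_true_eq]
      apply Prod.ext
      · simp only
        split_ifs <;> omega
      · simp only
        split_ifs <;> omega
    rw [this]
    exact hg
  by_cases hwc : w ∈ R.clu δ F
  · refine key w f hwc hf hwf ?_
    unfold BB
    exact ⟨⟨min_le_right _ _, le_max_right _ _⟩, ⟨min_le_right _ _, le_max_right _ _⟩⟩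
  · have h1 := P_clu hN hF hv
    have h2 := GF_dclu hN hf w hw hwf
    have h3 : cI R δ F w = 0 := b2_not_of hwc
    rw [h3, add_zero] at h2
    have hne : P R δ F v ≠ P R δ F w := by
      rw [h1, h2]
      intro h
      exact one_ne_zero (left_eq_add.mp h)
    obtain ⟨u, u', g, b1, b2', a1, a2, hne2⟩ := walk (par F) (clu_sub hN hF hv) hw hne
    have hd : g ∈ R.dclu δ F := by
      by_contra h
      exact hne2 (by rw [show dI R δ F g = 0 from b2_not_of h, mul_zero])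
    by_cases hu : u ∈ R.clu δ F
    · exact key u g hu hd a1 b1
    · by_cases hu' : u' ∈ R.clu δ F
      · exact key u' g hu' hd a2 b2'
      · exfalso
        apply hne2
        rw [show cI R δ F u = 0 from b2_not_of hu, show cI R δ F u' = 0 from b2_not_of hu',
          add_zero, zero_mul]

end K3h14.NC
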