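import Pool.Agent.K3h14.NC.Fin2

/-!
The width of the path off the critical point.
-/

set_option maxHeartbeats 1000000

namespace K3h14.NC

open H974 H973 H12S H934E Finset TH291.NW TopologicalSpace MeasureTheory ProbabilityTheory
open Filter Topology unitInterval

variable {R : Rect} {δ : ℝ}

/-- If the dual cluster goes deep, the trace is far from the dual arc. -/
theorem far_dArc' (hδ : 0 < δ) (hN : Nd R δ) {F : Finset Edg} (hF : F ⊆ R.edges δ) {n : ℤ}
    {ε : ℝ} (hε : 0 ≤ ε) (hn : ε + 2 * δ ≤ δ * n)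
    (h : ED R δ (Bx (R.x0 δ) (R.x1 δ - n) n (R.y1 δ - n)) F) :
    ε ≤ dist (R.trace hδ F) (dArcK R) := by
  have hN' := hN
  obtain ⟨n1, n2, n3, n4, n5⟩ := hN'
  obtain ⟨⟨a1, a2⟩, ⟨b1, b2⟩, ⟨c1, c2⟩, d1, d2⟩ := facts (R := R) hδ
  obtain ⟨f, hf, ⟨f1, f2⟩, f3, f4⟩ := h
  have hn1 : 1 ≤ n := by
    by_contra hcon
    have : (n:ℝ) ≤ 0 := by exact_mod_cast (by omega : n ≤ 0)
    nlinarith
  have hv : ((R.x0 δ, f.2) : Vtx) ∈ R.clu δ F :=
    I0_clu hN F (Or.inr (Or.inl ⟨rfl, by simp only; omega, by simp only; omega⟩))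
  obtain ⟨k, hk, ⟨k1, k2⟩, k3, k4⟩ := corner_near hN hF hv hf (w := f)
    ⟨⟨by omega, by omega⟩, by omega, by omega⟩ ⟨Or.inl rfl, Or.inl rfl⟩
  obtain ⟨z, hz, hz1, hz2⟩ := corner_path hδ hk
  simp only at k1 k2 k3 k4
  have m1 := mulint hδ (show k.1.1 ≤ R.x1 δ - n by omega)
  have m2 := mulint hδ (show n ≤ k.1.2 by omega)
  have m3 := mulint hδ (show k.1.2 ≤ R.y1 δ - n by omega)
  push_cast at m1 m3
  rw [abs_le] at hz1 hz2
  apply low_dist (z := z) hz
  intro z' hz'
  rcases hz' with ⟨g1, g2, g3⟩ | ⟨g1, g2, g3⟩ | ⟨g1, g2, g3⟩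
  · refine le_trans ?_ (le_dist_im z z')
    rw [g1, abs_sub_comm]
    refine le_trans ?_ (le_abs_self _)
    linarith
  · refine le_trans ?_ (le_dist_re z z')
    rw [g1, abs_sub_comm]
    refine le_trans ?_ (le_abs_self _)
    linarith
  · refine le_trans ?_ (le_dist_im z z')
    rw [g1]
    refine le_trans ?_ (le_abs_self _)
    linarith

/-- If the open cluster goes deep, the trace is far from the wired arc. -/
theorem far_wArc' (hδ : 0 < δ) (hN : Nd R δ) {F : Finset Edg} (hF : F ⊆ R.edges δ) {n : ℤ}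
    {ε : ℝ} (hε : 0 ≤ ε) (hn : ε + 2 * δ ≤ δ * n)
    (h : EC R δ (Bx (R.x0 δ + n) (R.x1 δ) n (R.y1 δ - n)) F) :
    ε ≤ dist (R.trace hδ F) (wArcK R) := by
  have hN' := hN
  obtain ⟨n1, n2, n3, n4, n5⟩ := hN'
  obtain ⟨⟨a1, a2⟩, ⟨b1, b2⟩, ⟨c1, c2⟩, d1, d2⟩ := facts (R := R) hδ
  obtain ⟨v, hv, ⟨f1, f2⟩, f3, f4⟩ := h
  have hn1 : 1 ≤ n := by
    by_contra hcon
    have : (n:ℝ) ≤ 0 := by exact_mod_cast (by omega : n ≤ 0)
    nlinarith
  have hf : ((R.x1 δ, v.2) : Vtx) ∈ R.dclu δ F :=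
    outer_dclu (Or.inr (Or.inl ⟨rfl, by simp only; omega, by simp only; omega⟩))
  obtain ⟨k, hk, ⟨k1, k2⟩, k3, k4⟩ := corner_near hN hF hv hf (w := (R.x1 δ, v.2))
    ⟨⟨by simp only; omega, by simp only; omega⟩, by simp only; omega, by simp only; omega⟩
    ⟨Or.inl rfl, Or.inl rfl⟩
  obtain ⟨z, hz, hz1, hz2⟩ := corner_path hδ hk
  simp only at k1 k2 k3 k4
  have m1 := mulint hδ (show R.x0 δ + n ≤ k.1.1 by omega)
  have m2 := mulint hδ (show n ≤ k.1.2 by omega)
  have m3 := mulint hδ (show k.1.2 ≤ R.y1 δ - n by omega)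
  push_cast at m1 m3
  rw [abs_le] at hz1 hz2
  apply low_dist (z := z) hz
  intro z' hz'
  rcases hz' with ⟨g1, g2, g3⟩ | ⟨g1, g2, g3⟩ | ⟨g1, g2, g3⟩
  · refine le_trans ?_ (le_dist_im z z')
    rw [g1, abs_sub_comm]
    refine le_trans ?_ (le_abs_self _)
    linarith
  · refine le_trans ?_ (le_dist_re z z')
    rw [g1]
    refine le_trans ?_ (le_abs_self _)
    linarith
  · refine le_trans ?_ (le_dist_im z z')
    rw [g1]
    refine le_trans ?_ (le_abs_self _)
    linarith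

/-- Independent events. -/
theorem prod_not {U : Finset Edg} {p : Edg → ℝ} (A : ℕ → Finset Edg → Prop)
    (T : ℕ → Finset Edg) (N : ℕ) (hT : ∀ k < N, T k ⊆ U)
    (hd : ∀ j k, j < k → Disjoint (T j) (T k)) (hA : ∀ k F, A k F ↔ A k (F ∩ T k)) :
    Pr p U (fun F => ∀ k < N, ¬ A k F) = ∏ k ∈ Finset.range N, Pr p U (fun F => ¬ A k F) := by
  classical
  induction N with
  | zero =>
    rw [Finset.prod_range_zero]
    exact Pr_true _ (fun F _ => by simp)
  | succ N ih =>
    rw [Finset.prod_range_succ, ← ih (fun k hk => hT k (by omega))]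
    have e : Pr p U (fun F => ∀ k < N + 1, ¬ A k F) =
        Pr p U (fun F => (∀ k < N, ¬ A k F) ∧ ¬ A N F) := by
      apply Pr_congr
      intro F _
      constructor
      · intro h
        exact ⟨fun k hk => h k (by omega), h N (by omega)⟩
      · rintro ⟨h1, h2⟩ k hk
        rcases Nat.lt_succ_iff_lt_or_eq.mp hk with h | h
        · exact h1 k h
        · rw [h]; exact h2
    rw [e]
    apply Pr_indep (S := (Finset.range N).biUnion T) (T := T N)
    · intro x hx
      rw [Finset.mem_biUnion] at hx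
      obtain ⟨k, hk, hx⟩ := hx
      exact hT k (by rw [Finset.mem_range] at hk; omega) hx
    · exact hT N (by omega)
    · rw [Finset.disjoint_biUnion_left]
      intro k hk
      exact hd k N (Finset.mem_range.mp hk)
    · intro F _
      have key : ∀ k < N, (A k F ↔ A k (F ∩ (Finset.range N).biUnion T)) := by
        intro k hk
        rw [hA k F, hA k (F ∩ (Finset.range N).biUnion T)]
        have : F ∩ T k = F ∩ (Finset.range N).biUnion T ∩ T k := by
          ext x
          simp only [Finset.mem_inter, Finset.mem_biUnion, Finset.mem_range]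
          constructor
          · rintro ⟨h1, h2⟩
            exact ⟨⟨h1, k, hk, h2⟩, h2⟩
          · rintro ⟨⟨h1, _⟩, h2⟩
            exact ⟨h1, h2⟩
        rw [this]
      constructor
      · intro h k hk hc
        exact h k hk ((key k hk).mpr hc)
      · intro h k hk hc
        exact h k hk ((key k hk).mp hc)
    · intro F _
      rw [hA N F]

/-- Many independent trials. -/
theorem many {U : Finset Edg} {p q : ℝ} (h0 : 0 ≤ p) (h1 : p ≤ 1) {x0 x1 n b : ℤ} {N : ℕ}
    (hn : 1 ≤ n) (hx : x1 - x0 = n)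
    (hU : ∀ k < N, LRE x0 x1 (b + k * (n + 1)) (b + k * (n + 1) + n) ⊆ U)
    (hq : q ≤ hh p n n) :
    1 - Real.exp (-(N * q)) ≤ Pr (fun _ => p) U
      (fun F => ∃ k : ℕ, k < N ∧ LRc x0 x1 (b + k * (n + 1)) (b + k * (n + 1) + n) F) := by
  have ok := okq h0 h1
  have e1 := prod_not (p := fun _ => p) (fun (k : ℕ) F =>
    LRc x0 x1 (b + k * (n + 1)) (b + k * (n + 1) + n) F)
    (fun k => LRE x0 x1 (b + k * (n + 1)) (b + k * (n + 1) + n)) N hU ?_ ?_
  · have e2 : ∀ k ∈ Finset.range N, Pr (fun _ => p) U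
        (fun F => ¬ LRc x0 x1 (b + k * (n + 1)) (b + k * (n + 1) + n) F) = 1 - hh p n n := by
      intro k hk
      rw [Pr_not, pr_LRc p (hU k (Finset.mem_range.mp hk)), hx]
      congr 2
      ring
    rw [Finset.prod_congr rfl e2, Finset.prod_const, Finset.card_range] at e1
    have e3 : Pr (fun _ => p) U (fun F => ∃ k : ℕ, k < N ∧
        LRc x0 x1 (b + k * (n + 1)) (b + k * (n + 1) + n) F) = 1 - (1 - hh p n n) ^ N := by
      rw [← e1, ← Pr_not]
      apply Pr_congr
      intro F _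
      push Not
      rfl
    rw [e3]
    have hh1 : hh p n n ≤ 1 := Pr_le_one ok _ _
    have e4 : (1 - hh p n n) ^ N ≤ Real.exp (-(N * q)) := by
      have e5 : 1 - hh p n n ≤ Real.exp (-q) := by
        have := Real.add_one_le_exp (-q)
        linarith
      calc (1 - hh p n n) ^ N ≤ (Real.exp (-q)) ^ N :=
            pow_le_pow_left₀ (by linarith) e5 N
        _ = Real.exp (-(N * q)) := by rw [← Real.exp_nat_mul]; congr 1; ring
    linarith
  · intro j k hjk
    rw [Finset.disjoint_left]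
    have hz : (j:ℤ) * (n + 1) + (n + 1) ≤ (k:ℤ) * (n + 1) := by
      have : (j:ℤ) + 1 ≤ k := by exact_mod_cast hjk
      nlinarith
    rintro ⟨x, y, _ | _⟩ hj hk
    · rw [mem_LRE_false] at hj hk
      omega
    · rw [mem_LRE_true] at hj hk
      omega
  · intro k F
    exact LRc_local (Finset.Subset.refl _)

end K3h14.NC
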