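import Pool.Agent.K3h14.NC.Width

/-!
Uniform tail bounds for the distance of the trace to the boundary arcs.
-/

set_option maxHeartbeats 1000000

namespace K3h14.NC

open H974 H973 H12S H934E Finset TH291.NW TopologicalSpace MeasureTheory ProbabilityTheory
open Filter Topology unitInterval

variable {R : Rect} {δ : ℝ}

/-- The choice of the scale, uniformly. -/
theorem off_unif (R : Rect) : ∃ ε1 κ K : ℝ, 0 < ε1 ∧ 0 < κ ∧ 0 < K ∧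
    ∀ ε δ : ℝ, 0 < ε → ε ≤ ε1 → 0 < δ → δ ≤ κ * ε → Nd R δ ∧
      ∃ (m : ℤ) (B : Finset (ℤ × ℤ)), 1 ≤ m ∧ κ * ε / δ ≤ m ∧ (B.card : ℝ) ≤ K / ε ^ 2 ∧
      2 * (δ * ((4 * m + 1 : ℤ) + 5)) < ε ∧ 2 * (4 * m + 1) ≤ R.y1 δ ∧
      4 * m + 1 ≤ R.x1 δ - R.x0 δ ∧
      ∀ f : Vtx, (R.x0 δ - 1 ≤ f.1 ∧ f.1 ≤ R.x1 δ + 1) ∧ (-1 ≤ f.2 ∧ f.2 ≤ R.y1 δ + 1) →
        ix m f ∈ B := by
  have hA := R.hA
  have hB := R.hB
  have hH := R.hH
  have ht1 := R.ht1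
  obtain ⟨X0, hX0⟩ : ∃ X0, X0 = R.A + R.B + R.H + 1 := ⟨_, rfl⟩
  have hX0p : 1 ≤ X0 := by rw [hX0]; linarith
  obtain ⟨ε1, hε1⟩ : ∃ ε1, ε1 = min R.H (min R.A R.B) := ⟨_, rfl⟩
  have hε10 : 0 < ε1 := by rw [hε1]; exact lt_min hH (lt_min hA hB)
  obtain ⟨κ, hκ⟩ : ∃ κ, κ = min (1/160) (min ((R.A + R.t) / ε1) (1 / ε1)) := ⟨_, rfl⟩
  have hκ0 : 0 < κ := by
    rw [hκ]
    exact lt_min (by norm_num) (lt_min (div_pos (by linarith) hε10) (by positivity))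
  have hκ1 : κ ≤ 1/160 := by rw [hκ]; exact min_le_left _ _
  have hκ2 : κ * ε1 ≤ R.A + R.t := by
    rw [← le_div_iff₀ hε10, hκ]; exact (min_le_right _ _).trans (min_le_left _ _)
  have hκ3 : κ * ε1 ≤ 1 := by
    rw [← le_div_iff₀ hε10, hκ]; exact (min_le_right _ _).trans (min_le_right _ _)
  refine ⟨ε1, κ, (320 * (X0 + 1) + 5 * ε1) ^ 2, hε10, hκ0, by positivity, ?_⟩
  intro ε δ hε hεε hδ hδε
  obtain ⟨ε', hε'⟩ : ∃ ε', ε' = ε / 10 := ⟨_, rfl⟩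
  have hε'0 : 0 < ε' := by rw [hε']; positivity
  have i1 : 10 * ε' ≤ ε := by rw [hε']; linarith
  have i2 : 10 * ε' ≤ R.H := i1.trans (hεε.trans (by rw [hε1]; exact min_le_left _ _))
  have i3 : 10 * ε' ≤ R.A := i1.trans (hεε.trans (by
    rw [hε1]; exact (min_le_right _ _).trans (min_le_left _ _)))
  have hδ1 : δ ≤ ε' / 16 := by
    have : κ * ε ≤ 1/160 * ε := mul_le_mul_of_nonneg_right hκ1 hε.le
    rw [hε']; linarith
  have hκε : κ * ε ≤ κ * ε1 := mul_le_mul_of_nonneg_left hεε hκ0.le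
  have hδ3 : δ ≤ R.A + R.t := by linarith
  have hδ4 : δ ≤ 1 := by linarith
  have hN : Nd R δ := nd_of hδ (by linarith) hδ3
  refine ⟨hN, ?_⟩
  obtain ⟨m, hm1, hm2, hm3, hm5, hm4⟩ := scale hδ hε'0 (X := X0) (by linarith) (by linarith)
  obtain ⟨s1, s2, s3, s4, s5, s6⟩ := sizes hδ hδ4 hN
  rw [← hX0] at s1 s2 s3 s4 s5 s6
  obtain ⟨⟨a1, a2⟩, ⟨b1, b2⟩, ⟨c1, c2⟩, d1, d2⟩ := facts (R := R) hδ
  obtain ⟨L, hL⟩ : ∃ L : ℤ, L = ⌈16 * (X0 + 1) / ε'⌉ + 1 := ⟨_, rfl⟩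
  rw [← hL] at hm4
  have hL1 : (L:ℝ) ≤ 160 * (X0 + 1) / ε + 2 := by
    have : (⌈16 * (X0 + 1) / ε'⌉ : ℝ) < 16 * (X0 + 1) / ε' + 1 := Int.ceil_lt_add_one _
    have e : 16 * (X0 + 1) / ε' = 160 * (X0 + 1) / ε := by rw [hε']; field_simp; norm_num
    rw [e] at this
    rw [hL]
    push_cast
    rw [e]
    linarith
  have hL0 : 0 ≤ L := by
    have h1 : 0 ≤ 16 * (X0 + 1) / ε' := by positivity
    have h2 : (0:ℤ) ≤ ⌈16 * (X0 + 1) / ε'⌉ := Int.ceil_nonneg h1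
    omega
  refine ⟨m, Finset.Icc (-L) L ×ˢ Finset.Icc (-L) L, hm1, ?_, ?_, ?_, ?_, ?_, ?_⟩
  · rw [div_le_iff₀ hδ]
    have : κ * ε ≤ 1/160 * ε := mul_le_mul_of_nonneg_right hκ1 hε.le
    rw [hε'] at hm5
    linarith
  · rw [Finset.card_product, Int.card_Icc]
    have e : (((L + 1 - -L).toNat : ℕ) : ℝ) = 2 * (L:ℝ) + 1 := by
      have : (((L + 1 - -L).toNat : ℕ) : ℤ) = 2 * L + 1 := by
        rw [Int.toNat_of_nonneg (by omega)]; ring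
      exact_mod_cast this
    push_cast
    rw [e]
    have h0 : (0:ℝ) ≤ L := by exact_mod_cast hL0
    have h1 : 2 * (L:ℝ) + 1 ≤ (320 * (X0 + 1) + 5 * ε1) / ε := by
      rw [le_div_iff₀ hε]
      have h2 : (L:ℝ) * ε ≤ 160 * (X0 + 1) + 2 * ε := by
        have := mul_le_mul_of_nonneg_right hL1 hε.le
        have e3 : (160 * (X0 + 1) / ε + 2) * ε = 160 * (X0 + 1) + 2 * ε := by field_simp
        linarith
      nlinarith
    calc (2 * (L:ℝ) + 1) * (2 * (L:ℝ) + 1) ≤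
          (320 * (X0 + 1) + 5 * ε1) / ε * ((320 * (X0 + 1) + 5 * ε1) / ε) :=
          mul_le_mul h1 h1 (by positivity) (by positivity)
      _ = _ := by rw [div_mul_div_comm]; congr 1 <;> ring
  · push_cast
    linarith
  · have : ((2 * (4 * m + 1) : ℤ) : ℝ) ≤ ((R.y1 δ : ℤ) : ℝ) := by
      have : δ * ((2 * (4 * m + 1) : ℤ) : ℝ) ≤ δ * ((R.y1 δ : ℤ) : ℝ) := by
        push_cast
        linarith
      exact le_of_mul_le_mul_left this hδ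
    exact_mod_cast this
  · have : ((4 * m + 1 : ℤ) : ℝ) ≤ ((R.x1 δ - R.x0 δ : ℤ) : ℝ) := by
      have : δ * ((4 * m + 1 : ℤ) : ℝ) ≤ δ * ((R.x1 δ - R.x0 δ : ℤ) : ℝ) := by
        push_cast
        linarith
      exact le_of_mul_le_mul_left this hδ
    exact_mod_cast this
  · rintro ⟨x, y⟩ ⟨⟨g1, g2⟩, g3, g4⟩
    simp only at g1 g2 g3 g4
    rw [Finset.mem_product]
    have q1 := mulint hδ g1
    have q2 := mulint hδ g2
    have q3 := mulint hδ g3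
    have q4 := mulint hδ g4
    rw [abs_le] at s1 s2 s4 s5
    exact ⟨hm4 x (by rw [abs_le]; constructor <;> linarith),
      hm4 y (by rw [abs_le]; constructor <;> linarith)⟩

/-- Upper tail bound above the critical point. -/
theorem up_dual (R : Rect) : ∃ ε1 κ c C : ℝ, 0 < ε1 ∧ 0 < κ ∧ 0 < c ∧ 0 < C ∧
    ∀ (ε δ : ℝ) (hδ : 0 < δ), 0 < ε → ε ≤ ε1 → δ ≤ κ * ε → ∀ p : ℝ, 1/2 ≤ p → p ≤ 1 →
      Pr (fun _ => p) (R.edges δ) (fun F => ε ≤ dist (R.trace hδ F) (dArcK R)) ≤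
        C / ε ^ 2 * Real.exp (-(c * (ε * (p - 1/2) ^ (4/3 : ℝ) / δ))) := by
  obtain ⟨c, C, hc, hC, hann⟩ := ann_exp
  obtain ⟨ε1, κ, K, hε1, hκ, hK, hs⟩ := off_unif R
  refine ⟨ε1, κ, c * κ, K * C, hε1, hκ, by positivity, by positivity, ?_⟩
  intro ε δ hδ hε hεε hδ1 p hp hp1
  obtain ⟨hN, m, B, hm1, hm2, hBc, hm3, hm4, hm5, hB⟩ := hs ε δ hε hεε hδ hδ1
  have hx : 0 ≤ (p - 1/2) ^ (4/3 : ℝ) := Real.rpow_nonneg (by linarith) _
  have hfar := far_dual hN (by linarith) hp1 hm1 hB (K := C * Real.exp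
    (-(c * (m * (p - 1/2)^(4/3 : ℝ))))) (fun S i j => by
      have := hann (1 - p) (by linarith) (by linarith) S m hm1 i j
      have e : (1:ℝ)/2 - (1 - p) = p - 1/2 := by ring
      rw [e] at this
      exact this)
  have hstep : Pr (fun _ => p) (R.edges δ) (fun F => ε ≤ dist (R.trace hδ F) (dArcK R)) ≤
      Pr (fun _ => p) (R.edges δ) (fun F => ¬ NearD R δ F (4 * m)) := by
    apply Pr_mono (okq (by linarith) hp1)
    intro F hF h hD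
    have := dist_dArc hδ hN hF (M := 4 * m) (n := 4 * m + 1) (by omega) (by omega) hm4 hm5 hD
    linarith
  refine hstep.trans (hfar.trans ?_)
  have e1 : Real.exp (-(c * (m * (p - 1/2)^(4/3 : ℝ)))) ≤
      Real.exp (-(c * κ * (ε * (p - 1/2) ^ (4/3 : ℝ) / δ))) := by
    apply Real.exp_le_exp.mpr
    have : κ * ε / δ * (c * (p - 1/2) ^ (4/3 : ℝ)) ≤ m * (c * (p - 1/2) ^ (4/3 : ℝ)) :=
      mul_le_mul_of_nonneg_right hm2 (by positivity)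
    have e : c * κ * (ε * (p - 1/2) ^ (4/3 : ℝ) / δ) =
        κ * ε / δ * (c * (p - 1/2) ^ (4/3 : ℝ)) := by field_simp
    rw [e]
    linarith
  calc (B.card : ℝ) * (C * Real.exp (-(c * (m * (p - 1/2)^(4/3 : ℝ)))))
      ≤ K / ε ^ 2 * (C * Real.exp (-(c * κ * (ε * (p - 1/2) ^ (4/3 : ℝ) / δ)))) :=
        mul_le_mul hBc (mul_le_mul_of_nonneg_left e1 hC.le) (by positivity) (by positivity)
    _ = _ := by ring

/-- Upper tail bound below the critical point. -/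
theorem up_prim (R : Rect) : ∃ ε1 κ c C : ℝ, 0 < ε1 ∧ 0 < κ ∧ 0 < c ∧ 0 < C ∧
    ∀ (ε δ : ℝ) (hδ : 0 < δ), 0 < ε → ε ≤ ε1 → δ ≤ κ * ε → ∀ p : ℝ, 0 ≤ p → p ≤ 1/2 →
      Pr (fun _ => p) (R.edges δ) (fun F => ε ≤ dist (R.trace hδ F) (wArcK R)) ≤
        C / ε ^ 2 * Real.exp (-(c * (ε * (1/2 - p) ^ (4/3 : ℝ) / δ))) := by
  obtain ⟨c, C, hc, hC, hann⟩ := ann_exp
  obtain ⟨ε1, κ, K, hε1, hκ, hK, hs⟩ := off_unif R
  refine ⟨ε1, κ, c * κ, K * C, hε1, hκ, by positivity, by positivity, ?_⟩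
  intro ε δ hδ hε hεε hδ1 p hp hp1
  obtain ⟨hN, m, B, hm1, hm2, hBc, hm3, hm4, hm5, hB⟩ := hs ε δ hε hεε hδ hδ1
  have hx : 0 ≤ (1/2 - p) ^ (4/3 : ℝ) := Real.rpow_nonneg (by linarith) _
  have hfar := far_prim hN hp (by linarith) hm1 hB (K := C * Real.exp
    (-(c * (m * (1/2 - p)^(4/3 : ℝ))))) (fun S i j => hann p hp hp1 S m hm1 i j)
  have hstep : Pr (fun _ => p) (R.edges δ) (fun F => ε ≤ dist (R.trace hδ F) (wArcK R)) ≤
      Pr (fun _ => p) (R.edges δ) (fun F => ¬ NearC R δ F (4 * m)) := by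
    apply Pr_mono (okq hp (by linarith))
    intro F hF h hD
    have := dist_wArc hδ hN hF (M := 4 * m) (n := 4 * m + 1) (by omega) (by omega) hm4 hm5 hD
    linarith
  refine hstep.trans (hfar.trans ?_)
  have e1 : Real.exp (-(c * (m * (1/2 - p)^(4/3 : ℝ)))) ≤
      Real.exp (-(c * κ * (ε * (1/2 - p) ^ (4/3 : ℝ) / δ))) := by
    apply Real.exp_le_exp.mpr
    have : κ * ε / δ * (c * (1/2 - p) ^ (4/3 : ℝ)) ≤ m * (c * (1/2 - p) ^ (4/3 : ℝ)) :=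
      mul_le_mul_of_nonneg_right hm2 (by positivity)
    have e : c * κ * (ε * (1/2 - p) ^ (4/3 : ℝ) / δ) =
        κ * ε / δ * (c * (1/2 - p) ^ (4/3 : ℝ)) := by field_simp
    rw [e]
    linarith
  calc (B.card : ℝ) * (C * Real.exp (-(c * (m * (1/2 - p)^(4/3 : ℝ)))))
      ≤ K / ε ^ 2 * (C * Real.exp (-(c * κ * (ε * (1/2 - p) ^ (4/3 : ℝ) / δ)))) :=
        mul_le_mul hBc (mul_le_mul_of_nonneg_left e1 hC.le) (by positivity) (by positivity)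
    _ = _ := by ring

/-- The scale of the lower bound. -/
theorem low_unif (R : Rect) : ∃ ε1 κ κ' : ℝ, 0 < ε1 ∧ 0 < κ ∧ 0 < κ' ∧ ∀ ε δ : ℝ, 0 < ε →
    ε ≤ ε1 → 0 < δ → δ ≤ κ * ε → Nd R δ ∧ ∃ n N : ℕ, 1 ≤ n ∧ ε + 2 * δ ≤ δ * n ∧ δ * n ≤ 2 * ε ∧
      (n:ℤ) ≤ R.x1 δ - R.x0 δ ∧ (N:ℤ) * (n + 1) + 2 * n ≤ R.y1 δ ∧ κ' / ε ≤ N := by
  have hA := R.hA
  have hB := R.hB
  have hH := R.hH
  have ht1 := R.ht1
  obtain ⟨ε1, hε1⟩ : ∃ ε1, ε1 = min (R.H / 32) (min R.A R.B) := ⟨_, rfl⟩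
  have hε10 : 0 < ε1 := by rw [hε1]; exact lt_min (by positivity) (lt_min hA hB)
  obtain ⟨κ, hκ⟩ : ∃ κ, κ = min (1/16) ((R.A + R.t) / ε1) := ⟨_, rfl⟩
  have hκ0 : 0 < κ := by
    rw [hκ]
    exact lt_min (by norm_num) (div_pos (by linarith) hε10)
  have hκ1 : κ ≤ 1/16 := by rw [hκ]; exact min_le_left _ _
  have hκ2 : κ * ε1 ≤ R.A + R.t := by
    rw [← le_div_iff₀ hε10, hκ]; exact min_le_right _ _
  refine ⟨ε1, κ, R.H / 16, hε10, hκ0, by positivity, ?_⟩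
  intro ε δ hε hεε hδ hδε
  have hκε : κ * ε ≤ κ * ε1 := mul_le_mul_of_nonneg_left hεε hκ0.le
  have hκε' : κ * ε ≤ 1/16 * ε := mul_le_mul_of_nonneg_right hκ1 hε.le
  have i2 : 32 * ε ≤ R.H := by
    have : ε1 ≤ R.H / 32 := by rw [hε1]; exact min_le_left _ _
    linarith
  have i3 : ε ≤ R.A := hεε.trans (by rw [hε1]; exact (min_le_right _ _).trans (min_le_left _ _))
  have i4 : ε ≤ R.B := hεε.trans (by rw [hε1]; exact (min_le_right _ _).trans (min_le_right _ _))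
  have hδ1 : δ ≤ ε / 16 := by linarith
  have hδ3 : δ ≤ R.A + R.t := by linarith
  have hN : Nd R δ := nd_of hδ (by linarith) hδ3
  refine ⟨hN, ?_⟩
  obtain ⟨⟨a1, a2⟩, ⟨b1, b2⟩, ⟨c1, c2⟩, d1, d2⟩ := facts (R := R) hδ
  have e1 : ε / δ ≤ ⌈ε / δ⌉₊ := Nat.le_ceil _
  have e2 : (⌈ε / δ⌉₊ : ℝ) < ε / δ + 1 := Nat.ceil_lt_add_one (by positivity)
  have d : δ * (ε / δ) = ε := by field_simp
  have f1 : ε ≤ δ * ⌈ε / δ⌉₊ := by
    have := mul_le_mul_of_nonneg_left e1 hδ.le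
    linarith
  have f2 : δ * ⌈ε / δ⌉₊ < ε + δ := by
    have := mul_lt_mul_of_pos_left e2 hδ
    linarith
  have g1 : (⌊R.H / (8 * ε)⌋₊ : ℝ) ≤ R.H / (8 * ε) := Nat.floor_le (by positivity)
  have g2 : R.H / (8 * ε) < ⌊R.H / (8 * ε)⌋₊ + 1 := Nat.lt_floor_add_one _
  obtain ⟨N, hNd⟩ : ∃ N, N = ⌊R.H / (8 * ε)⌋₊ := ⟨_, rfl⟩
  obtain ⟨n, hnd⟩ : ∃ n, n = ⌈ε / δ⌉₊ + 2 := ⟨_, rfl⟩
  rw [← hNd] at g1 g2
  have hn1 : δ * (n:ℝ) < ε + 3 * δ := by rw [hnd]; push_cast; linarith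
  have hn2 : ε + 2 * δ ≤ δ * n := by rw [hnd]; push_cast; linarith
  have g3 : (N:ℝ) * ε ≤ R.H / 8 := by
    rw [le_div_iff₀ (by positivity)] at g1
    linarith
  refine ⟨n, N, by omega, hn2, by linarith, ?_, ?_, ?_⟩
  · have : δ * ((n : ℤ) : ℝ) ≤ δ * ((R.x1 δ - R.x0 δ : ℤ) : ℝ) := by
      push_cast
      linarith
    exact_mod_cast le_of_mul_le_mul_left this hδ
  · have : δ * (((N:ℤ) * (n + 1) + 2 * n : ℤ) : ℝ) ≤ δ * ((R.y1 δ : ℤ) : ℝ) := by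
      push_cast
      have k1 : δ * ((N:ℝ) * (n + 1)) = N * (δ * n + δ) := by ring
      have k2 : (N:ℝ) * (δ * n + δ) ≤ N * (2 * ε) := by
        apply mul_le_mul_of_nonneg_left _ (Nat.cast_nonneg _)
        linarith
      rw [mul_add, k1]
      have k3 : δ * (2 * (n:ℝ)) = 2 * (δ * n) := by ring
      rw [k3]
      linarith
    exact_mod_cast le_of_mul_le_mul_left this hδ
  · rw [div_le_iff₀ hε]
    rw [div_lt_iff₀ (by positivity)] at g2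
    nlinarith

/-- Lower tail bound above the critical point. -/
theorem lo_dual (R : Rect) : ∃ ε1 κ c C : ℝ, 0 < ε1 ∧ 0 < κ ∧ 0 < c ∧ 0 < C ∧
    ∀ (ε δ : ℝ) (hδ : 0 < δ), 0 < ε → ε ≤ ε1 → δ ≤ κ * ε → ∀ p : ℝ, 1/2 ≤ p → p ≤ 3/4 →
      1 - Real.exp (-(c / ε * Real.exp (-(C * (ε * (p - 1/2) ^ (4/3 : ℝ) / δ))))) ≤
      Pr (fun _ => p) (R.edges δ) (fun F => ε ≤ dist (R.trace hδ F) (dArcK R)) := by
  obtain ⟨c, C, hc, hC, hlow⟩ := Pool.Agent.W424.NC.win_lower 1 le_rfl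
  obtain ⟨ε1, κ, κ', hε1, hκ, hκ', hs⟩ := low_unif R
  refine ⟨ε1, κ, κ' * c, 2 * C, hε1, hκ, by positivity, by positivity, ?_⟩
  intro ε δ hδ hε hεε hδ1 p hp hp1
  obtain ⟨hN, n, N, hn1, hn2, hn3, hn4, hn5, hn6⟩ := hs ε δ hε hεε hδ hδ1
  have hN' := hN
  obtain ⟨n1, n2, n3, n4, n5⟩ := hN'
  have hx : 0 ≤ (p - 1/2) ^ (4/3 : ℝ) := Real.rpow_nonneg (by linarith) _
  have h := hlow (1 - p) (by linarith) (by linarith) n n hn1 hn1 (by omega) (by omega)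
  have e : (1:ℝ)/2 - (1 - p) = p - 1/2 := by ring
  rw [e] at h
  have hq : c * Real.exp (-(2 * C * (ε * (p - 1/2) ^ (4/3 : ℝ) / δ))) ≤ hh (1 - p) n n := by
    have := exp_scale (x := (p - 1/2) ^ (4/3 : ℝ)) hc hC hx hδ hn3
    refine le_trans ?_ (this.trans h)
    apply le_of_eq
    congr 2
    ring
  have hsub : ∀ k < N, LRE (R.x1 δ - n) (R.x1 δ) ((n:ℤ) + k * ((n:ℤ) + 1))
      ((n:ℤ) + k * ((n:ℤ) + 1) + n) ⊆ dmp (eU R δ) := by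
    intro k hk
    have hz : (k:ℤ) * ((n:ℤ) + 1) + (n + 1) ≤ (N:ℤ) * (n + 1) := by
      have : (k:ℤ) + 1 ≤ N := by exact_mod_cast hk
      nlinarith
    have hz0 : 0 ≤ (k:ℤ) * ((n:ℤ) + 1) := by positivity
    rintro ⟨x, y, _ | _⟩ he
    · rw [mem_LRE_false] at he
      rw [(dom_dual hN).v]
      omega
    · rw [mem_LRE_true] at he
      rw [(dom_dual hN).h]
      refine ⟨⟨⟨by omega, by omega⟩, by omega, by omega⟩, Or.inl (by omega), ?_⟩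
      by_cases hx : x + 1 < R.x1 δ
      · exact Or.inl hx
      · exact Or.inr (Or.inr (Or.inl ⟨by simp only; omega, by simp only; omega,
          by simp only; omega⟩))
  have hm := many (p := 1 - p) (U := dmp (eU R δ)) (x0 := R.x1 δ - n) (x1 := R.x1 δ)
    (n := n) (b := n) (N := N) (by linarith) (by linarith) (by exact_mod_cast hn1) (by ring)
    hsub hq
  have hstep : 1 - Real.exp (-(κ' * c / ε * Real.exp (-(2 * C * (ε * (p - 1/2) ^ (4/3 : ℝ) / δ)))))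
      ≤ 1 - Real.exp (-(N * (c * Real.exp (-(2 * C * (ε * (p - 1/2) ^ (4/3 : ℝ) / δ)))))) := by
    apply sub_le_sub_left
    apply Real.exp_le_exp.mpr
    apply neg_le_neg
    have e1 : κ' * c / ε * Real.exp (-(2 * C * (ε * (p - 1/2) ^ (4/3 : ℝ) / δ))) =
        κ' / ε * (c * Real.exp (-(2 * C * (ε * (p - 1/2) ^ (4/3 : ℝ) / δ)))) := by ring
    rw [e1]
    exact mul_le_mul_of_nonneg_right hn6 (by positivity)
  refine hstep.trans (hm.trans ?_)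
  have e2 : Pr (fun _ => 1 - p) (dmp (eU R δ))
      (fun F => ∃ k : ℕ, k < N ∧ LRc (R.x1 δ - n) (R.x1 δ) ((n:ℤ) + k * ((n:ℤ) + 1))
        ((n:ℤ) + k * ((n:ℤ) + 1) + n) F) ≤
      Pr (fun _ => p) (R.edges δ) (ED R δ (Bx (R.x0 δ) (R.x1 δ - n) n (R.y1 δ - n))) := by
    rw [pr_dual]
    apply Pr_mono (okq (by linarith) (by linarith))
    rintro F - ⟨k, hk, y, y', hy, hy', hr⟩
    have hz : (k:ℤ) * ((n:ℤ) + 1) + (n + 1) ≤ (N:ℤ) * (n + 1) := by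
      have : (k:ℤ) + 1 ≤ N := by exact_mod_cast hk
      nlinarith
    have hz0 : 0 ≤ (k:ℤ) * ((n:ℤ) + 1) := by positivity
    refine ⟨(R.x1 δ, y'), Or.inr (Or.inl ⟨rfl, by simp only; omega, by simp only; omega⟩),
      (R.x1 δ - n, y), ⟨⟨by simp only; omega, by simp only; omega⟩, by simp only; omega,
        by simp only; omega⟩, ?_⟩
    exact (hr.mono Set.inter_subset_left).symm
  refine e2.trans ?_
  apply Pr_mono (okq (by linarith) (by linarith))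
  intro F hF hD
  exact far_dArc' hδ hN hF (n := n) hε.le (by exact_mod_cast hn2) hD

/-- Lower tail bound below the critical point. -/
theorem lo_prim (R : Rect) : ∃ ε1 κ c C : ℝ, 0 < ε1 ∧ 0 < κ ∧ 0 < c ∧ 0 < C ∧
    ∀ (ε δ : ℝ) (hδ : 0 < δ), 0 < ε → ε ≤ ε1 → δ ≤ κ * ε → ∀ p : ℝ, 1/4 ≤ p → p ≤ 1/2 →
      1 - Real.exp (-(c / ε * Real.exp (-(C * (ε * (1/2 - p) ^ (4/3 : ℝ) / δ))))) ≤
      Pr (fun _ => p) (R.edges δ) (fun F => ε ≤ dist (R.trace hδ F) (wArcK R)) := by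
  obtain ⟨c, C, hc, hC, hlow⟩ := Pool.Agent.W424.NC.win_lower 1 le_rfl
  obtain ⟨ε1, κ, κ', hε1, hκ, hκ', hs⟩ := low_unif R
  refine ⟨ε1, κ, κ' * c, 2 * C, hε1, hκ, by positivity, by positivity, ?_⟩
  intro ε δ hδ hε hεε hδ1 p hp hp1
  obtain ⟨hN, n, N, hn1, hn2, hn3, hn4, hn5, hn6⟩ := hs ε δ hε hεε hδ hδ1
  have hN' := hN
  obtain ⟨n1, n2, n3, n4, n5⟩ := hN'
  have hx : 0 ≤ (1/2 - p) ^ (4/3 : ℝ) := Real.rpow_nonneg (by linarith) _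
  have h := hlow p hp hp1 n n hn1 hn1 (by omega) (by omega)
  have hq : c * Real.exp (-(2 * C * (ε * (1/2 - p) ^ (4/3 : ℝ) / δ))) ≤ hh p n n := by
    have := exp_scale (x := (1/2 - p) ^ (4/3 : ℝ)) hc hC hx hδ hn3
    refine le_trans ?_ (this.trans h)
    apply le_of_eq
    congr 2
    ring
  have hsub : ∀ k < N, LRE (R.x0 δ) (R.x0 δ + n) ((n:ℤ) + k * ((n:ℤ) + 1))
      ((n:ℤ) + k * ((n:ℤ) + 1) + n) ⊆ R.edges δ := by
    intro k hk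
    have hz : (k:ℤ) * ((n:ℤ) + 1) + (n + 1) ≤ (N:ℤ) * (n + 1) := by
      have : (k:ℤ) + 1 ≤ N := by exact_mod_cast hk
      nlinarith
    have hz0 : 0 ≤ (k:ℤ) * ((n:ℤ) + 1) := by positivity
    rintro ⟨x, y, _ | _⟩ he
    · rw [mem_LRE_false] at he
      rw [mem_edges_iff]
      unfold InV
      simp only [src_mk, tgt_false]
      omega
    · rw [mem_LRE_true] at he
      rw [mem_edges_iff]
      unfold InV
      simp only [src_mk, tgt_true]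
      omega
  have hm := many (p := p) (U := R.edges δ) (x0 := R.x0 δ) (x1 := R.x0 δ + n)
    (n := n) (b := n) (N := N) (by linarith) (by linarith) (by exact_mod_cast hn1) (by ring)
    hsub hq
  have hstep : 1 - Real.exp (-(κ' * c / ε * Real.exp (-(2 * C * (ε * (1/2 - p) ^ (4/3 : ℝ) / δ)))))
      ≤ 1 - Real.exp (-(N * (c * Real.exp (-(2 * C * (ε * (1/2 - p) ^ (4/3 : ℝ) / δ)))))) := by
    apply sub_le_sub_left
    apply Real.exp_le_exp.mpr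
    apply neg_le_neg
    have e1 : κ' * c / ε * Real.exp (-(2 * C * (ε * (1/2 - p) ^ (4/3 : ℝ) / δ))) =
        κ' / ε * (c * Real.exp (-(2 * C * (ε * (1/2 - p) ^ (4/3 : ℝ) / δ)))) := by ring
    rw [e1]
    exact mul_le_mul_of_nonneg_right hn6 (by positivity)
  refine hstep.trans (hm.trans ?_)
  have e2 : Pr (fun _ => p) (R.edges δ)
      (fun F => ∃ k : ℕ, k < N ∧ LRc (R.x0 δ) (R.x0 δ + n) ((n:ℤ) + k * ((n:ℤ) + 1))
        ((n:ℤ) + k * ((n:ℤ) + 1) + n) F) ≤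
      Pr (fun _ => p) (R.edges δ) (EC R δ (Bx (R.x0 δ + n) (R.x1 δ) n (R.y1 δ - n))) := by
    apply Pr_mono (okq (by linarith) (by linarith))
    rintro F - ⟨k, hk, y, y', hy, hy', hr⟩
    have hz : (k:ℤ) * ((n:ℤ) + 1) + (n + 1) ≤ (N:ℤ) * (n + 1) := by
      have : (k:ℤ) + 1 ≤ N := by exact_mod_cast hk
      nlinarith
    have hz0 : 0 ≤ (k:ℤ) * ((n:ℤ) + 1) := by positivity
    rw [EC_iff hN]
    refine ⟨(R.x0 δ, y), Or.inr (Or.inl ⟨rfl, by simp only; omega, by simp only; omega⟩),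
      (R.x0 δ + n, y'), ⟨⟨by simp only; omega, by simp only; omega⟩, by simp only; omega,
        by simp only; omega⟩, ?_⟩
    exact hr.mono Set.inter_subset_left
  refine e2.trans ?_
  apply Pr_mono (okq (by linarith) (by linarith))
  intro F hF hD
  exact far_wArc' hδ hN hF (n := n) hε.le (by exact_mod_cast hn2) hD

end K3h14.NC
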