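import Pool.Agent.K3h14.NC.Width2

/-!
The width of the path off the critical point: the final form.
-/

set_option maxHeartbeats 1000000

namespace K3h14.NC

open H974 H973 H12S H934E Finset TH291.NW TopologicalSpace MeasureTheory ProbabilityTheory
open Filter Topology unitInterval

theorem log_inv_large {L : ℕ → ℝ} (hL0 : ∀ n, 0 < L n) (hL : Tendsto L atTop (𝓝 0)) :
    Tendsto (fun n => Real.log (1 / L n)) atTop atTop := by
  have hw : Tendsto L atTop (𝓝[>] 0) := tendsto_nhdsWithin_iff.mpr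
    ⟨hL, Filter.Eventually.of_forall hL0⟩
  have h1 := Real.tendsto_log_nhdsGT_zero.comp hw
  have h2 := tendsto_neg_atBot_atTop.comp h1
  refine h2.congr (fun n => ?_)
  simp only [Function.comp_apply]
  rw [one_div, Real.log_inv]

theorem w_small {L : ℕ → ℝ} (hL : Tendsto L atTop (𝓝 0)) :
    Tendsto (fun n => L n * Real.log (1 / L n)) atTop (𝓝 0) := by
  have h1 := (Real.continuous_mul_log.tendsto 0).comp hL
  rw [zero_mul] at h1
  have h2 := h1.neg
  rw [neg_zero] at h2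
  refine h2.congr (fun n => ?_)
  simp only [Function.comp_apply]
  rw [one_div, Real.log_inv]
  ring

theorem tail_zero {L : ℕ → ℝ} (hL0 : ∀ n, 0 < L n) (hL : Tendsto L atTop (𝓝 0))
    {ε1 κ c C : ℝ} (hε1 : 0 < ε1) (hκ : 0 < κ) (hc : 0 < c) (hC : 0 < C) {U : ℕ → ℝ → ℝ}
    (hU0 : ∀ n ε, 0 ≤ U n ε)
    (h : ∀ n ε, 0 < ε → ε ≤ ε1 → L n ≤ κ * ε →
      U n ε ≤ C / ε ^ 2 * Real.exp (-(c * (ε / L n)))) :
    Tendsto (fun n => U n (3 / c * (L n * Real.log (1 / L n)))) atTop (𝓝 0) := by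
  have h1 := log_inv_large hL0 hL
  have h2 := (w_small hL).const_mul (3 / c)
  rw [mul_zero] at h2
  have h3 : Tendsto (fun n => C * c ^ 2 / 9 * L n) atTop (𝓝 0) := by
    have := hL.const_mul (C * c ^ 2 / 9)
    rwa [mul_zero] at this
  refine squeeze_zero' (Filter.Eventually.of_forall fun n => hU0 n _) ?_ h3
  filter_upwards [h1.eventually_ge_atTop 1, h1.eventually_ge_atTop (c / (3 * κ)),
    h2.eventually_lt_const hε1] with n k1 k2 k3
  obtain ⟨l, hl⟩ : ∃ l, l = Real.log (1 / L n) := ⟨_, rfl⟩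
  rw [← hl] at k1 k2 k3 ⊢
  have hLn := hL0 n
  have hε : 0 < 3 / c * (L n * l) := by positivity
  refine (h n _ hε k3.le ?_).trans ?_
  · have : c / (3 * κ) * (3 * κ / c * L n) ≤ l * (3 * κ / c * L n) :=
      mul_le_mul_of_nonneg_right k2 (by positivity)
    have e1 : c / (3 * κ) * (3 * κ / c * L n) = L n := by field_simp
    have e2 : κ * (3 / c * (L n * l)) = l * (3 * κ / c * L n) := by ring
    rw [e2]
    linarith
  · have e1 : c * (3 / c * (L n * l) / L n) = 3 * l := by field_simp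
    have e2 : Real.exp (-(3 * l)) = L n ^ 3 := by
      have : Real.exp (-l) = L n := by
        rw [hl, one_div, Real.log_inv, neg_neg, Real.exp_log hLn]
      rw [← this, ← Real.exp_nat_mul]
      congr 1
      push_cast
      ring
    rw [e1, e2]
    have e3 : C / (3 / c * (L n * l)) ^ 2 * L n ^ 3 = C * c ^ 2 / 9 * L n / l ^ 2 := by
      field_simp
      norm_num
    rw [e3]
    apply div_le_self (by positivity)
    nlinarith

theorem tail_one {L : ℕ → ℝ} (hL0 : ∀ n, 0 < L n) (hL : Tendsto L atTop (𝓝 0))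
    {ε1 κ c C : ℝ} (hε1 : 0 < ε1) (hκ : 0 < κ) (hc : 0 < c) (hC : 0 < C) {U : ℕ → ℝ → ℝ}
    (hU1 : ∀ n ε, U n ε ≤ 1)
    (h : ∀ n ε, 0 < ε → ε ≤ ε1 → L n ≤ κ * ε →
      1 - Real.exp (-(c / ε * Real.exp (-(C * (ε / L n))))) ≤ U n ε) :
    Tendsto (fun n => U n (1 / (2 * C) * (L n * Real.log (1 / L n)))) atTop (𝓝 1) := by
  have h1 := log_inv_large hL0 hL
  have h2 := (w_small hL).const_mul (1 / (2 * C))
  rw [mul_zero] at h2
  have hw : Tendsto L atTop (𝓝[>] 0) := tendsto_nhdsWithin_iff.mpr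
    ⟨hL, Filter.Eventually.of_forall hL0⟩
  -- `√L log (1/L) → 0`
  have h4 : Tendsto (fun n => Real.log (1 / L n) * L n ^ (1/2 : ℝ)) atTop (𝓝[>] 0) := by
    rw [tendsto_nhdsWithin_iff]
    constructor
    · have h5 := (tendsto_log_mul_rpow_nhdsGT_zero (show (0:ℝ) < 1/2 by norm_num)).comp hw
      have h6 := h5.neg
      rw [neg_zero] at h6
      refine h6.congr (fun n => ?_)
      simp only [Function.comp_apply]
      rw [one_div (L n), Real.log_inv]
      ring
    · filter_upwards [h1.eventually_ge_atTop 1] with n k1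
      have := hL0 n
      show 0 < Real.log (1 / L n) * L n ^ (1/2 : ℝ)
      have h7 : 0 < L n ^ (1/2 : ℝ) := Real.rpow_pos_of_pos this _
      nlinarith
  have h8 : Tendsto (fun n => 2 * C * c * (Real.log (1 / L n) * L n ^ (1/2 : ℝ))⁻¹) atTop atTop :=
    (tendsto_inv_nhdsGT_zero.comp h4).const_mul_atTop (by positivity)
  have h9 : Tendsto (fun n => 1 - Real.exp
      (-(2 * C * c * (Real.log (1 / L n) * L n ^ (1/2 : ℝ))⁻¹))) atTop (𝓝 1) := by
    have := (Real.tendsto_exp_neg_atTop_nhds_zero.comp h8).const_sub 1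
    rw [sub_zero] at this
    exact this
  refine tendsto_of_tendsto_of_tendsto_of_le_of_le' h9 tendsto_const_nhds ?_
    (Filter.Eventually.of_forall fun n => hU1 n _)
  filter_upwards [h1.eventually_ge_atTop 1, h1.eventually_ge_atTop (2 * C / κ),
    h2.eventually_lt_const hε1] with n k1 k2 k3
  obtain ⟨l, hl⟩ : ∃ l, l = Real.log (1 / L n) := ⟨_, rfl⟩
  rw [← hl] at k1 k2 k3 ⊢
  have hLn := hL0 n
  have hε : 0 < 1 / (2 * C) * (L n * l) := by positivity
  refine le_trans ?_ (h n _ hε k3.le ?_)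
  · apply sub_le_sub_left
    apply Real.exp_le_exp.mpr
    apply neg_le_neg
    have e1 : C * (1 / (2 * C) * (L n * l) / L n) = l / 2 := by field_simp
    have e2 : Real.exp (-(l / 2)) = L n ^ (1/2 : ℝ) := by
      rw [Real.rpow_def_of_pos hLn]
      congr 1
      rw [hl, one_div, Real.log_inv]
      ring
    rw [e1, e2]
    have h7 : 0 < L n ^ (1/2 : ℝ) := Real.rpow_pos_of_pos hLn _
    have e4 : L n = L n ^ (1/2 : ℝ) * L n ^ (1/2 : ℝ) := by
      rw [← Real.rpow_add hLn]; norm_num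
    obtain ⟨r, hr⟩ : ∃ r, r = L n ^ (1/2 : ℝ) := ⟨_, rfl⟩
    rw [← hr] at e4 h7 ⊢
    rw [e4]
    apply le_of_eq
    field_simp
  · have : 2 * C / κ * (κ / (2 * C) * L n) ≤ l * (κ / (2 * C) * L n) :=
      mul_le_mul_of_nonneg_right k2 (by positivity)
    have e1 : 2 * C / κ * (κ / (2 * C) * L n) = L n := by field_simp
    have e2 : κ * (1 / (2 * C) * (L n * l)) = l * (κ / (2 * C) * L n) := by ring
    rw [e2]
    linarith

/-- The event that the distance is between two numbers. -/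
theorem between {ν : ℕ → ProbabilityMeasure (NonemptyCompacts ℂ)} {K0 : NonemptyCompacts ℂ}
    {a b : ℕ → ℝ}
    (h0 : Tendsto (fun n => (ν n : Measure (NonemptyCompacts ℂ)).real {K | b n ≤ dist K K0})
      atTop (𝓝 0))
    (h1 : Tendsto (fun n => (ν n : Measure (NonemptyCompacts ℂ)).real {K | a n ≤ dist K K0})
      atTop (𝓝 1)) :
    Tendsto (fun n => (ν n : Measure (NonemptyCompacts ℂ)).real
      {K | a n ≤ dist K K0 ∧ dist K K0 ≤ b n}) atTop (𝓝 1) := by
  have h2 := h1.sub h0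
  rw [sub_zero] at h2
  refine tendsto_of_tendsto_of_tendsto_of_le_of_le h2 tendsto_const_nhds ?_
    (fun n => measureReal_le_one)
  intro n
  have hsub : {K : NonemptyCompacts ℂ | a n ≤ dist K K0} ⊆
      {K | a n ≤ dist K K0 ∧ dist K K0 ≤ b n} ∪ {K | b n ≤ dist K K0} := by
    intro K hK
    rcases le_total (dist K K0) (b n) with h | h
    · exact Or.inl ⟨hK, h⟩
    · exact Or.inr h
  have h3 := measureReal_mono (μ := (ν n : Measure (NonemptyCompacts ℂ))) hsub
    (measure_ne_top _ _)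
  have h4 := measureReal_union_le (μ := (ν n : Measure (NonemptyCompacts ℂ)))
    {K | a n ≤ dist K K0 ∧ dist K K0 ≤ b n} {K | b n ≤ dist K K0}
  linarith

/-- **The width above the critical point.** -/
theorem width_dual (R : Rect) : ∃ c C : ℝ, 0 < c ∧ 0 < C ∧ ∀ (δ : ℕ → ℝ) (hδ : ∀ n, 0 < δ n)
    (p : ℕ → I), (∀ n, 1/2 < (p n : ℝ) ∧ (p n : ℝ) ≤ 3/4) →
    ∀ L : ℕ → ℝ, (∀ n, L n = δ n / ((p n : ℝ) - 1/2) ^ (4/3 : ℝ)) → Tendsto L atTop (𝓝 0) →
    Tendsto (fun n => (law R (hδ n) (fun _ => p n) : Measure (NonemptyCompacts ℂ)).real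
      {K | c * (L n * Real.log (1 / L n)) ≤ dist K (dArcK R) ∧
        dist K (dArcK R) ≤ C * (L n * Real.log (1 / L n))}) atTop (𝓝 1) := by
  obtain ⟨ε1, κ1, c1, C1, hε1, hκ1, hc1, hC1, hup⟩ := up_dual R
  obtain ⟨ε2, κ2, c2, C2, hε2, hκ2, hc2, hC2, hlo⟩ := lo_dual R
  refine ⟨1 / (2 * C2), 3 / c1, by positivity, by positivity, ?_⟩
  intro δ hδ p hp L hL hlim
  have hx : ∀ n, 0 < ((p n : ℝ) - 1/2) ^ (4/3 : ℝ) := fun n =>
    Real.rpow_pos_of_pos (by linarith [(hp n).1]) _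
  have hx1 : ∀ n, ((p n : ℝ) - 1/2) ^ (4/3 : ℝ) ≤ 1 := fun n =>
    Real.rpow_le_one (by linarith [(hp n).1]) (by linarith [(hp n).2]) (by norm_num)
  have hL0 : ∀ n, 0 < L n := fun n => by rw [hL]; exact div_pos (hδ n) (hx n)
  have hδL : ∀ n, δ n ≤ L n := fun n => by
    rw [hL, le_div_iff₀ (hx n)]
    have := mul_le_mul_of_nonneg_left (hx1 n) (hδ n).le
    linarith
  have hrw : ∀ n (ε : ℝ), ε * ((p n : ℝ) - 1/2) ^ (4/3 : ℝ) / δ n = ε / L n := by
    intro n ε
    rw [hL]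
    have h1 := (hx n).ne'
    have h2 := (hδ n).ne'
    field_simp
  apply between
  · exact tail_zero hL0 hlim hε1 hκ1 hc1 hC1 (U := fun n ε =>
      (law R (hδ n) (fun _ => p n) : Measure (NonemptyCompacts ℂ)).real
        {K | ε ≤ dist K (dArcK R)}) (fun n ε => measureReal_nonneg) (by
      intro n ε h0 h1 h2
      have := hup ε (δ n) (hδ n) h0 h1 ((hδL n).trans h2) (p n) (hp n).1.le (p n).2.2
      rw [hrw] at this
      refine le_trans (le_of_eq ?_) this
      exact real_law R (hδ n) (fun _ => p n) (closed_far (dArcK R) ε))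
  · exact tail_one hL0 hlim hε2 hκ2 hc2 hC2 (U := fun n ε =>
      (law R (hδ n) (fun _ => p n) : Measure (NonemptyCompacts ℂ)).real
        {K | ε ≤ dist K (dArcK R)}) (fun n ε => measureReal_le_one) (by
      intro n ε h0 h1 h2
      have := hlo ε (δ n) (hδ n) h0 h1 ((hδL n).trans h2) (p n) (hp n).1.le (hp n).2
      rw [hrw] at this
      refine this.trans (le_of_eq ?_)
      exact (real_law R (hδ n) (fun _ => p n) (closed_far (dArcK R) ε)).symm)

/-- **The width below the critical point.** -/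
theorem width_prim (R : Rect) : ∃ c C : ℝ, 0 < c ∧ 0 < C ∧ ∀ (δ : ℕ → ℝ) (hδ : ∀ n, 0 < δ n)
    (p : ℕ → I), (∀ n, 1/4 ≤ (p n : ℝ) ∧ (p n : ℝ) < 1/2) →
    ∀ L : ℕ → ℝ, (∀ n, L n = δ n / (1/2 - (p n : ℝ)) ^ (4/3 : ℝ)) → Tendsto L atTop (𝓝 0) →
    Tendsto (fun n => (law R (hδ n) (fun _ => p n) : Measure (NonemptyCompacts ℂ)).real
      {K | c * (L n * Real.log (1 / L n)) ≤ dist K (wArcK R) ∧
        dist K (wArcK R) ≤ C * (L n * Real.log (1 / L n))}) atTop (𝓝 1) := by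
  obtain ⟨ε1, κ1, c1, C1, hε1, hκ1, hc1, hC1, hup⟩ := up_prim R
  obtain ⟨ε2, κ2, c2, C2, hε2, hκ2, hc2, hC2, hlo⟩ := lo_prim R
  refine ⟨1 / (2 * C2), 3 / c1, by positivity, by positivity, ?_⟩
  intro δ hδ p hp L hL hlim
  have hx : ∀ n, 0 < (1/2 - (p n : ℝ)) ^ (4/3 : ℝ) := fun n =>
    Real.rpow_pos_of_pos (by linarith [(hp n).2]) _
  have hx1 : ∀ n, (1/2 - (p n : ℝ)) ^ (4/3 : ℝ) ≤ 1 := fun n =>
    Real.rpow_le_one (by linarith [(hp n).2]) (by linarith [(hp n).1]) (by norm_num)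
  have hL0 : ∀ n, 0 < L n := fun n => by rw [hL]; exact div_pos (hδ n) (hx n)
  have hδL : ∀ n, δ n ≤ L n := fun n => by
    rw [hL, le_div_iff₀ (hx n)]
    have := mul_le_mul_of_nonneg_left (hx1 n) (hδ n).le
    linarith
  have hrw : ∀ n (ε : ℝ), ε * (1/2 - (p n : ℝ)) ^ (4/3 : ℝ) / δ n = ε / L n := by
    intro n ε
    rw [hL]
    have h1 := (hx n).ne'
    have h2 := (hδ n).ne'
    field_simp
  apply between
  · exact tail_zero hL0 hlim hε1 hκ1 hc1 hC1 (U := fun n ε =>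
      (law R (hδ n) (fun _ => p n) : Measure (NonemptyCompacts ℂ)).real
        {K | ε ≤ dist K (wArcK R)}) (fun n ε => measureReal_nonneg) (by
      intro n ε h0 h1 h2
      have := hup ε (δ n) (hδ n) h0 h1 ((hδL n).trans h2) (p n) (p n).2.1 (hp n).2.le
      rw [hrw] at this
      refine le_trans (le_of_eq ?_) this
      exact real_law R (hδ n) (fun _ => p n) (closed_far (wArcK R) ε))
  · exact tail_one hL0 hlim hε2 hκ2 hc2 hC2 (U := fun n ε =>
      (law R (hδ n) (fun _ => p n) : Measure (NonemptyCompacts ℂ)).real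
        {K | ε ≤ dist K (wArcK R)}) (fun n ε => measureReal_le_one) (by
      intro n ε h0 h1 h2
      have := hlo ε (δ n) (hδ n) h0 h1 ((hδL n).trans h2) (p n) (hp n).1 (hp n).2.le
      rw [hrw] at this
      refine this.trans (le_of_eq ?_)
      exact (real_law R (hδ n) (fun _ => p n) (closed_far (wArcK R) ε)).symm)

end K3h14.NC
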