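import Pool.Agent.K3h14.NC.Width3

/-!
The width of the path off the critical point: assembly.
-/

set_option maxHeartbeats 1000000

namespace K3h14.NC

open H974 H973 H12S H934E Finset TH291.NW TopologicalSpace MeasureTheory ProbabilityTheory
open Filter Topology unitInterval

theorem lower_mono {c c' C C' ε y : ℝ} (hc : c ≤ c') (hC : C' ≤ C) (hc0 : 0 < c)
    (hε : 0 < ε) (hy : 0 ≤ y) :
    1 - Real.exp (-(c / ε * Real.exp (-(C * y)))) ≤
      1 - Real.exp (-(c' / ε * Real.exp (-(C' * y)))) := by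
  apply sub_le_sub_left
  apply Real.exp_le_exp.mpr
  apply neg_le_neg
  apply mul_le_mul (div_le_div_of_nonneg_right hc hε.le) _ (Real.exp_pos _).le
    (div_nonneg (hc0.le.trans hc) hε.le)
  apply Real.exp_le_exp.mpr
  have := mul_le_mul_of_nonneg_right hC hy
  linarith

theorem upper_mono {c c' C C' ε y : ℝ} (hc : c ≤ c') (hC : C' ≤ C) (hC0 : 0 < C)
    (hy : 0 ≤ y) :
    C' / ε ^ 2 * Real.exp (-(c' * y)) ≤ C / ε ^ 2 * Real.exp (-(c * y)) := by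
  apply mul_le_mul (div_le_div_of_nonneg_right hC (sq_nonneg _)) _ (Real.exp_pos _).le
    (div_nonneg hC0.le (sq_nonneg _))
  apply Real.exp_le_exp.mpr
  have := mul_le_mul_of_nonneg_right hc hy
  linarith

/-- Monotonicity in the constants of the width. -/
theorem between_mono {ν : ℕ → ProbabilityMeasure (NonemptyCompacts ℂ)} {K0 : NonemptyCompacts ℂ}
    {w : ℕ → ℝ} {c c' C C' : ℝ} (hw : ∀ᶠ n in atTop, 0 ≤ w n) (hc : c ≤ c') (hC : C' ≤ C)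
    (h : Tendsto (fun n => (ν n : Measure (NonemptyCompacts ℂ)).real
      {K | c' * w n ≤ dist K K0 ∧ dist K K0 ≤ C' * w n}) atTop (𝓝 1)) :
    Tendsto (fun n => (ν n : Measure (NonemptyCompacts ℂ)).real
      {K | c * w n ≤ dist K K0 ∧ dist K K0 ≤ C * w n}) atTop (𝓝 1) := by
  refine tendsto_of_tendsto_of_tendsto_of_le_of_le' h tendsto_const_nhds ?_
    (Filter.Eventually.of_forall fun n => measureReal_le_one)
  filter_upwards [hw] with n hn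
  apply measureReal_mono _ (measure_ne_top _ _)
  rintro K ⟨h1, h2⟩
  exact ⟨(mul_le_mul_of_nonneg_right hc hn).trans h1, h2.trans (mul_le_mul_of_nonneg_right hC hn)⟩

theorem w_nonneg {L : ℕ → ℝ} (hL0 : ∀ n, 0 < L n) (hL : Tendsto L atTop (𝓝 0)) :
    ∀ᶠ n in atTop, 0 ≤ L n * Real.log (1 / L n) := by
  filter_upwards [(log_inv_large hL0 hL).eventually_ge_atTop 0] with n hn
  exact mul_nonneg (hL0 n).le hn

theorem width_all (R : Rect) : ∃ c C : ℝ, 0 < c ∧ 0 < C ∧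
    (∀ (δ : ℝ) (hδ : 0 < δ) (ε : ℝ), C * δ ≤ ε → ε ≤ c → ∀ p : I,
      (1/2 ≤ (p:ℝ) → (p:ℝ) ≤ 3/4 →
        1 - Real.exp (-(c / ε * Real.exp (-(C * (ε * ((p:ℝ) - 1/2) ^ (4/3 : ℝ) / δ))))) ≤
          (law R hδ (fun _ => p) : Measure (NonemptyCompacts ℂ)).real
            {K | ε ≤ dist K (dArcK R)} ∧
        (law R hδ (fun _ => p) : Measure (NonemptyCompacts ℂ)).real
            {K | ε ≤ dist K (dArcK R)} ≤
          C / ε ^ 2 * Real.exp (-(c * (ε * ((p:ℝ) - 1/2) ^ (4/3 : ℝ) / δ)))) ∧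
      (1/4 ≤ (p:ℝ) → (p:ℝ) ≤ 1/2 →
        1 - Real.exp (-(c / ε * Real.exp (-(C * (ε * (1/2 - (p:ℝ)) ^ (4/3 : ℝ) / δ))))) ≤
          (law R hδ (fun _ => p) : Measure (NonemptyCompacts ℂ)).real
            {K | ε ≤ dist K (wArcK R)} ∧
        (law R hδ (fun _ => p) : Measure (NonemptyCompacts ℂ)).real
            {K | ε ≤ dist K (wArcK R)} ≤
          C / ε ^ 2 * Real.exp (-(c * (ε * (1/2 - (p:ℝ)) ^ (4/3 : ℝ) / δ))))) ∧
    (∀ (δ : ℕ → ℝ) (hδ : ∀ n, 0 < δ n) (p : ℕ → I) (L : ℕ → ℝ), Tendsto L atTop (𝓝 0) →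
      ((∀ n, 1/2 < (p n : ℝ) ∧ (p n : ℝ) ≤ 3/4 ∧
          L n = δ n / ((p n : ℝ) - 1/2) ^ (4/3 : ℝ)) →
        Tendsto (fun n => (law R (hδ n) (fun _ => p n) : Measure (NonemptyCompacts ℂ)).real
          {K | c * (L n * Real.log (1 / L n)) ≤ dist K (dArcK R) ∧
            dist K (dArcK R) ≤ C * (L n * Real.log (1 / L n))}) atTop (𝓝 1)) ∧
      ((∀ n, 1/4 ≤ (p n : ℝ) ∧ (p n : ℝ) < 1/2 ∧
          L n = δ n / (1/2 - (p n : ℝ)) ^ (4/3 : ℝ)) →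
        Tendsto (fun n => (law R (hδ n) (fun _ => p n) : Measure (NonemptyCompacts ℂ)).real
          {K | c * (L n * Real.log (1 / L n)) ≤ dist K (wArcK R) ∧
            dist K (wArcK R) ≤ C * (L n * Real.log (1 / L n))}) atTop (𝓝 1))) := by
  obtain ⟨e1, κ1, c1, C1, he1, hκ1, hc1, hC1, h1⟩ := up_dual R
  obtain ⟨e2, κ2, c2, C2, he2, hκ2, hc2, hC2, h2⟩ := lo_dual R
  obtain ⟨e3, κ3, c3, C3, he3, hκ3, hc3, hC3, h3⟩ := up_prim R
  obtain ⟨e4, κ4, c4, C4, he4, hκ4, hc4, hC4, h4⟩ := lo_prim R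
  obtain ⟨c5, C5, hc5, hC5, h5⟩ := width_dual R
  obtain ⟨c6, C6, hc6, hC6, h6⟩ := width_prim R
  -- the constants
  have hmin : ∀ a b : ℝ, 0 < a → 0 < b → ∃ c, 0 < c ∧ c ≤ a ∧ c ≤ b := fun a b ha hb =>
    ⟨min a b, lt_min ha hb, min_le_left _ _, min_le_right _ _⟩
  have hmax : ∀ a b : ℝ, ∃ c, a ≤ c ∧ b ≤ c := fun a b => ⟨max a b, le_max_left _ _,
    le_max_right _ _⟩
  obtain ⟨m1, hm1, a1, b1⟩ := hmin e1 e2 he1 he2
  obtain ⟨m2, hm2, a2, b2⟩ := hmin e3 e4 he3 he4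
  obtain ⟨m3, hm3, a3, b3⟩ := hmin m1 m2 hm1 hm2
  obtain ⟨m4, hm4, a4, b4⟩ := hmin c1 c2 hc1 hc2
  obtain ⟨m5, hm5, a5, b5⟩ := hmin c3 c4 hc3 hc4
  obtain ⟨m6, hm6, a6, b6⟩ := hmin m4 m5 hm4 hm5
  obtain ⟨m7, hm7, a7, b7⟩ := hmin c5 c6 hc5 hc6
  obtain ⟨m8, hm8, a8, b8⟩ := hmin m3 m6 hm3 hm6
  obtain ⟨c, hc, a9, b9⟩ := hmin m7 m8 hm7 hm8
  obtain ⟨M1, A1, B1⟩ := hmax C1 C2
  obtain ⟨M2, A2, B2⟩ := hmax C3 C4
  obtain ⟨M3, A3, B3⟩ := hmax M1 M2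
  obtain ⟨M4, A4, B4⟩ := hmax (1 / κ1) (1 / κ2)
  obtain ⟨M5, A5, B5⟩ := hmax (1 / κ3) (1 / κ4)
  obtain ⟨M6, A6, B6⟩ := hmax M4 M5
  obtain ⟨M7, A7, B7⟩ := hmax C5 C6
  obtain ⟨M8, A8, B8⟩ := hmax M3 M6
  obtain ⟨C, A9, B9⟩ := hmax M7 M8
  have hC : 0 < C := by linarith
  have hκ : ∀ {κ δ ε : ℝ}, 0 < κ → 0 < δ → 1 / κ ≤ C → C * δ ≤ ε → δ ≤ κ * ε := by
    intro κ δ ε hκ hδ h h'
    rw [div_le_iff₀ hκ] at h
    have := mul_le_mul_of_nonneg_right h hδ.le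
    have h6 := mul_le_mul_of_nonneg_left h' hκ.le
    linarith
  refine ⟨c, C, hc, hC, ?_, ?_⟩
  · intro δ hδ ε hε1 hε2 p
    have hε : 0 < ε := lt_of_lt_of_le (mul_pos hC hδ) hε1
    refine ⟨fun hp hp1 => ⟨?_, ?_⟩, fun hp hp1 => ⟨?_, ?_⟩⟩
    · have hy : 0 ≤ ε * ((p:ℝ) - 1/2) ^ (4/3 : ℝ) / δ :=
        div_nonneg (mul_nonneg hε.le (Real.rpow_nonneg (by linarith) _)) hδ.le
      refine (lower_mono (c' := c2) (C' := C2) (by linarith) (by linarith) hc hε hy).trans ?_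
      refine (h2 ε δ hδ hε (by linarith) (hκ hκ2 hδ (by linarith) hε1) p hp hp1).trans ?_
      exact le_of_eq (real_law R hδ (fun _ => p) (closed_far (dArcK R) ε)).symm
    · have hy : 0 ≤ ε * ((p:ℝ) - 1/2) ^ (4/3 : ℝ) / δ :=
        div_nonneg (mul_nonneg hε.le (Real.rpow_nonneg (by linarith) _)) hδ.le
      refine le_trans ?_ (upper_mono (c' := c1) (C' := C1) (by linarith) (by linarith) hC hy)
      refine le_trans ?_ (h1 ε δ hδ hε (by linarith) (hκ hκ1 hδ (by linarith) hε1) p hp p.2.2)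
      exact le_of_eq (real_law R hδ (fun _ => p) (closed_far (dArcK R) ε))
    · have hy : 0 ≤ ε * (1/2 - (p:ℝ)) ^ (4/3 : ℝ) / δ :=
        div_nonneg (mul_nonneg hε.le (Real.rpow_nonneg (by linarith) _)) hδ.le
      refine (lower_mono (c' := c4) (C' := C4) (by linarith) (by linarith) hc hε hy).trans ?_
      refine (h4 ε δ hδ hε (by linarith) (hκ hκ4 hδ (by linarith) hε1) p hp hp1).trans ?_
      exact le_of_eq (real_law R hδ (fun _ => p) (closed_far (wArcK R) ε)).symm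
    · have hy : 0 ≤ ε * (1/2 - (p:ℝ)) ^ (4/3 : ℝ) / δ :=
        div_nonneg (mul_nonneg hε.le (Real.rpow_nonneg (by linarith) _)) hδ.le
      refine le_trans ?_ (upper_mono (c' := c3) (C' := C3) (by linarith) (by linarith) hC hy)
      refine le_trans ?_ (h3 ε δ hδ hε (by linarith) (hκ hκ3 hδ (by linarith) hε1) p p.2.1 hp1)
      exact le_of_eq (real_law R hδ (fun _ => p) (closed_far (wArcK R) ε))
  · intro δ hδ p L hL
    constructor
    · intro hp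
      have hL0 : ∀ n, 0 < L n := fun n => by
        rw [(hp n).2.2]
        exact div_pos (hδ n) (Real.rpow_pos_of_pos (by linarith [(hp n).1]) _)
      exact between_mono (w_nonneg hL0 hL) (by linarith) (by linarith)
        (h5 δ hδ p (fun n => ⟨(hp n).1, (hp n).2.1⟩) L (fun n => (hp n).2.2) hL)
    · intro hp
      have hL0 : ∀ n, 0 < L n := fun n => by
        rw [(hp n).2.2]
        exact div_pos (hδ n) (Real.rpow_pos_of_pos (by linarith [(hp n).2.1]) _)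
      exact between_mono (w_nonneg hL0 hL) (by linarith) (by linarith)
        (h6 δ hδ p (fun n => ⟨(hp n).1, (hp n).2.1⟩) L (fun n => (hp n).2.2) hL)

end K3h14.NC
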